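import Mathlib
import Pool.Agent.Y827.LS.BlkA

/-! Two-sided Bessel inequalities for the rough divisor sums, with a free mass condition. -/

set_option autoImplicit false

namespace Pool.Agent.L7h32.CT

open Finset Filter Topology
open Pool.Agent.H410R2 hiding GP GP_prof GP_cut_some GP_cut_none GP_lip gg_pos gg_le_one gg_anti ee_bound ee_nonneg gg_lip LB_gg LB_ee Sums exists_sums yx wx wxi Br sum_GP_none sum_GP_some sum_GP_some_ee sum_GP_some_one sum_GPr_none sum_GPr_some S1_final QI_final S2_final w_abs_le wmax gg ee I1 I2 IE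
open Pool.Agent.H361R2.GM
open Pool.Agent.H362R2.CM
open Pool.Agent.W25.UN
open Pool.Agent.W25.UB
open Pool.Agent.TH899.UG
open Pool.Agent.W804.UBUD
open Pool.Agent.H442R2.KF (Wt)
open Pool.Agent.W23.PL (DW Ev hat xx)
open Pool.Agent.Y827.LS

/-- the two-sided Bessel inequality -/
theorem bessel_abs {I : Type} [DecidableEq I] (S : Finset ℕ) (f : ℕ → ℝ) (hf : ∀ n ∈ S, 0 ≤ f n)
    (μ : ℤ → ℝ) (hμ : ∀ n, 0 ≤ μ n) (hfμ : ∀ n ∈ S, f n ≤ 2 * μ n) (s : I → ℤ → ℝ) (J : Finset I)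
    (m V : ℝ) (hs : Summable (fun n => μ n * (∑ j ∈ J, (s j n - m)) ^ 2))
    (hV : ∑' n, μ n * (∑ j ∈ J, (s j n - m)) ^ 2 ≤ V) :
    |∑ n ∈ S, f n * ∑ j ∈ J, s j n - J.card * m * (∑ n ∈ S, f n)| ≤
      Real.sqrt (2 * (∑ n ∈ S, f n) * V) := by
  have h1 := bessel S f hf μ hμ hfμ s J m V hs hV
  have e : ∀ n : ℤ, μ n * (∑ j ∈ J, (-s j n - -m)) ^ 2 = μ n * (∑ j ∈ J, (s j n - m)) ^ 2 := by
    intro n
    have e1 : ∑ j ∈ J, (-s j n - -m) = -∑ j ∈ J, (s j n - m) := by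
      rw [← Finset.sum_neg_distrib]
      exact Finset.sum_congr rfl fun j _ => by ring
    rw [e1, neg_sq]
  have h2 := bessel S f hf μ hμ hfμ (fun j n => -s j n) J (-m) V (hs.congr fun n => (e n).symm) (by
    rw [tsum_congr e]
    exact hV)
  have e2 : ∑ n ∈ S, f n * ∑ j ∈ J, -s j n = -∑ n ∈ S, f n * ∑ j ∈ J, s j n := by
    rw [← Finset.sum_neg_distrib]
    refine Finset.sum_congr rfl fun n _ => ?_
    rw [Finset.sum_neg_distrib, mul_neg]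
  rw [e2] at h2
  rw [abs_le]
  constructor <;> linarith

theorem sqrt_mass {F m0 Λ v0 : ℝ} (hF : 0 ≤ F) (hv : 0 ≤ v0) (hm : m0 ≤ Λ * F) :
    Real.sqrt (2 * F * (m0 * v0)) ≤ Real.sqrt (2 * Λ * v0) * F := by
  have h1 : 2 * F * (m0 * v0) ≤ F ^ 2 * (2 * Λ * v0) := by
    calc 2 * F * (m0 * v0) ≤ 2 * F * ((Λ * F) * v0) := by gcongr
      _ = _ := by ring
  calc Real.sqrt (2 * F * (m0 * v0)) ≤ Real.sqrt (F ^ 2 * (2 * Λ * v0)) := Real.sqrt_le_sqrt h1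
    _ = _ := by rw [Real.sqrt_mul (sq_nonneg _), Real.sqrt_sq hF, mul_comm]

/-- the variance of the small sieve part -/
theorem pairV {T K : ℕ} {Q : SPar} {α h : Fin (T * K) → ℤ} {ε₁ ρ ρ₁ ε : ℝ}
    {Mo A E₁ D B N v D₁ : ℕ} {Tr : ℤ → ℝ} {t : ℝ} {th dl : ℕ → ℝ}
    (h0 : St_U0F) (h1 : St_L1F) (h2 : St_U2F) (hd : St_UDF)
    (hI1 : ε < Q.I1) (hI2 : ε < Q.I2) (hBr2 : 0 < Br2 Q (T * K) ε)
    (H : DatB Q α h Mo ε₁ ρ ρ₁ ε A E₁ D B N v D₁ Tr t th dl)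
    (β₀ : ℝ) (hβ0 : 0 ≤ β₀) (hβ1 : β₀ ≤ 1) (g0 : ℝ) (hggle : β₀ * gB α h Mo N B ε₁ ρ ≤ g0)
    (i : Fin (T * K)) (J : Finset (Fin (T * K))) (hJ : i ∉ J) (hJK : J.card ≤ K) :
    Summable (fun n => muF Q α h Mo ρ ρ₁ D B N v Tr i n *
      (∑ j ∈ J, (β₀ * FF α h Mo ε₁ B N j n -
        β₀ * gB α h Mo N B ε₁ ρ * (Q.I1 ^ 2 / Q.I2))) ^ 2) ∧
    ∑' n, muF Q α h Mo ρ ρ₁ D B N v Tr i n *
      (∑ j ∈ J, (β₀ * FF α h Mo ε₁ B N j n -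
        β₀ * gB α h Mo N B ε₁ ρ * (Q.I1 ^ 2 / Q.I2))) ^ 2 ≤
      MMF α h Mo D N B ρ * (K * (2 * (g0 * udc Q (T * K) ε₁ ε)) +
        (K : ℝ) ^ 2 * g0 ^ 2 * qc Q (T * K) ε₁ ε) := by
  have hε := H.ε0
  have hI1p : 0 < Q.I1 := hε.trans hI1
  have hI2p : 0 < Q.I2 := hε.trans hI2
  have h1ε : 0 < 1 - ε := by linarith [H.ε3]
  have hε₁ := H.e10
  have hρ := H.ρ0
  set g' : ℝ := gB α h Mo N B ε₁ ρ with hg'
  have hgp' : 0 < g' := gB_pos H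
  set g : ℝ := β₀ * g' with hg
  have hgp : 0 ≤ g := by positivity
  have hg0p : 0 ≤ g0 := hgp.trans hggle
  have hMM : 0 < MMF α h Mo D N B ρ := MMF_pos H
  set m0 : ℝ := MMF α h Mo D N B ρ with hm0
  have hudc : 0 ≤ udc Q (T * K) ε₁ ε := by unfold udc; positivity
  have hu2c : 0 ≤ u2c Q (T * K) ε₁ ε := by unfold u2c; positivity
  set τ : ℝ := Q.I1 ^ 2 / Q.I2 with hτ
  have hτp : 0 < τ := by positivity
  have hqc : 0 ≤ qc Q (T * K) ε₁ ε := le_max_left _ _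
  have hqc' : u2c Q (T * K) ε₁ ε - 2 * τ * l1c Q (T * K) ε₁ ε +
      τ ^ 2 * r0c Q (T * K) ε ≤ qc Q (T * K) ε₁ ε := le_max_right _ _
  have hvg : vGF α h Mo N B 1 ε₁ * bb N B ρ = g' := rfl
  obtain ⟨hmu0, hsμ, hU0⟩ := h0 (T * K) Q α h Mo (-2) ε₁ ρ ρ₁ ε 1 1 A E₁ D B N v D₁ 1 Tr t th dl dlt
    hI1p hI2p H i
  have hne : ∀ j ∈ J, i ≠ j := fun j hj hij => hJ (hij ▸ hj)
  have hL1 := fun j (hj : j ∈ J) => h1 (T * K) Q α h Mo (-2) ε₁ ρ ρ₁ ε 1 1 A E₁ D B N v D₁ 1 Tr t th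
    dl dlt hI1p hI2p hI1 hI2 hBr2 H i j (hne j hj)
  have hU2 := fun j (hj : j ∈ J) l (hl : l ∈ J) (hjl : j ≠ l) => h2 (T * K) Q α h Mo (-2) ε₁ ρ ρ₁ ε 1
    1 A E₁ D B N v D₁ 1 Tr t th dl dlt hI1p hI2p H i j l (hne j hj) (hne l hl) hjl
  have hUD := fun j (hj : j ∈ J) => hd (T * K) Q α h Mo (-2) ε₁ ρ ρ₁ ε 1 1 A E₁ D B N v D₁ 1 Tr t th
    dl dlt hI1p hI2p H i j (hne j hj)
  simp only [sjF_dlt] at hL1 hU2 hUD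
  rw [hvg] at hL1 hU2 hUD
  set s : Fin (T * K) → ℤ → ℝ := fun j n => β₀ * FF α h Mo ε₁ B N j n with hs
  have e1 : ∀ j n, muF Q α h Mo ρ ρ₁ D B N v Tr i n * s j n =
      β₀ * (muF Q α h Mo ρ ρ₁ D B N v Tr i n * FF α h Mo ε₁ B N j n) := by
    intro j n
    rw [hs]
    ring
  have e2 : ∀ j l n, muF Q α h Mo ρ ρ₁ D B N v Tr i n * (s j n * s l n) =
      β₀ ^ 2 * (muF Q α h Mo ρ ρ₁ D B N v Tr i n *
        (FF α h Mo ε₁ B N j n * FF α h Mo ε₁ B N l n)) := by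
    intro j l n
    rw [hs]
    ring
  have e3 : ∀ j n, muF Q α h Mo ρ ρ₁ D B N v Tr i n * s j n ^ 2 =
      β₀ ^ 2 * (muF Q α h Mo ρ ρ₁ D B N v Tr i n * FF α h Mo ε₁ B N j n ^ 2) := by
    intro j n
    rw [hs]
    ring
  have hβ2 : β₀ ^ 2 ≤ β₀ := by nlinarith
  obtain ⟨hsV, hV'⟩ := tsum_centred (muF Q α h Mo ρ ρ₁ D B N v Tr i)
    s J (g * τ) (m0 * r0c Q (T * K) ε)
    (m0 * g * l1c Q (T * K) ε₁ ε) (m0 * g ^ 2 * u2c Q (T * K) ε₁ ε)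
    (2 * (m0 * g * udc Q (T * K) ε₁ ε)) (by positivity) (by positivity) hsμ
    hU0 (fun j hj => by
      simp only [e1]
      exact (hL1 j hj).1.mul_left _) (fun j hj => by
      simp only [e1]
      rw [tsum_mul_left]
      calc m0 * g * l1c Q (T * K) ε₁ ε = β₀ * (m0 * g' * l1c Q (T * K) ε₁ ε) := by rw [hg]; ring
        _ ≤ _ := mul_le_mul_of_nonneg_left (hL1 j hj).2 hβ0)
    (fun j hj => by
      simp only [e3]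
      exact (hUD j hj).1.mul_left _) (fun j hj => by
      simp only [e3]
      rw [tsum_mul_left]
      have h4 := (hUD j hj).2
      have h5 : 0 ≤ 2 * 1 * (m0 * g' * udc Q (T * K) ε₁ ε) := by positivity
      calc β₀ ^ 2 * ∑' n : ℤ, muF Q α h Mo ρ ρ₁ D B N v Tr i n * FF α h Mo ε₁ B N j n ^ 2 ≤
          β₀ ^ 2 * (2 * 1 * (m0 * g' * udc Q (T * K) ε₁ ε)) :=
            mul_le_mul_of_nonneg_left h4 (sq_nonneg _)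
        _ ≤ β₀ * (2 * 1 * (m0 * g' * udc Q (T * K) ε₁ ε)) :=
            mul_le_mul_of_nonneg_right hβ2 h5
        _ = _ := by rw [hg]; ring)
    (fun j hj l hl hjl => by
      simp only [e2]
      exact (hU2 j hj l hl hjl).1.mul_left _) (fun j hj l hl hjl => by
      simp only [e2]
      rw [tsum_mul_left]
      have h4 := (hU2 j hj l hl hjl).2
      calc β₀ ^ 2 * ∑' n : ℤ, muF Q α h Mo ρ ρ₁ D B N v Tr i n *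
          (FF α h Mo ε₁ B N j n * FF α h Mo ε₁ B N l n) ≤
          β₀ ^ 2 * (m0 * g' ^ 2 * u2c Q (T * K) ε₁ ε) :=
            mul_le_mul_of_nonneg_left h4 (sq_nonneg _)
        _ = _ := by rw [hg]; ring)
  have hJc : (J.card : ℝ) ≤ K := by exact_mod_cast hJK
  have hJ0 : (0 : ℝ) ≤ J.card := Nat.cast_nonneg _
  set v0 : ℝ := K * (2 * (g0 * udc Q (T * K) ε₁ ε)) +
        (K : ℝ) ^ 2 * g0 ^ 2 * qc Q (T * K) ε₁ ε with hv0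
  have hVb : (J.card : ℝ) * (2 * (m0 * g * udc Q (T * K) ε₁ ε)) +
      (J.card : ℝ) ^ 2 * (m0 * g ^ 2 * u2c Q (T * K) ε₁ ε -
        2 * (g * τ) * (m0 * g * l1c Q (T * K) ε₁ ε) +
        (g * τ) ^ 2 * (m0 * r0c Q (T * K) ε)) ≤ m0 * v0 := by
    have e1 : (J.card : ℝ) * (2 * (m0 * g * udc Q (T * K) ε₁ ε)) ≤
        m0 * (K * (2 * (g0 * udc Q (T * K) ε₁ ε))) := by
      calc (J.card : ℝ) * (2 * (m0 * g * udc Q (T * K) ε₁ ε)) ≤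
          K * (2 * (m0 * g0 * udc Q (T * K) ε₁ ε)) := by gcongr
        _ = _ := by ring
    have e2 : (J.card : ℝ) ^ 2 * (m0 * g ^ 2 * u2c Q (T * K) ε₁ ε -
        2 * (g * τ) * (m0 * g * l1c Q (T * K) ε₁ ε) +
        (g * τ) ^ 2 * (m0 * r0c Q (T * K) ε)) ≤
        m0 * ((K : ℝ) ^ 2 * g0 ^ 2 * qc Q (T * K) ε₁ ε) := by
      calc (J.card : ℝ) ^ 2 * (m0 * g ^ 2 * u2c Q (T * K) ε₁ ε -
            2 * (g * τ) * (m0 * g * l1c Q (T * K) ε₁ ε) +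
            (g * τ) ^ 2 * (m0 * r0c Q (T * K) ε)) =
          (J.card : ℝ) ^ 2 * (m0 * g ^ 2 * (u2c Q (T * K) ε₁ ε -
            2 * τ * l1c Q (T * K) ε₁ ε + τ ^ 2 * r0c Q (T * K) ε)) := by ring
        _ ≤ (J.card : ℝ) ^ 2 * (m0 * g ^ 2 * qc Q (T * K) ε₁ ε) := by gcongr
        _ ≤ (K : ℝ) ^ 2 * (m0 * g0 ^ 2 * qc Q (T * K) ε₁ ε) := by gcongr
        _ = _ := by ring
    calc _ ≤ m0 * (K * (2 * (g0 * udc Q (T * K) ε₁ ε))) +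
        m0 * ((K : ℝ) ^ 2 * g0 ^ 2 * qc Q (T * K) ε₁ ε) := add_le_add e1 e2
      _ = _ := by rw [hv0]; ring
  exact ⟨hsV, hV'.trans hVb⟩

/-- the pair sum of the small sieve part, two-sided -/
theorem pairG {T K : ℕ} {Q : SPar} {α h : Fin (T * K) → ℤ} {ε₁ ρ ρ₁ ε : ℝ}
    {Mo A E₁ D B N v D₁ : ℕ} {Tr : ℤ → ℝ} {t : ℝ} {th dl : ℕ → ℝ}
    (h0 : St_U0F) (h1 : St_L1F) (h2 : St_U2F) (hd : St_UDF)
    (hI1 : ε < Q.I1) (hI2 : ε < Q.I2) (hBr2 : 0 < Br2 Q (T * K) ε)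
    (H : DatB Q α h Mo ε₁ ρ ρ₁ ε A E₁ D B N v D₁ Tr t th dl)
    (β₀ : ℝ) (hβ0 : 0 ≤ β₀) (hβ1 : β₀ ≤ 1) (g0 : ℝ) (hggle : β₀ * gB α h Mo N B ε₁ ρ ≤ g0)
    (i : Fin (T * K)) (J : Finset (Fin (T * K))) (hJ : i ∉ J) (hJK : J.card ≤ K)
    (S : Finset ℕ) (f : ℕ → ℝ) (hf0 : ∀ n ∈ S, 0 ≤ f n)
    (hf : ∀ n ∈ S, f n ≤ 2 * muF Q α h Mo ρ ρ₁ D B N v Tr i n)
    (Λ : ℝ) (hF : MMF α h Mo D N B ρ ≤ Λ * ∑ n ∈ S, f n) :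
    |∑ n ∈ S, f n * ∑ j ∈ J, β₀ * FF α h Mo ε₁ B N j n -
      J.card * (β₀ * gB α h Mo N B ε₁ ρ * (Q.I1 ^ 2 / Q.I2)) * ∑ n ∈ S, f n| ≤
      Real.sqrt (2 * Λ * (K * (2 * (g0 * udc Q (T * K) ε₁ ε)) +
        (K : ℝ) ^ 2 * g0 ^ 2 * qc Q (T * K) ε₁ ε)) * ∑ n ∈ S, f n := by
  obtain ⟨hsV, hV⟩ := pairV h0 h1 h2 hd hI1 hI2 hBr2 H β₀ hβ0 hβ1 g0 hggle i J hJ hJK
  have hε := H.ε0
  have hε₁ := H.e10
  have h1ε : 0 < 1 - ε := by linarith [H.ε3]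
  have hI1p : 0 < Q.I1 := hε.trans hI1
  have hI2p : 0 < Q.I2 := hε.trans hI2
  have hgp' : 0 < gB α h Mo N B ε₁ ρ := gB_pos H
  have hg0p : 0 ≤ g0 := (by positivity : 0 ≤ β₀ * gB α h Mo N B ε₁ ρ).trans hggle
  have hudc : 0 ≤ udc Q (T * K) ε₁ ε := by unfold udc; positivity
  have hqc : 0 ≤ qc Q (T * K) ε₁ ε := le_max_left _ _
  have hF0 : 0 ≤ ∑ n ∈ S, f n := Finset.sum_nonneg hf0
  have hbes := bessel_abs S f hf0 (muF Q α h Mo ρ ρ₁ D B N v Tr i) (muF_nonneg H i) hf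
    (fun j n => β₀ * FF α h Mo ε₁ B N j n) J (β₀ * gB α h Mo N B ε₁ ρ * (Q.I1 ^ 2 / Q.I2))
    (MMF α h Mo D N B ρ * (K * (2 * (g0 * udc Q (T * K) ε₁ ε)) +
        (K : ℝ) ^ 2 * g0 ^ 2 * qc Q (T * K) ε₁ ε)) hsV hV
  exact hbes.trans (sqrt_mass hF0 (by positivity) hF)

/-- the pair sum of one block, two-sided -/
theorem blkG {k : ℕ} {Q : SPar} {α h : Fin k → ℤ} {ε₁ ρ ρ₁ ε : ℝ} {Mo A E₁ D B N v D₁ : ℕ}
    {Tr : ℤ → ℝ} {t : ℝ} {th dl : ℕ → ℝ} (hNWU : St_NWU) (hNWE : St_NWE)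
    (d : DatB Q α h Mo ε₁ ρ ρ₁ ε A E₁ D B N v D₁ Tr t th dl) (hI1 : 0 < Q.I1) (hI2 : 0 < Q.I2)
    (hsμ : ∀ i : Fin k, Summable (muF Q α h Mo ρ ρ₁ D B N v Tr i))
    (hHB : HB h Mo N) (hnd : Nd α h Mo) {θ η CR κ : ℝ} (hCR : 1 ≤ CR) (hκ : 0 ≤ κ)
    (hdl : |hat dl D₁| ≤ κ * Pool.Agent.W23.PL.VV (PtF α h Mo N B ε₁))
    {Z : ℕ} {c : ℕ → ℝ} (b : BlkC α h Mo ε₁ ρ ρ₁ θ η CR A E₁ D B N v D₁ Tr Z c)
    (hbig : 4 * CR * ((2 * N : ℕ) : ℝ) ^ (η + θ) ≤ ((2 * N : ℕ) : ℝ) / (Real.log N) ^ A)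
    {K : ℕ} (i : Fin k) (J : Finset (Fin k)) (hJ : i ∉ J) (hJK : J.card ≤ K)
    (S : Finset ℕ) (f : ℕ → ℝ) (hf0 : ∀ n ∈ S, 0 ≤ f n)
    (hf : ∀ n ∈ S, f n ≤ 2 * muF Q α h Mo ρ ρ₁ D B N v Tr i n) (G₀ : ℝ)
    (hG₀ : gB α h Mo N B ε₁ ρ ≤ G₀)
    (Λ : ℝ) (hF : MMF α h Mo D N B ρ ≤ Λ * ∑ n ∈ S, f n) :
    |∑ n ∈ S, f n * ∑ j ∈ J, FF α h Mo ε₁ B N j n * dc c Z (Lf α h Mo (some j) n)| ≤
      Real.sqrt (2 * Λ * (K * (4 * CR ^ 2 * (G₀ * udc Q k ε₁ ε)) +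
        (K : ℝ) ^ 2 * G₀ ^ 2 * ofc Q k CR κ ε₁ ε)) * ∑ n ∈ S, f n := by
  obtain ⟨hsV, hV⟩ := blkV hNWU hNWE d hI1 hI2 hsμ hHB hnd hCR hκ hdl b hbig i J hJ
  have hε := d.ε0
  have h1ε : 0 < 1 - ε := by linarith [d.ε3]
  have hε₁ := d.e10
  have hm0 := MMF_pos d
  have hg0 := gB_pos d
  set m0 := MMF α h Mo D N B ρ with hm0d
  set g := gB α h Mo N B ε₁ ρ with hgd
  have hG₀p : 0 < G₀ := hg0.trans_le hG₀
  have hudc : 0 ≤ udc Q k ε₁ ε := by unfold udc; positivity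
  have hofc : 0 ≤ ofc Q k CR κ ε₁ ε := by unfold ofc u2c; positivity
  have hJc : (J.card : ℝ) ≤ K := by exact_mod_cast hJK
  set v0 : ℝ := K * (4 * CR ^ 2 * (G₀ * udc Q k ε₁ ε)) +
        (K : ℝ) ^ 2 * G₀ ^ 2 * ofc Q k CR κ ε₁ ε with hv0
  have hv0p : 0 ≤ v0 := by positivity
  have hVb : (J.card : ℝ) * (4 * CR ^ 2 * (m0 * g * udc Q k ε₁ ε)) +
      (J.card : ℝ) ^ 2 * (m0 * g ^ 2 * ofc Q k CR κ ε₁ ε) ≤ m0 * v0 := by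
    have e1 : (J.card : ℝ) * (4 * CR ^ 2 * (m0 * g * udc Q k ε₁ ε)) ≤
        m0 * (K * (4 * CR ^ 2 * (G₀ * udc Q k ε₁ ε))) := by
      calc (J.card : ℝ) * (4 * CR ^ 2 * (m0 * g * udc Q k ε₁ ε)) ≤
          K * (4 * CR ^ 2 * (m0 * G₀ * udc Q k ε₁ ε)) := by gcongr
        _ = _ := by ring
    have e2 : (J.card : ℝ) ^ 2 * (m0 * g ^ 2 * ofc Q k CR κ ε₁ ε) ≤
        m0 * ((K : ℝ) ^ 2 * G₀ ^ 2 * ofc Q k CR κ ε₁ ε) := by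
      calc (J.card : ℝ) ^ 2 * (m0 * g ^ 2 * ofc Q k CR κ ε₁ ε) ≤
          (K : ℝ) ^ 2 * (m0 * G₀ ^ 2 * ofc Q k CR κ ε₁ ε) := by gcongr
        _ = _ := by ring
    calc _ ≤ m0 * (K * (4 * CR ^ 2 * (G₀ * udc Q k ε₁ ε))) +
        m0 * ((K : ℝ) ^ 2 * G₀ ^ 2 * ofc Q k CR κ ε₁ ε) := add_le_add e1 e2
      _ = _ := by ring
  have hbes := bessel_abs S f hf0 (muF Q α h Mo ρ ρ₁ D B N v Tr i) (muF_nonneg d i) hf
    (fun j n => FF α h Mo ε₁ B N j n * dc c Z (Lf α h Mo (some j) n)) J 0 (m0 * v0) hsV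
    (hV.trans hVb)
  rw [mul_zero, zero_mul, sub_zero] at hbes
  exact hbes.trans (sqrt_mass (Finset.sum_nonneg hf0) hv0p hF)

end Pool.Agent.L7h32.CT
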