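import Mathlib
import Pool.Agent.Y827.LS.DatL

/-! The density of the rough numbers from below. -/

set_option autoImplicit false

namespace Pool.Agent.L7h32.CT

open Finset Filter Topology
open Pool.Agent.W23.PL (P1)
open Pool.Agent.W23.DC (tt)
open Pool.Agent.H510R2.Maier (QQ QQ_real QQ_pos)

theorem denL (B : ℕ) (ε₁ : ℝ) (hε₁ : 0 < ε₁) (hε₁1 : ε₁ ≤ 1) : ∃ X₀ : ℕ, ∀ X : ℕ, X₀ ≤ X →
    ∀ Cl : Finset ℕ, 1 / (4 * (ε₁ * Real.log X)) ≤
      Pool.Agent.W23.PL.VV (P1 X B ε₁ \ Cl) *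
        Pool.Agent.H410R2.BD (⌈(Real.log X) ^ B⌉₊ - 1) := by
  classical
  have h1 : Tendsto (fun x : ℝ => x ^ ε₁) atTop atTop := tendsto_rpow_atTop hε₁
  have h2 := (QQ_real.comp h1).comp (tendsto_natCast_atTop_atTop (R := ℝ))
  have hlt : Real.exp Real.eulerMascheroniConstant < 4 := by
    have := Pool.Agent.Y827.LS.exp_gamma_lt
    linarith
  have h3 := h2.eventually (gt_mem_nhds hlt)
  have h4 : ∀ᶠ N : ℕ in atTop, 2 ≤ Real.log N :=
    (Real.tendsto_log_atTop.comp (tendsto_natCast_atTop_atTop (R := ℝ))).eventually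
      (eventually_ge_atTop _)
  have h5 : ∀ᶠ N : ℕ in atTop, (Real.log N) ^ B ≤ (N : ℝ) ^ ε₁ := by
    have h0 := isLittleO_log_rpow_rpow_atTop (s := ε₁) B hε₁
    have h6 := (h0.bound one_pos)
    have h7 := (tendsto_natCast_atTop_atTop (R := ℝ)).eventually h6
    filter_upwards [h7, eventually_ge_atTop 1] with N h8 h9
    have hN : (1 : ℝ) ≤ N := by exact_mod_cast h9
    rw [one_mul, Real.norm_eq_abs, Real.norm_eq_abs, Real.rpow_natCast] at h8
    exact (le_abs_self _).trans (h8.trans (abs_of_nonneg (by positivity)).le)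
  obtain ⟨X₀, hX₀⟩ := Filter.eventually_atTop.1 (h3.and (h4.and (h5.and (eventually_ge_atTop 2))))
  refine ⟨X₀, fun X hX Cl => ?_⟩
  obtain ⟨h6, h7, h8, h9⟩ := hX₀ X hX
  simp only [Function.comp_apply] at h6
  have hXr : (2 : ℝ) ≤ X := by exact_mod_cast h9
  have hX0 : (0 : ℝ) < X := by linarith
  have hL0 : 0 < Real.log X := by linarith
  set y : ℝ := (X : ℝ) ^ ε₁ with hy
  have hlogy : Real.log y = ε₁ * Real.log X := by rw [hy, Real.log_rpow hX0]
  rw [hlogy] at h6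
  set S : Finset ℕ := (Icc 1 ⌊y⌋₊).filter Nat.Prime with hS
  set A : Finset ℕ := (Icc 1 (⌈(Real.log X) ^ B⌉₊ - 1)).filter Nat.Prime with hA
  set C : Finset ℕ := P1 X B ε₁ \ Cl with hC
  have hAm : ∀ p, p ∈ A ↔ p.Prime ∧ (p : ℝ) < (Real.log X) ^ B := by
    intro p
    rw [hA, Finset.mem_filter, Finset.mem_Icc]
    have hc : 0 < ⌈(Real.log X) ^ B⌉₊ := Nat.ceil_pos.2 (by positivity)
    constructor
    · rintro ⟨⟨h10, h11⟩, h12⟩
      refine ⟨h12, Nat.lt_ceil.1 (by omega)⟩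
    · rintro ⟨h10, h11⟩
      have := Nat.lt_ceil.2 h11
      exact ⟨⟨h10.one_lt.le, by omega⟩, h10⟩
  have hy1 : 1 ≤ y := Real.one_le_rpow (by linarith) hε₁.le
  have hSm : ∀ p, p ∈ S ↔ p.Prime ∧ (p : ℝ) ≤ y := by
    intro p
    rw [hS, Finset.mem_filter, Finset.mem_Icc]
    constructor
    · rintro ⟨⟨h10, h11⟩, h12⟩
      exact ⟨h12, (Nat.le_floor_iff (by linarith)).1 h11⟩
    · rintro ⟨h10, h11⟩
      exact ⟨⟨h10.one_lt.le, Nat.le_floor h11⟩, h10⟩
  have hCm : ∀ p, p ∈ C → p.Prime ∧ (Real.log X) ^ B ≤ (p : ℝ) ∧ (p : ℝ) < y := by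
    intro p hp
    rw [hC, Finset.mem_sdiff] at hp
    have h10 := hp.1
    unfold P1 at h10
    rw [Finset.mem_filter, Finset.mem_Icc] at h10
    obtain ⟨⟨h11, h12⟩, h13, h14, h15⟩ := h10
    refine ⟨h13, h14, ?_⟩
    unfold tt at h15
    have hp0 : (0 : ℝ) < p := by exact_mod_cast h13.pos
    rw [div_lt_iff₀ hL0, ← hlogy] at h15
    exact (Real.log_lt_log_iff hp0 (by linarith)).1 h15
  have hdisj : Disjoint A C := by
    rw [Finset.disjoint_left]
    intro p hpA hpC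
    have h10 := ((hAm p).1 hpA).2
    have h11 := (hCm p hpC).2.1
    linarith
  have hsub : A ∪ C ⊆ S := by
    intro p hp
    rw [Finset.mem_union] at hp
    rw [hSm]
    rcases hp with hp | hp
    · have h10 := (hAm p).1 hp
      exact ⟨h10.1, by linarith [h10.2]⟩
    · have h10 := hCm p hp
      exact ⟨h10.1, h10.2.2.le⟩
  have hprod : QQ ⌊y⌋₊ ≤ Pool.Agent.W23.PL.VV C *
      Pool.Agent.H410R2.BD (⌈(Real.log X) ^ B⌉₊ - 1) := by
    unfold QQ Pool.Agent.W23.PL.VV Pool.Agent.H410R2.BD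
    rw [← hS, ← hA, ← Finset.prod_sdiff hsub, Finset.prod_union hdisj]
    have h10 : ∏ p ∈ S \ (A ∪ C), (1 - 1 / (p : ℝ)) ≤ 1 := by
      apply Finset.prod_le_one
      · intro p hp
        have h11 := ((hSm p).1 (Finset.mem_sdiff.1 hp).1).1
        have h12 : (1 : ℝ) ≤ p := by exact_mod_cast h11.one_lt.le
        have h13 : 1 / (p : ℝ) ≤ 1 := by rw [div_le_one (by linarith)]; exact h12
        linarith
      · intro p _
        have : (0 : ℝ) ≤ 1 / (p : ℝ) := by positivity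
        linarith
    have h14 : 0 ≤ (∏ p ∈ A, (1 - 1 / (p : ℝ))) * ∏ p ∈ C, (1 - 1 / (p : ℝ)) := by
      apply mul_nonneg
      · apply Finset.prod_nonneg
        intro p hp
        have h11 := ((hAm p).1 hp).1
        have h12 : (1 : ℝ) ≤ p := by exact_mod_cast h11.one_lt.le
        have h13 : 1 / (p : ℝ) ≤ 1 := by rw [div_le_one (by linarith)]; exact h12
        linarith
      · apply Finset.prod_nonneg
        intro p hp
        have h11 := (hCm p hp).1
        have h12 : (1 : ℝ) ≤ p := by exact_mod_cast h11.one_lt.le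
        have h13 : 1 / (p : ℝ) ≤ 1 := by rw [div_le_one (by linarith)]; exact h12
        linarith
    calc _ ≤ 1 * ((∏ p ∈ A, (1 - 1 / (p : ℝ))) * ∏ p ∈ C, (1 - 1 / (p : ℝ))) :=
          mul_le_mul_of_nonneg_right h10 h14
      _ = _ := by ring
  have hQp := QQ_pos ⌊y⌋₊
  refine le_trans ?_ hprod
  have h10 : 0 < ε₁ * Real.log X := by positivity
  rw [div_lt_iff₀ h10] at h6
  have h11 := mul_lt_mul_of_pos_left h6 hQp
  rw [mul_inv_cancel₀ hQp.ne'] at h11
  rw [div_le_iff₀ (by positivity)]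
  linarith

end Pool.Agent.L7h32.CT
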