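import Mathlib
import Pool.Agent.Y827.LS.Stm
import Pool.Agent.Y827.LS.Lsm
import Pool.Agent.Y822.Lin

/-! Coefficients of a lower bound weighted sieve of level `111 / 200` which detects the numbers with at most
two prime factors. -/

set_option autoImplicit false

namespace Pool.Agent.L7h32.CT

open Finset Filter Topology
open Pool.Agent.W23.DC (tt pr LL MM Siz Mer SF facR mem_pr siz cw cw_nonneg cw_le Wf Wf_ge ind ta za Lv
  mem_EE ta_pos ta_le WFac EE FacO)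
open Pool.Agent.W25.UB (ds)
open Pool.Agent.Y822.Lin (LL_smul inv_mul one_div_le_g mer_of)

section
variable {P : Finset ℕ} {t : ℕ → ℝ}

theorem LL_zero' (hS : Siz P t) (r : ℕ → ℝ) (k : ℕ) (b : Bool) (τ ζ : ℝ) (d : ℕ) (hτ : 0 ≤ τ)
    (hb : b = false → 2 * ζ ≤ τ) (hr : ∀ e ∈ EE P t τ ζ, r (d * e) = 0) :
    LL P t r k b τ ζ d = 0 := by
  have h := Pool.Agent.W586.DC.ER P t hS r k b τ ζ d hτ hb
  have h2 : ∑ e ∈ EE P t τ ζ, |r (d * e)| = 0 := by
    apply Finset.sum_eq_zero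
    intro e he
    rw [hr e he, abs_zero]
  rw [h2] at h
  exact abs_eq_zero.1 (le_antisymm h (abs_nonneg _))

/-- linearity -/
theorem LL_lin (hS : Siz P t) (r : ℕ → ℝ) (k : ℕ) (b : Bool) (τ ζ : ℝ) (d : ℕ) (hτ : 0 ≤ τ)
    (hb : b = false → 2 * ζ ≤ τ) (Z : ℕ) (hZ : ∀ e ∈ EE P t τ ζ, d * e ∈ Icc 1 Z) :
    LL P t r k b τ ζ d =
      ∑ e ∈ Icc 1 Z, LL P t (fun x => if x = e then 1 else 0) k b τ ζ d * r e := by
  have h1 := Pool.Agent.W120.DC.LN.1 P t (Icc 1 Z) (fun a e => r a * (if e = a then 1 else 0)) k b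
    τ ζ d
  have h3 := Pool.Agent.W120.DC.LN.2.1 P t 1
    (fun e => ∑ a ∈ Icc 1 Z, r a * (if e = a then (1 : ℝ) else 0))
    (fun e => if e ∈ Icc 1 Z then 0 else r e) k b τ ζ d
  have h4 : (fun e => 1 * (∑ a ∈ Icc 1 Z, r a * (if e = a then (1 : ℝ) else 0)) +
      (if e ∈ Icc 1 Z then 0 else r e)) = r := by
    funext e
    have h5 : ∑ a ∈ Icc 1 Z, r a * (if e = a then (1 : ℝ) else 0) =
        if e ∈ Icc 1 Z then r e else 0 := by
      simp only [mul_ite, mul_one, mul_zero]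
      rw [Finset.sum_ite_eq]
    rw [h5]
    split_ifs <;> simp
  rw [h4] at h3
  rw [h3, LL_zero' hS (fun e => if e ∈ Icc 1 Z then 0 else r e) k b τ ζ d hτ hb
    (fun e he => if_pos (hZ e he)), h1, add_zero, one_mul]
  refine Finset.sum_congr rfl fun a _ => ?_
  rw [LL_smul P t (r a) (fun e => if e = a then (1 : ℝ) else 0) k b τ ζ d]
  ring

open Classical in
theorem LL_bd (hS : Siz P t) (e k : ℕ) (b : Bool) (τ ζ : ℝ) (d : ℕ) (hd : 0 < d) (hτ : 0 ≤ τ)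
    (hb : b = false → 2 * ζ ≤ τ) :
    |LL P t (fun x => if x = e then 1 else 0) k b τ ζ d| ≤
      if ∃ x ∈ EE P t τ ζ, d * x = e then 1 else 0 := by
  have h := Pool.Agent.W586.DC.ER P t hS (fun x => if x = e then 1 else 0) k b τ ζ d hτ hb
  refine h.trans ?_
  have h1 : ∀ x ∈ EE P t τ ζ, |(if d * x = e then (1 : ℝ) else 0)| =
      if d * x = e then 1 else 0 := by
    intro x _
    split_ifs <;> norm_num
  rw [Finset.sum_congr rfl h1, ← Finset.sum_filter, Finset.sum_const, nsmul_eq_mul, mul_one]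
  split_ifs with h2
  · have h3 : ((EE P t τ ζ).filter (fun x => d * x = e)).card ≤ 1 := by
      rw [Finset.card_le_one]
      intro x hx y hy
      rw [Finset.mem_filter] at hx hy
      exact Nat.eq_of_mul_eq_mul_left hd (hx.2.trans hy.2.symm)
    exact_mod_cast h3
  · rw [Finset.filter_eq_empty_iff.2, Finset.card_empty, Nat.cast_zero]
    intro x hx hxe
    exact h2 ⟨x, hx, hxe⟩

end

/-- the coefficients -/
noncomputable def b0 (N : ℕ) (ε₁ : ℝ) (K e : ℕ) : ℝ :=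
  17 / 19 * (LL (pr N ε₁ (1 / 7)) (tt N) (fun x => if x = e then 1 else 0) K false (111 / 200)
    (1 / 7) 1 - ∑ q ∈ pr N (1 / 7) (119 / 250), cw N q *
      LL (pr N ε₁ (1 / 7)) (tt N) (fun x => if x = e then 1 else 0) K true (ta N q) (za N q) q)

/-- the admitted moduli -/
def GoodE (N : ℕ) (ε₁ : ℝ) (e : ℕ) : Prop := 1 ≤ e ∧ e ≤ ⌊(N : ℝ) ^ (111 / 200 : ℝ)⌋₊ ∧
  Squarefree e ∧ (∀ p : ℕ, p.Prime → p ∣ e → (N : ℝ) ^ ε₁ ≤ (p : ℝ)) ∧
  ((e : ℝ) ≤ (N : ℝ) ^ (51 / 100 : ℝ) ∨ FacO N (1 / 500) e)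

open Classical in
theorem mem_facR {N : ℕ} {θ ε δ : ℝ} {e : ℕ} (h : e ∈ facR N θ ε δ) :
    1 ≤ e ∧ e ≤ ⌊(N : ℝ) ^ θ⌋₊ ∧ ((e : ℝ) ≤ (N : ℝ) ^ (51 / 100 : ℝ) ∨ FacO N δ e) := by
  unfold facR at h
  rw [mem_filter] at h
  unfold Pool.Agent.H442R2.BX.roughs at h
  rw [mem_filter, mem_Icc] at h
  exact ⟨h.1.1.1, h.1.1.2, h.2⟩

section
variable {N : ℕ} {ε₁ : ℝ}

theorem good_one (hN : 2 ≤ N) : GoodE N ε₁ 1 := by
  have hN1 : (1 : ℝ) ≤ N := by exact_mod_cast (by omega : 1 ≤ N)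
  refine ⟨le_rfl, ?_, squarefree_one, fun p hp h => absurd (Nat.dvd_one.1 h) hp.one_lt.ne', ?_⟩
  · apply Nat.le_floor
    rw [Nat.cast_one]
    exact Real.one_le_rpow hN1 (by norm_num)
  · left
    rw [Nat.cast_one]
    exact Real.one_le_rpow hN1 (by norm_num)

theorem good1 (hN : 2 ≤ N) (hε : 0 < ε₁) {e : ℕ}
    (he : e ∈ EE (pr N ε₁ (1 / 7)) (tt N) (111 / 200) (1 / 7)) :
    GoodE N ε₁ e ∧ ∀ p ∈ e.primeFactors, tt N p < 1 / 7 := by
  obtain ⟨h2, h3, h4, h5⟩ := mem_EE he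
  refine ⟨?_, fun p hp => (h4 p hp).2⟩
  rcases Nat.lt_or_ge 1 e with h | h
  · obtain ⟨h6, h7, h8⟩ := mem_facR ((Pool.Agent.W378.DC.FA N ε₁ hN hε).1 e h h3
      (fun p hp => (h4 p hp).1) h5)
    refine ⟨h6, h7, h3, fun p hp hpe => ?_, h8⟩
    exact (Pool.Agent.W23.DC.le_tt_iff hN hp.pos _).1
      (h4 p (Nat.mem_primeFactors.2 ⟨hp, hpe, h2⟩)).1
  · have h6 : e = 1 := by omega
    rw [h6]
    exact good_one hN

theorem good2 (hN : 2 ≤ N) (hε : 0 < ε₁) (hε2 : ε₁ ≤ 1 / 25) {q x : ℕ}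
    (hqQ : q ∈ pr N (1 / 7) (119 / 250))
    (hx : x ∈ EE (pr N ε₁ (1 / 7)) (tt N) (ta N q) (za N q)) :
    GoodE N ε₁ (q * x) ∧ ∀ p ∈ x.primeFactors, tt N p < 1 / 7 := by
  have hq := mem_pr.1 hqQ
  obtain ⟨h1, h2, h3, h4⟩ := mem_EE hx
  have hnd : ¬ q ∣ x := by
    intro h
    have := (h3 q (Nat.mem_primeFactors.2 ⟨hq.2.1, h, h1⟩)).2
    linarith [hq.2.2.1]
  have h5 := (Pool.Agent.W378.DC.FA N ε₁ hN hε).2 q x (Lv (tt N q)) hq.2.1 hnd h1 h2
    (fun p hp => (h3 p hp).1)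
    (by linarith [hq.2.2.1]) (by
      unfold Lv
      split_ifs with h
      · linarith
      · linarith [hq.2.2.2]) (by
      unfold Lv
      split_ifs with h <;> norm_num) (by
      unfold Lv
      split_ifs with h
      · linarith
      · linarith [hq.2.2.2]) h4
  obtain ⟨h6, h7, h8⟩ := mem_facR h5
  have hcop : Nat.Coprime q x := (hq.2.1.coprime_iff_not_dvd).2 hnd
  refine ⟨⟨h6, h7, (Nat.squarefree_mul hcop).2 ⟨hq.2.1.prime.squarefree, h2⟩, ?_, h8⟩,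
    fun p hp => (h3 p hp).2⟩
  intro p hp hpe
  rcases hp.dvd_mul.1 hpe with h | h
  · have h9 : p = q := (Nat.prime_dvd_prime_iff_eq hp hq.2.1).1 h
    rw [h9]
    exact (Pool.Agent.W23.DC.le_tt_iff hN hq.2.1.pos _).1 (by linarith [hq.2.2.1])
  · exact (Pool.Agent.W23.DC.le_tt_iff hN hp.pos _).1
      (h3 p (Nat.mem_primeFactors.2 ⟨hp, h, h1⟩)).1

theorem prime_lt (hq : ∀ q ∈ pr N (1 / 7) (119 / 250), 1 / 7 ≤ tt N q) {q x q' x' : ℕ}
    (h1 : q ∈ pr N (1 / 7) (119 / 250)) (h1' : q' ∈ pr N (1 / 7) (119 / 250))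
    (hx' : x' ≠ 0) (h2 : ∀ p ∈ x'.primeFactors, tt N p < 1 / 7) (h : q * x = q' * x') : q = q' := by
  have hd : q ∣ q' * x' := h ▸ Dvd.intro x rfl
  have hqp := (mem_pr.1 h1).2.1
  rcases (hqp.dvd_mul).1 hd with h3 | h3
  · exact (Nat.prime_dvd_prime_iff_eq hqp (mem_pr.1 h1').2.1).1 h3
  · exfalso
    have := h2 q (Nat.mem_primeFactors.2 ⟨hqp, h3, hx'⟩)
    linarith [hq q h1]

/-- bound and support of the coefficients -/
theorem b0_bd (hN : 2 ≤ N) (hε : 0 < ε₁) (hε2 : ε₁ ≤ 1 / 25) (K e : ℕ) :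
    |b0 N ε₁ K e| ≤ 1 ∧ (b0 N ε₁ K e ≠ 0 → GoodE N ε₁ e) := by
  classical
  have hS := siz hN ε₁ (1 / 7)
  have hQ : ∀ q ∈ pr N (1 / 7) (119 / 250), 1 / 7 ≤ tt N q := fun q hq => (mem_pr.1 hq).2.2.1
  have hA := LL_bd hS e K false (111 / 200) (1 / 7) 1 one_pos (by norm_num) (fun _ => by norm_num)
  have hB : ∀ q ∈ pr N (1 / 7) (119 / 250),
      |LL (pr N ε₁ (1 / 7)) (tt N) (fun x => if x = e then 1 else 0) K true (ta N q) (za N q) q| ≤
        if ∃ x ∈ EE (pr N ε₁ (1 / 7)) (tt N) (ta N q) (za N q), q * x = e then 1 else 0 := by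
    intro q hq
    have h := LL_bd hS e K true (ta N q) (za N q) q (mem_pr.1 hq).2.1.pos
      (by have := ta_pos hq; linarith) (fun h => by simp at h)
    refine h.trans (le_of_eq ?_)
    congr
  by_cases h1 : ∃ x ∈ EE (pr N ε₁ (1 / 7)) (tt N) (111 / 200) (1 / 7), 1 * x = e
  · obtain ⟨x, hx, hxe⟩ := h1
    rw [one_mul] at hxe
    rw [hxe] at hx
    obtain ⟨g1, g2⟩ := good1 hN hε hx
    have h0 : ∑ q ∈ pr N (1 / 7) (119 / 250), cw N q *
        LL (pr N ε₁ (1 / 7)) (tt N) (fun x => if x = e then 1 else 0) K true (ta N q) (za N q) q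
        = 0 := by
      apply Finset.sum_eq_zero
      intro q hq
      have h2 := hB q hq
      rw [if_neg] at h2
      · rw [abs_eq_zero.1 (le_antisymm h2 (abs_nonneg _)), mul_zero]
      · rintro ⟨y, -, hy⟩
        have h3 := g2 q (Nat.mem_primeFactors.2 ⟨(mem_pr.1 hq).2.1, hy ▸ Dvd.intro y rfl, by
          have := g1.1; omega⟩)
        linarith [hQ q hq]
    refine ⟨?_, fun _ => g1⟩
    unfold b0
    rw [h0, sub_zero, abs_mul, abs_of_pos (by norm_num : (0 : ℝ) < 17 / 19)]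
    have h4 : |LL (pr N ε₁ (1 / 7)) (tt N) (fun x => if x = e then 1 else 0) K false (111 / 200)
        (1 / 7) 1| ≤ 1 := by
      refine hA.trans ?_
      split_ifs <;> norm_num
    nlinarith [abs_nonneg (LL (pr N ε₁ (1 / 7)) (tt N) (fun x => if x = e then 1 else 0) K false
      (111 / 200) (1 / 7) 1)]
  · rw [if_neg h1] at hA
    have h0 : LL (pr N ε₁ (1 / 7)) (tt N) (fun x => if x = e then 1 else 0) K false (111 / 200)
        (1 / 7) 1 = 0 := abs_eq_zero.1 (le_antisymm hA (abs_nonneg _))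
    by_cases h2 : ∃ q ∈ pr N (1 / 7) (119 / 250),
        ∃ x ∈ EE (pr N ε₁ (1 / 7)) (tt N) (ta N q) (za N q), q * x = e
    · obtain ⟨q, hq, x, hx, hqx⟩ := h2
      obtain ⟨g1, g2⟩ := good2 hN hε hε2 hq hx
      rw [hqx] at g1
      have hx0 : x ≠ 0 := (mem_EE hx).1
      have h3 : ∑ q' ∈ pr N (1 / 7) (119 / 250), cw N q' *
          LL (pr N ε₁ (1 / 7)) (tt N) (fun x => if x = e then 1 else 0) K true (ta N q') (za N q') q'
          = cw N q * LL (pr N ε₁ (1 / 7)) (tt N) (fun x => if x = e then 1 else 0) K true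
            (ta N q) (za N q) q := by
        apply Finset.sum_eq_single_of_mem q hq
        intro q' hq' hne
        have h2 := hB q' hq'
        rw [if_neg] at h2
        · rw [abs_eq_zero.1 (le_antisymm h2 (abs_nonneg _)), mul_zero]
        · rintro ⟨y, -, hy⟩
          exact hne (prime_lt hQ hq' hq hx0 g2 (hy.trans hqx.symm))
      refine ⟨?_, fun _ => g1⟩
      unfold b0
      rw [h0, h3, zero_sub, abs_mul, abs_neg, abs_mul, abs_of_pos (by norm_num : (0 : ℝ) < 17 / 19),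
        abs_of_nonneg (cw_nonneg q hq)]
      have h4 : |LL (pr N ε₁ (1 / 7)) (tt N) (fun x => if x = e then 1 else 0) K true (ta N q)
          (za N q) q| ≤ 1 := by
        refine (hB q hq).trans ?_
        split_ifs <;> norm_num
      have h5 := cw_le hN q hq
      have h6 := cw_nonneg q hq
      have h7 : cw N q * |LL (pr N ε₁ (1 / 7)) (tt N) (fun x => if x = e then 1 else 0) K true
          (ta N q) (za N q) q| ≤ 19 / 17 * 1 := mul_le_mul h5 h4 (abs_nonneg _) (by norm_num)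
      linarith
    · have h3 : ∑ q ∈ pr N (1 / 7) (119 / 250), cw N q *
          LL (pr N ε₁ (1 / 7)) (tt N) (fun x => if x = e then 1 else 0) K true (ta N q) (za N q) q
          = 0 := by
        apply Finset.sum_eq_zero
        intro q hq
        have h4 := hB q hq
        rw [if_neg] at h4
        · rw [abs_eq_zero.1 (le_antisymm h4 (abs_nonneg _)), mul_zero]
        · rintro ⟨y, hy1, hy2⟩
          exact h2 ⟨q, hq, y, hy1, hy2⟩
      have h4 : b0 N ε₁ K e = 0 := by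
        unfold b0
        rw [h0, h3]
        ring
      rw [h4]
      exact ⟨by norm_num, fun h => absurd rfl h⟩

/-- the functional of the coefficients -/
theorem b0_sum (hN : 2 ≤ N) (hε : 0 < ε₁) (hε2 : ε₁ ≤ 1 / 25) (K : ℕ) (r : ℕ → ℝ) :
    ∑ e ∈ Icc 1 ⌊(N : ℝ) ^ (111 / 200 : ℝ)⌋₊, b0 N ε₁ K e * r e =
      17 / 19 * (LL (pr N ε₁ (1 / 7)) (tt N) r K false (111 / 200) (1 / 7) 1 -
        ∑ q ∈ pr N (1 / 7) (119 / 250), cw N q *
          LL (pr N ε₁ (1 / 7)) (tt N) r K true (ta N q) (za N q) q) := by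
  have hS := siz hN ε₁ (1 / 7)
  set Z := ⌊(N : ℝ) ^ (111 / 200 : ℝ)⌋₊ with hZ
  rw [LL_lin hS r K false (111 / 200) (1 / 7) 1 (by norm_num) (fun _ => by norm_num) Z (by
    intro e he
    have h1 := (good1 hN hε he).1
    rw [one_mul, Finset.mem_Icc]
    exact ⟨h1.1, h1.2.1⟩)]
  have h2 : ∀ q ∈ pr N (1 / 7) (119 / 250), cw N q *
      LL (pr N ε₁ (1 / 7)) (tt N) r K true (ta N q) (za N q) q =
      ∑ e ∈ Icc 1 Z, cw N q * (LL (pr N ε₁ (1 / 7)) (tt N) (fun x => if x = e then 1 else 0) K true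
        (ta N q) (za N q) q * r e) := by
    intro q hq
    rw [LL_lin hS r K true (ta N q) (za N q) q (by have := ta_pos hq; linarith)
      (fun h => by simp at h) Z (by
        intro e he
        have h1 := (good2 hN hε hε2 hq he).1
        rw [Finset.mem_Icc]
        exact ⟨h1.1, h1.2.1⟩), Finset.mul_sum]
  rw [Finset.sum_congr rfl h2, Finset.sum_comm, ← Finset.sum_sub_distrib, Finset.mul_sum]
  refine Finset.sum_congr rfl fun e _ => ?_
  unfold b0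
  rw [mul_assoc, sub_mul, Finset.sum_mul]
  congr 2
  refine Finset.sum_congr rfl fun q _ => ?_
  ring

/-- the divisor sum is at most the weight -/
theorem b0_ds (hN : 2 ≤ N) (hε : 0 < ε₁) (hε2 : ε₁ ≤ 1 / 25) (K : ℕ) (m : ℤ) :
    ds (b0 N ε₁ K) ⌊(N : ℝ) ^ (111 / 200 : ℝ)⌋₊ m ≤ 17 / 19 * Wf N ε₁ m.natAbs := by
  have h1 := Pool.Agent.Y827.LS.Lsm.ds_natAbs (b0 N ε₁ K) ⌊(N : ℝ) ^ (111 / 200 : ℝ)⌋₊ m
  have h2 := b0_sum hN hε hε2 K (ind m.natAbs)
  have h3 : ∑ e ∈ Icc 1 ⌊(N : ℝ) ^ (111 / 200 : ℝ)⌋₊, b0 N ε₁ K e *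
      (if e ∣ m.natAbs then 1 else 0) = ∑ e ∈ Icc 1 ⌊(N : ℝ) ^ (111 / 200 : ℝ)⌋₊,
        b0 N ε₁ K e * ind m.natAbs e := rfl
  rw [h1, h3, h2]
  exact mul_le_mul_of_nonneg_left (Wf_ge Pool.Agent.W52.DC.PT hN K _) (by norm_num)

end

/-- the mean of the coefficients -/
theorem b0_mean : ∃ c₀ : ℝ, 0 < c₀ ∧ ∀ ε₁ : ℝ, 0 < ε₁ → ε₁ ≤ 1 / 25 → ∃ N₀ : ℕ, ∀ N : ℕ, N₀ ≤ N →
    c₀ * ε₁ ≤ ∑ e ∈ Icc 1 ⌊(N : ℝ) ^ (111 / 200 : ℝ)⌋₊, b0 N ε₁ ⌈1 / ε₁⌉₊ e * (1 / (e : ℝ)) := by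
  classical
  obtain ⟨A0, F, f, hS⟩ := Pool.Agent.W366.DC.SFX
  set J : ℝ := 19 / 17 * ((∫ x in (1 / 7 : ℝ)..(11 / 25),
      (1 - x / (119 / 250)) / (x * (111 / 200 - x))) +
    ∫ x in (11 / 25 : ℝ)..(119 / 250), (1 - x / (119 / 250)) / (x * (261 / 500 - x))) with hJ
  set Z : ℝ := Real.log (577 / 200) / (111 / 200) with hZ
  have hJZ : J < Z := Pool.Agent.W120.DC.NU
  set c₂ : ℝ := Z - J with hc₂
  have hc₂0 : 0 < c₂ := by rw [hc₂]; linarith
  have hA0 := hS.pos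
  refine ⟨17 / 19 * (A0 * c₂ / 2), by positivity, ?_⟩
  intro ε₁ hε hε2
  obtain ⟨η, hη0, HM⟩ := Pool.Agent.W505.DC.MT Pool.Agent.W505.DC.MI A0 F f hS ε₁ (ε₁ * A0 * c₂ / 32) ⌈1 / ε₁⌉₊ hε (by linarith)
    (by positivity)
  obtain ⟨N₁, hN₁⟩ := mer_of ε₁ (1 / 7) η hε (by norm_num) hη0
  obtain ⟨N₂, hN₂⟩ := Pool.Agent.W23.DC.QS Pool.Agent.W505.DC.MI Pool.Agent.W378.DC.MP (c₂ / 4) (by positivity)
  obtain ⟨N₃, hN₃⟩ := Pool.Agent.W378.DC.MP (1 / 7) 1 (by norm_num) one_pos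
  refine ⟨max (max N₁ N₂) (max N₃ 2), ?_⟩
  intro N hN
  have hNN₁ : N₁ ≤ N := ((le_max_left _ _).trans (le_max_left _ _)).trans hN
  have hNN₂ : N₂ ≤ N := ((le_max_right _ _).trans (le_max_left _ _)).trans hN
  have hNN₃ : N₃ ≤ N := ((le_max_left _ _).trans (le_max_right _ _)).trans hN
  have hN2 : 2 ≤ N := ((le_max_right _ _).trans (le_max_right _ _)).trans hN
  set P := pr N ε₁ (1 / 7) with hP
  set Q := pr N (1 / 7) (119 / 250) with hQ
  set g : ℕ → ℝ := fun p => 1 / (p : ℝ) with hg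
  set K := ⌈1 / ε₁⌉₊ with hK
  have hKε : 1 ≤ (K + 2) * ε₁ := by
    have h1 : 1 / ε₁ ≤ K := Nat.le_ceil _
    have h2 : 1 / ε₁ * ε₁ = 1 := by field_simp
    nlinarith
  have hg0 : ∀ p ∈ P, 0 ≤ g p := fun p _ => by rw [hg]; positivity
  have HM' := HM P (tt N) g (1 / 7) (by norm_num) hg0 (fun p hp => (mem_pr.1 hp).2.2.1)
    (hN₁ N hNN₁) K le_rfl
  -- the main terms
  have hminus : ε₁ * A0 * Z - ε₁ * A0 * c₂ / 32 ≤ MM P (tt N) g K false (111 / 200) (1 / 7) := by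
    have h1 := (HM' (111 / 200) (1 / 7) (by linarith) (by linarith) le_rfl (by norm_num)
      (by norm_num)).2 (by norm_num)
    have h2 : ε₁ / (1 / 7) * f (111 / 200 / (1 / 7)) = ε₁ * A0 * Z := by
      rw [hS.f4 _ (by norm_num) (by norm_num), hZ]
      have : (111 / 200 / (1 / 7) - 1 : ℝ) = 577 / 200 := by norm_num
      rw [this]
      ring
    rw [h2] at h1
    exact h1
  have hplus : ∀ q ∈ Q, MM P (tt N) g K true (ta N q) (za N q) ≤
      ε₁ * A0 / ta N q + ε₁ * A0 * c₂ / 32 := by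
    intro q hq
    have h0 := ta_pos hq
    have h1 := ta_le hq
    have h2 : za N q ≤ ta N q := min_le_right _ _
    have h3 : ε₁ ≤ za N q := le_min (by linarith) (by linarith)
    have h4 : ta N q ≤ 1 := by
      have := (mem_pr.1 hq).2.2.1
      unfold ta Lv
      split_ifs <;> linarith
    have h5 := (HM' (ta N q) (za N q) (by linarith) h3 (min_le_left _ _) h2 h4).1
    have h6 : 0 < za N q := by linarith
    have h7 : ε₁ / za N q * F (ta N q / za N q) = ε₁ * A0 / ta N q := by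
      rw [hS.F3 _ ((one_le_div h6).2 h2) ((div_le_iff₀ h6).2 h1)]
      field_simp
    rw [h7] at h5
    exact h5
  rw [b0_sum hN2 hε hε2 K (fun e : ℕ => 1 / (e : ℝ))]
  have e1 := Pool.Agent.W120.DC.LN.2.2 P (tt N) (siz hN2 _ _) (fun p => 1 / (p : ℝ))
      (fun e : ℕ => 1 / (e : ℝ)) (inv_mul _ (siz hN2 ε₁ (1 / 7)).pr) K false (111 / 200) (1 / 7) 1
    (fun p hp _ h => (mem_pr.1 hp).2.1.one_lt.ne' (Nat.dvd_one.1 h))
  have e2 : ∀ q ∈ Q, LL P (tt N) (fun e : ℕ => 1 / (e : ℝ)) K true (ta N q) (za N q) q =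
      1 / (q : ℝ) * MM P (tt N) g K true (ta N q) (za N q) := by
    intro q hq
    exact Pool.Agent.W120.DC.LN.2.2 P (tt N) (siz hN2 _ _) (fun p => 1 / (p : ℝ))
      (fun e : ℕ => 1 / (e : ℝ)) (inv_mul _ (siz hN2 ε₁ (1 / 7)).pr) K true (ta N q) (za N q) q
      (fun p hp _ h => by
        have h4 := (Nat.prime_dvd_prime_iff_eq (mem_pr.1 hp).2.1 (mem_pr.1 hq).2.1).1 h
        have h5 := (mem_pr.1 hp).2.2.2
        have h6 := (mem_pr.1 hq).2.2.1
        rw [h4] at h5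
        linarith)
  have e3 : ∑ q ∈ Q, cw N q * LL P (tt N) (fun e : ℕ => 1 / (e : ℝ)) K true (ta N q) (za N q) q =
      ∑ q ∈ Q, cw N q * (1 / (q : ℝ) * MM P (tt N) g K true (ta N q) (za N q)) :=
    Finset.sum_congr rfl fun q hq => by rw [e2 q hq]
  rw [e1, e3]
  -- the sum over `q`
  have hgle : ∀ q ∈ Q, g q ≤ 1 / ((q : ℝ) - 1) := fun q hq => one_div_le_g (mem_pr.1 hq).2.1
  have hq1 : ∑ q ∈ Q, g q * (cw N q / ta N q) ≤ J + c₂ / 4 := by
    have h1 := hN₂ N hNN₂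
    refine le_trans ?_ h1
    refine sum_le_sum fun q hq => ?_
    have h2 := cw_nonneg q hq
    have h3 := ta_pos hq
    have h4 : 0 ≤ cw N q / ta N q := div_nonneg h2 (by linarith)
    exact mul_le_mul_of_nonneg_right (hgle q hq) h4
  have hq2 : ∑ q ∈ Q, g q ≤ 3 := by
    have h1 := (abs_le.1 (hN₃ N hNN₃ (1 / 7) (119 / 250) le_rfl (by norm_num) (by norm_num))).2
    have h2 : Real.log (119 / 250 / (1 / 7)) ≤ 2 := by
      rw [Real.log_le_iff_le_exp (by norm_num)]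
      have h3 := Real.add_one_le_exp (1 : ℝ)
      have h4 : Real.exp 2 = Real.exp 1 * Real.exp 1 := by
        rw [← Real.exp_add]
        norm_num
      nlinarith
    have h3 : ∑ q ∈ Q, g q ≤ ∑ q ∈ Q, 1 / ((q : ℝ) - 1) := sum_le_sum hgle
    linarith
  have hq3 : ∑ q ∈ Q, cw N q * (1 / (q : ℝ) *
        MM P (tt N) g K true (ta N q) (za N q)) ≤
      ε₁ * A0 * (J + c₂ / 4) + ε₁ * A0 * c₂ / 32 * (19 / 17 * 3) := by
    calc ∑ q ∈ Q, cw N q * (1 / (q : ℝ) *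
          MM P (tt N) g K true (ta N q) (za N q))
        ≤ ∑ q ∈ Q, (ε₁ * A0 * (g q * (cw N q / ta N q)) +
            ε₁ * A0 * c₂ / 32 * (19 / 17 * g q)) := by
          apply Finset.sum_le_sum
          intro q hq
          have h1 := hplus q hq
          have h2 := cw_nonneg q hq
          have h3 := cw_le hN2 q hq
          have h4 : 0 ≤ g q := by rw [hg]; positivity
          have h5 := ta_pos hq
          calc cw N q * (g q * MM P (tt N) g K true (ta N q) (za N q))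
              ≤ cw N q * (g q * (ε₁ * A0 / ta N q + ε₁ * A0 * c₂ / 32)) := by gcongr
            _ = ε₁ * A0 * (g q * (cw N q / ta N q)) +
                ε₁ * A0 * c₂ / 32 * (cw N q * g q) := by ring
            _ ≤ _ := by gcongr
      _ = ε₁ * A0 * (∑ q ∈ Q, g q * (cw N q / ta N q)) +
            ε₁ * A0 * c₂ / 32 * (19 / 17 * ∑ q ∈ Q, g q) := by
          rw [Finset.sum_add_distrib, ← Finset.mul_sum, ← Finset.mul_sum,
            ← Finset.mul_sum]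
      _ ≤ _ := by
          have h1 : 0 ≤ ε₁ * A0 := by positivity
          have h2 : 0 ≤ ε₁ * A0 * c₂ / 32 := by positivity
          gcongr
  have hmain : ε₁ * A0 * Z - ε₁ * A0 * c₂ / 32 ≤
      1 / ((1 : ℕ) : ℝ) * MM P (tt N) (fun p => 1 / (p : ℝ)) K false (111 / 200) (1 / 7) := by
    norm_num
    simpa [hg] using hminus
  have hfin : A0 * c₂ / 2 * ε₁ ≤
      (ε₁ * A0 * Z - ε₁ * A0 * c₂ / 32) -
      (ε₁ * A0 * (J + c₂ / 4) + ε₁ * A0 * c₂ / 32 * (19 / 17 * 3)) := by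
    have h1 : (ε₁ * A0 * Z - ε₁ * A0 * c₂ / 32) -
      (ε₁ * A0 * (J + c₂ / 4) + ε₁ * A0 * c₂ / 32 * (19 / 17 * 3)) =
        (ε₁ * A0 * c₂) * (1 - 1 / 32 - 1 / 4 - 57 / 544) := by
      rw [hc₂]
      ring
    rw [h1]
    have h2 : 0 ≤ ε₁ * A0 * c₂ := by positivity
    nlinarith
  have h8 : 17 / 19 * (A0 * c₂ / 2) * ε₁ = 17 / 19 * (A0 * c₂ / 2 * ε₁) := by ring
  rw [h8]
  apply mul_le_mul_of_nonneg_left _ (by norm_num)
  linarith

/-- sums over multiples -/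
theorem mult_sum (Z p : ℕ) (hp : 1 ≤ p) :
    ∑ d ∈ (Icc 1 Z).filter (fun d => p ∣ d), 1 / (d : ℝ) ≤ 1 / (p : ℝ) * (1 + Real.log Z) := by
  classical
  have h1 : (Icc 1 Z).filter (fun d => p ∣ d) ⊆ (Icc 1 Z).image (fun m => p * m) := by
    intro d hd
    rw [Finset.mem_filter, Finset.mem_Icc] at hd
    obtain ⟨⟨h1, h2⟩, m, rfl⟩ := hd
    rw [Finset.mem_image]
    refine ⟨m, ?_, rfl⟩
    rw [Finset.mem_Icc]
    constructor
    · by_contra h
      have : m = 0 := by omega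
      rw [this] at h1
      omega
    · exact le_trans (Nat.le_mul_of_pos_left m (by omega)) h2
  have hp0 : (0 : ℝ) < p := by exact_mod_cast hp
  calc ∑ d ∈ (Icc 1 Z).filter (fun d => p ∣ d), 1 / (d : ℝ)
      ≤ ∑ d ∈ (Icc 1 Z).image (fun m => p * m), 1 / (d : ℝ) :=
        Finset.sum_le_sum_of_subset_of_nonneg h1 (fun _ _ _ => by positivity)
    _ = ∑ m ∈ Icc 1 Z, 1 / ((p * m : ℕ) : ℝ) :=
        Finset.sum_image (fun a _ b _ h => Nat.eq_of_mul_eq_mul_left (by omega) h)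
    _ = 1 / (p : ℝ) * ∑ m ∈ Icc 1 Z, 1 / (m : ℝ) := by
        rw [Finset.mul_sum]
        refine Finset.sum_congr rfl fun m _ => ?_
        push_cast
        rw [one_div_mul_one_div]
    _ ≤ 1 / (p : ℝ) * (1 + Real.log Z) := by
        apply mul_le_mul_of_nonneg_left _ (by positivity)
        have h2 := harmonic_le_one_add_log Z
        rw [harmonic_eq_sum_Icc] at h2
        push_cast at h2
        simpa [one_div] using h2

open Classical in
/-- **the coefficients** -/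
theorem p2c : ∃ c₀ : ℝ, 0 < c₀ ∧ ∀ ε₁ : ℝ, 0 < ε₁ → ε₁ ≤ 1 / 25 → ∃ X₀ : ℕ, ∀ X : ℕ, X₀ ≤ X →
    ∀ Cl : Finset ℕ, (Cl.card : ℝ) ≤ (Real.log X) ^ 2 → ∀ Z : ℕ, Z = ⌊(X : ℝ) ^ (111 / 200 : ℝ)⌋₊ →
    ∃ b : ℕ → ℝ, (∀ d, |b d| ≤ 1) ∧
    (∀ d, b d ≠ 0 → 1 ≤ d ∧ d ≤ Z ∧ Squarefree d ∧
      (∀ p : ℕ, p.Prime → p ∣ d → (X : ℝ) ^ ε₁ < (p : ℝ) ∧ p ∉ Cl) ∧
      ((d : ℝ) ≤ (X : ℝ) ^ (51 / 100 : ℝ) ∨ FacO X (1 / 500) d)) ∧
    (∀ m : ℤ, m ≠ 0 → m.natAbs ≤ 2 * X → (∀ p : ℕ, p.Prime → (p : ℤ) ∣ m →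
      (X : ℝ) ^ ε₁ < (p : ℝ) ∧ p ∉ Cl) →
      (∀ q : ℕ, q.Prime → (X : ℝ) ^ (1 / 7 : ℝ) ≤ q → ¬ q ^ 2 ∣ m.natAbs) → 0 < ds b Z m →
      m.natAbs.primeFactorsList.length ≤ 2 ∧
        ∀ q ∈ m.natAbs.primeFactors, (X : ℝ) ^ (1 / 7 : ℝ) ≤ q) ∧
    c₀ * ε₁ ≤ ∑ d ∈ Icc 1 Z, b d / d := by
  obtain ⟨c, hc, hmean⟩ := b0_mean
  obtain ⟨N₁, hstr⟩ := Pool.Agent.W23.DC.struct
  refine ⟨c / 2, by positivity, ?_⟩
  intro ε₁ hε hε2
  obtain ⟨N₀, hN₀⟩ := hmean ε₁ hε hε2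
  have hbig : ∀ᶠ X : ℕ in atTop, ((Real.log X) ^ 2 + 1) * (1 + Real.log X) ≤
      c / 2 * ε₁ * (X : ℝ) ^ ε₁ := by
    have h1 : Tendsto (fun x : ℝ => (Real.log x) ^ 3 / x ^ ε₁) atTop (𝓝 0) := by
      have h0 := isLittleO_log_rpow_rpow_atTop (s := ε₁) 3 hε
      have h2 := h0.tendsto_div_nhds_zero
      refine h2.congr fun x => ?_
      norm_num
    have h3 := (h1.const_mul 4).comp tendsto_natCast_atTop_atTop
    rw [mul_zero] at h3
    have h4 := h3.eventually (gt_mem_nhds (by positivity : 0 < c / 2 * ε₁))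
    have h5 := (Real.tendsto_log_atTop.comp
      (tendsto_natCast_atTop_atTop (R := ℝ))).eventually_ge_atTop 1
    filter_upwards [h4, h5, eventually_ge_atTop 2] with X h6 h7 h8
    simp only [Function.comp_apply] at h6 h7
    have hX0 : (0 : ℝ) < X := by exact_mod_cast (by omega : 0 < X)
    have h9 : 0 < (X : ℝ) ^ ε₁ := Real.rpow_pos_of_pos hX0 _
    rw [mul_div_assoc', div_lt_iff₀ h9] at h6
    have h10 : ((Real.log X) ^ 2 + 1) * (1 + Real.log X) ≤ 4 * (Real.log X) ^ 3 := by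
      set L := Real.log X
      have h11 : 1 ≤ L ^ 2 := one_le_pow₀ h7
      have h12 : (L ^ 2 + 1) ≤ 2 * L ^ 2 := by linarith
      have h13 : 1 + L ≤ 2 * L := by linarith
      calc (L ^ 2 + 1) * (1 + L) ≤ (2 * L ^ 2) * (2 * L) := by gcongr
        _ = 4 * L ^ 3 := by ring
    linarith
  obtain ⟨N₂, hN₂⟩ := eventually_atTop.1 hbig
  refine ⟨max (max N₀ N₁) (max N₂ 3), ?_⟩
  intro X hX Cl hCl Z hZ
  have hX0 : N₀ ≤ X := ((le_max_left _ _).trans (le_max_left _ _)).trans hX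
  have hX1 : N₁ ≤ X := ((le_max_right _ _).trans (le_max_left _ _)).trans hX
  have hX2 : N₂ ≤ X := ((le_max_left _ _).trans (le_max_right _ _)).trans hX
  have hX3 : 3 ≤ X := ((le_max_right _ _).trans (le_max_right _ _)).trans hX
  have hXr : (1 : ℝ) < X := by exact_mod_cast (by omega : 1 < X)
  have hXr0 : (0 : ℝ) < X := by linarith
  set y : ℝ := (X : ℝ) ^ ε₁ with hy
  have hy0 : 0 < y := Real.rpow_pos_of_pos hXr0 _
  set K := ⌈1 / ε₁⌉₊ with hK
  set bad : ℕ → Prop := fun d => ∃ p : ℕ, p.Prime ∧ p ∣ d ∧ ¬ (y < (p : ℝ) ∧ p ∉ Cl) with hbad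
  have hb := fun e => b0_bd (N := X) (by omega) hε hε2 K e
  refine ⟨fun d => if bad d then 0 else b0 X ε₁ K d, ?_, ?_, ?_, ?_⟩
  · intro d
    simp only
    split_ifs
    · rw [abs_zero]; exact zero_le_one
    · exact (hb d).1
  · intro d hd
    simp only at hd
    split_ifs at hd with h1
    · exact absurd rfl hd
    · obtain ⟨g1, g2, g3, -, g5⟩ := (hb d).2 hd
      refine ⟨g1, by rw [hZ]; exact g2, g3, ?_, g5⟩
      intro p hp hpd
      by_contra hc'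
      exact h1 ⟨p, hp, hpd, hc'⟩
  · intro m hm0 hm2 hmp hmq hpos
    have h1 : ds (fun d => if bad d then 0 else b0 X ε₁ K d) Z m = ds (b0 X ε₁ K) Z m := by
      unfold ds
      refine Finset.sum_congr rfl fun d _ => ?_
      by_cases hd : (d : ℤ) ∣ m
      · rw [if_pos hd]
        have h2 : ¬ bad d := by
          rintro ⟨p, hp, hpd, hc'⟩
          exact hc' (hmp p hp ((Int.natCast_dvd_natCast.2 hpd).trans hd))
        simp only [if_neg h2]
      · rw [if_neg hd, mul_zero, mul_zero]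
    rw [h1, hZ] at hpos
    have h2 := hpos.trans_le (b0_ds (N := X) (by omega) hε hε2 K m)
    have h3 : 0 < Wf X ε₁ m.natAbs := by
      by_contra hc'
      push Not at hc'
      nlinarith
    obtain ⟨m', s, hms, hm', hs1, hs2⟩ := hstr X hX1 ε₁ m.natAbs (Int.natAbs_ne_zero.2 hm0) hm2 h3
      hmq
    have h4 : m' = 1 := by
      by_contra hne
      obtain ⟨p, hp, hpm⟩ := Nat.exists_prime_and_dvd hne
      have h5 := hm' p hp hpm
      have h6 : (p : ℤ) ∣ m := Int.natCast_dvd.2 (hms ▸ hpm.mul_right s)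
      have h7 := (hmp p hp h6).1
      linarith
    rw [h4, one_mul] at hms
    rw [hms]
    exact ⟨hs1, hs2⟩
  · have h1 := hN₀ X hX0
    rw [← hZ] at h1
    -- the removed part
    set CC : Finset ℕ := (insert ⌊y⌋₊ Cl).filter (fun p => y ≤ (p : ℝ) ∧ p.Prime) with hCC
    have hCm : ∀ p ∈ CC, y ≤ (p : ℝ) ∧ p.Prime := fun p hp => (Finset.mem_filter.1 hp).2
    have hCc : (CC.card : ℝ) ≤ (Real.log X) ^ 2 + 1 := by
      have h2 : CC.card ≤ Cl.card + 1 :=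
        (Finset.card_le_card (Finset.filter_subset _ _)).trans (Finset.card_insert_le _ _)
      have h3 : (CC.card : ℝ) ≤ (Cl.card : ℝ) + 1 := by exact_mod_cast h2
      linarith
    have hdiff : ∑ d ∈ Icc 1 Z, b0 X ε₁ K d * (1 / (d : ℝ)) -
        ∑ d ∈ Icc 1 Z, (if bad d then 0 else b0 X ε₁ K d) / (d : ℝ) ≤
        ∑ p ∈ CC, ∑ d ∈ (Icc 1 Z).filter (fun d => p ∣ d), 1 / (d : ℝ) := by
      rw [← Finset.sum_sub_distrib]
      have h2 : ∑ p ∈ CC, ∑ d ∈ (Icc 1 Z).filter (fun d => p ∣ d), 1 / (d : ℝ) =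
          ∑ d ∈ Icc 1 Z, ∑ p ∈ CC, (if p ∣ d then 1 / (d : ℝ) else 0) := by
        rw [Finset.sum_comm]
        refine Finset.sum_congr rfl fun p _ => ?_
        rw [Finset.sum_filter]
      rw [h2]
      apply Finset.sum_le_sum
      intro d hd
      have hd1 := (Finset.mem_Icc.1 hd).1
      have hnn : ∀ p ∈ CC, (0 : ℝ) ≤ (if p ∣ d then 1 / (d : ℝ) else 0) := by
        intro p _
        split_ifs <;> positivity
      by_cases hbd : bad d
      · rw [if_pos hbd, zero_div, sub_zero]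
        by_cases hz : b0 X ε₁ K d = 0
        · rw [hz, zero_mul]
          exact Finset.sum_nonneg hnn
        · obtain ⟨g1, g2, g3, g4, g5⟩ := (hb d).2 hz
          obtain ⟨p, hp, hpd, hc'⟩ := hbd
          have h5 := g4 p hp hpd
          have h6 : p ∈ CC := by
            rw [hCC, Finset.mem_filter]
            refine ⟨?_, h5, hp⟩
            rw [Finset.mem_insert]
            by_cases h7 : p ∈ Cl
            · exact Or.inr h7
            · left
              have h8 : ¬ y < (p : ℝ) := fun h => hc' ⟨h, h7⟩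
              have h9 : y = (p : ℝ) := le_antisymm h5 (not_lt.1 h8)
              rw [h9, Nat.floor_natCast]
          have h7 : b0 X ε₁ K d * (1 / (d : ℝ)) ≤ 1 / (d : ℝ) := by
            have h8 := (abs_le.1 (hb d).1).2
            have h9 : (0 : ℝ) ≤ 1 / (d : ℝ) := by positivity
            nlinarith
          refine h7.trans ?_
          have h8 := Finset.single_le_sum hnn h6
          rw [if_pos hpd] at h8
          exact h8
      · rw [if_neg hbd]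
        have h3 : b0 X ε₁ K d * (1 / (d : ℝ)) - b0 X ε₁ K d / (d : ℝ) = 0 := by ring
        rw [h3]
        exact Finset.sum_nonneg hnn
    have hZX : (Z : ℝ) ≤ X := by
      rw [hZ]
      refine (Nat.floor_le (Real.rpow_nonneg hXr0.le _)).trans ?_
      calc (X : ℝ) ^ (111 / 200 : ℝ) ≤ (X : ℝ) ^ (1 : ℝ) :=
            Real.rpow_le_rpow_of_exponent_le hXr.le (by norm_num)
        _ = X := Real.rpow_one _
    have hZ1 : 1 ≤ Z := by
      rw [hZ]
      apply Nat.le_floor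
      rw [Nat.cast_one]
      exact Real.one_le_rpow hXr.le (by norm_num)
    have hlogZ : Real.log Z ≤ Real.log X :=
      Real.log_le_log (by exact_mod_cast (by omega : 0 < Z)) hZX
    have hlX : 0 ≤ Real.log X := Real.log_nonneg hXr.le
    have hlZ : 0 ≤ Real.log Z := Real.log_nonneg (by exact_mod_cast hZ1)
    have hrem : ∑ p ∈ CC, ∑ d ∈ (Icc 1 Z).filter (fun d => p ∣ d), 1 / (d : ℝ) ≤
        c / 2 * ε₁ := by
      calc ∑ p ∈ CC, ∑ d ∈ (Icc 1 Z).filter (fun d => p ∣ d), 1 / (d : ℝ)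
          ≤ ∑ _p ∈ CC, 1 / y * (1 + Real.log X) := by
            apply Finset.sum_le_sum
            intro p hp
            obtain ⟨h3, h4⟩ := hCm p hp
            refine (mult_sum Z p h4.one_lt.le).trans ?_
            have h5 : 1 / (p : ℝ) ≤ 1 / y := one_div_le_one_div_of_le hy0 h3
            have h6 : (0 : ℝ) ≤ 1 / (p : ℝ) := by positivity
            exact mul_le_mul h5 (by linarith) (by linarith) (by positivity)
        _ = CC.card * (1 + Real.log X) / y := by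
            rw [Finset.sum_const, nsmul_eq_mul]
            ring
        _ ≤ c / 2 * ε₁ := by
            rw [div_le_iff₀ hy0]
            refine le_trans ?_ (hN₂ X hX2)
            exact mul_le_mul_of_nonneg_right hCc (by linarith)
    have h3 : c / 2 * ε₁ = c * ε₁ - c / 2 * ε₁ := by ring
    rw [h3]
    linarith

end Pool.Agent.L7h32.CT
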