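import Mathlib
import Pool.Agent.Y827.LS.DatL
import Pool.Agent.L7h32.CT.P2c
import Pool.Agent.L7h32.CT.DenL

/-! The data of the weighted sieve which detects the almost primes. -/

set_option autoImplicit false

namespace Pool.Agent.L7h32.CT

open Finset Filter Topology
open Pool.Agent.H410R2 hiding GP GP_prof GP_cut_some GP_cut_none GP_lip gg_pos gg_le_one gg_anti ee_bound ee_nonneg gg_lip LB_gg LB_ee Sums exists_sums yx wx wxi Br sum_GP_none sum_GP_some sum_GP_some_ee sum_GP_some_one sum_GPr_none sum_GPr_some S1_final QI_final S2_final w_abs_le wmax gg ee I1 I2 IE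
open Pool.Agent.H361R2.GM
open Pool.Agent.H362R2.CM
open Pool.Agent.W25.UN
open Pool.Agent.W25.UB
open Pool.Agent.TH899.UG
open Pool.Agent.W565.UB Pool.Agent.W565.UB.Dat
open Pool.Agent.W804.UBUD
open Pool.Agent.H442R2
open Pool.Agent.H442R2.KF (Wt)
open Pool.Agent.W23.PL (DW Ev hat xx)
open Pool.Agent.W89.UBMAS (grow)
open Pool.Agent.Y827.LS

/-- the conditions on one block -/
theorem cbk_okC {X : ℕ} (hX : 2 ≤ X) {θ δ κ₀ : ℝ} {n₀ m nb : ℕ} (hn₀ : 1 ≤ n₀)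
    (hκ₀ : κ₀ = 1 / (100 * n₀)) (hm : 1 ≤ m) (hθ : 1 / 2 ≤ θ) (hδ : 0 < δ) (hδ1 : δ ≤ 1 / 100)
    (hδ2 : 2 * δ ≤ 5 - 9 * θ) (hκδ : κ₀ ≤ δ / 14) {y : ℝ} {Cl : Finset ℕ} {b : ℕ → ℝ}
    (hb1 : ∀ d, |b d| ≤ 1)
    (hbs : ∀ d, b d ≠ 0 → 1 ≤ d ∧ Squarefree d ∧
      (∀ p : ℕ, p.Prime → p ∣ d → y < (p : ℝ) ∧ p ∉ Cl) ∧
      ((d : ℝ) ≤ (X : ℝ) ^ (51 / 100 : ℝ) ∨ Pool.Agent.W23.DC.FacO X δ d)) (i : ℕ) (hi : i < nb)
    (hnb : (nb : ℝ) * (κ₀ / m) ≤ θ) :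
    (∀ d, |cbk b X (κ₀ / m) i d| ≤ 1) ∧
    ((Dg X (κ₀ / m) (i + 1) : ℕ) : ℝ) ≤ (X : ℝ) ^ θ ∧
    ((Dg X (κ₀ / m) (i + 1) : ℕ) : ℝ) ≤ (X : ℝ) ^ Tw κ₀ (i / m) ∧
    1 ≤ Dg X (κ₀ / m) i ∧
    (∀ d, cbk b X (κ₀ / m) i d ≠ 0 → Dg X (κ₀ / m) i < d) ∧
    RC (fun p => p ∈ Cl) y (Dg X (κ₀ / m) (i + 1)) (cbk b X (κ₀ / m) i) ∧
    (∀ d, cbk b X (κ₀ / m) i d ≠ 0 → 1 < d ∧ Squarefree d ∧ ∀ p : ℕ, p.Prime → p ∣ d →
      y < (p : ℝ)) ∧
    Pool.Agent.W23.PL.Fc X (Tw κ₀ (i / m)) (δ / 2) (cbk b X (κ₀ / m) i)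
      (cbk b X (κ₀ / m) i) := by
  classical
  have hn0 : (1 : ℝ) ≤ n₀ := by exact_mod_cast hn₀
  have hm0 : (1 : ℝ) ≤ m := by exact_mod_cast hm
  have hκp : 0 < κ₀ := by rw [hκ₀]; positivity
  have hs : 0 < κ₀ / m := by positivity
  have hX1 : (1 : ℝ) < X := by exact_mod_cast (by omega : 1 < X)
  have hX0 : (0 : ℝ) < X := by linarith
  have hD1 := Dg_one_le (by omega : 1 ≤ X) hs.le i
  have hci : ∀ d, cbk b X (κ₀ / m) i d ≠ 0 → b d ≠ 0 ∧ Dg X (κ₀ / m) i < d ∧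
      d ≤ Dg X (κ₀ / m) (i + 1) := by
    intro d hd
    unfold cbk at hd
    by_cases h1 : Dg X (κ₀ / m) i < d ∧ d ≤ Dg X (κ₀ / m) (i + 1)
    · rw [if_pos h1] at hd
      exact ⟨hd, h1.1, h1.2⟩
    · rw [if_neg h1] at hd
      exact absurd rfl hd
  have hc1 : ∀ d, |cbk b X (κ₀ / m) i d| ≤ 1 := by
    intro d
    unfold cbk
    split_ifs
    · exact hb1 d
    · rw [abs_zero]; exact zero_le_one
  have hi1 : (i : ℝ) + 1 ≤ ((i / m : ℕ) + 1 : ℝ) * m := by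
    have h1 : i < (i / m + 1) * m := by
      have h2 := Nat.div_add_mod i m
      have h3 := Nat.mod_lt i (by omega : 0 < m)
      calc i = m * (i / m) + i % m := h2.symm
        _ < m * (i / m) + m := by omega
        _ = (i / m + 1) * m := by ring
    have h4 : i + 1 ≤ (i / m + 1) * m := h1
    exact_mod_cast h4
  have hi2 : ((i / m : ℕ) : ℝ) * m ≤ i := by
    have h1 : i / m * m ≤ i := Nat.div_mul_le_self i m
    exact_mod_cast h1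
  have hinb : (i : ℝ) + 1 ≤ nb := by exact_mod_cast hi
  refine ⟨hc1, ?_, ?_, hD1, fun d hd => (hci d hd).2.1, ⟨hc1, ?_⟩, ?_, ?_⟩
  · refine (Dg_le _ _).trans ?_
    apply Real.rpow_le_rpow_of_exponent_le hX1.le
    push_cast
    calc ((i : ℝ) + 1) * (κ₀ / m) ≤ nb * (κ₀ / m) := by gcongr
      _ ≤ θ := hnb
  · refine (Dg_le _ _).trans ?_
    apply Real.rpow_le_rpow_of_exponent_le hX1.le
    unfold Tw
    refine le_trans ?_ (le_max_right _ _)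
    push_cast
    calc ((i : ℝ) + 1) * (κ₀ / m) ≤ (((i / m : ℕ) + 1 : ℝ) * m) * (κ₀ / m) := by gcongr
      _ = _ := by field_simp
  · intro d hd
    obtain ⟨h1, h2, h3⟩ := hci d hd
    obtain ⟨h4, -, h5, -⟩ := hbs d h1
    exact ⟨h4, h3, fun p hp hpd => h5 p hp hpd⟩
  · intro d hd
    obtain ⟨h1, h2, h3⟩ := hci d hd
    obtain ⟨h4, h6, h5, -⟩ := hbs d h1
    exact ⟨by omega, h6, fun p hp hpd => (h5 p hp hpd).1⟩
  · unfold Pool.Agent.W23.PL.Fc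
    by_cases h51 : (((i / m : ℕ) : ℝ) + 1) * κ₀ ≤ 51 / 100
    · left
      unfold Tw
      rw [max_eq_left h51]
    · right
      push Not at h51
      have hT : Tw κ₀ (i / m) = (((i / m : ℕ) : ℝ) + 1) * κ₀ := by
        unfold Tw
        rw [max_eq_right h51.le]
      have hw : (51 / 100 : ℝ) ≤ ((i / m : ℕ) : ℝ) * κ₀ := by
        rw [hκ₀, mul_one_div, lt_div_iff₀ (by positivity)] at h51
        have h1 : ((51 * n₀ : ℕ) : ℝ) < ((i / m + 1 : ℕ) : ℝ) := by push_cast; linarith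
        have h2 : 51 * n₀ < i / m + 1 := by exact_mod_cast h1
        have h3 : 51 * n₀ ≤ i / m := by omega
        have h4 : ((51 * n₀ : ℕ) : ℝ) ≤ ((i / m : ℕ) : ℝ) := by exact_mod_cast h3
        push_cast at h4
        rw [hκ₀, mul_one_div, le_div_iff₀ (by positivity)]
        linarith
      have key : ∀ d, cbk b X (κ₀ / m) i d ≠ 0 →
          FX.FacD X (Tw κ₀ (i / m)) (δ / 2) d := by
        intro d hd
        obtain ⟨h1, h2, h3⟩ := hci d hd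
        obtain ⟨h4, h6, -, h7⟩ := hbs d h1
        have h8 : (X : ℝ) ^ (((i / m : ℕ) : ℝ) * κ₀) < d := by
          refine lt_of_le_of_lt ?_ (lt_Dg _ _ _ h2)
          apply Real.rpow_le_rpow_of_exponent_le hX1.le
          calc ((i / m : ℕ) : ℝ) * κ₀ = (((i / m : ℕ) : ℝ) * m) * (κ₀ / m) := by field_simp
            _ ≤ _ := by gcongr
        have h9 : (X : ℝ) ^ (51 / 100 : ℝ) < d :=
          lt_of_le_of_lt (Real.rpow_le_rpow_of_exponent_le hX1.le hw) h8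
        have h10 : Pool.Agent.W23.DC.FacO X δ d := by
          rcases h7 with h | h
          · exact absurd h9 (not_lt.2 h)
          · exact h
        apply Pool.Agent.W583.DC.facD_of_facO X (by omega) (Tw κ₀ (i / m)) δ κ₀ hκp hκδ d _ h10
        rw [hT]
        have e : (((i / m : ℕ) : ℝ) + 1) * κ₀ - κ₀ = ((i / m : ℕ) : ℝ) * κ₀ := by ring
        rw [e]
        exact h8
      exact ⟨key, key⟩

/-- all the data at `N` -/
structure DatC {k : ℕ} (Q : SPar) (α h : Fin k → ℤ) (Mo : ℕ) (c₀ ε₁ ρ ρ₁ ε η CR κ : ℝ)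
    (nb A E₁ D B N v D₁ Z : ℕ) (Tr : ℤ → ℝ) (t : ℝ) (th dl b : ℕ → ℝ) (Zb : ℕ → ℕ)
    (cb : ℕ → ℕ → ℝ) : Prop where
  dB : DatB Q α h Mo ε₁ ρ ρ₁ ε A E₁ D B N v D₁ Tr t th dl
  hdl : |hat dl D₁| ≤ κ * Pool.Agent.W23.PL.VV (PtF α h Mo N B ε₁)
  gle : gB α h Mo N B ε₁ ρ ≤ ρ / ε₁
  gge : ρ / (8 * ε₁) ≤ gB α h Mo N B ε₁ ρ
  βlo : c₀ * ε₁ ≤ ∑ d ∈ Icc 1 Z, b d / (d : ℝ)
  det : ∀ m : ℤ, m ≠ 0 → m.natAbs ≤ 4 * N → (∀ p : ℕ, p.Prime → (p : ℤ) ∣ m →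
    ((2 * N : ℕ) : ℝ) ^ ε₁ < (p : ℝ) ∧ p ∉ CL (uB α) (wB h Mo)) →
    (∀ q : ℕ, q.Prime → ((2 * N : ℕ) : ℝ) ^ (1 / 7 : ℝ) ≤ q → ¬ q ^ 2 ∣ m.natAbs) → 0 < ds b Z m →
    m.natAbs.primeFactorsList.length ≤ 2 ∧
      ∀ q ∈ m.natAbs.primeFactors, ((2 * N : ℕ) : ℝ) ^ (1 / 7 : ℝ) ≤ q
  sp : ∀ m : ℤ, ds b Z m = ∑ d ∈ Icc 1 Z, b d / (d : ℝ) + ∑ i ∈ range nb, dc (cb i) (Zb i) m
  blk : ∀ i < nb, BlkC α h Mo ε₁ ρ ρ₁ (111 / 200) η CR A E₁ D B N v D₁ Tr (Zb i) (cb i)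
  big : 4 * CR * ((2 * N : ℕ) : ℝ) ^ (η + 111 / 200) ≤ ((2 * N : ℕ) : ℝ) / (Real.log N) ^ A

theorem datC {𝒮 : ℤ → Prop} (hR2B : St_R2B 𝒮)
    (hR2 : ∃ ε₀ η : ℝ, 0 < ε₀ ∧ ε₀ ≤ 1 / 100 ∧ 0 < η ∧ η ≤ 1 / 100 ∧ R2LAt ε₀ η)
    (hEXM : St_EXM) (hGAU : St_GAU) (hFT3 : St_FT3)
    (hBPS : St_BPS) (hFLC : St_FLC3) (hSUM : St_SUM)
    (hMAS : St_MASH) (hVLN : St_VLNF) (hNWL : St_NWL) (hSd : SdLZ)
    (c₀ : ℝ) (hPC : ∀ ε₁ : ℝ, 0 < ε₁ → ε₁ ≤ 1 / 25 → ∃ X₀ : ℕ, ∀ X : ℕ, X₀ ≤ X →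
    ∀ Cl : Finset ℕ, (Cl.card : ℝ) ≤ (Real.log X) ^ 2 → ∀ Z : ℕ, Z = ⌊(X : ℝ) ^ (111 / 200 : ℝ)⌋₊ →
    ∃ b : ℕ → ℝ, (∀ d, |b d| ≤ 1) ∧
    (∀ d, b d ≠ 0 → 1 ≤ d ∧ d ≤ Z ∧ Squarefree d ∧
      (∀ p : ℕ, p.Prime → p ∣ d → (X : ℝ) ^ ε₁ < (p : ℝ) ∧ p ∉ Cl) ∧
      ((d : ℝ) ≤ (X : ℝ) ^ (51 / 100 : ℝ) ∨ Pool.Agent.W23.DC.FacO X (1 / 500) d)) ∧
    (∀ m : ℤ, m ≠ 0 → m.natAbs ≤ 2 * X → (∀ p : ℕ, p.Prime → (p : ℤ) ∣ m →
      (X : ℝ) ^ ε₁ < (p : ℝ) ∧ p ∉ Cl) →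
      (∀ q : ℕ, q.Prime → (X : ℝ) ^ (1 / 7 : ℝ) ≤ q → ¬ q ^ 2 ∣ m.natAbs) → 0 < ds b Z m →
      m.natAbs.primeFactorsList.length ≤ 2 ∧
        ∀ q ∈ m.natAbs.primeFactors, (X : ℝ) ^ (1 / 7 : ℝ) ≤ q) ∧
    c₀ * ε₁ ≤ ∑ d ∈ Icc 1 Z, b d / d)
    (A₀ c₁ : ℝ) (hA₀ : 2 ≤ A₀)
    (hRCX : ∀ ε : ℝ, 0 < ε → ε ≤ 1 → ∀ U : ℕ, 1 ≤ U → ∃ N₀ : ℕ,
      ∀ N Z : ℕ, N₀ ≤ N → Z ≤ N → ∀ c : ℕ → ℝ, (∀ d, |c d| ≤ 1) →
      (∀ d, c d ≠ 0 → 1 < d ∧ Squarefree d ∧ ∀ p : ℕ, p.Prime → p ∣ d → (N : ℝ) ^ ε < (p : ℝ)) →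
      ∀ u w n : ℤ, |u| ≤ U → |(w : ℝ)| ≤ 2 * U * N → u * n + w ≠ 0 →
      |dc c Z (u * n + w)| ≤ Real.exp (c₁ / ε) * (1 + |(n : ℝ)| / N) ^ (1 / 4 : ℝ)) :
    ∃ (nb : ℕ) (η₀ εs : ℝ), 0 < η₀ ∧ 0 < εs ∧ ∀ ε₁ : ℝ, 0 < ε₁ → ε₁ ≤ εs →
    ∀ (k : ℕ) (Q : SPar) (ρ ρ₁ ε : ℝ), 3 ≤ k → 0 < ρ → ρ < ρ₁ →
    2 * ρ₁ ≤ ε₁ → 3 * ρ ≤ η₀ → 0 < ε → ε < 1 / 3 → ε < Q.I1 → ε < Q.I2 → ∃ B₀ : ℕ, 6 ≤ B₀ ∧
    ∀ B : ℕ, B₀ ≤ B → ∀ D : ℕ, 2 * (k + 1) ≤ D → ∀ (α : Fin k → ℤ), (∀ i, 𝒮 (α i)) →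
    (∀ i, α i ≠ 0) → (∀ i, (α i).natAbs ≤ D) → ∀ᶠ N : ℕ in atTop, ∀ (h : Fin k → ℤ) (Mo : ℕ),
    HB h Mo N → Nd α h Mo → ∀ v : ℕ,
    ∃ (η : ℝ) (A E₁ D₁ Z : ℕ) (Tr : ℤ → ℝ) (t : ℝ) (th dl b : ℕ → ℝ) (Zb : ℕ → ℕ)
      (cb : ℕ → ℕ → ℝ), DatC Q α h Mo c₀ ε₁ ρ ρ₁ ε η (Real.exp (c₁ / ε₁)) (Real.exp (-(A₀ / ε₁)))
        nb A E₁ D B N v D₁ Z Tr t th dl b Zb cb := by
  classical
  obtain ⟨θ, hθd⟩ : ∃ θ : ℝ, θ = 111 / 200 := ⟨_, rfl⟩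
  obtain ⟨δ, hδd⟩ : ∃ δ : ℝ, δ = 1 / 500 := ⟨_, rfl⟩
  obtain ⟨n₀, hn₀d⟩ : ∃ n₀ : ℕ, n₀ = 70 := ⟨_, rfl⟩
  obtain ⟨J, hJd⟩ : ∃ J : ℕ, J = 3885 := ⟨_, rfl⟩
  have hn₀ : 1 ≤ n₀ := by omega
  have hθJ : θ = J * (1 / (100 * (n₀ : ℝ))) := by
    rw [hθd, hJd, hn₀d]
    norm_num
  have hθ : 51 / 100 ≤ θ := by rw [hθd]; norm_num
  have hθ' : θ < 5 / 9 := by rw [hθd]; norm_num
  have hδ : 0 < δ := by rw [hδd]; norm_num
  have hκδ : 1 / (100 * (n₀ : ℝ)) ≤ δ / 14 := by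
    rw [hδd, hn₀d]
    norm_num
  have hδ1 : δ ≤ 1 / 100 := by rw [hδd]; norm_num
  obtain ⟨κ₀, hκ₀⟩ : ∃ κ₀ : ℝ, κ₀ = 1 / (100 * (n₀ : ℝ)) := ⟨_, rfl⟩
  rw [← hκ₀] at hθJ hκδ
  have hn₀r : (1 : ℝ) ≤ n₀ := by exact_mod_cast hn₀
  have hκ₀p : 0 < κ₀ := by rw [hκ₀]; positivity
  have hJ1 : 1 ≤ J := by
    by_contra h
    have : J = 0 := by omega
    rw [this, Nat.cast_zero, zero_mul] at hθJ
    linarith
  have hTw : ∀ w : ℕ, w < J → 0 < Tw κ₀ w ∧ Tw κ₀ w < 5 / 9 := by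
    intro w hw
    unfold Tw
    refine ⟨lt_of_lt_of_le (by norm_num) (le_max_left _ _), max_lt (by norm_num) ?_⟩
    have h1 : (w : ℝ) + 1 ≤ J := by exact_mod_cast hw
    calc ((w : ℝ) + 1) * κ₀ ≤ J * κ₀ := by gcongr
      _ = θ := hθJ.symm
      _ < 5 / 9 := hθ'
  obtain ⟨e0, η, he0, he0', hη, hη', hRB⟩ := r2all hR2B (δ / 2) (by linarith) (Tw κ₀) J hTw
  obtain ⟨eR, ηR, heR, heR', hηR, hηR', hRR⟩ := hR2
  obtain ⟨η₀, hη₀d⟩ : ∃ η₀ : ℝ, η₀ = min (min e0 eR) (min η ηR) / 160 := ⟨_, rfl⟩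
  have hmin1 : min (min e0 eR) (min η ηR) ≤ e0 := (min_le_left _ _).trans (min_le_left _ _)
  have hmin2 : min (min e0 eR) (min η ηR) ≤ eR := (min_le_left _ _).trans (min_le_right _ _)
  have hmin3 : min (min e0 eR) (min η ηR) ≤ η := (min_le_right _ _).trans (min_le_left _ _)
  have hmin4 : min (min e0 eR) (min η ηR) ≤ ηR := (min_le_right _ _).trans (min_le_right _ _)
  have hminp : 0 < min (min e0 eR) (min η ηR) := lt_min (lt_min he0 heR) (lt_min hη hηR)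
  have hη0 : 0 < η₀ := by rw [hη₀d]; positivity
  obtain ⟨m, hmd⟩ : ∃ m : ℕ, m = ⌈2 * κ₀ / e0⌉₊ + 1 := ⟨_, rfl⟩
  have hm1 : 1 ≤ m := by omega
  have hm1r : (1 : ℝ) ≤ m := by exact_mod_cast hm1
  have hsm : κ₀ / m ≤ e0 / 2 := by
    have h1 : 2 * κ₀ / e0 ≤ m := by
      rw [hmd]
      push_cast
      have := Nat.le_ceil (2 * κ₀ / e0)
      linarith
    rw [div_le_iff₀ he0] at h1
    rw [div_le_iff₀ (by linarith)]
    linarith
  have hsp : 0 < κ₀ / m := by positivity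
  have hnb : ((J * m : ℕ) : ℝ) * (κ₀ / m) = θ := by
    rw [hθJ]
    push_cast
    field_simp
  obtain ⟨εf, hεf, hFL⟩ := hFLC η₀ A₀ hη0 (by linarith)
  refine ⟨J * m, η₀, min εf (1 / 25), hη0, lt_min hεf (by norm_num), ?_⟩
  intro ε₁ h1 h1' k Q ρ ρ₁ ε hk hρ hρρ hρ₁ h3ρ hε hε3 hI1 hI2
  have h1f : ε₁ ≤ εf := h1'.trans (min_le_left _ _)
  have h25 : ε₁ ≤ 1 / 25 := h1'.trans (min_le_right _ _)
  have h16 : ε₁ ≤ 1 / 16 := by linarith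
  obtain ⟨E, hM⟩ := hMAS eR ηR heR heR' hηR hηR' hRR k
  have hMB : ∀ w : ℕ, ∃ E : ℕ, w < J → ∀ (ε₁ η₀ r : ℝ) (A E₁ B D : ℕ) (α : Fin k → ℤ), 0 < ε₁ →
      ε₁ ≤ 1 → 0 < η₀ → 0 < r → 16 * r ≤ e0 / 10 → 16 * r ≤ η → 16 * η₀ ≤ e0 / 10 → 16 * η₀ ≤ η →
      E + 2 * E₁ + A ≤ B → 2 * (k + 1) ≤ D → (∀ i, 𝒮 (α i)) → (∀ i, α i ≠ 0) →
      (∀ i, (α i).natAbs ≤ D) → ∀ᶠ N : ℕ in atTop, ∀ (h : Fin k → ℤ) (Mo : ℕ), HB h Mo N →
      Nd α h Mo →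
      ∀ (v D₁ : ℕ) (P Pt : Finset ℕ) (Tr : ℤ → ℝ) (t : ℝ), D₁ = ⌊((2 * N : ℕ) : ℝ) ^ η₀⌋₊ →
      (∀ p ∈ P ∪ Pt, Gd (uB α) (wB h Mo) p ∧ DB (2 * N) B < p ∧
        (p : ℝ) ≤ ((2 * N : ℕ) : ℝ) ^ ε₁) →
      Ex (fun p => D < p ∧ p ≤ DB (2 * N) B) ((N : ℝ) ^ η₀) ((N : ℝ) ^ η₀) Tr t → |t| ≤ 2 →
      BlkAt (Tw κ₀ w) (δ / 2) e0 η α h Mo ε₁ r A E₁ D N v D₁ P Pt Tr := by
    intro w
    by_cases hw : w < J
    · obtain ⟨E, hE⟩ := masB hEXM hGAU hFT3 𝒮 (Tw κ₀ w) (δ / 2) e0 η he0 he0' hη hη' (hRB w hw) k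
      exact ⟨E, fun _ => hE⟩
    · exact ⟨0, fun h => absurd h hw⟩
  choose EB hEB using hMB
  obtain ⟨mm, hprod⟩ := prods_le 4 (by norm_num)
  obtain ⟨E', hE'⟩ : ∃ E' : ℕ, E' = E + ∑ w ∈ range J, EB w := ⟨_, rfl⟩
  have hEB' : ∀ w < J, EB w ≤ E' := by
    intro w hw
    have := Finset.single_le_sum (f := EB) (fun i _ => Nat.zero_le _) (Finset.mem_range.2 hw)
    omega
  refine ⟨max 6 (E' + 2 * (mm * 6) + 12), le_max_left _ _, ?_⟩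
  intro B hB D hD α h𝒮 hα hαD
  have hB6 : 6 ≤ B := (le_max_left _ _).trans hB
  have hBE : E' + 2 * (mm * 6) + 12 ≤ B := (le_max_right _ _).trans hB
  have hD8 : 8 ≤ D := by omega
  have hρ1 : ρ₁ ≤ 1 / 4 := by linarith
  obtain ⟨C', hCev⟩ := clH k α
  have eS := hSUM Q (k + 1) ε ρ ρ₁ (|C'| + 1) B hε hρ hρρ (by omega)
  have eM := hM ε₁ η₀ (3 * ρ) 1 12 (mm * 6) B D α h1 (by linarith) hη0
    (by linarith) (by linarith) (by linarith) (by linarith) (by linarith) le_rfl (by omega) hD hα hαD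
  have eB : ∀ᶠ N : ℕ in atTop, ∀ w ∈ range J, ∀ (h : Fin k → ℤ) (Mo : ℕ), HB h Mo N →
      Nd α h Mo →
      ∀ (v D₁ : ℕ) (P Pt : Finset ℕ) (Tr : ℤ → ℝ) (t : ℝ), D₁ = ⌊((2 * N : ℕ) : ℝ) ^ η₀⌋₊ →
      (∀ p ∈ P ∪ Pt, Gd (uB α) (wB h Mo) p ∧ DB (2 * N) B < p ∧
        (p : ℝ) ≤ ((2 * N : ℕ) : ℝ) ^ ε₁) →
      Ex (fun p => D < p ∧ p ≤ DB (2 * N) B) ((N : ℝ) ^ η₀) ((N : ℝ) ^ η₀) Tr t → |t| ≤ 2 →
      BlkAt (Tw κ₀ w) (δ / 2) e0 η α h Mo ε₁ (3 * ρ) 12 (mm * 6) D N v D₁ P Pt Tr := by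
    rw [Filter.eventually_all_finset]
    intro w hw
    have hwJ := Finset.mem_range.1 hw
    have := hEB' w hwJ
    exact hEB w hwJ ε₁ η₀ (3 * ρ) 12 (mm * 6) B D α h1 (by linarith) hη0
      (by linarith) (by linarith) (by linarith) (by linarith) (by linarith) (by omega) hD h𝒮 hα hαD
  have eV := hVLN k B D ε₁ ρ (by omega) hD h1 (by linarith) hρ
  have eV10 := hVLN k B D ε₁ (ρ / 10) (by omega) hD h1 (by linarith) (by linarith)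
  obtain ⟨N1, hBP⟩ := hBPS k (B + 1) 2 η₀ hη0
  obtain ⟨N2, hFL2⟩ := hFL ε₁ h1 h1f B hB6
  obtain ⟨N3, hLS⟩ := hPC ε₁ h1 h25
  obtain ⟨N6, hDL⟩ := denL B ε₁ h1 (by linarith)
  obtain ⟨N4, hDE⟩ := den B ε₁ (ε / 3) (by omega) h1 (by linarith) (by linarith)
  obtain ⟨N5, hRX⟩ := hRCX ε₁ h1 (by linarith) D (by omega)
  have ebig := grow 12 (1 - (η + θ)) (4 * Real.exp (c₁ / ε₁)) (by linarith)
  have ehalf := grow 0 (e0 / 2) 2 (by linarith)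
  obtain ⟨L₀, hL₀⟩ : ∃ L₀ : ℝ, 0 < Br2 Q k ε → ∀ (L b : ℝ) (D' : ℕ) (P : Finset ℕ) (i j : Fin k)
    (Lf : Option (Fin k) → ℕ → ℕ), SieveData (IP P) (Option (Fin k)) (prP P) Lf 1 →
    L₀ ≤ L → L ^ 2 ≤ (D' : ℝ) → (∀ p ∈ P, p.Prime ∧ D' < p) → 0 < BD D' → b = BD D' * L →
    SumsN Q D' ε (k + 1) L P → i ≠ j →
    (1 - ε) ^ 4 * (b * (Q.I1 - ε)) ^ 4 / (b * (1 + ε)) ^ 2 * (b * (1 - ε)) *
      (b / 48 * b ^ (k - 2) * Br2 Q k ε) ≤ Q1f (prP P) (cw (prP P) (zB Q k P L i j)) := by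
    by_cases hb : 0 < Br2 Q k ε
    · obtain ⟨L₀, hL⟩ := hNWL k Q ε hε hε3 hI1 hI2 hb
      exact ⟨L₀, fun _ => hL⟩
    · exact ⟨0, fun h => absurd h hb⟩
  filter_upwards [hCev, eS, eM, eB, eV, eV10, hprod, ebig, ehalf,
    eventually_ge_atTop N1, eventually_ge_atTop N2, eventually_ge_atTop N3,
    eventually_ge_atTop N4, eventually_ge_atTop N5, eventually_ge_atTop N6, eventually_ge_atTop 64, evlog 2,
    evlog (1 / ε), evlog (L₀ / ρ), evlog (96 * ((WW D / 2 : ℕ) : ℝ) / ε), evlog (|C'| + 1),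
    evlog ((2 : ℝ) ^ B)] with N hC hS hMa hBl hV hV10 hPr hbig hhalf hN1 hN2 hN3 hN4 hN5 hN6 hN64 hl2
      hlε hlL hlW hlC hlB h Mo hMoN hnd v
  have hC := hC h Mo hMoN hnd
  have hMa := hMa h Mo hMoN hnd
  have hV := hV α h Mo hα hαD
  have hV10 := hV10 α h Mo hα hαD
  have hN1r : (64 : ℝ) ≤ N := by exact_mod_cast hN64
  have hN0 : (0 : ℝ) < N := by linarith only [hN1r]
  have hc2 : ((2 * N : ℕ) : ℝ) = 2 * (N : ℝ) := by push_cast; ring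
  have h2N : (1 : ℝ) < ((2 * N : ℕ) : ℝ) := by rw [hc2]; linarith only [hN1r]
  have h2N0 : (0 : ℝ) < ((2 * N : ℕ) : ℝ) := by linarith only [h2N]
  have hll : Real.log N ≤ Real.log ((2 * N : ℕ) : ℝ) :=
    Real.log_le_log hN0 (by rw [hc2]; linarith only [hN1r])
  have hll2 : Real.log ((2 * N : ℕ) : ℝ) ≤ 2 * Real.log N := by
    rw [hc2, Real.log_mul (by norm_num) hN0.ne']
    have h3 := Real.log_two_lt_d9
    linarith only [h3, hl2]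
  have hl1 : 1 ≤ Real.log N := by linarith only [hl2]
  have hl0 : 0 < Real.log N := by linarith only [hl2]
  have hl20 : 0 < Real.log ((2 * N : ℕ) : ℝ) := hl0.trans_le hll
  -- the sets
  obtain ⟨hVa, hVb, hVc, hVd, hVe, hVf, hVg, hVh⟩ := hV
  obtain ⟨hg1, hg2, hg3, hg4⟩ := hVg (CL (uB α) (wB h Mo))
  have hcard : ((CL (uB α) (wB h Mo)).card : ℝ) ≤ (|C'| + 1) * Real.log N - 1 := by
    have h3 : C' * Real.log N ≤ |C'| * Real.log N := by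
      have := le_abs_self C'
      gcongr
    have h4 := hC
    linarith only [h3, h4, hl1]
  have hcard2 : ((CL (uB α) (wB h Mo)).card : ℝ) ≤ (Real.log ((2 * N : ℕ) : ℝ)) ^ 2 := by
    have h3 : (|C'| + 1) * Real.log N ≤ Real.log N * Real.log N := by gcongr
    have h4 : Real.log N * Real.log N ≤ (Real.log ((2 * N : ℕ) : ℝ)) ^ 2 := by
      rw [pow_two]
      gcongr
    linarith only [h3, h4, hcard]
  have hgd : ∀ p ∈ PtF α h Mo N B ε₁, Gd (uB α) (wB h Mo) p ∧ DB (2 * N) B < p ∧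
      (p : ℝ) ≤ ((2 * N : ℕ) : ℝ) ^ ε₁ := by
    intro p hp
    obtain ⟨hp1, hp2, hp3⟩ := hg1 p hp
    have hpC : p ∉ CL (uB α) (wB h Mo) := by
      unfold PtF at hp
      exact (Finset.mem_sdiff.1 hp).2
    refine ⟨⟨hp1, by omega, fun j => uB_ndvdF hα hαD hp1 (by omega) j, ?_⟩, hp2, hp3.le⟩
    intro j l hjl
    exact CL_ndvd hnd hp1 hpC j l hjl
  have hexp : Real.exp (ρ₁ * Real.log N) < ((2 * N : ℕ) : ℝ) ^ ε₁ := by
    rw [Real.rpow_def_of_pos h2N0]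
    apply Real.exp_lt_exp.2
    have h3 : ρ₁ * Real.log N ≤ ε₁ / 2 * Real.log N := by
      have : ρ₁ ≤ ε₁ / 2 := by linarith only [hρ₁]
      gcongr
    have h4 : ε₁ / 2 * Real.log N < ε₁ * Real.log N := by
      have h8 : 0 < ε₁ / 2 * Real.log N := by positivity
      linarith only [h8]
    have h5 : ε₁ * Real.log N ≤ ε₁ * Real.log ((2 * N : ℕ) : ℝ) := by gcongr
    linarith only [h3, h4, h5]
  have hsub : PBF α h Mo N B ρ₁ ⊆ PtF α h Mo N B ε₁ := by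
    intro p hp
    rw [PBF_mem] at hp
    exact hg2 p hp.1 hp.2.1 (lt_of_le_of_lt hp.2.2.1 hexp) hp.2.2.2
  have hPBp : ∀ p ∈ PBF α h Mo N B ρ₁, p.Prime ∧ DB (2 * N) B < p := by
    intro p hp
    rw [PBF_mem] at hp
    exact ⟨hp.1, hp.2.1⟩
  have hsums := ((hS (CL (uB α) (wB h Mo)) (PBF α h Mo N B ρ₁) (by linarith only [hcard]) hPBp).1 (by
    intro p hp1 hp2 hp3 hp4
    rw [PBF_mem]
    exact ⟨hp1, hp2, hp3, hp4⟩)).1
  have hbd0 : 0 < BD (DB (2 * N) B) := BD_pos _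
  have hb10 : 10 ≤ bb N B ρ := by
    obtain ⟨_, _, _, _, _, h10, _⟩ := hV10
    unfold bb
    have e : BD (DB (2 * N) B) * (ρ / 10 * Real.log N) =
      (BD (DB (2 * N) B) * (ρ * Real.log N)) / 10 := by ring
    rw [e] at h10
    linarith only [h10]
  have hPBne : (PBF α h Mo N B ρ₁).Nonempty := by
    by_contra hne
    rw [Finset.not_nonempty_iff_eq_empty] at hne
    have h5 := hsums.l5
    rw [hne, SS_empty _ _ (by positivity)] at h5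
    have h6 : bb N B ρ * (1 - ε) ≤ 1 := h5
    nlinarith only [h6, hb10, hε3]
  have hsd := hSd k (uB α) (wB h Mo) (PBF α h Mo N B ρ₁) (fun p hp => (hPBp p hp).1)
    (fun p hp j => uB_ndvdF hα hαD (hPBp p hp).1 (lt_of_le_of_lt hVa (hPBp p hp).2) j)
    (fun p hp j l hjl => (hgd p (hsub hp)).1.2.2.2 j l hjl)
  -- the presieve
  have hDBle : (DB (2 * N) B : ℝ) ≤ (Real.log N) ^ (B + 1) := by
    refine hVc.trans ?_
    calc (Real.log ((2 * N : ℕ) : ℝ)) ^ B ≤ (2 * Real.log N) ^ B :=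
          pow_le_pow_left₀ (hl0.le.trans hll) hll2 B
      _ = 2 ^ B * (Real.log N) ^ B := by rw [mul_pow]
      _ ≤ Real.log N * (Real.log N) ^ B := by gcongr
      _ = _ := by ring
  obtain ⟨Tr, t, hEx, hTr0, hTr1, ht⟩ := hBP N hN1 (uB α) (wB h Mo) D (DB (2 * N) B) hD hVa hDBle
    (fun p hp hDp j => uB_ndvdF hα hαD hp hDp j)
  have ht' : |t - Pool.Agent.W25.UN.VV α h Mo D (DB (2 * N) B)| ≤ 1 / (Real.log N) ^ 2 := ht
  have hVp : 0 < Pool.Agent.W25.UN.VV α h Mo D (DB (2 * N) B) :=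
    lt_of_lt_of_le (by positivity) hVd
  have ht1 : |t - Pool.Agent.W25.UN.VV α h Mo D (DB (2 * N) B)| ≤
      ε * Pool.Agent.W25.UN.VV α h Mo D (DB (2 * N) B) := by
    refine ht'.trans ?_
    have h3 : 1 / (Real.log N) ^ 2 ≤ ε * (1 / Real.log N) := by
      rw [div_le_iff₀ hε] at hlε
      rw [mul_one_div, div_le_div_iff₀ (by positivity) hl0]
      nlinarith only [hlε, hl0]
    refine h3.trans ?_
    gcongr
  have ht2 : |t| ≤ 2 := by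
    have h3 : 1 / (Real.log N) ^ 2 ≤ 1 := by
      rw [div_le_one (by positivity)]
      exact one_le_pow₀ hl1
    have h4 := abs_le.1 (ht'.trans h3)
    have h5 := h4.1
    have h6 := h4.2
    rw [abs_le]
    constructor
    · linarith only [h5, h6, hVp, hVe]
    · linarith only [h5, h6, hVp, hVe]
  -- the fundamental lemma
  obtain ⟨th, dl, hth, hdl, hfl, hht, hhd⟩ := hFL2 (2 * N) (by omega)
    ⌊((2 * N : ℕ) : ℝ) ^ η₀⌋₊ rfl (CL (uB α) (wB h Mo)) hcard2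
  have hcube := exp_cube hA₀ h1
  have hV0 : 0 < Pool.Agent.W23.PL.VV (PtF α h Mo N B ε₁) := lt_of_lt_of_le (by positivity) hg3
  have hvGe : vGF α h Mo N B 1 ε₁ = Pool.Agent.W23.PL.VV (PtF α h Mo N B ε₁) := by
    unfold vGF
    rw [GG1, div_one]
  have hvg4 : 1 / (Real.log N) ^ 4 ≤ vGF α h Mo N B 1 ε₁ := by
    rw [hvGe]
    refine le_trans ?_ hg3
    apply one_div_le_one_div_of_le (by positivity)
    exact pow_le_pow_right₀ hl1 (by norm_num)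
  have hgdU : ∀ p ∈ PBF α h Mo N B ρ₁ ∪ PtF α h Mo N B ε₁, Gd (uB α) (wB h Mo) p ∧ DB (2 * N) B < p ∧
      (p : ℝ) ≤ ((2 * N : ℕ) : ℝ) ^ ε₁ := by
    intro p hp
    rw [Finset.mem_union] at hp
    rcases hp with hp | hp
    · exact hgd p (hsub hp)
    · exact hgd p hp
  have hWt : ∀ (X : ℕ) (n : ℤ), 0 ≤ Wt X n := fun X n => (Real.exp_pos _).le
  have hD1 : 1 ≤ ⌊((2 * N : ℕ) : ℝ) ^ η₀⌋₊ := by
    apply Nat.le_floor
    rw [Nat.cast_one]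
    exact Real.one_le_rpow h2N.le hη0.le
  -- the weighted sieve
  obtain ⟨b, hbb, hbs, hbdet, hbm⟩ := hLS (2 * N) (by omega)
    (CL (uB α) (wB h Mo)) hcard2 ⌊((2 * N : ℕ) : ℝ) ^ (111 / 200 : ℝ)⌋₊ rfl
  rw [← hθd] at hbs hbdet hbm
  have hDge : Dg (2 * N) (κ₀ / m) (J * m) = ⌊((2 * N : ℕ) : ℝ) ^ θ⌋₊ := by
    unfold Dg
    rw [hnb]
  have hγ := Real.exp_pos Real.eulerMascheroniConstant
  have hγ2 := exp_gamma_lt
  have hθp : 0 < θ := by linarith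
  have hgbb : gB α h Mo N B ε₁ ρ ≤ (1 + ε / 3) *
      (Real.exp (-Real.eulerMascheroniConstant) * ρ / ε₁) := by
    have h3 := hDE (2 * N) (by omega) (CL (uB α) (wB h Mo)) hcard2
    have e1 : gB α h Mo N B ε₁ ρ = Pool.Agent.W23.PL.VV (Pool.Agent.W23.PL.P1 (2 * N) B ε₁ \
        CL (uB α) (wB h Mo)) * Pool.Agent.H410R2.BD (⌈(Real.log ((2 * N : ℕ) : ℝ)) ^ B⌉₊ - 1) *
        (ρ * Real.log N) := by
      unfold Pool.Agent.Y827.LS.gB bb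
      rw [hvGe]
      unfold PtF DB
      ring
    rw [e1]
    calc _ ≤ (1 + ε / 3) * (Real.exp (-Real.eulerMascheroniConstant) /
          (ε₁ * Real.log ((2 * N : ℕ) : ℝ))) * (ρ * Real.log N) := by
          apply mul_le_mul_of_nonneg_right h3 (by positivity)
      _ = (1 + ε / 3) * (Real.exp (-Real.eulerMascheroniConstant) * ρ / ε₁) *
          (Real.log N / Real.log ((2 * N : ℕ) : ℝ)) := by
          field_simp
      _ ≤ (1 + ε / 3) * (Real.exp (-Real.eulerMascheroniConstant) * ρ / ε₁) * 1 := by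
          apply mul_le_mul_of_nonneg_left _ (by positivity)
          rw [div_le_one hl20]
          exact hll
      _ = _ := mul_one _
  have hgb0 : 0 ≤ gB α h Mo N B ε₁ ρ := by
    unfold Pool.Agent.Y827.LS.gB
    rw [hvGe]
    have : 0 < bb N B ρ := by linarith
    positivity
  have hgle : gB α h Mo N B ε₁ ρ ≤ ρ / ε₁ := by
    refine hgbb.trans ?_
    have h3 : (1 + ε / 3) * Real.exp (-Real.eulerMascheroniConstant) ≤ 1 := by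
      have h4 := Real.one_half_lt_eulerMascheroniConstant
      have h5 : (3 : ℝ) / 2 ≤ Real.exp (1 / 2) := by
        have := Real.add_one_le_exp (1 / 2 : ℝ)
        linarith
      have h6 : Real.exp (1 / 2) ≤ Real.exp Real.eulerMascheroniConstant :=
        Real.exp_le_exp.2 h4.le
      rw [Real.exp_neg, ← div_eq_mul_inv, div_le_one hγ]
      linarith
    have h4 : 0 ≤ ρ / ε₁ := by positivity
    calc (1 + ε / 3) * (Real.exp (-Real.eulerMascheroniConstant) * ρ / ε₁) =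
        ((1 + ε / 3) * Real.exp (-Real.eulerMascheroniConstant)) * (ρ / ε₁) := by ring
      _ ≤ 1 * (ρ / ε₁) := mul_le_mul_of_nonneg_right h3 h4
      _ = _ := one_mul _
  have hgge : ρ / (8 * ε₁) ≤ gB α h Mo N B ε₁ ρ := by
    have h3 := hDL (2 * N) (by omega) (CL (uB α) (wB h Mo))
    have e1 : gB α h Mo N B ε₁ ρ = Pool.Agent.W23.PL.VV (Pool.Agent.W23.PL.P1 (2 * N) B ε₁ \
        CL (uB α) (wB h Mo)) * Pool.Agent.H410R2.BD (⌈(Real.log ((2 * N : ℕ) : ℝ)) ^ B⌉₊ - 1) *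
        (ρ * Real.log N) := by
      unfold Pool.Agent.Y827.LS.gB bb
      rw [hvGe]
      unfold PtF DB
      ring
    rw [e1]
    have h4 : ρ / (8 * ε₁) ≤ 1 / (4 * (ε₁ * Real.log ((2 * N : ℕ) : ℝ))) * (ρ * Real.log N) := by
      rw [div_mul_eq_mul_div, one_mul, div_le_div_iff₀ (by positivity) (by positivity)]
      have h5 := mul_le_mul_of_nonneg_left hll2 (by positivity : 0 ≤ 4 * ρ * ε₁)
      linarith
    exact h4.trans (mul_le_mul_of_nonneg_right h3 (by positivity))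
  -- the blocks
  have hblk : ∀ i < J * m, BlkC α h Mo ε₁ ρ ρ₁ θ η (Real.exp (c₁ / ε₁)) 12 (mm * 6) D B N v
      ⌊((2 * N : ℕ) : ℝ) ^ η₀⌋₊ Tr (Dg (2 * N) (κ₀ / m) (i + 1)) (cbk b (2 * N) (κ₀ / m) i) := by
    intro i hi
    obtain ⟨k1, k2, k3, k4, k5, k6, k7, k8⟩ := cbk_okC (X := 2 * N) (by omega) (θ := θ) (δ := δ)
      hn₀ hκ₀ hm1 (by linarith) hδ hδ1 (by rw [hδd, hθd]; norm_num) hκδ (y := ((2 * N : ℕ) : ℝ) ^ ε₁)
      (Cl := CL (uB α) (wB h Mo)) hbb (fun d hd => by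
        obtain ⟨s1, s2, s3, s4, s5⟩ := hbs d hd
        rw [← hδd] at s5
        exact ⟨s1, s3, s4, s5⟩) i hi hnb.le
    have hiJ : i / m < J := Nat.div_lt_of_lt_mul (by rw [mul_comm]; exact hi)
    have hZD : ((Dg (2 * N) (κ₀ / m) (i + 1) : ℕ) : ℝ) ≤
        ((2 * N : ℕ) : ℝ) ^ e0 * (Dg (2 * N) (κ₀ / m) i : ℕ) := by
      have h3 := lt_Dg (X := 2 * N) (κ₀ / m) i (Dg (2 * N) (κ₀ / m) i + 1) (Nat.lt_succ_self _)
      have h4 : (1 : ℝ) ≤ (Dg (2 * N) (κ₀ / m) i : ℕ) := by exact_mod_cast k4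
      push_cast at h3
      have h5 : ((2 * N : ℕ) : ℝ) ^ ((i : ℝ) * (κ₀ / m)) ≤ 2 * (Dg (2 * N) (κ₀ / m) i : ℕ) := by
        push_cast
        linarith
      have h6 : 2 ≤ ((2 * N : ℕ) : ℝ) ^ (e0 / 2) := by
        have := hhalf
        rwa [pow_zero, mul_one] at this
      calc ((Dg (2 * N) (κ₀ / m) (i + 1) : ℕ) : ℝ) ≤
          ((2 * N : ℕ) : ℝ) ^ (((i + 1 : ℕ) : ℝ) * (κ₀ / m)) := Dg_le _ _
        _ = ((2 * N : ℕ) : ℝ) ^ (κ₀ / m) * ((2 * N : ℕ) : ℝ) ^ ((i : ℝ) * (κ₀ / m)) := by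
            rw [← Real.rpow_add h2N0]
            congr 1
            push_cast
            ring
        _ ≤ ((2 * N : ℕ) : ℝ) ^ (e0 / 2) * (2 * (Dg (2 * N) (κ₀ / m) i : ℕ)) := by
            apply mul_le_mul _ h5 (Real.rpow_nonneg h2N0.le _) (Real.rpow_nonneg h2N0.le _)
            exact Real.rpow_le_rpow_of_exponent_le h2N.le hsm
        _ = ((2 * N : ℕ) : ℝ) ^ (e0 / 2) * 2 * (Dg (2 * N) (κ₀ / m) i : ℕ) := by ring
        _ ≤ ((2 * N : ℕ) : ℝ) ^ (e0 / 2) * ((2 * N : ℕ) : ℝ) ^ (e0 / 2) *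
            (Dg (2 * N) (κ₀ / m) i : ℕ) := by
            apply mul_le_mul_of_nonneg_right _ (Nat.cast_nonneg _)
            exact mul_le_mul_of_nonneg_left h6 (Real.rpow_nonneg h2N0.le _)
        _ = _ := by
            rw [← Real.rpow_add h2N0]
            congr 2
            ring
    have hB' := hBl (i / m) (Finset.mem_range.2 hiJ) h Mo hMoN hnd v _ (PBF α h Mo N B ρ₁)
      (PtF α h Mo N B ε₁) Tr t rfl hgdU hEx ht2
    refine ⟨k1, k2, ?_, ?_⟩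
    · intro j n hLf
      have hw : |((wB h Mo (some j) : ℤ) : ℝ)| ≤ 2 * (D : ℝ) * ((2 * N : ℕ) : ℝ) := by
        have h3 : ((wB h Mo (some j) : ℤ) : ℝ) = (Mo : ℝ) + h j := by
          show (((Mo : ℤ) + h j : ℤ) : ℝ) = _
          push_cast; rfl
        rw [h3, hc2]
        have h4 := hMoN.real j
        have h5 : (8 : ℝ) ≤ D := by exact_mod_cast hD8
        nlinarith only [h4, hN0, h5]
      have hu : |uB α (some j)| ≤ (D : ℤ) := by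
        show |α j| ≤ (D : ℤ)
        rw [Int.abs_eq_natAbs]
        exact_mod_cast hαD j
      have hZle : Dg (2 * N) (κ₀ / m) (i + 1) ≤ 2 * N := by
        have h3 : ((Dg (2 * N) (κ₀ / m) (i + 1) : ℕ) : ℝ) ≤ ((2 * N : ℕ) : ℝ) := by
          refine k2.trans ?_
          calc ((2 * N : ℕ) : ℝ) ^ θ ≤ ((2 * N : ℕ) : ℝ) ^ (1 : ℝ) :=
                Real.rpow_le_rpow_of_exponent_le h2N.le (by linarith)
            _ = _ := Real.rpow_one _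
        exact_mod_cast h3
      exact hRX (2 * N) _ (by omega) hZle _ k1 k7 (uB α (some j)) (wB h Mo (some j)) n hu hw hLf
    · intro cc j j' th1 th2 hjj hcc hcR hth1 hth2 ha1 ha2
      exact hB' (Dg (2 * N) (κ₀ / m) i) (Dg (2 * N) (κ₀ / m) (i + 1)) cc j j' th1 th2
        (cbk b (2 * N) (κ₀ / m) i) k3 k4 hZD hjj hcc hcR hth1 hth2 ha1 ha2 k6 k5 k8
  refine ⟨η, 12, mm * 6, ⌊((2 * N : ℕ) : ℝ) ^ η₀⌋₊, ⌊((2 * N : ℕ) : ℝ) ^ θ⌋₊, Tr, t, th, dl, b,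
    fun i => Dg (2 * N) (κ₀ / m) (i + 1), fun i => cbk b (2 * N) (κ₀ / m) i, ?_⟩
  exact {
    dB := {
      k3 := hk
      α1 := hα
      N8 := by omega
      l1 := hl1
      ρ0 := hρ
      ε0 := hε
      ε3 := hε3
      e10 := h1
      e11 := by linarith
      M1 := le_rfl
      C11 := le_rfl
      W2 := WW_two D (by omega)
      sub := hsub
      ne := hPBne.mono hsub
      gd := hgdU
      sd := hsd
      sums := hsums
      low := by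
        intro hbr i j hij
        refine hL₀ hbr (ρ * Real.log N) (bb N B ρ) (DB (2 * N) B) (PBF α h Mo N B ρ₁) i j _ hsd ?_ ?_
          hPBp hbd0 rfl hsums hij
        · rw [div_le_iff₀ hρ] at hlL
          linarith only [hlL]
        · have h3 : (ρ * Real.log N) ^ 2 ≤ (Real.log N) ^ 2 := by
            apply pow_le_pow_left₀ (by positivity)
            nlinarith only [hl0, hρρ, hρ1]
          have h4 : (Real.log N) ^ 6 ≤ (Real.log ((2 * N : ℕ) : ℝ)) ^ B := by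
            calc (Real.log N) ^ 6 ≤ (Real.log N) ^ B := pow_le_pow_right₀ hl1 hB6
              _ ≤ _ := pow_le_pow_left₀ hl0.le hll B
          have h5 : (Real.log N) ^ 2 + 1 ≤ (Real.log N) ^ 6 := by
            have h6 : (4 : ℝ) ≤ (Real.log N) ^ 2 := by nlinarith only [hl2]
            have h7 : (Real.log N) ^ 6 = ((Real.log N) ^ 2) ^ 3 := by ring
            rw [h7]
            set q := (Real.log N) ^ 2 with hq
            have h8 : 16 * q ≤ q ^ 3 := by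
              have h9 : 16 ≤ q ^ 2 := by nlinarith only [h6]
              have h10 : q ^ 3 = q ^ 2 * q := by ring
              rw [h10]
              have h11 : 0 ≤ q := by linarith only [h6]
              gcongr
            linarith only [h8, h6]
          linarith only [h3, h4, h5, hVb]
      bd0 := hbd0
      b1 := hVf
      Tr0 := hTr0
      Tr1 := hTr1
      Vp := hVp
      t1 := ht1
      V0 := hV0
      V1 := hg4
      G1 := by rw [GG1]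
      vg := by
        have e : (1 : ℝ) / 4 + (-2) / 8 = 0 := by norm_num
        rw [e, zero_mul, mul_zero]
        exact hρ.le
      dth := hth
      ddl := hdl
      fl := hfl
      hth := hht.trans (mul_le_mul_of_nonneg_right hcube hV0.le)
      hdl := hhd.trans (mul_le_mul_of_nonneg_right hcube hV0.le)
      D1 := hD1
      z1 := le_rfl
      z2 := by
        have e : (1 : ℝ) / 2 + (-2) / 4 = 0 := by norm_num
        rw [e, Real.rpow_zero]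
        norm_num
      z3 := by omega
      bM := triv_RCM _ _ _ le_rfl 1 le_rfl
      bn := by
        intro m'
        rw [triv_ds _ (by norm_num)]
        exact zero_le_one
      bo := by
        intro m' _
        exact triv_ds _ (by norm_num) m'
      bs := by
        rw [triv_sum _ (by norm_num), GG1, div_one]
      rcb := by
        intro j n _
        rw [triv_ds _ (by norm_num), mul_one, one_mul]
        exact Wt_mono24 N (by omega) n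
      size := by
        have h3 := hPr (PBF α h Mo N B ρ₁) (by
          intro p hp
          refine ⟨(hPBp p hp).1, ?_⟩
          rw [PBF_mem] at hp
          refine hp.2.2.1.trans ?_
          have h4 : ρ₁ * Real.log N ≤ Real.log N := by nlinarith only [hl0, hρ1]
          calc Real.exp (ρ₁ * Real.log N) ≤ Real.exp (Real.log N) := Real.exp_le_exp.2 h4
            _ = N := Real.exp_log hN0)
        rw [pow_mul]
        apply pow_le_pow_left₀ _ h3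
        apply Finset.prod_nonneg
        intro t _
        positivity
      mas := MasAtF_mono (by omega) (hMa v _ (PBF α h Mo N B ρ₁) (PtF α h Mo N B ε₁) Tr t rfl hgdU
        hEx ht2) (-2) (by linarith)
      small := by
        have h3 := small_alg (Real.log N) N (Pool.Agent.W25.UN.VV α h Mo D (DB (2 * N) B))
          ((WW D / 2 : ℕ) : ℝ) (bb N B ρ) (vGF α h Mo N B 1 ε₁) ε k hl1 hN0.le hVd
          (by exact_mod_cast WW_two D (by omega)) hVf hvg4 hε hlW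
        unfold MMF
        have h4 : ((4 * N : ℕ) : ℝ) = 4 * (N : ℝ) := by push_cast; ring
        rw [h4, hc2]
        exact h3 }
    hdl := hhd
    gle := hgle
    gge := hgge
    βlo := hbm
    det := by
      intro m' g1 g2 g3 g4 g5
      exact hbdet m' g1 (by omega) g3 g4 g5
    sp := by
      intro m'
      rw [← hDge]
      exact split b (by omega) hsp.le (J * m) m'
    blk := by
      rw [← hθd]
      exact hblk
    big := by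
      rw [← hθd]
      have h3 : ((2 * N : ℕ) : ℝ) = ((2 * N : ℕ) : ℝ) ^ (η + θ) * ((2 * N : ℕ) : ℝ) ^ (1 - (η + θ)) := by
        rw [← Real.rpow_add h2N0]
        have : η + θ + (1 - (η + θ)) = 1 := by ring
        rw [this, Real.rpow_one]
      have hp12 : 0 < (Real.log N) ^ 12 := by positivity
      rw [le_div_iff₀ hp12]
      have h4 : 4 * Real.exp (c₁ / ε₁) * (Real.log N) ^ 12 ≤
          ((2 * N : ℕ) : ℝ) ^ (1 - (η + θ)) := by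
        refine le_trans ?_ hbig
        apply mul_le_mul_of_nonneg_left _ (by positivity)
        exact pow_le_pow_left₀ hl0.le hll 12
      calc 4 * Real.exp (c₁ / ε₁) * ((2 * N : ℕ) : ℝ) ^ (η + θ) * (Real.log N) ^ 12 =
          ((2 * N : ℕ) : ℝ) ^ (η + θ) * (4 * Real.exp (c₁ / ε₁) * (Real.log N) ^ 12) := by ring
        _ ≤ ((2 * N : ℕ) : ℝ) ^ (η + θ) * ((2 * N : ℕ) : ℝ) ^ (1 - (η + θ)) :=
            mul_le_mul_of_nonneg_left h4 (Real.rpow_nonneg h2N0.le _)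
        _ = _ := h3.symm }

end Pool.Agent.L7h32.CT
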