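import Mathlib
import Pool.Agent.Y827.LS.NumL

/-! The choice of the parameters for the weighted sieve. -/

set_option autoImplicit false

namespace Pool.Agent.L7h32.CT

open Finset Filter Topology
open Pool.Agent.H361R2.GM
open Pool.Agent.H362R2.CM
open Pool.Agent.W25.UB
open Pool.Agent.W352.UBNum
open Pool.Agent.Y827.LS

/-- the error constant of the small sieve part -/
noncomputable def er1 (Q : SPar) (T K : ℕ) (g0 ε₁ ρ ε w : ℝ) : ℝ :=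
  Real.sqrt (1024 / (ρ * βc Q (T * K) ε * w) *
    (K * (2 * (g0 * udc Q (T * K) ε₁ ε)) + (K : ℝ) ^ 2 * g0 ^ 2 * qc Q (T * K) ε₁ ε))

/-- the error constant of one block -/
noncomputable def er2 (Q : SPar) (T K : ℕ) (G ε₁ ρ CR κ ε w : ℝ) : ℝ :=
  Real.sqrt (1024 / (ρ * βc Q (T * K) ε * w) * (K * (4 * CR ^ 2 * (G * udc Q (T * K) ε₁ ε)) +
    (K : ℝ) ^ 2 * G ^ 2 * ofc Q (T * K) CR κ ε₁ ε))

/-- the constant of the pair sums -/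
noncomputable def muC (Q : SPar) (T K nb : ℕ) (g0 ε₁ ρ CR κ ε w : ℝ) : ℝ :=
  K * g0 * (Q.I1 ^ 2 / Q.I2) + er1 Q T K g0 ε₁ ρ ε w + nb * er2 Q T K (ρ / ε₁) ε₁ ρ CR κ ε w

theorem rootA (s e K J T P b b2 d g y : ℝ) (hs : 0 < s) (hs1 : s ≤ 1 / 10) (he : 0 < e)
    (he1 : e ≤ s / 500) (hK : 0 < K) (hJ : 0 < J) (hT : 0 < T) (hP : 0 < P) (hd0 : 0 ≤ d)
    (hd : d ≤ e * s ^ 2 / 100000) (hb : 1 - d ≤ b) (hb2 : 1 - d ≤ b2) (hg0 : 0 < g)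
    (hy : y = K * g * (J ^ 2 / T)) (hyl : 200000 / (e * s ^ 2) ≤ y) :
    1024 / (e / 4 * (J ^ 2 * (b * (P * T ^ 2)))) *
      (K * (2 * (g * ((1 + e ^ 3) * (J ^ 4 * (P * T))))) + K ^ 2 * g ^ 2 *
        max 0 ((1 + e ^ 3) ^ 2 * (J ^ 6 * P) -
          2 * (J ^ 2 / T) * ((1 - 2 * e ^ 3) * (J ^ 4 * (b2 * (P * T)))) +
          (J ^ 2 / T) ^ 2 * (J ^ 2 * (P * T ^ 2)))) ≤ (s * y) ^ 2 := by
  have he2 : e ≤ 1 / 5000 := by linarith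
  have he3 : 0 < e ^ 3 := by positivity
  have he3' : e ^ 3 ≤ 1 / 1000 := by
    calc e ^ 3 ≤ (1 / 5000) ^ 3 := pow_le_pow_left₀ he.le he2 3
      _ ≤ 1 / 1000 := by norm_num
  have hs2 : s ^ 2 ≤ 1 / 100 := by
    calc s ^ 2 ≤ (1 / 10) ^ 2 := pow_le_pow_left₀ hs.le hs1 2
      _ = 1 / 100 := by norm_num
  have hd2 : d ≤ 1 / 2 := by
    refine hd.trans ?_
    have h1 : e * s ^ 2 ≤ 1 * 1 := mul_le_mul (by linarith) (by linarith) (by positivity) (by norm_num)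
    linarith
  have hb0 : 0 < b := by linarith
  have hb02 : 0 < b2 := by linarith
  have hy0 : 0 < y := by rw [hy]; positivity
  have hmax : max 0 ((1 + e ^ 3) ^ 2 * (J ^ 6 * P) -
          2 * (J ^ 2 / T) * ((1 - 2 * e ^ 3) * (J ^ 4 * (b2 * (P * T)))) +
          (J ^ 2 / T) ^ 2 * (J ^ 2 * (P * T ^ 2))) ≤ J ^ 6 * P * (7 * e ^ 3 + 2 * d) := by
    apply max_le (by positivity)
    have e1 : (1 + e ^ 3) ^ 2 * (J ^ 6 * P) -
          2 * (J ^ 2 / T) * ((1 - 2 * e ^ 3) * (J ^ 4 * (b2 * (P * T)))) +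
          (J ^ 2 / T) ^ 2 * (J ^ 2 * (P * T ^ 2)) =
        J ^ 6 * P * ((1 + e ^ 3) ^ 2 - 2 * ((1 - 2 * e ^ 3) * b2) + 1) := by
      field_simp
    rw [e1]
    apply mul_le_mul_of_nonneg_left _ (by positivity)
    have h1 : (1 - 2 * e ^ 3) * (1 - d) ≤ (1 - 2 * e ^ 3) * b2 :=
      mul_le_mul_of_nonneg_left hb2 (by linarith)
    have h2 : (e ^ 3) ^ 2 ≤ e ^ 3 := by nlinarith
    have h3 : 0 ≤ e ^ 3 * d := by positivity
    nlinarith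
  have hbe : 4096 / (e * b) ≤ 8192 / e := by
    rw [div_le_div_iff₀ (by positivity) he]
    nlinarith
  calc 1024 / (e / 4 * (J ^ 2 * (b * (P * T ^ 2)))) *
      (K * (2 * (g * ((1 + e ^ 3) * (J ^ 4 * (P * T))))) + K ^ 2 * g ^ 2 *
        max 0 ((1 + e ^ 3) ^ 2 * (J ^ 6 * P) -
          2 * (J ^ 2 / T) * ((1 - 2 * e ^ 3) * (J ^ 4 * (b2 * (P * T)))) +
          (J ^ 2 / T) ^ 2 * (J ^ 2 * (P * T ^ 2)))) ≤
        1024 / (e / 4 * (J ^ 2 * (b * (P * T ^ 2)))) *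
      (K * (2 * (g * (2 * (J ^ 4 * (P * T))))) + K ^ 2 * g ^ 2 *
        (J ^ 6 * P * (7 * e ^ 3 + 2 * d))) := by
          gcongr
          linarith
      _ = 4096 / (e * b) * (4 * y + y ^ 2 * (7 * e ^ 3 + 2 * d)) := by
          rw [hy]
          field_simp
          ring
      _ ≤ 8192 / e * (4 * y + y ^ 2 * (7 * e ^ 3 + 2 * d)) := by
          apply mul_le_mul_of_nonneg_right hbe (by positivity)
      _ ≤ (s * y) ^ 2 := numA s e d y hs he he1 hd hyl hy0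

theorem rootB (s e G κ nb K J T P b g y : ℝ) (hs : 0 < s) (he : 0 < e) (he1 : e ≤ 1 / 5000)
    (hκ : 0 ≤ κ) (hGκ : 1000000 * (G ^ 2 * κ * nb ^ 2) ≤ s ^ 2 * e ^ 3)
    (hK : 0 < K) (hJ : 0 < J) (hT : 0 < T) (hP : 0 < P) (hb : 1 / 2 ≤ b) (hge : e / 2 ≤ g)
    (hy : y = K * g * (J ^ 2 / T)) (hyl : 100000 * (G ^ 2 * nb ^ 2) / (e ^ 2 * s ^ 2) ≤ y) :
    nb ^ 2 * (1024 / (e / 4 * (J ^ 2 * (b * (P * T ^ 2)))) *
      (K * (4 * G ^ 2 * (1 / 4 * ((1 + e ^ 3) * (J ^ 4 * (P * T))))) + K ^ 2 * (1 / 4) ^ 2 *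
        (16 * G ^ 2 * κ * ((1 + e ^ 3) ^ 2 * (J ^ 6 * P))))) ≤ (s * y) ^ 2 := by
  have he3 : 0 < e ^ 3 := by positivity
  have he3' : e ^ 3 ≤ 1 / 1000 := by
    calc e ^ 3 ≤ (1 / 5000) ^ 3 := pow_le_pow_left₀ he.le he1 3
      _ ≤ 1 / 1000 := by norm_num
  have hb0 : 0 < b := by linarith
  have hg0 : 0 < g := by linarith
  have hy0 : 0 < y := by rw [hy]; positivity
  have hbe : 4096 / (e * b) ≤ 8192 / e := by
    rw [div_le_div_iff₀ (by positivity) he]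
    nlinarith
  have hyg : y / g = K * (J ^ 2 / T) := by
    rw [hy]
    field_simp
  have h14 : (1 + e ^ 3) ^ 2 ≤ 4 := by nlinarith
  calc nb ^ 2 * (1024 / (e / 4 * (J ^ 2 * (b * (P * T ^ 2)))) *
      (K * (4 * G ^ 2 * (1 / 4 * ((1 + e ^ 3) * (J ^ 4 * (P * T))))) + K ^ 2 * (1 / 4) ^ 2 *
        (16 * G ^ 2 * κ * ((1 + e ^ 3) ^ 2 * (J ^ 6 * P))))) ≤
        nb ^ 2 * (1024 / (e / 4 * (J ^ 2 * (b * (P * T ^ 2)))) *
      (K * (4 * G ^ 2 * (1 / 4 * (2 * (J ^ 4 * (P * T))))) + K ^ 2 * (1 / 4) ^ 2 *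
        (16 * G ^ 2 * κ * (4 * (J ^ 6 * P))))) := by
          gcongr
          linarith
      _ = nb ^ 2 * (4096 / (e * b) * (2 * G ^ 2 * (y / g) + 4 * G ^ 2 * κ * (y / g) ^ 2)) := by
          rw [hyg]
          field_simp
          ring
      _ ≤ nb ^ 2 * (8192 / e * (2 * G ^ 2 * (y / g) + 4 * G ^ 2 * κ * (y / g) ^ 2)) := by
          apply mul_le_mul_of_nonneg_left _ (by positivity)
          exact mul_le_mul_of_nonneg_right hbe (by positivity)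
      _ ≤ (s * y) ^ 2 := numB s e G κ nb g y hs he hκ hGκ hge hyl hy0

/-- the construction of the sieve functions -/
theorem exists_KQ (n : ℕ) (hn : 1 ≤ n) (dd Y0 : ℝ) (hdd : 0 < dd) (hY0 : 0 < Y0) :
    ∃ (K : ℕ) (Q : SPar), 2 ≤ K ∧ 3 ≤ n * K ∧ 0 < Q.I1 ∧ 0 < Q.I2 ∧
      ∃ P b b2 d : ℝ, 0 < P ∧ P = (1 / 3) * Q.I2 ^ (n * K - 3) ∧ 0 ≤ d ∧ d ≤ dd ∧ 1 - d ≤ b ∧
        b ≤ 1 ∧ 1 - d ≤ b2 ∧ Br Q (n * K) 0 = b * (P * Q.I2 ^ 2) ∧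
        Br2 Q (n * K) 0 = b2 * (P * Q.I2) ∧ Y0 ≤ K * (Q.I1 ^ 2 / Q.I2) := by
  have hn1 : (1 : ℝ) ≤ n := by exact_mod_cast hn
  have hn0 : (0 : ℝ) < n := by linarith
  set s : ℝ := 2 + 1 / dd with hs
  set A : ℝ := 2 * s + 4 + n * Y0 with hA
  have hs0 : 0 < 1 / dd := by positivity
  have hs1 : 1 ≤ s := by rw [hs]; linarith
  have hnY : 0 < n * Y0 := by positivity
  have hAs : 2 * s + 4 ≤ A := by rw [hA]; linarith
  have hA4 : 4 ≤ A := by linarith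
  obtain ⟨K', hK'⟩ := exists_nat_ge (100 * s ^ 2 * Real.exp A)
  set K : ℕ := K' + 3 with hK
  have hKR : 100 * s ^ 2 * Real.exp A ≤ (K : ℝ) := by
    rw [hK]; push_cast; linarith
  have hK2 : 2 ≤ K := by omega
  have hnK : K ≤ n * K := Nat.le_mul_of_pos_left K hn
  have hnK3 : 3 ≤ n * K := by omega
  have hkK : (K : ℝ) ≤ ((n * K : ℕ) : ℝ) := by exact_mod_cast hnK
  obtain ⟨Q, hQG, hQc, hQl⟩ := exists_parS A s hA4 hs1 (n * K) (hKR.trans hkK)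
  obtain ⟨hI1, hI2, hI2le, hBl, hBu⟩ := Br_zero_bounds A s hs1 hAs (n * K) (hKR.trans hkK) Q
    hQG hQc hQl
  have hBl2 := Br2_zero_bounds A s hs1 hAs (n * K) (hKR.trans hkK) Q hQG hQc hQl
  set d : ℝ := Real.exp (-s + 2) with hd
  have hd0 : 0 < d := Real.exp_pos _
  have hd1 : d ≤ dd := by
    have h1 : d = (Real.exp (1 / dd))⁻¹ := by
      rw [hd, ← Real.exp_neg]
      congr 1
      rw [hs]; ring
    have h2 : 1 / dd ≤ Real.exp (1 / dd) := by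
      have := Real.add_one_le_exp (1 / dd)
      linarith
    rw [h1]
    calc (Real.exp (1 / dd))⁻¹ ≤ (1 / dd)⁻¹ := inv_anti₀ hs0 h2
      _ = dd := by rw [one_div, inv_inv]
  set k : ℕ := n * K with hk
  have hkcast : (k : ℝ) = n * K := by rw [hk]; push_cast; ring
  have hK0 : (0 : ℝ) < K := by
    have : (2 : ℝ) ≤ K := by exact_mod_cast hK2
    linarith
  have hk0 : (0 : ℝ) < k := by rw [hkcast]; positivity
  set T : ℝ := Q.I2 with hT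
  set P : ℝ := (1 / 3) * T ^ (k - 3) with hP
  have hP0 : 0 < P := by positivity
  have hpow1 : (1 / 3) * T ^ (k - 2) = P * T := by
    have : k - 2 = (k - 3) + 1 := by omega
    rw [this, pow_succ, hP]; ring
  have hpow2 : (1 / 3) * T ^ (k - 1) = P * T ^ 2 := by
    have : k - 1 = (k - 3) + 2 := by omega
    rw [hP, mul_assoc, ← pow_add, ← this]
  have hPT : 0 < P * T := by positivity
  have hPT2 : 0 < P * T ^ 2 := by positivity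
  rw [hpow1] at hBl2
  rw [hpow2] at hBl hBu
  refine ⟨K, Q, hK2, hnK3, by rw [hI1]; positivity, hI2, P, Br Q k 0 / (P * T ^ 2),
    Br2 Q k 0 / (P * T), d, hP0, rfl, hd0.le, hd1, ?_, ?_, ?_, ?_, ?_, ?_⟩
  · rw [le_div_iff₀ hPT2]; exact hBl
  · rw [div_le_one hPT2]; exact hBu
  · rw [le_div_iff₀ hPT]; exact hBl2
  · exact (div_mul_cancel₀ _ hPT2.ne').symm
  · exact (div_mul_cancel₀ _ hPT.ne').symm
  · have h1 : A / k ≤ Q.I1 ^ 2 / T := by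
      rw [le_div_iff₀ hI2, hI1]
      calc A / k * T ≤ A / k * (1 / (A * k)) := by
            apply mul_le_mul_of_nonneg_left hI2le
            have : 0 < A := by linarith
            positivity
        _ = (1 / (k : ℝ)) ^ 2 := by
            have : A ≠ 0 := by
              have : 0 < A := by linarith
              exact this.ne'
            field_simp
    have hYA : n * Y0 ≤ A := by rw [hA]; linarith
    calc Y0 = K * ((n * Y0) / k) := by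
          rw [hkcast]
          field_simp
      _ ≤ K * (A / k) := by gcongr
      _ ≤ K * (Q.I1 ^ 2 / T) := mul_le_mul_of_nonneg_left h1 hK0.le

theorem e_conv (Q : SPar) (k : ℕ) (hk : 3 ≤ k) (ε₁ P b b2 : ℝ) (hP : P = (1 / 3) * Q.I2 ^ (k - 3))
    (hB : Br Q k 0 = b * (P * Q.I2 ^ 2)) (hB2 : Br2 Q k 0 = b2 * (P * Q.I2)) :
    Ac Q k 0 = P * Q.I2 ^ 3 ∧ βc Q k 0 = Q.I1 ^ 2 * (b * (P * Q.I2 ^ 2)) ∧
    r0c Q k 0 = Q.I1 ^ 2 * (P * Q.I2 ^ 2) ∧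
    l1c Q k ε₁ 0 = (1 - 2 * ε₁ ^ 3) * (Q.I1 ^ 4 * (b2 * (P * Q.I2))) ∧
    u2c Q k ε₁ 0 = (1 + ε₁ ^ 3) ^ 2 * (Q.I1 ^ 6 * P) ∧
    udc Q k ε₁ 0 = (1 + ε₁ ^ 3) * (Q.I1 ^ 4 * (P * Q.I2)) := by
  set T : ℝ := Q.I2 with hT
  have hpow1 : (1 / 3) * T ^ (k - 2) = P * T := by
    have : k - 2 = (k - 3) + 1 := by omega
    rw [this, pow_succ, hP]; ring
  have hpow2 : (1 / 3) * T ^ (k - 1) = P * T ^ 2 := by
    have : k - 1 = (k - 3) + 2 := by omega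
    rw [hP, mul_assoc, ← pow_add, ← this]
  have hpow3 : (1 / 3) * T ^ k = P * T ^ 3 := by
    have : k = (k - 3) + 3 := by omega
    rw [hP, mul_assoc, ← pow_add, ← this]
  refine ⟨?_, ?_, ?_, ?_, ?_, ?_⟩
  · unfold Ac
    rw [← hpow3]; simp [hT]
  · unfold βc
    rw [hB]; simp
  · unfold r0c
    rw [← hpow2]
    simp only [add_zero, sub_zero, one_pow, div_one, one_mul, mul_one, ← hT]
    ring
  · unfold l1c
    rw [hB2]; simp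
  · unfold u2c
    rw [hP]
    simp only [add_zero, sub_zero, one_pow, div_one, one_mul, mul_one, ← hT]
    ring
  · unfold udc
    rw [← hpow1]
    simp only [add_zero, sub_zero, one_pow, div_one, one_mul, mul_one, ← hT]
    ring

theorem sqrt_w {x w a : ℝ} (hw : 0 < w) (ha : 0 ≤ a) (h : x ≤ a ^ 2) :
    Real.sqrt (1 / w * x) ≤ a / Real.sqrt w := by
  calc Real.sqrt (1 / w * x) ≤ Real.sqrt (1 / w * a ^ 2) := by
        apply Real.sqrt_le_sqrt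
        exact mul_le_mul_of_nonneg_left h (by positivity)
    _ = a / Real.sqrt w := by
        rw [Real.sqrt_mul (by positivity), Real.sqrt_sq ha, Real.sqrt_div zero_le_one,
          Real.sqrt_one]
        ring

theorem keyC (σ s y θ b w n m : ℝ) (hσ1 : σ ≤ 1 / 10) (hsσ : s ≤ σ) (hy0 : 0 < y)
    (hy3 : 1 ≤ s * y) (hθ0 : 0 < θ) (hm : 0 ≤ m) (hn0 : 0 < n) (hb : 1 - σ ≤ b)
    (hw1 : 1 - σ ≤ w) (hnm : 2 / θ * m * (1 + 5 * σ) < n * (1 - σ) * (1 - σ)) :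
    (1 + (y + 2 * (s * y) + 2 * (s * y))) * m < n * (θ / 2 * y * (b * w)) := by
  have h0 : s * y ≤ σ * y := mul_le_mul_of_nonneg_right hsσ hy0.le
  have h1 : 1 + (y + 2 * (s * y) + 2 * (s * y)) ≤ y * (1 + 5 * σ) := by linarith
  have h2 : y * (1 + 5 * σ) * m < y * (θ / 2) * (n * (1 - σ) * (1 - σ)) := by
    have h3 : y * (1 + 5 * σ) * m = y * (θ / 2) * (2 / θ * m * (1 + 5 * σ)) := by
      field_simp
    rw [h3]
    exact mul_lt_mul_of_pos_left hnm (by positivity)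
  have h4 : y * (θ / 2) * (n * (1 - σ) * (1 - σ)) ≤ y * (θ / 2) * (n * b * w) := by
    apply mul_le_mul_of_nonneg_left _ (by positivity)
    have h5 : n * (1 - σ) ≤ n * b := mul_le_mul_of_nonneg_left (by linarith) hn0.le
    have h6 : 0 ≤ n * b := by
      apply mul_nonneg hn0.le
      linarith
    exact mul_le_mul h5 hw1 (by linarith) h6
  calc (1 + (y + 2 * (s * y) + 2 * (s * y))) * m ≤ y * (1 + 5 * σ) * m :=
        mul_le_mul_of_nonneg_right h1 hm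
    _ < y * (θ / 2) * (n * (1 - σ) * (1 - σ)) := h2
    _ ≤ y * (θ / 2) * (n * b * w) := h4
    _ = _ := by ring

theorem finC (K e J T P θ b w g y n m mu Y' : ℝ) (hy : y = K * g * (J ^ 2 / T))
    (hg : g = e / 4 / (θ / 2)) (hθ0 : 0 < θ) (hT : 0 < T) (hP : 0 < P) (hm : 0 ≤ m)
    (hmu : mu ≤ Y') (hkey : (1 + Y') * m < n * (θ / 2 * y * (b * w))) :
    (1 + mu) * (m * (P * T ^ 3)) < n * (K * (e / 4 * (J ^ 2 * (b * (P * T ^ 2)) * w))) := by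
  have hgt : K * (e / 4) * (J ^ 2 / T) = θ / 2 * y := by
    rw [hy, hg]
    field_simp
  have hfac : 0 < P * T ^ 3 := by positivity
  calc (1 + mu) * (m * (P * T ^ 3)) ≤ (1 + Y') * (m * (P * T ^ 3)) := by
        apply mul_le_mul_of_nonneg_right _ (by positivity)
        linarith
    _ = ((1 + Y') * m) * (P * T ^ 3) := by ring
    _ < (n * (θ / 2 * y * (b * w))) * (P * T ^ 3) := mul_lt_mul_of_pos_right hkey hfac
    _ = n * (K * (e / 4 * (J ^ 2 * (b * (P * T ^ 2)) * w))) := by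
        rw [show θ / 2 * y * (b * w) = (θ / 2 * y) * (b * w) by ring, ← hgt]
        field_simp

theorem sqrt_half {w x Y : ℝ} (hw : 1 / 2 ≤ w) (hx : 0 ≤ x)
    (h : Y ≤ x / Real.sqrt w) : Y ≤ 2 * x := by
  have hsw : 1 / 2 ≤ Real.sqrt w := by
    rw [show (1 / 2 : ℝ) = Real.sqrt ((1 / 2) ^ 2) by rw [Real.sqrt_sq (by norm_num)]]
    apply Real.sqrt_le_sqrt
    norm_num
    linarith
  refine h.trans ?_
  rw [div_le_iff₀ (by linarith)]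
  nlinarith

theorem mul_sqrt_nat (n : ℕ) (w x : ℝ) :
    (n : ℝ) * Real.sqrt (1 / w * x) = Real.sqrt (1 / w * ((n : ℝ) ^ 2 * x)) := by
  have h1 : (n : ℝ) = Real.sqrt ((n : ℝ) ^ 2) := by
    rw [Real.sqrt_sq (Nat.cast_nonneg _)]
  have h2 : 1 / w * ((n : ℝ) ^ 2 * x) = (n : ℝ) ^ 2 * (1 / w * x) := by ring
  rw [h2, Real.sqrt_mul (sq_nonneg _), ← h1]

theorem key_div (w X Y : ℝ) : 1024 / (X * w) * Y = 1 / w * (1024 / X * Y) := by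
  rw [← div_div]
  ring

theorem e_er1 (Q : SPar) (n K : ℕ) (g e w P b b2 : ℝ)
    (eβ : βc Q (n * K) 0 = Q.I1 ^ 2 * (b * (P * Q.I2 ^ 2)))
    (er : r0c Q (n * K) 0 = Q.I1 ^ 2 * (P * Q.I2 ^ 2))
    (el : l1c Q (n * K) e 0 = (1 - 2 * e ^ 3) * (Q.I1 ^ 4 * (b2 * (P * Q.I2))))
    (eu : u2c Q (n * K) e 0 = (1 + e ^ 3) ^ 2 * (Q.I1 ^ 6 * P))
    (ed : udc Q (n * K) e 0 = (1 + e ^ 3) * (Q.I1 ^ 4 * (P * Q.I2))) :
    er1 Q n K g e (e / 4) 0 w =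
      Real.sqrt (1 / w * (1024 / (e / 4 * (Q.I1 ^ 2 * (b * (P * Q.I2 ^ 2)))) *
      (K * (2 * (g * ((1 + e ^ 3) * (Q.I1 ^ 4 * (P * Q.I2))))) + (K : ℝ) ^ 2 * g ^ 2 *
        max 0 ((1 + e ^ 3) ^ 2 * (Q.I1 ^ 6 * P) -
          2 * (Q.I1 ^ 2 / Q.I2) * ((1 - 2 * e ^ 3) * (Q.I1 ^ 4 * (b2 * (P * Q.I2)))) +
          (Q.I1 ^ 2 / Q.I2) ^ 2 * (Q.I1 ^ 2 * (P * Q.I2 ^ 2)))))) := by
  unfold er1 qc
  rw [eβ, ed, eu, el, er, key_div]

theorem e_er2 (Q : SPar) (n K : ℕ) (G κ e w P b : ℝ) (he : 0 < e)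
    (eβ : βc Q (n * K) 0 = Q.I1 ^ 2 * (b * (P * Q.I2 ^ 2)))
    (eu : u2c Q (n * K) e 0 = (1 + e ^ 3) ^ 2 * (Q.I1 ^ 6 * P))
    (ed : udc Q (n * K) e 0 = (1 + e ^ 3) * (Q.I1 ^ 4 * (P * Q.I2))) :
    er2 Q n K (e / 4 / e) e (e / 4) G κ 0 w =
      Real.sqrt (1 / w * (1024 / (e / 4 * (Q.I1 ^ 2 * (b * (P * Q.I2 ^ 2)))) *
      (K * (4 * G ^ 2 * (1 / 4 * ((1 + e ^ 3) * (Q.I1 ^ 4 * (P * Q.I2))))) + (K : ℝ) ^ 2 *
        (1 / 4) ^ 2 * (16 * G ^ 2 * κ * ((1 + e ^ 3) ^ 2 * (Q.I1 ^ 6 * P)))))) := by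
  have e4 : e / 4 / e = 1 / 4 := by field_simp
  have eo : ofc Q (n * K) G κ e 0 = 16 * G ^ 2 * κ * ((1 + e ^ 3) ^ 2 * (Q.I1 ^ 6 * P)) := by
    unfold ofc
    rw [eu, mul_zero, add_zero]
  unfold er2
  rw [eβ, ed, eo, e4, key_div]

/-- the parameters at `ε = 0` -/
theorem baseC (n m nb nb' : ℕ) (θ σ z s e G κ c₀ : ℝ) (hn : 1 ≤ n)
    (hθ : 1 / 2 ≤ θ) (hθ1 : θ ≤ 1) (hσ : 0 < σ) (hσ1 : σ ≤ 1 / 10)
    (hnm : 2 / θ * (m : ℝ) * (1 + 5 * σ) < n * (1 - σ) * (1 - σ)) (hz : 0 < z)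
    (hz1 : 2 * n * z ^ 2 ≤ σ) (hs : 0 < s) (hsσ : s ≤ σ) (hsz : s ≤ z / 32) (hc₀ : 0 < c₀)
    (he : 0 < e) (he1 : e ≤ s / 500) (hG : 0 ≤ G) (hκ : 0 ≤ κ)
    (hGκ : 1000000 * (G ^ 2 * κ * (nb : ℝ) ^ 2) ≤ s ^ 2 * e ^ 3)
    (hGκ' : 1000000 * (G ^ 2 * κ * (nb' : ℝ) ^ 2) ≤ (z * c₀ * e / 32) ^ 2 * e ^ 3) :
    ∃ (K : ℕ) (Q : SPar), 2 ≤ K ∧ 3 ≤ n * K ∧ 0 < Q.I1 ∧
    0 < Q.I2 ∧ 0 < Br Q (n * K) 0 ∧ 0 < Br2 Q (n * K) 0 ∧
    (1 + muC Q n K nb (g0c (4 * θ - 2) (e / 4) 0) e (e / 4) G κ 0 (1 - 2 * n * z ^ 2)) *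
      ((m + 2 * 0) * Ac Q (n * K) 0) <
        n * (K * (e / 4 * (βc Q (n * K) 0 * (1 - 2 * n * z ^ 2)))) ∧
    er1 Q n K (e / 4 / e) e (e / 4) 0 (z ^ 2) < K * (Q.I1 ^ 2 / Q.I2) / 64 ∧
    nb' * er2 Q n K (e / 4 / e) e (e / 4) G κ 0 (z ^ 2) <
      c₀ * e * (K * (Q.I1 ^ 2 / Q.I2) / 64) := by
  have hθ0 : 0 < θ := by linarith
  have hn0 : (0 : ℝ) < n := by exact_mod_cast hn
  have hm : (0 : ℝ) ≤ m := Nat.cast_nonneg m
  obtain ⟨s₃, hs₃⟩ : ∃ s₃ : ℝ, s₃ = z * c₀ * e / 32 := ⟨_, rfl⟩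
  rw [← hs₃] at hGκ'
  have hs₃0 : 0 < s₃ := by rw [hs₃]; positivity
  obtain ⟨Y0, hY0d⟩ : ∃ Y0 : ℝ, Y0 = 4 / e * (200000 / (e * s ^ 2)) +
    4 / e * (100000 * (G ^ 2 * (nb : ℝ) ^ 2) / (e ^ 2 * s ^ 2)) + 4 / e * (1 / s) +
    4 / e * (100000 * (G ^ 2 * (nb' : ℝ) ^ 2) / (e ^ 2 * s₃ ^ 2)) := ⟨_, rfl⟩
  have p1 : 0 < 4 / e * (200000 / (e * s ^ 2)) := by positivity
  have p2 : 0 ≤ 4 / e * (100000 * (G ^ 2 * (nb : ℝ) ^ 2) / (e ^ 2 * s ^ 2)) := by positivity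
  have p3 : 0 < 4 / e * (1 / s) := by positivity
  have p4 : 0 ≤ 4 / e * (100000 * (G ^ 2 * (nb' : ℝ) ^ 2) / (e ^ 2 * s₃ ^ 2)) := by positivity
  have hY0 : 0 < Y0 := by rw [hY0d]; linarith
  obtain ⟨K, Q, hK2, hnK3, hJ, hT, P, b, b2, d, hP0, hP, hd0, hd, hb, hb1, hb2, hBb, hBb2, hY⟩ :=
    exists_KQ n hn (e * s ^ 2 / 100000) Y0 (by positivity) hY0
  have hs1 : s ≤ 1 / 10 := hsσ.trans hσ1
  have he5 : e ≤ 1 / 5000 := by linarith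
  have hK0 : (0 : ℝ) < K := by
    have : (2 : ℝ) ≤ K := by exact_mod_cast hK2
    linarith
  have hs2 : s ^ 2 ≤ s := by nlinarith
  have hds : d ≤ s := by
    refine hd.trans ?_
    have h1 : e * s ^ 2 ≤ 1 * s := mul_le_mul (by linarith) hs2 (by positivity) (by norm_num)
    linarith
  have hd2 : d ≤ 1 / 2 := by linarith
  have hb0 : 0 < b := by linarith
  have hb20 : 0 < b2 := by linarith
  obtain ⟨eA, eβ, er, el, eu, ed⟩ := e_conv Q (n * K) hnK3 e P b b2 hP hBb hBb2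
  have hE1 := fun g w => e_er1 Q n K g e w P b b2 eβ er el eu ed
  have hE2 := fun w => e_er2 Q n K G κ e w P b he eβ eu ed
  have hBpos : 0 < Br Q (n * K) 0 := by
    rw [hBb]
    positivity
  have hB2pos : 0 < Br2 Q (n * K) 0 := by
    rw [hBb2]
    positivity
  refine ⟨K, Q, hK2, hnK3, hJ, hT, hBpos, hB2pos, ?_⟩
  have e4 : e / 4 / e = 1 / 4 := by field_simp
  obtain ⟨g, hg⟩ : ∃ g : ℝ, g = e / 4 / (θ / 2) := ⟨_, rfl⟩
  have eg : g0c (4 * θ - 2) (e / 4) 0 = g := by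
    unfold g0c
    rw [hg]
    have : (1 : ℝ) / 4 + (4 * θ - 2) / 8 = θ / 2 := by ring
    rw [this, sub_zero, mul_one]
  have hg0 : 0 < g := by rw [hg]; positivity
  have hge : e / 2 ≤ g := by
    rw [hg, le_div_iff₀ (by positivity)]
    nlinarith
  rw [eA, eβ, eg, hE1 (e / 4 / e) (z ^ 2), hE2 (z ^ 2), e4, mul_zero, add_zero]
  have hmueq : ∀ w, muC Q n K nb g e (e / 4) G κ 0 w = K * g * (Q.I1 ^ 2 / Q.I2) +
      er1 Q n K g e (e / 4) 0 w + nb * er2 Q n K (e / 4 / e) e (e / 4) G κ 0 w := fun w => rfl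
  rw [hmueq, hE1, hE2]
  obtain ⟨J, hJd⟩ : ∃ J : ℝ, J = Q.I1 := ⟨_, rfl⟩
  obtain ⟨T, hTd⟩ : ∃ T : ℝ, T = Q.I2 := ⟨_, rfl⟩
  rw [← hJd, ← hTd] at hY
  rw [← hJd] at hJ
  rw [← hTd] at hT
  rw [← hJd, ← hTd]
  obtain ⟨Kr, hKr⟩ : ∃ Kr : ℝ, Kr = (K : ℝ) := ⟨_, rfl⟩
  rw [← hKr] at hK0 hY
  rw [← hKr]
  clear hE1 hE2 hmueq eA eβ er el eu ed hBb hBb2 hBpos hB2pos hP
  obtain ⟨τ, hτ⟩ : ∃ τ : ℝ, τ = J ^ 2 / T := ⟨_, rfl⟩
  have hτ0 : 0 < τ := by rw [hτ]; positivity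
  obtain ⟨Y, hYd⟩ : ∃ Y : ℝ, Y = Kr * τ := ⟨_, rfl⟩
  have hYY : Y0 ≤ Y := by rw [hYd, hτ]; exact hY
  have hYp : 0 < Y := by rw [hYd]; positivity
  have hyg : Kr * g * (J ^ 2 / T) = g * Y := by rw [hYd, hτ]; ring
  have hy4 : Kr * (1 / 4) * (J ^ 2 / T) = Y / 4 := by rw [hYd, hτ]; ring
  have hgY : ∀ x : ℝ, 0 ≤ x → 4 / e * x ≤ Y → x ≤ g * Y := by
    intro x hx h
    have h1 : e / 2 * (4 / e * x) ≤ g * Y := mul_le_mul hge h (by positivity) hg0.le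
    have h2 : e / 2 * (4 / e * x) = 2 * x := by field_simp; ring
    linarith
  have h4Y : ∀ x : ℝ, 0 ≤ x → 4 / e * x ≤ Y → x ≤ Y / 4 := by
    intro x hx h
    have h1 : 4 * x ≤ 4 / e * x := by
      apply mul_le_mul_of_nonneg_right _ hx
      rw [le_div_iff₀ he]
      linarith
    linarith
  -- the roots
  have rA := rootA s e Kr J T P b b2 d g (g * Y) hs hs1 he he1 hK0 hJ hT hP0 hd0 hd hb hb2 hg0
    hyg.symm (hgY _ (by positivity) (by linarith))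
  have rB := rootB s e G κ nb Kr J T P b g (g * Y) hs he he5 hκ hGκ hK0 hJ hT hP0 (by linarith)
    hge hyg.symm (hgY _ (by positivity) (by linarith))
  have rA4 := rootA s e Kr J T P b b2 d (1 / 4) (Y / 4) hs hs1 he he1 hK0 hJ hT hP0 hd0 hd
    hb hb2 (by norm_num) hy4.symm (h4Y _ (by positivity) (by linarith))
  have rB4 := rootB s₃ e G κ nb' Kr J T P b (1 / 4) (Y / 4) hs₃0 he he5 hκ hGκ' hK0 hJ hT
    hP0 (by linarith) (by linarith) hy4.symm (h4Y _ (by positivity) (by linarith))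
  have hYJ : Kr * (J ^ 2 / T) = Y := by rw [hYd, hτ]
  refine ⟨?_, ?_, ?_⟩
  · -- the counting inequality
    obtain ⟨w, hw⟩ : ∃ w : ℝ, w = 1 - 2 * n * z ^ 2 := ⟨_, rfl⟩
    rw [← hw]
    have hw1 : 1 - σ ≤ w := by rw [hw]; linarith
    have hw0 : 0 < w := by linarith
    have hw2 : 1 / 2 ≤ w := by linarith
    have hsy : 0 ≤ s * (g * Y) := by positivity
    have hE1' := sqrt_half hw2 hsy (sqrt_w hw0 hsy rA)
    have hE2' := sqrt_half hw2 hsy (sqrt_w hw0 hsy rB)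
    rw [mul_sqrt_nat nb w]
    have hy3 : 1 ≤ s * (g * Y) := by
      have h1 := hgY (1 / s) (by positivity) (by linarith)
      rw [div_le_iff₀ hs] at h1
      linarith
    have hy0 : 0 < g * Y := by positivity
    have hkey := keyC σ s (g * Y) θ b w n m hσ1 hsσ hy0 hy3 hθ0 hm hn0 (by linarith) hw1 hnm
    refine finC Kr e J T P θ b w g (g * Y) n m _ _ hyg.symm hg hθ0 hT hP0 hm ?_ hkey
    rw [hyg]
    linarith
  · refine (sqrt_w (by positivity) (by positivity) rA4).trans_lt ?_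
    rw [Real.sqrt_sq hz.le, div_lt_iff₀ hz, hYJ]
    have h1 : s * (Y / 4) ≤ z / 32 * (Y / 4) := mul_le_mul_of_nonneg_right hsz (by positivity)
    have h2 : 0 < Y * z := by positivity
    linarith
  · rw [mul_sqrt_nat nb' (z ^ 2)]
    refine (sqrt_w (by positivity) (by positivity) rB4).trans_lt ?_
    rw [Real.sqrt_sq hz.le, div_lt_iff₀ hz, hs₃, hYJ]
    have h4 : 0 < Y * (z * c₀ * e) := by positivity
    linarith

end Pool.Agent.L7h32.CT
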