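import Mathlib
import Pool.Agent.Y827.LS.Core
import Pool.Agent.L7h32.CT.Bes2
import Pool.Agent.L7h32.CT.DatC
import Pool.Agent.L7h32.CT.NumC

/-! The counting argument with almost primes. -/

set_option autoImplicit false

namespace Pool.Agent.L7h32.CT

open Finset Filter Topology
open Pool.Agent.H410R2 hiding GP GP_prof GP_cut_some GP_cut_none GP_lip gg_pos gg_le_one gg_anti ee_bound ee_nonneg gg_lip LB_gg LB_ee Sums exists_sums yx wx wxi Br sum_GP_none sum_GP_some sum_GP_some_ee sum_GP_some_one sum_GPr_none sum_GPr_some S1_final QI_final S2_final w_abs_le wmax gg ee I1 I2 IE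
open Pool.Agent.H361R2.GM
open Pool.Agent.H362R2.CM
open Pool.Agent.W25.UN
open Pool.Agent.W25.UB
open Pool.Agent.TH899.UG
open Pool.Agent.W804.UBUD
open Pool.Agent.H442R2.KF (Wt)
open Pool.Agent.W23.PL (DW Ev hat xx)
open Pool.Agent.Y827.LS

/-- at most two prime factors, all of them large -/
def P2g (N : ℕ) (m : ℤ) : Prop :=
  m.natAbs.primeFactorsList.length ≤ 2 ∧
    ∀ q ∈ m.natAbs.primeFactors, ((2 * N : ℕ) : ℝ) ^ (1 / 7 : ℝ) ≤ q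

/-- the exceptional `n` -/
def SqP {k : ℕ} (α h : Fin k → ℤ) (Mo : ℕ) (ε₁ : ℝ) (N n : ℕ) : Prop :=
  ∃ j : Fin k, (∃ p : ℕ, p.Prime ∧ (p : ℝ) = ((2 * N : ℕ) : ℝ) ^ ε₁ ∧ (p : ℤ) ∣ Fm α h Mo j n) ∨
    ∃ q : ℕ, q.Prime ∧ ((2 * N : ℕ) : ℝ) ^ (1 / 7 : ℝ) ≤ q ∧ q ^ 2 ∣ (Fm α h Mo j n).natAbs

theorem pairC {T K nb : ℕ} {Q : SPar} {α h : Fin (T * K) → ℤ} {θ ε₁ ρ ρ₁ ε η CR κ g0 w : ℝ}
    {Mo A E₁ D B N v D₁ Z : ℕ} {Tr : ℤ → ℝ} {t : ℝ} {th dl b : ℕ → ℝ} {Zb : ℕ → ℕ}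
    {cb : ℕ → ℕ → ℝ}
    (h0 : St_U0F) (h1 : St_L1F) (h2 : St_U2F) (hd : St_UDF) (hNWU : St_NWU) (hNWE : St_NWE)
    (hI1 : ε < Q.I1) (hI2 : ε < Q.I2) (hBr2 : 0 < Br2 Q (T * K) ε) (hCR : 1 ≤ CR) (hκ : 0 ≤ κ)
    (H : DatL Q α h Mo θ ε₁ ρ ρ₁ ε η CR κ g0 nb A E₁ D B N v D₁ Z Tr t th dl b Zb cb)
    (hHB : HB h Mo N) (hnd : Nd α h Mo)
    (i : Fin (T * K)) (J : Finset (Fin (T * K))) (hJ : i ∉ J) (hJK : J.card ≤ K)
    (S : Finset ℕ) (f : ℕ → ℝ) (hf0 : ∀ n ∈ S, 0 ≤ f n)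
    (hf : ∀ n ∈ S, f n ≤ 2 * muF Q α h Mo ρ ρ₁ D B N v Tr i n)
    (hF : MMF α h Mo D N B ρ ≤ 512 / (ρ * βc Q (T * K) ε * w) * ∑ n ∈ S, f n) :
    ∑ n ∈ S, f n * ∑ j ∈ J, sjL α h Mo ε₁ B N Z b j n ≤
      muC Q T K nb g0 ε₁ ρ CR κ ε w * ∑ n ∈ S, f n := by
  have hε := H.dB.ε0
  have hI1p : 0 < Q.I1 := hε.trans hI1
  have hI2p : 0 < Q.I2 := hε.trans hI2
  have hsμ : ∀ i : Fin (T * K), Summable (muF Q α h Mo ρ ρ₁ D B N v Tr i) := fun i =>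
    (h0 (T * K) Q α h Mo (-2) ε₁ ρ ρ₁ ε 1 1 A E₁ D B N v D₁ 1 Tr t th dl dlt
      hI1p hI2p H.dB i).2.1
  have hF0 : 0 ≤ ∑ n ∈ S, f n := Finset.sum_nonneg hf0
  have e2Λ : 2 * (512 / (ρ * βc Q (T * K) ε * w)) = 1024 / (ρ * βc Q (T * K) ε * w) := by ring
  have hA := (abs_le.1 (pairG h0 h1 h2 hd hI1 hI2 hBr2 H.dB (∑ d ∈ Icc 1 Z, b d / (d : ℝ)) H.β0
    H.β1 g0 H.vg i J hJ hJK S f hf0 hf _ hF)).2
  rw [e2Λ] at hA
  have hB : ∀ l ∈ range nb, ∑ n ∈ S, f n * ∑ j ∈ J, FF α h Mo ε₁ B N j n *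
      dc (cb l) (Zb l) (Lf α h Mo (some j) n) ≤
      er2 Q T K (ρ / ε₁) ε₁ ρ CR κ ε w * ∑ n ∈ S, f n := by
    intro l hl
    have h5 := (abs_le.1 (blkG hNWU hNWE H.dB hI1p hI2p hsμ hHB hnd hCR hκ H.hdl
      (H.blk l (Finset.mem_range.1 hl)) H.big i J hJ hJK S f hf0 hf (ρ / ε₁) H.gle _ hF)).2
    rw [e2Λ] at h5
    exact h5
  have e : ∑ n ∈ S, f n * ∑ j ∈ J, sjL α h Mo ε₁ B N Z b j n =
      ∑ n ∈ S, f n * ∑ j ∈ J, (∑ d ∈ Icc 1 Z, b d / (d : ℝ)) * FF α h Mo ε₁ B N j n +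
      ∑ l ∈ range nb, ∑ n ∈ S, f n * ∑ j ∈ J, FF α h Mo ε₁ B N j n *
        dc (cb l) (Zb l) (Lf α h Mo (some j) n) := by
    rw [Finset.sum_comm, ← Finset.sum_add_distrib]
    refine Finset.sum_congr rfl fun n _ => ?_
    have e1 : ∑ l ∈ range nb, f n * ∑ j ∈ J, FF α h Mo ε₁ B N j n *
        dc (cb l) (Zb l) (Lf α h Mo (some j) n) = f n * ∑ j ∈ J, ∑ l ∈ range nb,
        FF α h Mo ε₁ B N j n * dc (cb l) (Zb l) (Lf α h Mo (some j) n) := by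
      rw [← Finset.mul_sum]
      congr 1
      exact Finset.sum_comm
    rw [e1, ← mul_add, ← Finset.sum_add_distrib]
    congr 1
    refine Finset.sum_congr rfl fun j _ => ?_
    unfold sjL
    have e2 : ∑ l ∈ range nb, FF α h Mo ε₁ B N j n * dc (cb l) (Zb l) (Lf α h Mo (some j) n) =
        FF α h Mo ε₁ B N j n * ∑ l ∈ range nb, dc (cb l) (Zb l) (Lf α h Mo (some j) n) :=
      (Finset.mul_sum _ _ _).symm
    rw [e2, H.sp, mul_add, mul_comm (FF α h Mo ε₁ B N j n) (∑ d ∈ Icc 1 Z, b d / (d : ℝ))]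
  rw [e]
  have h3 := Finset.sum_le_sum hB
  rw [Finset.sum_const, Finset.card_range, nsmul_eq_mul] at h3
  have hτ : 0 ≤ Q.I1 ^ 2 / Q.I2 := by positivity
  have hJc : (J.card : ℝ) ≤ K := by exact_mod_cast hJK
  have hgp : 0 ≤ (∑ d ∈ Icc 1 Z, b d / (d : ℝ)) * gB α h Mo N B ε₁ ρ :=
    mul_nonneg H.β0 (gB_pos H.dB).le
  have h6 : (J.card : ℝ) * ((∑ d ∈ Icc 1 Z, b d / (d : ℝ)) * gB α h Mo N B ε₁ ρ *
      (Q.I1 ^ 2 / Q.I2)) * ∑ n ∈ S, f n ≤ K * g0 * (Q.I1 ^ 2 / Q.I2) * ∑ n ∈ S, f n := by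
    apply mul_le_mul_of_nonneg_right _ hF0
    calc (J.card : ℝ) * ((∑ d ∈ Icc 1 Z, b d / (d : ℝ)) * gB α h Mo N B ε₁ ρ *
        (Q.I1 ^ 2 / Q.I2)) ≤ K * (g0 * (Q.I1 ^ 2 / Q.I2)) := by
          apply mul_le_mul hJc _ (mul_nonneg hgp hτ) (Nat.cast_nonneg _)
          exact mul_le_mul_of_nonneg_right H.vg hτ
      _ = _ := by ring
  have h7 : ∑ n ∈ S, f n * ∑ j ∈ J, (∑ d ∈ Icc 1 Z, b d / (d : ℝ)) * FF α h Mo ε₁ B N j n ≤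
      K * g0 * (Q.I1 ^ 2 / Q.I2) * ∑ n ∈ S, f n +
      er1 Q T K g0 ε₁ ρ ε w * ∑ n ∈ S, f n := by
    unfold er1
    linarith
  calc _ ≤ _ := add_le_add h7 h3
    _ = _ := by
        unfold muC
        ring

/-- a set on which all the forms of a class fail to be almost primes is small -/
theorem detC {T K nb : ℕ} {Q : SPar} {α h : Fin (T * K) → ℤ} {c₀ ε₁ ρ ρ₁ ε η CR κ w : ℝ}
    {Mo A E₁ D B N v D₁ Z : ℕ} {Tr : ℤ → ℝ} {t : ℝ} {th dl b : ℕ → ℝ} {Zb : ℕ → ℕ}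
    {cb : ℕ → ℕ → ℝ}
    (h0 : St_U0F) (h1 : St_L1F) (h2 : St_U2F) (hd : St_UDF) (hNWU : St_NWU) (hNWE : St_NWE)
    (hI1 : ε < Q.I1) (hI2 : ε < Q.I2) (hBr2 : 0 < Br2 Q (T * K) ε) (hCR : 1 ≤ CR) (hκ : 0 ≤ κ)
    (hc₀ : 0 < c₀) (hK : 1 ≤ K) (hρε : ρ = ε₁ / 4) (hε₁1 : ε₁ ≤ 1)
    (H : DatC Q α h Mo c₀ ε₁ ρ ρ₁ ε η CR κ nb A E₁ D B N v D₁ Z Tr t th dl b Zb cb)
    (hN1 : er1 Q T K (ρ / ε₁) ε₁ ρ ε w < K * (Q.I1 ^ 2 / Q.I2) / 64)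
    (hN2 : nb * er2 Q T K (ρ / ε₁) ε₁ ρ CR κ ε w < c₀ * ε₁ * (K * (Q.I1 ^ 2 / Q.I2) / 64))
    (hHB : HB h Mo N) (hnd : Nd α h Mo)
    (i : Fin (T * K)) (J : Finset (Fin (T * K))) (hJ : i ∉ J) (hJK : J.card = K)
    (S : Finset ℕ) (f : ℕ → ℝ) (hf0 : ∀ n ∈ S, 0 ≤ f n)
    (hf : ∀ n ∈ S, f n ≤ 2 * muF Q α h Mo ρ ρ₁ D B N v Tr i n)
    (hneg : ∀ n ∈ S, f n * ∑ j ∈ J, FF α h Mo ε₁ B N j n * ds b Z (Lf α h Mo (some j) n) ≤ 0) :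
    512 / (ρ * βc Q (T * K) ε * w) * ∑ n ∈ S, f n < MMF α h Mo D N B ρ := by
  by_contra hcon
  have hF : MMF α h Mo D N B ρ ≤ 512 / (ρ * βc Q (T * K) ε * w) * ∑ n ∈ S, f n := not_lt.1 hcon
  have hε := H.dB.ε0
  have hε₁ := H.dB.e10
  have hI1p : 0 < Q.I1 := hε.trans hI1
  have hI2p : 0 < Q.I2 := hε.trans hI2
  have hsμ : ∀ i : Fin (T * K), Summable (muF Q α h Mo ρ ρ₁ D B N v Tr i) := fun i =>
    (h0 (T * K) Q α h Mo (-2) ε₁ ρ ρ₁ ε 1 1 A E₁ D B N v D₁ 1 Tr t th dl dlt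
      hI1p hI2p H.dB i).2.1
  have hMM := MMF_pos H.dB
  have hF0 : 0 ≤ ∑ n ∈ S, f n := Finset.sum_nonneg hf0
  have hFp : 0 < ∑ n ∈ S, f n := by
    rcases hF0.lt_or_eq with h5 | h5
    · exact h5
    · rw [← h5, mul_zero] at hF
      exact absurd hMM (not_lt.2 hF)
  have e2Λ : 2 * (512 / (ρ * βc Q (T * K) ε * w)) = 1024 / (ρ * βc Q (T * K) ε * w) := by ring
  have hA := (abs_le.1 (pairG h0 h1 h2 hd hI1 hI2 hBr2 H.dB 1 zero_le_one le_rfl (ρ / ε₁)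
    (by rw [one_mul]; exact H.gle) i J hJ hJK.le S f hf0 hf _ hF)).1
  rw [e2Λ] at hA
  simp only [one_mul] at hA
  have hB : ∀ l ∈ range nb, -(er2 Q T K (ρ / ε₁) ε₁ ρ CR κ ε w * ∑ n ∈ S, f n) ≤
      ∑ n ∈ S, f n * ∑ j ∈ J, FF α h Mo ε₁ B N j n *
      dc (cb l) (Zb l) (Lf α h Mo (some j) n) := by
    intro l hl
    have h5 := (abs_le.1 (blkG hNWU hNWE H.dB hI1p hI2p hsμ hHB hnd hCR hκ H.hdl
      (H.blk l (Finset.mem_range.1 hl)) H.big i J hJ hJK.le S f hf0 hf (ρ / ε₁) H.gle _ hF)).1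
    rw [e2Λ] at h5
    exact h5
  have e : ∑ n ∈ S, f n * ∑ j ∈ J, FF α h Mo ε₁ B N j n * ds b Z (Lf α h Mo (some j) n) =
      (∑ d ∈ Icc 1 Z, b d / (d : ℝ)) * ∑ n ∈ S, f n * ∑ j ∈ J, FF α h Mo ε₁ B N j n +
      ∑ l ∈ range nb, ∑ n ∈ S, f n * ∑ j ∈ J, FF α h Mo ε₁ B N j n *
        dc (cb l) (Zb l) (Lf α h Mo (some j) n) := by
    rw [Finset.sum_comm (s := range nb), Finset.mul_sum, ← Finset.sum_add_distrib]
    refine Finset.sum_congr rfl fun n _ => ?_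
    have e1 : ∑ l ∈ range nb, f n * ∑ j ∈ J, FF α h Mo ε₁ B N j n *
        dc (cb l) (Zb l) (Lf α h Mo (some j) n) = f n * ∑ j ∈ J, ∑ l ∈ range nb,
        FF α h Mo ε₁ B N j n * dc (cb l) (Zb l) (Lf α h Mo (some j) n) := by
      rw [← Finset.mul_sum]
      congr 1
      exact Finset.sum_comm
    have e3 : (∑ d ∈ Icc 1 Z, b d / (d : ℝ)) * (f n * ∑ j ∈ J, FF α h Mo ε₁ B N j n) =
        f n * ∑ j ∈ J, (∑ d ∈ Icc 1 Z, b d / (d : ℝ)) * FF α h Mo ε₁ B N j n := by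
      rw [← Finset.mul_sum]
      ring
    rw [e1, e3, ← mul_add, ← Finset.sum_add_distrib]
    congr 1
    refine Finset.sum_congr rfl fun j _ => ?_
    have e2 : ∑ l ∈ range nb, FF α h Mo ε₁ B N j n * dc (cb l) (Zb l) (Lf α h Mo (some j) n) =
        FF α h Mo ε₁ B N j n * ∑ l ∈ range nb, dc (cb l) (Zb l) (Lf α h Mo (some j) n) :=
      (Finset.mul_sum _ _ _).symm
    rw [e2, H.sp, mul_add, mul_comm (FF α h Mo ε₁ B N j n) (∑ d ∈ Icc 1 Z, b d / (d : ℝ))]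
  have hle : ∑ n ∈ S, f n * ∑ j ∈ J, FF α h Mo ε₁ B N j n * ds b Z (Lf α h Mo (some j) n) ≤ 0 :=
    Finset.sum_nonpos hneg
  rw [e] at hle
  have h3 := Finset.sum_le_sum hB
  rw [Finset.sum_const, Finset.card_range, nsmul_eq_mul] at h3
  have hgB : ρ / (8 * ε₁) ≤ gB α h Mo N B ε₁ ρ := H.gge
  have hρe : ρ / (8 * ε₁) = 1 / 32 := by
    rw [hρε]
    field_simp
    norm_num
  rw [hρe] at hgB
  have hK0 : (0 : ℝ) < K := by exact_mod_cast (by omega : 0 < K)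
  obtain ⟨τ, hτ⟩ : ∃ τ : ℝ, τ = Q.I1 ^ 2 / Q.I2 := ⟨_, rfl⟩
  have hτ0 : 0 < τ := by rw [hτ]; positivity
  obtain ⟨F, hFd⟩ : ∃ F : ℝ, F = ∑ n ∈ S, f n := ⟨_, rfl⟩
  obtain ⟨β, hβd⟩ : ∃ β : ℝ, β = ∑ d ∈ Icc 1 Z, b d / (d : ℝ) := ⟨_, rfl⟩
  obtain ⟨X, hXd⟩ : ∃ X : ℝ, X = ∑ n ∈ S, f n * ∑ j ∈ J, FF α h Mo ε₁ B N j n := ⟨_, rfl⟩
  have hβ := H.βlo
  rw [← hβd] at hβ hle
  rw [← hFd] at h3 hFp hA
  rw [← hXd] at hle hA
  rw [← hτ] at hN1 hN2 hA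
  have hX : K * τ / 64 * F ≤ X := by
    have h8 : (K : ℝ) * τ / 32 * F ≤ K * (gB α h Mo N B ε₁ ρ * τ) * F := by
      apply mul_le_mul_of_nonneg_right _ hFp.le
      calc (K : ℝ) * τ / 32 = K * (1 / 32 * τ) := by ring
        _ ≤ _ := by gcongr
    rw [hJK] at hA
    have h9 : er1 Q T K (ρ / ε₁) ε₁ ρ ε w * F ≤ K * τ / 64 * F :=
      mul_le_mul_of_nonneg_right hN1.le hFp.le
    unfold er1 at h9
    linarith
  have h10 : c₀ * ε₁ * (K * τ / 64 * F) ≤ β * X := by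
    have h11 : 0 ≤ (K : ℝ) * τ / 64 * F := by positivity
    have h12 : 0 < c₀ * ε₁ := by positivity
    exact mul_le_mul hβ hX h11 (h12.le.trans hβ)
  have h13 : nb * (er2 Q T K (ρ / ε₁) ε₁ ρ CR κ ε w * F) < c₀ * ε₁ * (K * τ / 64) * F := by
    calc nb * (er2 Q T K (ρ / ε₁) ε₁ ρ CR κ ε w * F) =
        (nb * er2 Q T K (ρ / ε₁) ε₁ ρ CR κ ε w) * F := by ring
      _ < _ := mul_lt_mul_of_pos_right hN2 hFp
  have h14 : (nb : ℝ) * -(er2 Q T K (ρ / ε₁) ε₁ ρ CR κ ε w * F) =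
      -(nb * (er2 Q T K (ρ / ε₁) ε₁ ρ CR κ ε w * F)) := by ring
  rw [h14] at h3
  linarith

/-- positive weight means almost prime -/
theorem good_of {k nb : ℕ} {Q : SPar} {α h : Fin k → ℤ} {c₀ ε₁ ρ ρ₁ ε η CR κ : ℝ}
    {Mo A E₁ D B N v D₁ Z : ℕ} {Tr : ℤ → ℝ} {t : ℝ} {th dl b : ℕ → ℝ} {Zb : ℕ → ℕ}
    {cb : ℕ → ℕ → ℝ}
    (H : DatC Q α h Mo c₀ ε₁ ρ ρ₁ ε η CR κ nb A E₁ D B N v D₁ Z Tr t th dl b Zb cb)
    (hCL : ∀ p ∈ CL (uB α) (wB h Mo), p ≤ DB (2 * N) B) (hv : CopAt α h D Mo v) (n : ℕ)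
    (hn : n ∈ Ns α h D (DB (2 * N) B) Mo v N) (j : Fin k) (hj0 : Fm α h Mo j n ≠ 0)
    (hj : (Fm α h Mo j n).natAbs ≤ 4 * N) (hsq : ¬ SqP α h Mo ε₁ N n)
    (hpos : 0 < FF α h Mo ε₁ B N j n * ds b Z (Lf α h Mo (some j) n)) :
    P2g N (Fm α h Mo j n) := by
  have hN8 := H.dB.N8
  have hN0 : 0 < N := by omega
  have hε₁ := H.dB.e10
  have hε₁1 := H.dB.e11
  have h2N : (1 : ℝ) < ((2 * N : ℕ) : ℝ) := by exact_mod_cast (by omega : 1 < 2 * N)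
  have hl2 : 0 < Real.log ((2 * N : ℕ) : ℝ) := Real.log_pos h2N
  have hxx : ∀ p ∈ PtF α h Mo N B ε₁, ¬ (p : ℤ) ∣ Lf α h Mo (some j) n := by
    by_contra hc
    have h1 : FF α h Mo ε₁ B N j n = 0 := by
      unfold FF xx
      rw [if_neg hc]
    rw [h1, zero_mul] at hpos
    exact lt_irrefl _ hpos
  have hds : 0 < ds b Z (Lf α h Mo (some j) n) := by
    have h1 : FF α h Mo ε₁ B N j n = 1 := by
      unfold FF xx
      rw [if_pos hxx]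
    rwa [h1, one_mul] at hpos
  rw [Lf_eq] at hxx hds
  unfold Ns at hn
  rw [Finset.mem_filter] at hn
  obtain ⟨-, hnv, hnO⟩ := hn
  refine H.det (Fm α h Mo j n) hj0 hj ?_ ?_ hds
  · intro p hpp hpm
    have hpL : (p : ℤ) ∣ uB α (some j) * (n : ℤ) + wB h Mo (some j) := by
      have h1 : uB α (some j) * (n : ℤ) + wB h Mo (some j) = Fm α h Mo j n := by
        rw [← Lf_eq]
        rfl
      rw [h1]
      exact hpm
    have hD1 : D < p := by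
      by_contra hc
      have hpD : p ∣ WW D := by
        unfold WW
        apply Finset.dvd_prod_of_mem (fun p => p)
        rw [Finset.mem_filter, Finset.mem_Icc]
        exact ⟨⟨hpp.one_le, not_lt.1 hc⟩, hpp⟩
      have hnv' : (n : ℤ) ≡ v [ZMOD ((WW D : ℕ) : ℤ)] := (Int.natCast_modEq_iff).2 hnv
      have hco := hv (some j) n hnv'
      have h2 : (p : ℤ) ∣ ((WW D : ℕ) : ℤ) := Int.natCast_dvd_natCast.2 hpD
      have h3 := hco.isUnit_of_dvd' hpL h2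
      have h4 := Int.natAbs_of_isUnit h3
      rw [Int.natAbs_natCast] at h4
      exact hpp.one_lt.ne' h4
    have hD2 : DB (2 * N) B < p := by
      by_contra hc
      have hq : p ∈ QQ D (DB (2 * N) B) := by
        unfold QQ
        rw [Finset.mem_filter, Finset.mem_Icc]
        exact ⟨⟨by omega, not_lt.1 hc⟩, hpp⟩
      apply hnO p hq
      unfold Om
      rw [Finset.mem_filter, Finset.mem_range]
      refine ⟨Nat.mod_lt _ hpp.pos, some j, ?_⟩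
      unfold LZ
      rw [← Int.natCast_dvd]
      have h3 : (p : ℤ) ∣ uB α (some j) * ((n : ℤ) - ((n % p : ℕ) : ℤ)) := by
        apply Dvd.dvd.mul_left
        have h9 : (n : ℤ) - ((n % p : ℕ) : ℤ) = p * ((n / p : ℕ) : ℤ) := by
          have h8 : (((n % p + p * (n / p) : ℕ)) : ℤ) = (n : ℤ) := by rw [Nat.mod_add_div]
          rw [Nat.cast_add, Nat.cast_mul] at h8
          linarith
        rw [h9]
        exact dvd_mul_right _ _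
      have h4 := dvd_sub hpL h3
      have : uB α (some j) * (n : ℤ) + wB h Mo (some j) -
          uB α (some j) * ((n : ℤ) - ((n % p : ℕ) : ℤ)) =
          uB α (some j) * ((n % p : ℕ) : ℤ) + wB h Mo (some j) := by ring
      rw [this] at h4
      exact h4
    have hpCL : p ∉ CL (uB α) (wB h Mo) := fun hc => by
      have := hCL p hc
      omega
    refine ⟨?_, hpCL⟩
    have hne : (p : ℝ) ≠ ((2 * N : ℕ) : ℝ) ^ ε₁ := by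
      intro hc
      exact hsq ⟨j, Or.inl ⟨p, hpp, hc, hpm⟩⟩
    refine lt_of_le_of_ne ?_ hne.symm
    by_contra hc
    push Not at hc
    apply hxx p _ hpm
    unfold PtF
    rw [Finset.mem_sdiff]
    refine ⟨?_, hpCL⟩
    unfold Pool.Agent.W23.PL.P1
    rw [Finset.mem_filter, Finset.mem_Icc]
    have hp0 : (0 : ℝ) < p := by exact_mod_cast hpp.pos
    have hp2 : (p : ℝ) ≤ ((2 * N : ℕ) : ℝ) := by
      refine hc.le.trans ?_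
      calc ((2 * N : ℕ) : ℝ) ^ ε₁ ≤ ((2 * N : ℕ) : ℝ) ^ (1 : ℝ) :=
            Real.rpow_le_rpow_of_exponent_le h2N.le (by linarith)
        _ = _ := Real.rpow_one _
    refine ⟨⟨hpp.one_le, by exact_mod_cast hp2⟩, hpp, ?_, ?_⟩
    · unfold DB at hD2
      have h5 : ⌈(Real.log ((2 * N : ℕ) : ℝ)) ^ B⌉₊ ≤ p := by omega
      exact (Nat.le_ceil _).trans (by exact_mod_cast h5)
    · unfold Pool.Agent.W23.DC.tt
      rw [div_lt_iff₀ hl2]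
      have h5 := Real.log_lt_log hp0 hc
      rwa [Real.log_rpow (by linarith)] at h5
  · intro q hq h7 hdv
    exact hsq ⟨j, Or.inr ⟨q, hq, h7, hdv⟩⟩

end Pool.Agent.L7h32.CT
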