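import Mathlib
import Pool.Agent.L7h32.CT.CoreC

/-! The counting argument at a fixed `N`. -/

set_option autoImplicit false

namespace Pool.Agent.L7h32.CT

open Finset Filter Topology
open Pool.Agent.H410R2 hiding GP GP_prof GP_cut_some GP_cut_none GP_lip gg_pos gg_le_one gg_anti ee_bound ee_nonneg gg_lip LB_gg LB_ee Sums exists_sums yx wx wxi Br sum_GP_none sum_GP_some sum_GP_some_ee sum_GP_some_one sum_GPr_none sum_GPr_some S1_final QI_final S2_final w_abs_le wmax gg ee I1 I2 IE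
open Pool.Agent.H361R2.GM
open Pool.Agent.H362R2.CM
open Pool.Agent.W25.UN
open Pool.Agent.W25.UB
open Pool.Agent.TH899.UG
open Pool.Agent.W804.UBUD
open Pool.Agent.H442R2.KF (Wt)
open Pool.Agent.W23.PL (DW Ev hat xx)
open Pool.Agent.Y827.LS

open Classical in
theorem core_atC {T K Mc nb nb' : ℕ} {Q : SPar} {α h : Fin (T * K) → ℤ}
    {θ ε₁ ρ ρ₁ ε η₀ η₀' CR κ₁ g0 c₀ z : ℝ}
    {Mo A E₁ D B N v D₁ Zl A' E₁' D₁' Zl' : ℕ} {Tr Tr' : ℤ → ℝ} {t t' : ℝ}
    {th dl b th' dl' b' : ℕ → ℝ} {Zb Zb' : ℕ → ℕ} {cb cb' : ℕ → ℕ → ℝ}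
    (h0 : St_U0F) (h1 : St_L1F) (h2 : St_U2F) (hd : St_UDF) (hNWU : St_NWU) (hNWE : St_NWE)
    (hI1 : ε < Q.I1) (hI2 : ε < Q.I2) (hBr : 0 < Br Q (T * K) ε) (hBr2 : 0 < Br2 Q (T * K) ε)
    (hCR : 1 ≤ CR) (hκ₁ : 0 ≤ κ₁) (hg0 : 0 ≤ g0) (hc₀ : 0 < c₀) (hK : 1 ≤ K)
    (hρε : ρ = ε₁ / 4) (hε₁1 : ε₁ ≤ 1) (hz : 0 < z) (hz1 : 2 * (T : ℝ) * z ^ 2 ≤ 1 / 2)
    (hT : 1 ≤ T)
    (hnum : (1 + muC Q T K nb g0 ε₁ ρ CR κ₁ ε (1 - 2 * T * z ^ 2)) *
      ((Mc + 2 * ε) * Ac Q (T * K) ε) <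
      T * (K * (ρ * (βc Q (T * K) ε * (1 - 2 * T * z ^ 2)))))
    (hN1 : er1 Q T K (ρ / ε₁) ε₁ ρ ε (z ^ 2) < K * (Q.I1 ^ 2 / Q.I2) / 64)
    (hN2 : nb' * er2 Q T K (ρ / ε₁) ε₁ ρ CR κ₁ ε (z ^ 2) <
      c₀ * ε₁ * (K * (Q.I1 ^ 2 / Q.I2) / 64))
    (HL : DatL Q α h Mo θ ε₁ ρ ρ₁ ε η₀ CR κ₁ g0 nb A E₁ D B N v D₁ Zl Tr t th dl b Zb cb)
    (HC : DatC Q α h Mo c₀ ε₁ ρ ρ₁ ε η₀' CR κ₁ nb' A' E₁' D B N v D₁' Zl' Tr' t' th' dl' b' Zb'
      cb')
    (hHB : HB h Mo N) (hnd : Nd α h Mo)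
    (cl : Fin (T * K) → Fin T) (hcl : ∀ g, (univ.filter (fun i => cl i = g)).card = K)
    (hD : 2 ≤ D)
    (hTa : ∀ r < Rn (ε / 400), ∑ n ∈ Ns α h D (DB (2 * N) B) Mo v N,
      lt (ctr (ε / 400) r * N) (ε / 400 * (ctr (ε / 400) r * N)) n *
        (wZ Q (uB α) (wB h Mo) (PBF α h Mo N B ρ₁) (ρ * Real.log N) n) ^ 2 ≤
      ZZ (T * K) (Pool.Agent.W25.UN.VV α h Mo D (DB (2 * N) B))
        (ε / 400 * (ctr (ε / 400) r * N)) (WW D) (BD (DB (2 * N) B)) (ρ * Real.log N) *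
        Ac Q (T * K) ε)
    (hTb : ∀ r < Rn (ε / 400), ∀ i : Fin (T * K),
      ZZ (T * K) (Pool.Agent.W25.UN.VV α h Mo D (DB (2 * N) B))
        (ε / 400 * (ctr (ε / 400) r * N)) (WW D) (BD (DB (2 * N) B)) (ρ * Real.log N) *
        (ρ * βc Q (T * K) ε) ≤ ∑ n ∈ Ns α h D (DB (2 * N) B) Mo v N,
      (if (Fm α h Mo i n).toNat.Prime then
        lt (ctr (ε / 400) r * N) (ε / 400 * (ctr (ε / 400) r * N)) n *
        (wZ Q (uB α) (wB h Mo) (PBF α h Mo N B ρ₁) (ρ * Real.log N) n) ^ 2 else 0))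
    (hh : PosF α h Mo N) (hbig : ((2 * N : ℕ) : ℝ) ^ ε₁ ≤ N / 64)
    (hbigθ : ((2 * N : ℕ) : ℝ) ^ θ ≤ N / 64)
    (hbig7 : ((2 * N : ℕ) : ℝ) ^ (1 / 7 : ℝ) ≤ N / 64)
    (hCL : ∀ p ∈ CL (uB α) (wB h Mo), p ≤ DB (2 * N) B) (hv : CopAt α h D Mo v)
    (hsz : ∀ n : ℕ, n ≤ N → ∀ i, (Fm α h Mo i n).natAbs ≤ 4 * N)
    (e η : ℝ)
    (hpt : ∀ n : ℕ, 1 ≤ n → n ≤ N → (∀ i, (Mo : ℤ) + α i * n + h i ≠ 0) →
      (wZ Q (uB α) (wB h Mo) (PBF α h Mo N B ρ₁) (ρ * Real.log N) n) ^ 2 ≤ (N : ℝ) ^ e)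
    (hV : 1 / Real.log N ≤ Pool.Agent.W25.UN.VV α h Mo D (DB (2 * N) B)) (Cp : ℝ)
    (hCp1 : 12288 * ((WW D / 2 : ℕ) : ℝ) / (ρ * βc Q (T * K) ε * z ^ 2) ≤ Cp)
    (hCp2 : 6144 * T * ((WW D / 2 : ℕ) : ℝ) / (ε * Ac Q (T * K) ε) ≤ Cp)
    (hpl : Cp * (Real.log N) ^ 1 * (N : ℝ) ^ (1 - η + e) ≤ (N : ℝ) ^ (1 : ℝ))
    (hSq : (((Icc 1 N).filter (fun n => SqP α h Mo ε₁ N n)).card : ℝ) ≤ (N : ℝ) ^ (1 - η)) :
    (∀ i : Fin (T * K), (N : ℝ) ^ (1 - η) ≤ (((Icc 1 N).filter (fun n : ℕ =>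
        n ≡ v [MOD (WW D)] ∧ (N : ℝ) / 16 ≤ n ∧ (n : ℝ) ≤ N / 2 ∧
        (Fm α h Mo i n).toNat.Prime ∧ ∀ g : Fin T, ∃ j, cl j = g ∧
          P2g N (Fm α h Mo j n))).card : ℝ)) ∧
    (N : ℝ) ^ (1 - η) ≤ (((Icc 1 N).filter (fun n : ℕ => n ≡ v [MOD (WW D)] ∧
        (N : ℝ) / 16 ≤ n ∧ (n : ℝ) ≤ N / 2 ∧
        Mc + 1 ≤ (univ.filter (fun g : Fin T => ∃ i, cl i = g ∧
          (Fm α h Mo i n).toNat.Prime)).card ∧ ∀ g : Fin T, ∃ j, cl j = g ∧
          P2g N (Fm α h Mo j n))).card : ℝ) := by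
  have H := HL.dB
  have hε := H.ε0
  have hε3 := H.ε3
  have hI1p : 0 < Q.I1 := hε.trans hI1
  have hI2p : 0 < Q.I2 := hε.trans hI2
  have h1ε : 0 < 1 - ε := by linarith
  have hI1ε : 0 < Q.I1 - ε := by linarith
  have hρ := H.ρ0
  have hAc : 0 < Ac Q (T * K) ε := by unfold Ac; positivity
  have hβc : 0 < βc Q (T * K) ε := by unfold βc; positivity
  have hN8 := H.N8
  have hN0 : 0 < N := by omega
  have hNR : (0 : ℝ) < N := by exact_mod_cast hN0
  have hl1 := H.l1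
  have hl : 0 < Real.log N := by linarith
  have hW : (0 : ℝ) < ((WW D / 2 : ℕ) : ℝ) := by
    have := H.W2
    exact_mod_cast (by omega : 0 < WW D / 2)
  have hVp := H.Vp
  have hb1 := H.b1
  have hbp : 0 < bb N B ρ := by linarith
  have hκ : 0 < ε / 400 := by positivity
  have hκ1 : ε / 400 ≤ 1 / 400 := by linarith
  have hT1 : (1 : ℝ) ≤ T := by exact_mod_cast hT
  have hz2 : 0 < z ^ 2 := by positivity
  obtain ⟨w, hwd⟩ : ∃ w : ℝ, w = 1 - 2 * T * z ^ 2 := ⟨_, rfl⟩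
  have hw2 : 1 / 2 ≤ w := by rw [hwd]; linarith
  have hw0 : 0 < w := by linarith
  have hTz : z ^ 2 ≤ T * z ^ 2 := by nlinarith
  rw [← hwd] at hnum
  set κ : ℝ := ε / 400 with hκd
  set w2 : ℕ → ℝ := fun n =>
    (wZ Q (uB α) (wB h Mo) (PBF α h Mo N B ρ₁) (ρ * Real.log N) n) ^ 2 with hw2d
  have hw20 : ∀ n, 0 ≤ w2 n := fun n => sq_nonneg _
  set S : Finset ℕ := (Ns α h D (DB (2 * N) B) Mo v N).filter
    (fun n : ℕ => (N : ℝ) / 16 ≤ n ∧ (n : ℝ) ≤ N / 2) with hS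
  set u : ℕ → ℝ := fun n => Ut κ N n * w2 n with hu
  have hu0 : ∀ n, 0 ≤ u n := fun n => mul_nonneg (Ut_nonneg _ _ _) (hw20 n)
  have hSm : ∀ n ∈ S, n ∈ Ns α h D (DB (2 * N) B) Mo v N ∧ (N : ℝ) / 16 ≤ n ∧
      (n : ℝ) ≤ N / 2 := by
    intro n hn
    rw [hS, Finset.mem_filter] at hn
    exact hn
  have hNsm : ∀ n ∈ Ns α h D (DB (2 * N) B) Mo v N, 1 ≤ n ∧ n ≤ N ∧ n ≡ v [MOD (WW D)] := by
    intro n hn
    unfold Ns at hn
    rw [Finset.mem_filter, Finset.mem_Icc] at hn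
    exact ⟨hn.1.1, hn.1.2, hn.2.1⟩
  have hFm0 : ∀ n ∈ S, ∀ i, Fm α h Mo i n ≠ 0 := by
    intro n hn i h4
    obtain ⟨hn1, hn2, hn3⟩ := hSm n hn
    have h5 := hh i n hn2 hn3
    rw [h4] at h5
    push_cast at h5
    linarith
  set Zr : ℕ → ℝ := fun r => ZZ (T * K) (Pool.Agent.W25.UN.VV α h Mo D (DB (2 * N) B))
        (κ * (ctr κ r * N)) (WW D) (BD (DB (2 * N) B)) (ρ * Real.log N) with hZr
  set Z : ℝ := ∑ r ∈ range (Rn κ), Zr r with hZ
  have hMM : MMF α h Mo D N B ρ ≤ 512 * Z :=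
    MM_leF α h Mo D N B ρ κ hκ hD H.W2 hVp hbp
  -- lower bound for `MM`
  have hMMlow : (N : ℝ) / (24 * ((WW D / 2 : ℕ) : ℝ) * Real.log N) ≤ MMF α h Mo D N B ρ := by
    unfold MMF
    have h3 : (1 : ℝ) ≤ bb N B ρ ^ (T * K) := one_le_pow₀ hb1
    have h4 : (1 : ℝ) / 48 * 1 ≤ bb N B ρ / 48 * bb N B ρ ^ (T * K) := by gcongr
    calc (N : ℝ) / (24 * ((WW D / 2 : ℕ) : ℝ) * Real.log N) =
        ((2 * N : ℕ) : ℝ) * ((1 / Real.log N) / ((WW D / 2 : ℕ) : ℝ) * (1 / 48 * 1)) := by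
          push_cast
          field_simp
          norm_num
      _ ≤ _ := by gcongr
  have hMMp : 0 < MMF α h Mo D N B ρ := lt_of_lt_of_le (by positivity) hMMlow
  have hZp : 0 < Z := by linarith
  have hZlow : (N : ℝ) / (12288 * ((WW D / 2 : ℕ) : ℝ) * Real.log N) ≤ Z := by
    have h7 : (N : ℝ) / (24 * ((WW D / 2 : ℕ) : ℝ) * Real.log N) =
        512 * ((N : ℝ) / (12288 * ((WW D / 2 : ℕ) : ℝ) * Real.log N)) := by
      field_simp
      norm_num
    linarith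
  -- the small sums
  have hrw : 0 < ρ * βc Q (T * K) ε * z ^ 2 := by positivity
  have hsmall : (N : ℝ) ^ (1 - η) * (N : ℝ) ^ e ≤ Z * (ρ * βc Q (T * K) ε * z ^ 2) := by
    calc (N : ℝ) ^ (1 - η) * (N : ℝ) ^ e = (N : ℝ) ^ (1 - η + e) := by rw [Real.rpow_add hNR]
      _ = (12288 * ((WW D / 2 : ℕ) : ℝ) / (ρ * βc Q (T * K) ε * z ^ 2) * (Real.log N) ^ 1 *
            (N : ℝ) ^ (1 - η + e)) / (12288 * ((WW D / 2 : ℕ) : ℝ) * Real.log N) *
            (ρ * βc Q (T * K) ε * z ^ 2) := by field_simp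
      _ ≤ (Cp * (Real.log N) ^ 1 *
            (N : ℝ) ^ (1 - η + e)) / (12288 * ((WW D / 2 : ℕ) : ℝ) * Real.log N) *
            (ρ * βc Q (T * K) ε * z ^ 2) := by gcongr
      _ ≤ ((N : ℝ) ^ (1 : ℝ)) / (12288 * ((WW D / 2 : ℕ) : ℝ) * Real.log N) *
            (ρ * βc Q (T * K) ε * z ^ 2) := by gcongr
      _ = (N : ℝ) / (12288 * ((WW D / 2 : ℕ) : ℝ) * Real.log N) *
            (ρ * βc Q (T * K) ε * z ^ 2) := by rw [Real.rpow_one]
      _ ≤ _ := by gcongr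
  have hsmall2 : T * ((N : ℝ) ^ (1 - η) * (N : ℝ) ^ e) ≤ Z * (2 * ε * Ac Q (T * K) ε) := by
    have h5 : 0 < ε * Ac Q (T * K) ε := by positivity
    calc T * ((N : ℝ) ^ (1 - η) * (N : ℝ) ^ e) = T * (N : ℝ) ^ (1 - η + e) := by
          rw [Real.rpow_add hNR]
      _ = (6144 * T * ((WW D / 2 : ℕ) : ℝ) / (ε * Ac Q (T * K) ε) * (Real.log N) ^ 1 *
            (N : ℝ) ^ (1 - η + e)) / (12288 * ((WW D / 2 : ℕ) : ℝ) * Real.log N) *
            (2 * ε * Ac Q (T * K) ε) := by field_simp; ring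
      _ ≤ (Cp * (Real.log N) ^ 1 *
            (N : ℝ) ^ (1 - η + e)) / (12288 * ((WW D / 2 : ℕ) : ℝ) * Real.log N) *
            (2 * ε * Ac Q (T * K) ε) := by gcongr
      _ ≤ ((N : ℝ) ^ (1 : ℝ)) / (12288 * ((WW D / 2 : ℕ) : ℝ) * Real.log N) *
            (2 * ε * Ac Q (T * K) ε) := by gcongr
      _ = (N : ℝ) / (12288 * ((WW D / 2 : ℕ) : ℝ) * Real.log N) *
            (2 * ε * Ac Q (T * K) ε) := by rw [Real.rpow_one]
      _ ≤ Z * (2 * ε * Ac Q (T * K) ε) := by gcongr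
  have hle : ∀ n ∈ S, u n ≤ (N : ℝ) ^ e := by
    intro n hn
    obtain ⟨hn1, hn2, hn3⟩ := hSm n hn
    obtain ⟨hn4, hn5, hn6⟩ := hNsm n hn1
    have h3 : u n ≤ 1 * w2 n :=
      mul_le_mul_of_nonneg_right (Ut_le_one hκ hN0 _) (hw20 n)
    rw [one_mul] at h3
    refine h3.trans (hpt n hn4 hn5 ?_)
    intro i h4
    exact hFm0 n hn i h4
  have hcard : ∀ R G : Finset ℕ, R ⊆ S → R ⊆ G → (G.card : ℝ) ≤ (N : ℝ) ^ (1 - η) →
      ∑ n ∈ R, u n ≤ (N : ℝ) ^ (1 - η) * (N : ℝ) ^ e := by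
    intro R G hR hRG hG
    calc ∑ n ∈ R, u n ≤ ∑ _n ∈ R, (N : ℝ) ^ e := Finset.sum_le_sum fun n hn => hle n (hR hn)
      _ = (R.card : ℝ) * (N : ℝ) ^ e := by rw [Finset.sum_const, nsmul_eq_mul]
      _ ≤ (N : ℝ) ^ (1 - η) * (N : ℝ) ^ e := by
          apply mul_le_mul_of_nonneg_right _ (by positivity)
          have h4 : (R.card : ℝ) ≤ G.card := by exact_mod_cast Finset.card_le_card hRG
          exact h4.trans hG
  -- first sum
  have hS1 : ∑ n ∈ S, u n ≤ Z * Ac Q (T * K) ε := by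
    have h3 : ∑ n ∈ S, u n ≤ ∑ n ∈ Ns α h D (DB (2 * N) B) Mo v N, u n :=
      Finset.sum_le_sum_of_subset_of_nonneg (Finset.filter_subset _ _) (fun n _ _ => hu0 n)
    refine h3.trans ?_
    have h4 : ∑ n ∈ Ns α h D (DB (2 * N) B) Mo v N, u n =
        ∑ r ∈ range (Rn κ), ∑ n ∈ Ns α h D (DB (2 * N) B) Mo v N,
          lt (ctr κ r * N) (κ * (ctr κ r * N)) n * w2 n := by
      rw [Finset.sum_comm]
      refine Finset.sum_congr rfl fun n _ => ?_
      simp only [hu, Ut]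
      rw [Finset.sum_mul]
    rw [h4, hZ, Finset.sum_mul]
    exact Finset.sum_le_sum fun r hr => hTa r (Finset.mem_range.1 hr)
  -- prime sums
  have hS2 : ∀ i : Fin (T * K), Z * (ρ * βc Q (T * K) ε) ≤
      ∑ n ∈ S, if (Fm α h Mo i n).toNat.Prime then u n else 0 := by
    intro i
    have h3 : ∑ n ∈ S, (if (Fm α h Mo i n).toNat.Prime then u n else 0) =
        ∑ n ∈ Ns α h D (DB (2 * N) B) Mo v N,
          (if (Fm α h Mo i n).toNat.Prime then u n else 0) := by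
      apply Finset.sum_subset (Finset.filter_subset _ _)
      intro n hn hnS
      have h4 : u n = 0 := by
        by_contra hne
        apply hnS
        rw [Finset.mem_filter]
        refine ⟨hn, ?_⟩
        apply Ut_range hκ hκ1 hN0
        intro h5
        apply hne
        simp only [hu]
        rw [h5, zero_mul]
      rw [h4]
      simp
    rw [h3]
    have h4 : ∑ n ∈ Ns α h D (DB (2 * N) B) Mo v N,
          (if (Fm α h Mo i n).toNat.Prime then u n else 0) =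
        ∑ r ∈ range (Rn κ), ∑ n ∈ Ns α h D (DB (2 * N) B) Mo v N,
          (if (Fm α h Mo i n).toNat.Prime then
            lt (ctr κ r * N) (κ * (ctr κ r * N)) n * w2 n else 0) := by
      rw [Finset.sum_comm]
      refine Finset.sum_congr rfl fun n _ => ?_
      split_ifs
      · simp only [hu, Ut]
        rw [Finset.sum_mul]
      · simp
    rw [h4, hZ, Finset.sum_mul]
    exact Finset.sum_le_sum fun r hr => hTb r (Finset.mem_range.1 hr) i
  -- the primes are almost primes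
  have hP2 : ∀ n ∈ S, ∀ i, (Fm α h Mo i n).toNat.Prime → P2g N (Fm α h Mo i n) := by
    intro n hn i hp
    obtain ⟨hn1, hn2, hn3⟩ := hSm n hn
    have h5 := hh i n hn2 hn3
    have h6 : (0 : ℤ) ≤ Fm α h Mo i n := by
      have : (0 : ℝ) ≤ (Fm α h Mo i n : ℝ) := by linarith
      exact_mod_cast this
    have h7 : (Fm α h Mo i n).natAbs = (Fm α h Mo i n).toNat := by omega
    unfold P2g
    rw [h7]
    constructor
    · rw [Nat.primeFactorsList_prime hp]
      simp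
    · intro q hq
      rw [hp.primeFactors, Finset.mem_singleton] at hq
      rw [hq]
      have h8 : ((Fm α h Mo i n).toNat : ℝ) = (Fm α h Mo i n : ℝ) := by
        have h9 : (((Fm α h Mo i n).toNat : ℤ) : ℝ) = ((Fm α h Mo i n : ℤ) : ℝ) := by
          rw [Int.toNat_of_nonneg h6]
        rw [← h9, Int.cast_natCast]
      rw [h8]
      linarith
  -- the good `n`
  set S' : Finset ℕ := S.filter (fun n => ∀ g : Fin T, ∃ j, cl j = g ∧
    P2g N (Fm α h Mo j n)) with hS'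
  have hS'S : S' ⊆ S := Finset.filter_subset _ _
  have hbad : ∀ (i : Fin (T * K)) (g : Fin T), g ≠ cl i →
      ∑ n ∈ S, (if (Fm α h Mo i n).toNat.Prime ∧ ¬ SqP α h Mo ε₁ N n ∧
        (∀ j, cl j = g → ¬ P2g N (Fm α h Mo j n)) then u n else 0) ≤
        Z * (ρ * βc Q (T * K) ε * z ^ 2) := by
    intro i g hg
    set J := univ.filter (fun i => cl i = g) with hJ
    have hiJ : i ∉ J := by
      rw [hJ, Finset.mem_filter]
      exact fun hc => hg hc.2.symm
    set f : ℕ → ℝ := fun n => if (Fm α h Mo i n).toNat.Prime ∧ ¬ SqP α h Mo ε₁ N n ∧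
        (∀ j, cl j = g → ¬ P2g N (Fm α h Mo j n)) then u n else 0 with hf
    have hf0 : ∀ n ∈ S, 0 ≤ f n := by
      intro n _
      simp only [hf]
      split_ifs
      · exact hu0 n
      · exact le_rfl
    have hmu0 := muF_nonneg HC.dB i
    have hfm : ∀ n ∈ S, f n ≤ 2 * muF Q α h Mo ρ ρ₁ D B N v Tr' i n := by
      intro n hn
      obtain ⟨hn1, hn0, hn2⟩ := hSm n hn
      simp only [hf]
      split_ifs with hp
      · have h3 := pt_leF hNWE HC.dB hD i n hn1 hn0 hn2 hh hbig hp.1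
        have h4 : u n ≤ 1 * w2 n :=
          mul_le_mul_of_nonneg_right (Ut_le_one hκ hN0 _) (hw20 n)
        rw [one_mul] at h4
        exact h4.trans h3
      · have := hmu0 n
        linarith
    have hneg : ∀ n ∈ S, f n * ∑ j ∈ J, FF α h Mo ε₁ B N j n *
        ds b' Zl' (Lf α h Mo (some j) n) ≤ 0 := by
      intro n hn
      simp only [hf]
      split_ifs with hp
      · apply mul_nonpos_of_nonneg_of_nonpos (hu0 n)
        apply Finset.sum_nonpos
        intro j hj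
        rw [hJ, Finset.mem_filter] at hj
        by_contra hc
        obtain ⟨hn1, hn0, hn2⟩ := hSm n hn
        exact hp.2.2 j hj.2 (good_of HC hCL hv n hn1 j (hFm0 n hn j)
          (hsz n (hNsm n hn1).2.1 j) hp.2.1 (not_le.1 hc))
      · rw [zero_mul]
    have hdet := detC h0 h1 h2 hd hNWU hNWE hI1 hI2 hBr2 hCR hκ₁ hc₀ hK hρε hε₁1 HC hN1 hN2 hHB hnd
      i J hiJ (hcl g) S f hf0 hfm hneg
    have h5 : 512 / (ρ * βc Q (T * K) ε * z ^ 2) * ∑ n ∈ S, f n < 512 * Z := hdet.trans_le hMM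
    rw [div_mul_eq_mul_div, div_lt_iff₀ hrw] at h5
    have h6 : 512 * Z * (ρ * βc Q (T * K) ε * z ^ 2) = 512 * (Z * (ρ * βc Q (T * K) ε * z ^ 2)) := by
      ring
    rw [h6] at h5
    have h7 : ∑ n ∈ S, f n < Z * (ρ * βc Q (T * K) ε * z ^ 2) := lt_of_mul_lt_mul_left h5 (by norm_num)
    exact h7.le
  have hSqu : ∑ n ∈ S, (if SqP α h Mo ε₁ N n then u n else 0) ≤
      Z * (ρ * βc Q (T * K) ε * z ^ 2) := by
    rw [← Finset.sum_filter]
    refine (hcard _ ((Icc 1 N).filter (fun n => SqP α h Mo ε₁ N n)) (Finset.filter_subset _ _) ?_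
      hSq).trans hsmall
    intro n hn
    rw [Finset.mem_filter] at hn
    obtain ⟨hn4, hn5, hn6⟩ := hNsm n (hSm n hn.1).1
    rw [Finset.mem_filter, Finset.mem_Icc]
    exact ⟨⟨hn4, hn5⟩, hn.2⟩
  have hS2' : ∀ i : Fin (T * K), Z * (ρ * (βc Q (T * K) ε * w)) ≤
      ∑ n ∈ S', if (Fm α h Mo i n).toNat.Prime then u n else 0 := by
    intro i
    have h3 : ∀ n ∈ S, (if (Fm α h Mo i n).toNat.Prime then u n else 0) ≤
        (if (∀ g : Fin T, ∃ j, cl j = g ∧ P2g N (Fm α h Mo j n)) then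
          (if (Fm α h Mo i n).toNat.Prime then u n else 0) else 0) +
        (if SqP α h Mo ε₁ N n then u n else 0) +
        ∑ g ∈ univ.erase (cl i), (if (Fm α h Mo i n).toNat.Prime ∧ ¬ SqP α h Mo ε₁ N n ∧
        (∀ j, cl j = g → ¬ P2g N (Fm α h Mo j n)) then u n else 0) := by
      intro n hn
      have hs0 : 0 ≤ ∑ g ∈ univ.erase (cl i), (if (Fm α h Mo i n).toNat.Prime ∧
          ¬ SqP α h Mo ε₁ N n ∧ (∀ j, cl j = g → ¬ P2g N (Fm α h Mo j n)) then u n else 0) := by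
        apply Finset.sum_nonneg
        intro g _
        split_ifs
        · exact hu0 n
        · exact le_rfl
      by_cases hp : (Fm α h Mo i n).toNat.Prime
      · rw [if_pos hp]
        by_cases hgc : ∀ g : Fin T, ∃ j, cl j = g ∧ P2g N (Fm α h Mo j n)
        · rw [if_pos hgc]
          have : 0 ≤ (if SqP α h Mo ε₁ N n then u n else 0) := by
            split_ifs
            · exact hu0 n
            · exact le_rfl
          linarith
        · rw [if_neg hgc]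
          by_cases hq : SqP α h Mo ε₁ N n
          · rw [if_pos hq]
            linarith
          · rw [if_neg hq]
            push Not at hgc
            obtain ⟨g, hg⟩ := hgc
            have hgi : g ≠ cl i := by
              intro hc
              exact hg i hc.symm (hP2 n hn i hp)
            have h5 := Finset.single_le_sum (s := univ.erase (cl i))
              (f := fun g => if (Fm α h Mo i n).toNat.Prime ∧ ¬ SqP α h Mo ε₁ N n ∧
                (∀ j, cl j = g → ¬ P2g N (Fm α h Mo j n)) then u n else 0)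
              (fun g _ => by
                split_ifs
                · exact hu0 n
                · exact le_rfl) (Finset.mem_erase.2 ⟨hgi, Finset.mem_univ g⟩)
            rw [if_pos ⟨hp, hq, hg⟩] at h5
            linarith
      · rw [if_neg hp]
        have h6 : (0 : ℝ) ≤ (if (∀ g : Fin T, ∃ j, cl j = g ∧ P2g N (Fm α h Mo j n)) then
            (0 : ℝ) else 0) := by
          split_ifs <;> exact le_rfl
        have h7 : 0 ≤ (if SqP α h Mo ε₁ N n then u n else 0) := by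
          split_ifs
          · exact hu0 n
          · exact le_rfl
        linarith
    have h4 := Finset.sum_le_sum h3
    have h4a : ∑ n ∈ S, (if (∀ g : Fin T, ∃ j, cl j = g ∧ P2g N (Fm α h Mo j n)) then
        (if (Fm α h Mo i n).toNat.Prime then u n else 0) else 0) =
        ∑ n ∈ S', (if (Fm α h Mo i n).toNat.Prime then u n else 0) := (Finset.sum_filter _ _).symm
    have h4b : ∑ n ∈ S, ∑ g ∈ univ.erase (cl i), (if (Fm α h Mo i n).toNat.Prime ∧
        ¬ SqP α h Mo ε₁ N n ∧ (∀ j, cl j = g → ¬ P2g N (Fm α h Mo j n)) then u n else 0) =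
        ∑ g ∈ univ.erase (cl i), ∑ n ∈ S, (if (Fm α h Mo i n).toNat.Prime ∧
        ¬ SqP α h Mo ε₁ N n ∧ (∀ j, cl j = g → ¬ P2g N (Fm α h Mo j n)) then u n else 0) :=
      Finset.sum_comm
    rw [Finset.sum_add_distrib, Finset.sum_add_distrib, h4a, h4b] at h4
    have h5 : ∑ g ∈ univ.erase (cl i), ∑ n ∈ S, (if (Fm α h Mo i n).toNat.Prime ∧
        ¬ SqP α h Mo ε₁ N n ∧ (∀ j, cl j = g → ¬ P2g N (Fm α h Mo j n)) then u n else 0) ≤
        (T - 1) * (Z * (ρ * βc Q (T * K) ε * z ^ 2)) := by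
      refine (Finset.sum_le_sum fun g hg => hbad i g (Finset.ne_of_mem_erase hg)).trans ?_
      rw [Finset.sum_const, nsmul_eq_mul, Finset.card_erase_of_mem (Finset.mem_univ _),
        Finset.card_univ, Fintype.card_fin, Nat.cast_sub hT, Nat.cast_one]
    have h6 := hS2 i
    have h7 : Z * (ρ * (βc Q (T * K) ε * w)) = Z * (ρ * βc Q (T * K) ε) -
        2 * T * (Z * (ρ * βc Q (T * K) ε * z ^ 2)) := by
      rw [hwd]
      ring
    rw [h7]
    have h8 : 0 ≤ (T : ℝ) * (Z * (ρ * βc Q (T * K) ε * z ^ 2)) := by positivity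
    linarith
  constructor
  · -- the first conclusion
    intro i
    by_contra hcon
    push Not at hcon
    have h3 := hS2' i
    rw [← Finset.sum_filter] at h3
    have h4 := hcard (S'.filter (fun n => (Fm α h Mo i n).toNat.Prime)) _
      ((Finset.filter_subset _ _).trans hS'S) (by
        intro n hn
        rw [Finset.mem_filter, hS', Finset.mem_filter] at hn
        obtain ⟨hn4, hn5, hn6⟩ := hNsm n (hSm n hn.1.1).1
        rw [Finset.mem_filter, Finset.mem_Icc]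
        exact ⟨⟨hn4, hn5⟩, hn6, (hSm n hn.1.1).2.1, (hSm n hn.1.1).2.2, hn.2, hn.1.2⟩) hcon.le
    have h5 := h3.trans (h4.trans hsmall)
    have h6 : Z * (ρ * βc Q (T * K) ε * z ^ 2) < Z * (ρ * (βc Q (T * K) ε * w)) := by
      apply mul_lt_mul_of_pos_left _ hZp
      have h7 : z ^ 2 < w := by linarith
      have h8 : 0 < ρ * βc Q (T * K) ε := by positivity
      calc ρ * βc Q (T * K) ε * z ^ 2 < ρ * βc Q (T * K) ε * w := mul_lt_mul_of_pos_left h7 h8
        _ = _ := by ring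
    linarith
  · -- the second conclusion
    by_contra hcon
    push Not at hcon
    set E : Finset ℕ := (Icc 1 N).filter (fun n : ℕ => n ≡ v [MOD (WW D)] ∧
        (N : ℝ) / 16 ≤ n ∧ (n : ℝ) ≤ N / 2 ∧
        Mc + 1 ≤ (univ.filter (fun g : Fin T => ∃ i, cl i = g ∧
          (Fm α h Mo i n).toNat.Prime)).card ∧ ∀ g : Fin T, ∃ j, cl j = g ∧
          P2g N (Fm α h Mo j n)) with hE
    have hS1' : ∑ n ∈ S', u n ≤ Z * Ac Q (T * K) ε :=
      (Finset.sum_le_sum_of_subset_of_nonneg hS'S (fun n _ _ => hu0 n)).trans hS1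
    have hnn : ∀ (j : Fin (T * K)) (n : ℤ), 0 ≤ sjL α h Mo ε₁ B N Zl b j n := fun j n =>
      mul_nonneg (FF_nonneg _ _ _ _ _ _ _ _) (HL.bn _)
    have hone : ∀ (j : Fin (T * K)) (n : ℕ), (N : ℝ) / 16 ≤ n → (n : ℝ) ≤ N / 2 →
        (Fm α h Mo j n).toNat.Prime → 1 ≤ sjL α h Mo ε₁ B N Zl b j n := by
      intro j n hn1 hn2 hp
      have h3 : FF α h Mo ε₁ B N j n = 1 := by
        unfold FF xx
        rw [if_pos]
        intro p hp'
        have h4 := H.gd p (Finset.mem_union_right _ hp')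
        exact no_smallF hn1 hn2 hh hN0 hp h4.1.1 (h4.2.2.trans hbig)
      have h5 : ds b Zl (Lf α h Mo (some j) n) = 1 := by
        apply HL.bo
        intro p hp1 hp2
        exact no_smallF hn1 hn2 hh hN0 hp hp1 (hp2.trans hbigθ)
      unfold sjL
      rw [h3, h5, mul_one]
    have hmuc : 0 ≤ muC Q T K nb g0 ε₁ ρ CR κ₁ ε w := by
      unfold muC er1 er2
      positivity
    have hS3 : ∀ g : Fin T, ∀ i ∈ univ.filter (fun i => cl i = g),
        ∑ j ∈ (univ.filter (fun i => cl i = g)).erase i,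
          (∑ n ∈ S', if (Fm α h Mo i n).toNat.Prime ∧ (Fm α h Mo j n).toNat.Prime then u n
            else 0) ≤
        muC Q T K nb g0 ε₁ ρ CR κ₁ ε w *
          ∑ n ∈ S', if (Fm α h Mo i n).toNat.Prime then u n else 0 := by
      intro g i hi
      set J := (univ.filter (fun i => cl i = g)).erase i with hJ
      set f : ℕ → ℝ := fun n => if (Fm α h Mo i n).toNat.Prime then u n else 0 with hf
      have hf0 : ∀ n ∈ S', 0 ≤ f n := by
        intro n _
        simp only [hf]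
        split_ifs
        · exact hu0 n
        · exact le_rfl
      have hmu0 := muF_nonneg H i
      have hfm : ∀ n ∈ S', f n ≤ 2 * muF Q α h Mo ρ ρ₁ D B N v Tr i n := by
        intro n hn
        obtain ⟨hn1, hn0, hn2⟩ := hSm n (hS'S hn)
        simp only [hf]
        split_ifs with hp
        · have h3 := pt_leF hNWE H hD i n hn1 hn0 hn2 hh hbig hp
          have h4 : u n ≤ 1 * w2 n :=
            mul_le_mul_of_nonneg_right (Ut_le_one hκ hN0 _) (hw20 n)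
          rw [one_mul] at h4
          exact h4.trans h3
        · have := hmu0 n
          linarith
      have hJK : J.card ≤ K := (Finset.card_le_card (Finset.erase_subset _ _)).trans (hcl g).le
      have hFm : MMF α h Mo D N B ρ ≤ 512 / (ρ * βc Q (T * K) ε * w) * ∑ n ∈ S', f n := by
        refine hMM.trans ?_
        have h9 : 0 < ρ * βc Q (T * K) ε * w := by positivity
        rw [div_mul_eq_mul_div, le_div_iff₀ h9]
        have h10 := hS2' i
        have h11 : 512 * Z * (ρ * βc Q (T * K) ε * w) = 512 * (Z * (ρ * (βc Q (T * K) ε * w))) := by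
          ring
        rw [h11]
        exact mul_le_mul_of_nonneg_left h10 (by norm_num)
      have hpair := pairC h0 h1 h2 hd hNWU hNWE hI1 hI2 hBr2 hCR hκ₁ HL hHB hnd i J
        (Finset.notMem_erase i _) hJK S' f hf0 hfm hFm
      refine le_trans ?_ hpair
      rw [Finset.sum_comm]
      apply Finset.sum_le_sum
      intro n hn
      obtain ⟨hn1, hn0, hn2⟩ := hSm n (hS'S hn)
      rw [Finset.mul_sum]
      apply Finset.sum_le_sum
      intro j _
      by_cases hpi : (Fm α h Mo i n).toNat.Prime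
      · by_cases hpj : (Fm α h Mo j n).toNat.Prime
        · rw [if_pos ⟨hpi, hpj⟩]
          have h3 := hone j n hn0 hn2 hpj
          have h4 : f n = u n := by simp only [hf]; rw [if_pos hpi]
          rw [h4]
          exact le_mul_of_one_le_right (hu0 n) h3
        · rw [if_neg (fun h' => hpj h'.2)]
          exact mul_nonneg (hf0 n hn) (hnn j n)
      · rw [if_neg (fun h' => hpi h'.1)]
        exact mul_nonneg (hf0 n hn) (hnn j n)
    have hS4 : ∀ n ∈ S', n ∉ E → (univ.filter (fun g : Fin T => ∃ i, cl i = g ∧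
        (Fm α h Mo i n).toNat.Prime)).card ≤ Mc := by
      intro n hn hnE
      by_contra hc
      apply hnE
      have hn' := hn
      rw [hS', Finset.mem_filter] at hn'
      obtain ⟨hn1, hn2, hn3⟩ := hSm n hn'.1
      obtain ⟨hn4, hn5, hn6⟩ := hNsm n hn1
      rw [hE, Finset.mem_filter, Finset.mem_Icc]
      exact ⟨⟨hn4, hn5⟩, hn6, hn2, hn3, Nat.succ_le_of_lt (not_le.1 hc), hn'.2⟩
    have hS5 : T * ∑ n ∈ S'.filter (fun n => n ∈ E), u n ≤ Z * (2 * ε * Ac Q (T * K) ε) := by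
      have h1 := hcard (S'.filter (fun n => n ∈ E)) E ((Finset.filter_subset _ _).trans hS'S)
        (fun n hn => (Finset.mem_filter.1 hn).2) hcon.le
      refine le_trans ?_ hsmall2
      exact mul_le_mul_of_nonneg_left h1 (by positivity)
    have hfin := countT Mc cl hcl S' u (fun n _ => hu0 n)
      (fun i n => (Fm α h Mo i n).toNat.Prime) E Z ρ (βc Q (T * K) ε * w) (Ac Q (T * K) ε)
      (muC Q T K nb g0 ε₁ ρ CR κ₁ ε w) (2 * ε) hZp hmuc hS1' hS2' hS3 hS4 hS5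
    linarith

end Pool.Agent.L7h32.CT
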