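import Mathlib
import Pool.Agent.L7h32.CT.NumC

/-! The choice of the parameters, positive `ε`. -/

set_option autoImplicit false

namespace Pool.Agent.L7h32.CT

open Finset Filter Topology
open Pool.Agent.H361R2.GM
open Pool.Agent.H362R2.CM
open Pool.Agent.W25.UB
open Pool.Agent.W352.UBNum
open Pool.Agent.Y827.LS

theorem exp_small (e : ℝ) (he : 0 < e) (j : ℕ) :
    Real.exp (-(1 / e)) ≤ (Nat.factorial j : ℝ) * e ^ j := by
  have h2 := Real.pow_div_factorial_le_exp (1 / e) (by positivity) j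
  have hf : (0 : ℝ) < (Nat.factorial j : ℝ) := by exact_mod_cast Nat.factorial_pos j
  rw [Real.exp_neg]
  have h4 : 0 < (1 / e) ^ j / (Nat.factorial j : ℝ) := by positivity
  calc (Real.exp (1 / e))⁻¹ ≤ ((1 / e) ^ j / (Nat.factorial j : ℝ))⁻¹ := inv_anti₀ h4 h2
    _ = (Nat.factorial j : ℝ) * e ^ j := by rw [inv_div, one_div, inv_pow, div_inv_eq_mul]

/-- the choice of the parameters -/
theorem numC (θ : ℝ) (hθ : 1 / 2 ≤ θ) (hθ1 : θ ≤ 1) (n m : ℕ) (hn : 1 ≤ n)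
    (hnm0 : 2 / θ * (m : ℝ) < n) (nb nb' : ℕ) (c₀ c₁ : ℝ) (hc₀ : 0 < c₀) :
    ∃ z e₁ : ℝ, 0 < z ∧ 2 * n * z ^ 2 ≤ 1 / 2 ∧ 0 < e₁ ∧ ∀ ε₁ : ℝ, 0 < ε₁ →
    ε₁ ≤ e₁ → ∃ (K : ℕ) (Q : SPar) (ε : ℝ), 2 ≤ K ∧ 3 ≤ n * K ∧ 0 < ε ∧
    ε < 1 / 3 ∧ ε < Q.I1 ∧ ε < Q.I2 ∧ 0 < Br Q (n * K) ε ∧ 0 < Br2 Q (n * K) ε ∧
    (1 + muC Q n K nb (g0c (4 * θ - 2) (ε₁ / 4) ε) ε₁ (ε₁ / 4) (Real.exp (c₁ / ε₁))
      (Real.exp (-((2 * c₁ + 1) / ε₁))) ε (1 - 2 * n * z ^ 2)) * ((m + 2 * ε) * Ac Q (n * K) ε) <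
      n * (K * (ε₁ / 4 * (βc Q (n * K) ε * (1 - 2 * n * z ^ 2)))) ∧
    er1 Q n K (ε₁ / 4 / ε₁) ε₁ (ε₁ / 4) ε (z ^ 2) < K * (Q.I1 ^ 2 / Q.I2) / 64 ∧
    nb' * er2 Q n K (ε₁ / 4 / ε₁) ε₁ (ε₁ / 4) (Real.exp (c₁ / ε₁))
      (Real.exp (-((2 * c₁ + 1) / ε₁))) ε (z ^ 2) <
      c₀ * ε₁ * (K * (Q.I1 ^ 2 / Q.I2) / 64) := by
  have hθ0 : 0 < θ := by linarith
  have hn1 : (1 : ℝ) ≤ n := by exact_mod_cast hn
  have hn0 : (0 : ℝ) < n := by linarith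
  obtain ⟨M', hM'⟩ : ∃ M' : ℝ, M' = 2 / θ * (m : ℝ) := ⟨_, rfl⟩
  have hM0 : 0 ≤ M' := by rw [hM']; positivity
  rw [← hM'] at hnm0
  obtain ⟨gap, hgap⟩ : ∃ gap : ℝ, gap = n - M' := ⟨_, rfl⟩
  have hgap0 : 0 < gap := by rw [hgap]; linarith
  obtain ⟨σ, hσd⟩ : ∃ σ : ℝ, σ = min (1 / 10) (gap / (2 * (2 * n + 5 * M'))) := ⟨_, rfl⟩
  have hden : 0 < 2 * (2 * n + 5 * M') := by positivity
  have hσ : 0 < σ := by rw [hσd]; exact lt_min (by norm_num) (by positivity)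
  have hσ1 : σ ≤ 1 / 10 := by rw [hσd]; exact min_le_left _ _
  have hσ2 : σ * (2 * (2 * n + 5 * M')) ≤ gap := by
    rw [← le_div_iff₀ hden, hσd]
    exact min_le_right _ _
  have hnm : 2 / θ * (m : ℝ) * (1 + 5 * σ) < n * (1 - σ) * (1 - σ) := by
    rw [← hM']
    have h1 : 0 < σ * (2 * n + 5 * M') := by positivity
    nlinarith [mul_pos hn0 (mul_pos hσ hσ)]
  obtain ⟨z, hzd⟩ : ∃ z : ℝ, z = min (1 / 2) (σ / (2 * n)) := ⟨_, rfl⟩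
  have hz : 0 < z := by rw [hzd]; exact lt_min (by norm_num) (by positivity)
  have hz2 : z ≤ 1 / 2 := by rw [hzd]; exact min_le_left _ _
  have hz3 : z * (2 * n) ≤ σ := by
    rw [← le_div_iff₀ (by positivity), hzd]
    exact min_le_right _ _
  have hz1 : 2 * n * z ^ 2 ≤ σ := by nlinarith
  obtain ⟨s, hsd⟩ : ∃ s : ℝ, s = min σ (z / 32) := ⟨_, rfl⟩
  have hs : 0 < s := by rw [hsd]; exact lt_min hσ (by positivity)
  have hsσ : s ≤ σ := by rw [hsd]; exact min_le_left _ _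
  have hsz : s ≤ z / 32 := by rw [hsd]; exact min_le_right _ _
  refine ⟨z, min (s / 500) (min (s ^ 2 / (24000000 * ((nb : ℝ) ^ 2 + 1)))
    (z * c₀ / (2300000 * ((nb' : ℝ) + 1)))), hz, by linarith, lt_min (by positivity)
    (lt_min (by positivity) (by positivity)), ?_⟩
  intro ε₁ he he1'
  have he1 : ε₁ ≤ s / 500 := he1'.trans (min_le_left _ _)
  have he2 : ε₁ * (24000000 * ((nb : ℝ) ^ 2 + 1)) ≤ s ^ 2 := by
    rw [← le_div_iff₀ (by positivity)]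
    exact he1'.trans ((min_le_right _ _).trans (min_le_left _ _))
  have he3 : ε₁ * (2300000 * ((nb' : ℝ) + 1)) ≤ z * c₀ := by
    rw [← le_div_iff₀ (by positivity)]
    exact he1'.trans ((min_le_right _ _).trans (min_le_right _ _))
  have e1 : Real.exp (c₁ / ε₁) ^ 2 * Real.exp (-((2 * c₁ + 1) / ε₁)) = Real.exp (-(1 / ε₁)) := by
    rw [pow_two, ← Real.exp_add, ← Real.exp_add]
    congr 1
    ring
  have hGκ : 1000000 * (Real.exp (c₁ / ε₁) ^ 2 * Real.exp (-((2 * c₁ + 1) / ε₁)) * (nb : ℝ) ^ 2) ≤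
      s ^ 2 * ε₁ ^ 3 := by
    have e2 := exp_small ε₁ he 4
    have h3 : ((Nat.factorial 4 : ℕ) : ℝ) = 24 := by norm_num [Nat.factorial]
    rw [h3] at e2
    rw [e1]
    calc 1000000 * (Real.exp (-(1 / ε₁)) * (nb : ℝ) ^ 2) ≤
        1000000 * (24 * ε₁ ^ 4 * ((nb : ℝ) ^ 2 + 1)) := by
          gcongr
          linarith
      _ = (ε₁ * (24000000 * ((nb : ℝ) ^ 2 + 1))) * ε₁ ^ 3 := by ring
      _ ≤ s ^ 2 * ε₁ ^ 3 := mul_le_mul_of_nonneg_right he2 (by positivity)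
  have hGκ' : 1000000 * (Real.exp (c₁ / ε₁) ^ 2 * Real.exp (-((2 * c₁ + 1) / ε₁)) *
      (nb' : ℝ) ^ 2) ≤ (z * c₀ * ε₁ / 32) ^ 2 * ε₁ ^ 3 := by
    have e2 := exp_small ε₁ he 7
    have h3 : ((Nat.factorial 7 : ℕ) : ℝ) = 5040 := by norm_num [Nat.factorial]
    rw [h3] at e2
    rw [e1]
    have h4 : (ε₁ * (2300000 * ((nb' : ℝ) + 1))) ^ 2 ≤ (z * c₀) ^ 2 :=
      pow_le_pow_left₀ (by positivity) he3 2
    have hnb : (0 : ℝ) ≤ nb' := Nat.cast_nonneg _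
    have h5 : 5160960000000 * (ε₁ ^ 2 * (nb' : ℝ) ^ 2) ≤ (z * c₀) ^ 2 := by
      refine le_trans ?_ h4
      have h6 : (ε₁ * (2300000 * ((nb' : ℝ) + 1))) ^ 2 =
          5290000000000 * (ε₁ ^ 2 * ((nb' : ℝ) + 1) ^ 2) := by ring
      rw [h6]
      have h7 : ε₁ ^ 2 * (nb' : ℝ) ^ 2 ≤ ε₁ ^ 2 * ((nb' : ℝ) + 1) ^ 2 := by
        gcongr
        linarith
      have h8 : 0 ≤ ε₁ ^ 2 * ((nb' : ℝ) + 1) ^ 2 := by positivity
      linarith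
    calc 1000000 * (Real.exp (-(1 / ε₁)) * (nb' : ℝ) ^ 2) ≤
        1000000 * (5040 * ε₁ ^ 7 * (nb' : ℝ) ^ 2) := by gcongr
      _ = (5160960000000 * (ε₁ ^ 2 * (nb' : ℝ) ^ 2)) * (ε₁ ^ 5 / 1024) := by ring
      _ ≤ (z * c₀) ^ 2 * (ε₁ ^ 5 / 1024) := mul_le_mul_of_nonneg_right h5 (by positivity)
      _ = _ := by ring
  obtain ⟨G, hGd⟩ : ∃ G : ℝ, G = Real.exp (c₁ / ε₁) := ⟨_, rfl⟩
  obtain ⟨κ, hκd⟩ : ∃ κ : ℝ, κ = Real.exp (-((2 * c₁ + 1) / ε₁)) := ⟨_, rfl⟩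
  rw [← hGd, ← hκd] at hGκ hGκ'
  rw [← hGd, ← hκd]
  have hG0 : 0 ≤ G := by rw [hGd]; positivity
  have hκ0 : 0 ≤ κ := by rw [hκd]; positivity
  obtain ⟨K, Q, hK, hnK3, hI1, hI2, hB, hB2, hb, hb', hb''⟩ :=
    baseC n m nb nb' θ σ z s ε₁ G κ c₀ hn hθ hθ1 hσ hσ1 hnm hz hz1 hs hsσ hsz hc₀ he he1 hG0 hκ0
      hGκ hGκ'
  set w : ℝ := 1 - 2 * n * z ^ 2 with hw
  have hw0 : 0 < w := by rw [hw]; linarith
  have hz20 : 0 < z ^ 2 := by positivity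
  have hcB : Continuous fun ε : ℝ => Br Q (n * K) ε := by
    unfold Br
    fun_prop
  have hcB2 : Continuous fun ε : ℝ => Br2 Q (n * K) ε := by
    unfold Br2
    fun_prop
  have hcβ : Continuous fun ε : ℝ => βc Q (n * K) ε := by
    unfold βc
    fun_prop
  have hcA : Continuous fun ε : ℝ => Ac Q (n * K) ε := by
    unfold Ac
    fun_prop
  have hβ0 : βc Q (n * K) 0 ≠ 0 := by
    have : βc Q (n * K) 0 = Q.I1 ^ 2 * Br Q (n * K) 0 := by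
      unfold βc
      simp
    rw [this]
    positivity
  have hg : ContinuousAt (fun ε : ℝ => g0c (4 * θ - 2) (ε₁ / 4) ε) 0 := by
    unfold g0c
    apply ContinuousAt.div (by fun_prop) (by fun_prop)
    have : (0 : ℝ) < (1 / 4 + (4 * θ - 2) / 8) * (1 - 0) := by
      rw [sub_zero]; linarith
    exact this.ne'
  have hdv : ∀ n : ℕ, ContinuousAt (fun ε : ℝ => (Q.I1 + ε) ^ n / (1 - ε) ^ 2) 0 := by
    intro n
    apply ContinuousAt.div (by fun_prop) (by fun_prop)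
    norm_num
  have hr : ContinuousAt (fun ε : ℝ => r0c Q (n * K) ε) 0 := by
    unfold r0c
    have h1 := hdv 2
    have h2 : ContinuousAt (fun ε : ℝ => (1 + ε)) 0 := by fun_prop
    have h3 : ContinuousAt (fun ε : ℝ => (1 / 3 + ε)) 0 := by fun_prop
    have h4 : ContinuousAt (fun ε : ℝ => (Q.I2 + ε) ^ (n * K - 1)) 0 := by fun_prop
    exact (h2.mul (((h1.mul h2).mul h3).mul h4)).add continuousAt_id
  have hu : ContinuousAt (fun ε : ℝ => u2c Q (n * K) ε₁ ε) 0 := by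
    unfold u2c
    have h1 := hdv 6
    have h2 : ContinuousAt (fun ε : ℝ => (1 + ε)) 0 := by fun_prop
    have h3 : ContinuousAt (fun ε : ℝ => (1 / 3 + ε)) 0 := by fun_prop
    have h4 : ContinuousAt (fun ε : ℝ => (Q.I2 + ε) ^ (n * K - 3)) 0 := by fun_prop
    exact ((h2.mul continuousAt_const).mul (((h1.mul h2).mul h3).mul h4)).add continuousAt_id
  have hud : ContinuousAt (fun ε : ℝ => udc Q (n * K) ε₁ ε) 0 := by
    unfold udc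
    have h1 := hdv 4
    have h2 : ContinuousAt (fun ε : ℝ => (1 + ε)) 0 := by fun_prop
    have h3 : ContinuousAt (fun ε : ℝ => (1 / 3 + ε)) 0 := by fun_prop
    have h4 : ContinuousAt (fun ε : ℝ => (Q.I2 + ε) ^ (n * K - 2)) 0 := by fun_prop
    exact ((h2.mul continuousAt_const).mul (((h1.mul h2).mul h3).mul h4)).add continuousAt_id
  have hl : ContinuousAt (fun ε : ℝ => l1c Q (n * K) ε₁ ε) 0 := by
    unfold l1c
    have h1 : ContinuousAt (fun ε : ℝ => (1 - ε) ^ 4 * (Q.I1 - ε) ^ 4 / (1 + ε) ^ 2) 0 := by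
      apply ContinuousAt.div (by fun_prop) (by fun_prop)
      norm_num
    have h2 : ContinuousAt (fun ε : ℝ => (1 - ε)) 0 := by fun_prop
    have h3 : ContinuousAt (fun ε : ℝ => 2 * ε) 0 := by fun_prop
    exact ((h2.mul continuousAt_const).mul ((h1.mul h2).mul hcB2.continuousAt)).sub h3
  have hq : ContinuousAt (fun ε : ℝ => qc Q (n * K) ε₁ ε) 0 := by
    unfold qc
    have h1 : ContinuousAt (fun ε : ℝ => u2c Q (n * K) ε₁ ε -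
        2 * (Q.I1 ^ 2 / Q.I2) * l1c Q (n * K) ε₁ ε +
        (Q.I1 ^ 2 / Q.I2) ^ 2 * r0c Q (n * K) ε) 0 :=
      (hu.sub (continuousAt_const.mul hl)).add (continuousAt_const.mul hr)
    exact Filter.Tendsto.max tendsto_const_nhds h1.tendsto
  have ho : ContinuousAt (fun ε : ℝ => ofc Q (n * K) G κ ε₁ ε) 0 := by
    unfold ofc
    exact (continuousAt_const.mul hu).add (continuousAt_const.mul continuousAt_id)
  have hfr : ∀ x : ℝ, 0 < x → ContinuousAt (fun ε : ℝ => 1024 / (ε₁ / 4 * βc Q (n * K) ε * x)) 0 := by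
    intro x hx
    apply ContinuousAt.div continuousAt_const
      ((continuousAt_const.mul hcβ.continuousAt).mul continuousAt_const)
    have : ε₁ / 4 ≠ 0 := by positivity
    exact mul_ne_zero (mul_ne_zero this hβ0) hx.ne'
  have her1 : ∀ (gf : ℝ → ℝ) (x : ℝ), ContinuousAt gf 0 → 0 < x →
      ContinuousAt (fun ε : ℝ => er1 Q n K (gf ε) ε₁ (ε₁ / 4) ε x) 0 := by
    intro gf x hgf hx
    unfold er1
    have h2 : ContinuousAt (fun ε : ℝ => (K : ℝ) * (2 * (gf ε *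
        udc Q (n * K) ε₁ ε)) + (K : ℝ) ^ 2 * gf ε ^ 2 *
        qc Q (n * K) ε₁ ε) 0 :=
      (continuousAt_const.mul (continuousAt_const.mul (hgf.mul hud))).add
        ((continuousAt_const.mul (hgf.pow 2)).mul hq)
    exact ((hfr x hx).mul h2).sqrt
  have her2 : ∀ x : ℝ, 0 < x →
      ContinuousAt (fun ε : ℝ => er2 Q n K (ε₁ / 4 / ε₁) ε₁ (ε₁ / 4) G κ ε x) 0 := by
    intro x hx
    unfold er2
    have h3 : ContinuousAt (fun ε : ℝ => (K : ℝ) * (4 * G ^ 2 * (ε₁ / 4 / ε₁ *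
        udc Q (n * K) ε₁ ε)) + (K : ℝ) ^ 2 * (ε₁ / 4 / ε₁) ^ 2 * ofc Q (n * K) G κ ε₁ ε) 0 :=
      (continuousAt_const.mul (continuousAt_const.mul (continuousAt_const.mul hud))).add
        (continuousAt_const.mul ho)
    exact ((hfr x hx).mul h3).sqrt
  have hmu : ContinuousAt (fun ε : ℝ => muC Q n K nb (g0c (4 * θ - 2) (ε₁ / 4) ε) ε₁ (ε₁ / 4) G κ
      ε w) 0 := by
    unfold muC
    exact (((continuousAt_const.mul hg).mul continuousAt_const).add (her1 _ w hg hw0)).add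
      (continuousAt_const.mul (her2 w hw0))
  have hc1 : ContinuousAt (fun ε : ℝ => (1 + muC Q n K nb (g0c (4 * θ - 2) (ε₁ / 4) ε) ε₁ (ε₁ / 4)
      G κ ε w) * ((m + 2 * ε) * Ac Q (n * K) ε)) 0 := by
    apply ContinuousAt.mul (continuousAt_const.add hmu)
    apply ContinuousAt.mul (by fun_prop) hcA.continuousAt
  have hc2 : ContinuousAt (fun ε : ℝ => n * (K * (ε₁ / 4 * (βc Q (n * K) ε * w)))) 0 :=
    continuousAt_const.mul (continuousAt_const.mul (continuousAt_const.mul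
      (hcβ.continuousAt.mul continuousAt_const)))
  have hev : ∀ᶠ ε : ℝ in 𝓝 0, (1 + muC Q n K nb (g0c (4 * θ - 2) (ε₁ / 4) ε) ε₁ (ε₁ / 4) G κ ε w) *
      ((m + 2 * ε) * Ac Q (n * K) ε) < n * (K * (ε₁ / 4 * (βc Q (n * K) ε * w))) :=
    hc1.tendsto.eventually_lt hc2.tendsto hb
  have hev' : ∀ᶠ ε : ℝ in 𝓝 0, er1 Q n K (ε₁ / 4 / ε₁) ε₁ (ε₁ / 4) ε (z ^ 2) <
      K * (Q.I1 ^ 2 / Q.I2) / 64 :=
    (her1 (fun _ => ε₁ / 4 / ε₁) (z ^ 2) continuousAt_const hz20).tendsto.eventually_lt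
      tendsto_const_nhds hb'
  have hev'' : ∀ᶠ ε : ℝ in 𝓝 0, nb' * er2 Q n K (ε₁ / 4 / ε₁) ε₁ (ε₁ / 4) G κ ε (z ^ 2) <
      c₀ * ε₁ * (K * (Q.I1 ^ 2 / Q.I2) / 64) :=
    (continuousAt_const.mul (her2 (z ^ 2) hz20)).tendsto.eventually_lt
      tendsto_const_nhds hb''
  have hev1 : ∀ᶠ ε : ℝ in 𝓝 0, ε < 1 / 3 := gt_mem_nhds (by norm_num)
  have hev2 : ∀ᶠ ε : ℝ in 𝓝 0, ε < Q.I1 := gt_mem_nhds hI1
  have hev3 : ∀ᶠ ε : ℝ in 𝓝 0, ε < Q.I2 := gt_mem_nhds hI2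
  have hev4 : ∀ᶠ ε : ℝ in 𝓝 0, 0 < Br Q (n * K) ε :=
    (hcB.tendsto (0 : ℝ)).eventually (lt_mem_nhds hB)
  have hev5 : ∀ᶠ ε : ℝ in 𝓝 0, 0 < Br2 Q (n * K) ε :=
    (hcB2.tendsto (0 : ℝ)).eventually (lt_mem_nhds hB2)
  have hall := ((hev.and (hev'.and (hev''.and (hev1.and (hev2.and (hev3.and
    (hev4.and hev5))))))).filter_mono
    (nhdsWithin_le_nhds (s := Set.Ioi (0 : ℝ)))).and (self_mem_nhdsWithin (s := Set.Ioi (0 : ℝ)))
  obtain ⟨ε, ⟨h1, h1', h1'', h2, h3, h4, h5, h6⟩, h7⟩ := hall.exists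
  exact ⟨K, Q, ε, hK, hnK3, h7, h2, h3, h4, h5, h6, h1, h1', h1''⟩

end Pool.Agent.L7h32.CT
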