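import Mathlib

/-! Few integers have a value divisible by the square of a large prime. -/

set_option autoImplicit false

namespace Pool.Agent.L7h32.CT

open Finset Filter Topology

theorem card_dvd_le (N d : ℕ) (hd : 1 ≤ d) (c : ℤ) :
    (((Icc 1 N).filter (fun n : ℕ => (d : ℤ) ∣ (n : ℤ) + c)).card : ℝ) ≤ N / d + 1 := by
  have h1 : ((Icc 1 N).filter (fun n : ℕ => (d : ℤ) ∣ (n : ℤ) + c)).card ≤
      ((Finset.Ioc c (N + c)).filter (fun x : ℤ => (d : ℤ) ∣ x)).card := by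
    apply Finset.card_le_card_of_injOn (fun n : ℕ => (n : ℤ) + c)
    · intro n hn
      simp only [Finset.coe_filter, Set.mem_ofPred_eq, Finset.mem_Icc, Finset.mem_Ioc] at hn ⊢
      refine ⟨⟨by omega, by omega⟩, hn.2⟩
    · intro a _ b _ hab
      simpa using hab
  have hd0 : (0 : ℤ) < (d : ℤ) := by exact_mod_cast hd
  have hdR : (0 : ℝ) < (d : ℝ) := by exact_mod_cast hd
  have h2 := Int.Ioc_filter_dvd_card c (N + c) hd0
  have h3 : (((Finset.Ioc c (N + c)).filter (fun x : ℤ => (d : ℤ) ∣ x)).card : ℚ) ≤ N / d + 1 := by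
    have h4 : (((((Finset.Ioc c (N + c)).filter (fun x : ℤ => (d : ℤ) ∣ x)).card : ℤ)) : ℚ) =
        ((max (⌊((N + c : ℤ) : ℚ) / ((d : ℤ) : ℚ)⌋ - ⌊((c : ℤ) : ℚ) / ((d : ℤ) : ℚ)⌋) 0 : ℤ) : ℚ) := by
      rw [h2]
    have h5 := Int.floor_le (((N + c : ℤ) : ℚ) / ((d : ℤ) : ℚ))
    have h6 := Int.lt_floor_add_one (((c : ℤ) : ℚ) / ((d : ℤ) : ℚ))
    have hdQ : (0 : ℚ) < (d : ℚ) := by exact_mod_cast hd
    have h7 : ((N + c : ℤ) : ℚ) / ((d : ℤ) : ℚ) = N / d + ((c : ℤ) : ℚ) / ((d : ℤ) : ℚ) := by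
      push_cast
      ring
    have h8 : (((((Finset.Ioc c (N + c)).filter (fun x : ℤ => (d : ℤ) ∣ x)).card : ℤ)) : ℚ) ≤
        N / d + 1 := by
      rw [h4, Int.cast_max]
      apply max_le
      · rw [Int.cast_sub]
        linarith
      · push_cast
        positivity
    exact_mod_cast h8
  have h9 : (((Finset.Ioc c (N + c)).filter (fun x : ℤ => (d : ℤ) ∣ x)).card : ℝ) ≤ N / d + 1 := by
    have h10 := (Rat.cast_le (K := ℝ)).2 h3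
    push_cast at h10
    exact h10
  exact (by exact_mod_cast h1 : (((Icc 1 N).filter (fun n : ℕ => (d : ℤ) ∣ (n : ℤ) + c)).card : ℝ) ≤
    (((Finset.Ioc c (N + c)).filter (fun x : ℤ => (d : ℤ) ∣ x)).card : ℝ)).trans h9

theorem sum_inv_sq (Y M : ℕ) (hY : 1 ≤ Y) : ∑ q ∈ Icc Y M, (1 : ℝ) / (q : ℝ) ^ 2 ≤ 2 / Y := by
  have h1 := sum_Ioo_inv_sq_le (α := ℝ) (Y - 1) (M + 1)
  have h2 : Ioo (Y - 1) (M + 1) = Icc Y M := by
    ext x
    rw [Finset.mem_Ioo, Finset.mem_Icc]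
    omega
  rw [h2] at h1
  have h3 : ((Y - 1 : ℕ) : ℝ) + 1 = Y := by
    rw [Nat.cast_sub hY]
    push_cast
    ring
  rw [h3] at h1
  simpa only [one_div] using h1

open Classical in
theorem card_sq (k : ℕ) (h : Fin k → ℤ) (ε₁ η : ℝ) (hε₁ : 0 < ε₁) (hε₁1 : ε₁ ≤ 1)
    (hη : η < ε₁) (hη7 : η < 1 / 7) :
    ∀ᶠ N : ℕ in atTop, (((Icc 1 N).filter (fun n : ℕ => ∃ j : Fin k,
      (∃ p : ℕ, p.Prime ∧ (p : ℝ) = ((2 * N : ℕ) : ℝ) ^ ε₁ ∧ (p : ℤ) ∣ (n : ℤ) + h j) ∨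
      ∃ q : ℕ, q.Prime ∧ ((2 * N : ℕ) : ℝ) ^ (1 / 7 : ℝ) ≤ q ∧
        q ^ 2 ∣ ((n : ℤ) + h j).natAbs)).card : ℝ) ≤ (N : ℝ) ^ (1 - η) := by
  obtain ⟨s, hs⟩ : ∃ s : ℝ, s = max (1 - ε₁) (6 / 7) := ⟨_, rfl⟩
  have hs1 : 1 - ε₁ ≤ s := by rw [hs]; exact le_max_left _ _
  have hs2 : 6 / 7 ≤ s := by rw [hs]; exact le_max_right _ _
  have hs3 : s < 1 - η := by
    rw [hs]
    exact max_lt (by linarith) (by linarith)
  have hev : ∀ᶠ N : ℕ in atTop, (7 * k : ℝ) ≤ (N : ℝ) ^ (1 - η - s) :=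
    ((tendsto_rpow_atTop (by linarith : 0 < 1 - η - s)).comp
      tendsto_natCast_atTop_atTop).eventually_ge_atTop _
  have hevh : ∀ᶠ N : ℕ in atTop, ∀ j : Fin k, |h j| ≤ (N : ℤ) := by
    rw [Filter.eventually_all]
    intro j
    filter_upwards [eventually_ge_atTop (h j).natAbs] with N hN
    rw [Int.abs_eq_natAbs]
    exact_mod_cast hN
  filter_upwards [hev, hevh, eventually_ge_atTop 2] with N hN hh hN2
  have hN0 : (0 : ℝ) < N := by exact_mod_cast (by omega : 0 < N)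
  have hN1 : (1 : ℝ) ≤ N := by exact_mod_cast (by omega : 1 ≤ N)
  have h2N : (1 : ℝ) ≤ ((2 * N : ℕ) : ℝ) := by exact_mod_cast (by omega : 1 ≤ 2 * N)
  have h2N0 : (0 : ℝ) < ((2 * N : ℕ) : ℝ) := by linarith
  obtain ⟨Y, hY⟩ : ∃ Y : ℕ, Y = ⌈((2 * N : ℕ) : ℝ) ^ (1 / 7 : ℝ)⌉₊ := ⟨_, rfl⟩
  have hY1 : ((2 * N : ℕ) : ℝ) ^ (1 / 7 : ℝ) ≤ Y := by rw [hY]; exact Nat.le_ceil _
  have hYp : 1 ≤ Y := by
    have h1 : (1 : ℝ) ≤ ((2 * N : ℕ) : ℝ) ^ (1 / 7 : ℝ) := Real.one_le_rpow h2N (by norm_num)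
    exact_mod_cast h1.trans hY1
  have hYR : (0 : ℝ) < Y := by exact_mod_cast hYp
  obtain ⟨M, hM⟩ : ∃ M : ℕ, M = Nat.sqrt (2 * N) := ⟨_, rfl⟩
  -- powers
  have hNs : ∀ a : ℝ, a ≤ s → (N : ℝ) ^ a ≤ (N : ℝ) ^ s := fun a ha =>
    Real.rpow_le_rpow_of_exponent_le hN1 ha
  have hpA : (N : ℝ) / ((2 * N : ℕ) : ℝ) ^ ε₁ ≤ (N : ℝ) ^ s := by
    refine le_trans ?_ (hNs _ hs1)
    rw [Real.rpow_sub hN0, Real.rpow_one]
    apply div_le_div_of_nonneg_left hN0.le (by positivity)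
    apply Real.rpow_le_rpow hN0.le _ hε₁.le
    push_cast
    linarith
  have hpB : (N : ℝ) / Y ≤ (N : ℝ) ^ s := by
    refine le_trans ?_ (hNs _ hs2)
    have h1 : (N : ℝ) ^ (1 / 7 : ℝ) ≤ Y := by
      refine le_trans ?_ hY1
      apply Real.rpow_le_rpow hN0.le _ (by norm_num)
      push_cast
      linarith
    have h2 : (N : ℝ) ^ (6 / 7 : ℝ) = N / (N : ℝ) ^ (1 / 7 : ℝ) := by
      rw [show (6 / 7 : ℝ) = 1 - 1 / 7 by norm_num, Real.rpow_sub hN0, Real.rpow_one]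
    rw [h2]
    exact div_le_div_of_nonneg_left hN0.le (by positivity) h1
  have hpM : (M : ℝ) ≤ 2 * (N : ℝ) ^ s := by
    have h1 : (M : ℝ) ^ 2 ≤ ((2 * N : ℕ) : ℝ) := by
      rw [hM]
      exact_mod_cast Nat.sqrt_le' (2 * N)
    have h2 : (M : ℝ) ≤ 2 * (N : ℝ) ^ (1 / 2 : ℝ) := by
      rw [← pow_le_pow_iff_left₀ (Nat.cast_nonneg _) (by positivity) two_ne_zero]
      refine h1.trans ?_
      rw [mul_pow, ← Real.rpow_natCast ((N : ℝ) ^ (1 / 2 : ℝ)) 2, ← Real.rpow_mul hN0.le]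
      norm_num
      linarith
    have h3 := hNs (1 / 2) (by linarith)
    linarith
  have hone : (1 : ℝ) ≤ (N : ℝ) ^ s := Real.one_le_rpow hN1 (by linarith)
  -- the three parts
  have hA : ∀ j : Fin k, (((Icc 1 N).filter (fun n : ℕ => ∃ p : ℕ, p.Prime ∧
      (p : ℝ) = ((2 * N : ℕ) : ℝ) ^ ε₁ ∧ (p : ℤ) ∣ (n : ℤ) + h j)).card : ℝ) ≤
      (N : ℝ) ^ s + 1 := by
    intro j
    by_cases hp : ∃ p : ℕ, p.Prime ∧ (p : ℝ) = ((2 * N : ℕ) : ℝ) ^ ε₁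
    · obtain ⟨p, hp1, hp2⟩ := hp
      have h1 : (Icc 1 N).filter (fun n : ℕ => ∃ p : ℕ, p.Prime ∧
          (p : ℝ) = ((2 * N : ℕ) : ℝ) ^ ε₁ ∧ (p : ℤ) ∣ (n : ℤ) + h j) ⊆
          (Icc 1 N).filter (fun n : ℕ => (p : ℤ) ∣ (n : ℤ) + h j) := by
        intro n hn
        rw [Finset.mem_filter] at hn ⊢
        obtain ⟨hn1, p', hp1', hp2', hp3'⟩ := hn
        have : p' = p := by
          have : (p' : ℝ) = p := by rw [hp2', hp2]
          exact_mod_cast this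
        rw [this] at hp3'
        exact ⟨hn1, hp3'⟩
      have h2 := card_dvd_le N p hp1.one_le (h j)
      rw [hp2] at h2
      have h3 : (((Icc 1 N).filter (fun n : ℕ => ∃ p : ℕ, p.Prime ∧
          (p : ℝ) = ((2 * N : ℕ) : ℝ) ^ ε₁ ∧ (p : ℤ) ∣ (n : ℤ) + h j)).card : ℝ) ≤
          ((Icc 1 N).filter (fun n : ℕ => (p : ℤ) ∣ (n : ℤ) + h j)).card := by
        exact_mod_cast Finset.card_le_card h1
      linarith
    · have h1 : (Icc 1 N).filter (fun n : ℕ => ∃ p : ℕ, p.Prime ∧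
          (p : ℝ) = ((2 * N : ℕ) : ℝ) ^ ε₁ ∧ (p : ℤ) ∣ (n : ℤ) + h j) = ∅ := by
        rw [Finset.filter_eq_empty_iff]
        rintro n _ ⟨p, hp1, hp2, _⟩
        exact hp ⟨p, hp1, hp2⟩
      rw [h1]
      simp
      positivity
  have hB : ∀ j : Fin k, (((Icc 1 N).filter (fun n : ℕ => (n : ℤ) + h j = 0)).card : ℝ) ≤ 1 := by
    intro j
    have h1 : ((Icc 1 N).filter (fun n : ℕ => (n : ℤ) + h j = 0)).card ≤ 1 := by
      rw [Finset.card_le_one]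
      intro a ha b hb
      rw [Finset.mem_filter] at ha hb
      omega
    exact_mod_cast h1
  have hC : ∀ j : Fin k, ((((Icc Y M).biUnion (fun q => (Icc 1 N).filter (fun n : ℕ =>
      ((q ^ 2 : ℕ) : ℤ) ∣ (n : ℤ) + h j))).card : ℕ) : ℝ) ≤ 4 * (N : ℝ) ^ s := by
    intro j
    have h1 : ((((Icc Y M).biUnion (fun q => (Icc 1 N).filter (fun n : ℕ =>
        ((q ^ 2 : ℕ) : ℤ) ∣ (n : ℤ) + h j))).card : ℕ) : ℝ) ≤
        ∑ q ∈ Icc Y M, (((Icc 1 N).filter (fun n : ℕ =>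
          ((q ^ 2 : ℕ) : ℤ) ∣ (n : ℤ) + h j)).card : ℝ) := by
      exact_mod_cast Finset.card_biUnion_le
    refine h1.trans ?_
    have h2 : ∑ q ∈ Icc Y M, (((Icc 1 N).filter (fun n : ℕ =>
          ((q ^ 2 : ℕ) : ℤ) ∣ (n : ℤ) + h j)).card : ℝ) ≤
        ∑ q ∈ Icc Y M, (N * (1 / (q : ℝ) ^ 2) + 1) := by
      apply Finset.sum_le_sum
      intro q hq
      rw [Finset.mem_Icc] at hq
      have hq1 : 1 ≤ q ^ 2 := Nat.one_le_pow _ _ (by omega)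
      have h3 := card_dvd_le N (q ^ 2) hq1 (h j)
      have h4 : (N : ℝ) / ((q ^ 2 : ℕ) : ℝ) + 1 = N * (1 / (q : ℝ) ^ 2) + 1 := by
        push_cast
        ring
      rw [h4] at h3
      exact h3
    refine h2.trans ?_
    rw [Finset.sum_add_distrib, ← Finset.mul_sum, Finset.sum_const, nsmul_eq_mul, mul_one]
    have h3 := sum_inv_sq Y M hYp
    have h4 : ((Icc Y M).card : ℝ) ≤ M := by
      have h5 : (Icc Y M).card ≤ M := by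
        rw [Nat.card_Icc]
        omega
      exact_mod_cast h5
    have h5 : (N : ℝ) * ∑ q ∈ Icc Y M, 1 / (q : ℝ) ^ 2 ≤ 2 * (N / Y) := by
      calc (N : ℝ) * ∑ q ∈ Icc Y M, 1 / (q : ℝ) ^ 2 ≤ N * (2 / Y) :=
            mul_le_mul_of_nonneg_left h3 hN0.le
        _ = _ := by ring
    linarith
  -- the union
  have hsub : (Icc 1 N).filter (fun n : ℕ => ∃ j : Fin k,
      (∃ p : ℕ, p.Prime ∧ (p : ℝ) = ((2 * N : ℕ) : ℝ) ^ ε₁ ∧ (p : ℤ) ∣ (n : ℤ) + h j) ∨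
      ∃ q : ℕ, q.Prime ∧ ((2 * N : ℕ) : ℝ) ^ (1 / 7 : ℝ) ≤ q ∧
        q ^ 2 ∣ ((n : ℤ) + h j).natAbs) ⊆
      (univ : Finset (Fin k)).biUnion (fun j => (Icc 1 N).filter (fun n : ℕ => ∃ p : ℕ, p.Prime ∧
        (p : ℝ) = ((2 * N : ℕ) : ℝ) ^ ε₁ ∧ (p : ℤ) ∣ (n : ℤ) + h j) ∪
        (((Icc 1 N).filter (fun n : ℕ => (n : ℤ) + h j = 0)) ∪
        (Icc Y M).biUnion (fun q => (Icc 1 N).filter (fun n : ℕ =>
          ((q ^ 2 : ℕ) : ℤ) ∣ (n : ℤ) + h j)))) := by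
    intro n hn
    rw [Finset.mem_filter] at hn
    obtain ⟨hn1, j, hj⟩ := hn
    rw [Finset.mem_biUnion]
    refine ⟨j, Finset.mem_univ _, ?_⟩
    rw [Finset.mem_union, Finset.mem_union]
    rcases hj with hj | ⟨q, hq1, hq2, hq3⟩
    · left
      rw [Finset.mem_filter]
      exact ⟨hn1, hj⟩
    · right
      by_cases h0 : (n : ℤ) + h j = 0
      · left
        rw [Finset.mem_filter]
        exact ⟨hn1, h0⟩
      · right
        rw [Finset.mem_biUnion]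
        rw [Finset.mem_Icc] at hn1
        refine ⟨q, ?_, ?_⟩
        · rw [Finset.mem_Icc]
          constructor
          · rw [hY]
            exact Nat.ceil_le.2 hq2
          · rw [hM, Nat.le_sqrt']
            have h1 := Nat.le_of_dvd (Int.natAbs_pos.2 h0) hq3
            have h2 := hh j
            have h3 := abs_le.1 h2
            have h4 : ((n : ℤ) + h j).natAbs ≤ 2 * N := by omega
            omega
        · rw [Finset.mem_filter, Finset.mem_Icc]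
          exact ⟨hn1, Int.natCast_dvd.2 hq3⟩
  have hcard : (((Icc 1 N).filter (fun n : ℕ => ∃ j : Fin k,
      (∃ p : ℕ, p.Prime ∧ (p : ℝ) = ((2 * N : ℕ) : ℝ) ^ ε₁ ∧ (p : ℤ) ∣ (n : ℤ) + h j) ∨
      ∃ q : ℕ, q.Prime ∧ ((2 * N : ℕ) : ℝ) ^ (1 / 7 : ℝ) ≤ q ∧
        q ^ 2 ∣ ((n : ℤ) + h j).natAbs)).card : ℝ) ≤ ∑ j : Fin k, 7 * (N : ℝ) ^ s := by
    have h1 : (((Icc 1 N).filter (fun n : ℕ => ∃ j : Fin k,
      (∃ p : ℕ, p.Prime ∧ (p : ℝ) = ((2 * N : ℕ) : ℝ) ^ ε₁ ∧ (p : ℤ) ∣ (n : ℤ) + h j) ∨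
      ∃ q : ℕ, q.Prime ∧ ((2 * N : ℕ) : ℝ) ^ (1 / 7 : ℝ) ≤ q ∧
        q ^ 2 ∣ ((n : ℤ) + h j).natAbs)).card : ℝ) ≤
      ∑ j : Fin k, (((Icc 1 N).filter (fun n : ℕ => ∃ p : ℕ, p.Prime ∧
        (p : ℝ) = ((2 * N : ℕ) : ℝ) ^ ε₁ ∧ (p : ℤ) ∣ (n : ℤ) + h j) ∪
        (((Icc 1 N).filter (fun n : ℕ => (n : ℤ) + h j = 0)) ∪
        (Icc Y M).biUnion (fun q => (Icc 1 N).filter (fun n : ℕ =>
          ((q ^ 2 : ℕ) : ℤ) ∣ (n : ℤ) + h j)))).card : ℝ) := by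
      have h2 := (Finset.card_le_card hsub).trans Finset.card_biUnion_le
      exact_mod_cast h2
    refine h1.trans (Finset.sum_le_sum fun j _ => ?_)
    have h3 := Finset.card_union_le ((Icc 1 N).filter (fun n : ℕ => ∃ p : ℕ, p.Prime ∧
        (p : ℝ) = ((2 * N : ℕ) : ℝ) ^ ε₁ ∧ (p : ℤ) ∣ (n : ℤ) + h j))
        (((Icc 1 N).filter (fun n : ℕ => (n : ℤ) + h j = 0)) ∪
        (Icc Y M).biUnion (fun q => (Icc 1 N).filter (fun n : ℕ =>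
          ((q ^ 2 : ℕ) : ℤ) ∣ (n : ℤ) + h j)))
    have h4 := Finset.card_union_le ((Icc 1 N).filter (fun n : ℕ => (n : ℤ) + h j = 0))
        ((Icc Y M).biUnion (fun q => (Icc 1 N).filter (fun n : ℕ =>
          ((q ^ 2 : ℕ) : ℤ) ∣ (n : ℤ) + h j)))
    have h5 := h3.trans (Nat.add_le_add_left h4 _)
    have h6 : (((Icc 1 N).filter (fun n : ℕ => ∃ p : ℕ, p.Prime ∧
        (p : ℝ) = ((2 * N : ℕ) : ℝ) ^ ε₁ ∧ (p : ℤ) ∣ (n : ℤ) + h j) ∪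
        (((Icc 1 N).filter (fun n : ℕ => (n : ℤ) + h j = 0)) ∪
        (Icc Y M).biUnion (fun q => (Icc 1 N).filter (fun n : ℕ =>
          ((q ^ 2 : ℕ) : ℤ) ∣ (n : ℤ) + h j)))).card : ℝ) ≤
        (((Icc 1 N).filter (fun n : ℕ => ∃ p : ℕ, p.Prime ∧
        (p : ℝ) = ((2 * N : ℕ) : ℝ) ^ ε₁ ∧ (p : ℤ) ∣ (n : ℤ) + h j)).card : ℝ) +
        ((((Icc 1 N).filter (fun n : ℕ => (n : ℤ) + h j = 0)).card : ℝ) +
        ((((Icc Y M).biUnion (fun q => (Icc 1 N).filter (fun n : ℕ =>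
          ((q ^ 2 : ℕ) : ℤ) ∣ (n : ℤ) + h j))).card : ℕ) : ℝ)) := by
      exact_mod_cast h5
    have h7 := hA j
    have h8 := hB j
    have h9 := hC j
    linarith
  refine hcard.trans ?_
  rw [Finset.sum_const, Finset.card_univ, Fintype.card_fin, nsmul_eq_mul]
  calc (k : ℝ) * (7 * (N : ℝ) ^ s) = (7 * k) * (N : ℝ) ^ s := by ring
    _ ≤ (N : ℝ) ^ (1 - η - s) * (N : ℝ) ^ s := mul_le_mul_of_nonneg_right hN (by positivity)
    _ = (N : ℝ) ^ (1 - η) := by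
        rw [← Real.rpow_add hN0]
        congr 1
        ring

end Pool.Agent.L7h32.CT
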