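import Mathlib
import Pool.Agent.Y827.LS.Asm
import Pool.Agent.L7h32.CT.CoreD
import Pool.Agent.L7h32.CT.NumD
import Pool.Agent.L7h32.CT.SqCount

/-! The theorem on almost primes in classes of linear forms, from the outcome of the sieve. -/

set_option autoImplicit false

namespace Pool.Agent.L7h32.CT

open Finset Filter Topology
open Pool.Agent.H410R2 hiding GP GP_prof GP_cut_some GP_cut_none GP_lip gg_pos gg_le_one gg_anti ee_bound ee_nonneg gg_lip LB_gg LB_ee Sums exists_sums yx wx wxi Br sum_GP_none sum_GP_some sum_GP_some_ee sum_GP_some_one sum_GPr_none sum_GPr_some S1_final QI_final S2_final w_abs_le wmax gg ee I1 I2 IE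
open Pool.Agent.H361R2.GM
open Pool.Agent.H362R2.CM
open Pool.Agent.W25.UN
open Pool.Agent.W25.UB
open Pool.Agent.TH899.UG
open Pool.Agent.Y827.LS

open Classical in
/-- the theorem on forms -/
def ThmC : Prop := ∀ T M : ℕ, 1 ≤ T → (18 / 5 : ℝ) * M < T →
  ∃ K : ℕ, 2 ≤ K ∧ ∃ D₀ : ℕ, ∀ D : ℕ, D₀ ≤ D →
    ∀ (h : Fin (T * K) → ℤ) (cl : Fin (T * K) → Fin T),
    (∀ g, (univ.filter (fun i => cl i = g)).card = K) → (∀ i, h i ≠ 0) → Function.Injective h →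
    ∀ η : ℝ, 0 < η → ∀ᶠ N : ℕ in atTop, ∀ v : ℕ, CopAt (fun _ => 1) h D 0 v →
      (∀ i : Fin (T * K), (N : ℝ) ^ (1 - η) ≤ (((Icc 1 N).filter (fun n : ℕ =>
        n ≡ v [MOD (WW D)] ∧ (N : ℝ) / 16 ≤ n ∧ (n : ℝ) ≤ N / 2 ∧
        (Fm (fun _ => 1) h 0 i n).toNat.Prime ∧ ∀ g : Fin T, ∃ j, cl j = g ∧
          P2g N (Fm (fun _ => 1) h 0 j n))).card : ℝ)) ∧
      (N : ℝ) ^ (1 - η) ≤ (((Icc 1 N).filter (fun n : ℕ => n ≡ v [MOD (WW D)] ∧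
        (N : ℝ) / 16 ≤ n ∧ (n : ℝ) ≤ N / 2 ∧
        M + 1 ≤ (univ.filter (fun g : Fin T => ∃ i, cl i = g ∧
          (Fm (fun _ => 1) h 0 i n).toNat.Prime)).card ∧ ∀ g : Fin T, ∃ j, cl j = g ∧
          P2g N (Fm (fun _ => 1) h 0 j n))).card : ℝ)

theorem rpow_big (s : ℝ) (hs0 : 0 ≤ s) (hs : s < 1) : ∀ᶠ N : ℕ in atTop,
    ((2 * N : ℕ) : ℝ) ^ s ≤ N / 64 := by
  filter_upwards [ev_poly 128 0 s 1 hs, eventually_gt_atTop 0] with N hp hN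
  have hN0 : (0 : ℝ) < N := by exact_mod_cast hN
  push_cast
  rw [Real.mul_rpow (by norm_num) hN0.le]
  have h5 : (2 : ℝ) ^ s ≤ 2 := by
    calc (2 : ℝ) ^ s ≤ (2 : ℝ) ^ (1 : ℝ) :=
          Real.rpow_le_rpow_of_exponent_le (by norm_num) hs.le
      _ = 2 := Real.rpow_one 2
  rw [pow_zero, mul_one, Real.rpow_one] at hp
  have h6 : (2 : ℝ) ^ s * (N : ℝ) ^ s ≤ 2 * (N : ℝ) ^ s :=
    mul_le_mul_of_nonneg_right h5 (by positivity)
  linarith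

/-- facts on fixed forms -/
theorem fixed_forms {k : ℕ} (h : Fin k → ℤ) (B : ℕ) (hB : 1 ≤ B) : ∀ᶠ N : ℕ in atTop,
    HB h 0 N ∧ PosR (fun _ => 1) h 0 N ∧
    (∀ p ∈ CL (uB (fun _ : Fin k => (1 : ℤ))) (wB h 0), p ≤ DB (2 * N) B) ∧
    (∀ n : ℕ, n ≤ N → ∀ i, (Fm (fun _ => 1) h 0 i n).natAbs ≤ 4 * N) := by
  have hev : ∀ᶠ N : ℕ in atTop, ∀ j : Fin k, 64 * |h j| ≤ (N : ℤ) := by
    rw [Filter.eventually_all]
    intro j
    filter_upwards [eventually_ge_atTop (64 * (h j).natAbs)] with N hN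
    rw [Int.abs_eq_natAbs]
    exact_mod_cast hN
  obtain ⟨s, hs⟩ : ∃ s : ℕ, s = (CL (uB (fun _ : Fin k => (1 : ℤ))) (wB h 0)).sup id := ⟨_, rfl⟩
  have hlog : Tendsto (fun N : ℕ => Real.log ((2 * N : ℕ) : ℝ)) atTop atTop := by
    apply Real.tendsto_log_atTop.comp
    apply tendsto_natCast_atTop_atTop.comp
    exact tendsto_atTop_mono (fun n => (show n ≤ 2 * n by omega)) tendsto_id
  filter_upwards [hev, hlog.eventually_ge_atTop ((s : ℝ) + 1), hlog.eventually_ge_atTop 1,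
    eventually_gt_atTop 0] with N hN hl hl1 hN0
  have hNR : (0 : ℝ) < N := by exact_mod_cast hN0
  refine ⟨?_, ?_, ?_, ?_⟩
  · intro i
    have h1 := hN i
    have h2 : |((0 : ℕ) : ℤ) + h i| = |h i| := by simp
    rw [h2]
    have h3 := abs_nonneg (h i)
    linarith
  · intro i x hx1 _
    have h1 : ((64 * |h i| : ℤ) : ℝ) ≤ ((N : ℤ) : ℝ) := by exact_mod_cast hN i
    push_cast at h1 ⊢
    have h2 := neg_abs_le (h i : ℝ)
    linarith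
  · intro p hp
    have h1 : p ≤ s := by
      rw [hs]
      exact Finset.le_sup (f := id) hp
    have h2 : (s : ℝ) + 1 ≤ (Real.log ((2 * N : ℕ) : ℝ)) ^ B := by
      refine hl.trans ?_
      calc Real.log ((2 * N : ℕ) : ℝ) = (Real.log ((2 * N : ℕ) : ℝ)) ^ 1 := (pow_one _).symm
        _ ≤ _ := pow_le_pow_right₀ hl1 hB
    have h3 : ((s + 1 : ℕ) : ℝ) ≤ (⌈(Real.log ((2 * N : ℕ) : ℝ)) ^ B⌉₊ : ℝ) := by
      rw [Nat.cast_add, Nat.cast_one]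
      exact h2.trans (Nat.le_ceil _)
    have h4 : s + 1 ≤ ⌈(Real.log ((2 * N : ℕ) : ℝ)) ^ B⌉₊ := by exact_mod_cast h3
    unfold DB
    omega
  · intro n hn i
    have h1 := hN i
    have h2 := abs_nonneg (h i)
    have h3 := abs_le.1 (le_refl |h i|)
    unfold Fm
    push_cast
    omega

theorem nd_fixed {k : ℕ} (h : Fin k → ℤ) (h0 : ∀ i, h i ≠ 0) (hinj : Function.Injective h) :
    Nd (fun _ => 1) h 0 := by
  intro j l hjl
  rcases j with _ | j <;> rcases l with _ | l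
  · exact absurd rfl hjl
  · show (1 : ℤ) * (((0 : ℕ) : ℤ) + h l) - 1 * 0 ≠ 0
    have := h0 l
    simpa using this
  · show (1 : ℤ) * 0 - 1 * (((0 : ℕ) : ℤ) + h j) ≠ 0
    have := h0 j
    simpa using this
  · show (1 : ℤ) * (((0 : ℕ) : ℤ) + h l) - 1 * (((0 : ℕ) : ℤ) + h j) ≠ 0
    have h1 : h l ≠ h j := fun hc => hjl (by rw [hinj hc])
    push_cast
    intro hc
    apply h1
    linarith

theorem thmC_of (hR2B : St_R2B (fun u => u = 1 ∨ u = -1)) (hR2 : St_R2LF)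
    (hEXM : St_EXM) (hGAU : St_GAU) (hFT3 : St_FT3)
    (hBPS : St_BPS) (hFLC : St_FLC3) (hSUM : St_SUM)
    (hMAS : St_MASH) (hNWL : St_NWL) (hSd : SdLZ) (hTWa : St_TWaH)
    (hTWb : St_TWbH) (hU0 : St_U0F) (hL1 : St_L1F) (hU2 : St_U2F) (hUD : St_UDF)
    (hNWU : St_NWU) (hNWE : St_NWE) (hVLN : St_VLNF) : ThmC := by
  classical
  intro T Mc hT hTM
  obtain ⟨θ, δ, J, n₀, hn₀, hθJ, hθ, hθ', hδ, hκδ, hδ2, hδ1, hTMθ⟩ := lev T Mc hT hTM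
  obtain ⟨c₀', hc₀', hRCX0⟩ := rcx
  obtain ⟨c₁, hc₁⟩ : ∃ c₁ : ℝ, c₁ = c₀' + 1 := ⟨_, rfl⟩
  have hRCX : ∀ ε : ℝ, 0 < ε → ε ≤ 1 → ∀ U : ℕ, 1 ≤ U → ∃ N₀ : ℕ,
      ∀ N Z : ℕ, N₀ ≤ N → Z ≤ N → ∀ c : ℕ → ℝ, (∀ d, |c d| ≤ 1) →
      (∀ d, c d ≠ 0 → 1 < d ∧ Squarefree d ∧ ∀ p : ℕ, p.Prime → p ∣ d → (N : ℝ) ^ ε < (p : ℝ)) →
      ∀ u w n : ℤ, |u| ≤ U → |(w : ℝ)| ≤ 2 * U * N → u * n + w ≠ 0 →
      |dc c Z (u * n + w)| ≤ Real.exp (c₁ / ε) * (1 + |(n : ℝ)| / N) ^ (1 / 4 : ℝ) := by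
    intro ε hε hε1 U hU
    obtain ⟨N₀, hN₀⟩ := hRCX0 ε hε hε1 U hU
    refine ⟨N₀, fun N Z hN hZ c hc hcs u w n hu hw hne => (hN₀ N Z hN hZ c hc hcs u w n hu hw
      hne).trans ?_⟩
    apply mul_le_mul_of_nonneg_right _ (by positivity)
    apply Real.exp_le_exp.2
    apply div_le_div_of_nonneg_right _ hε.le
    linarith
  obtain ⟨c₀, hc₀, hPC⟩ := p2c
  obtain ⟨nb, η₀, εs, hη₀, hεs, hD1⟩ := datL hR2B hR2 hEXM hGAU hFT3 hBPS hFLC hSUM hMAS hVLN hNWL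
    hSd θ δ J n₀ hn₀ hθJ hθ hθ' hδ hκδ hδ2 hδ1 (2 * c₁ + 1) c₁ (by linarith) hRCX
  obtain ⟨nb', η₀', εs', hη₀', hεs', hD1'⟩ := datC hR2B hR2 hEXM hGAU hFT3 hBPS hFLC hSUM hMAS hVLN
    hNWL hSd c₀ hPC (2 * c₁ + 1) c₁ (by linarith) hRCX
  obtain ⟨z, e₁, hz, hz1, he₁, hN1⟩ := numC θ (by linarith) (by linarith) T Mc hT hTMθ nb nb' c₀ c₁
    hc₀
  obtain ⟨ε₁, hε₁d⟩ : ∃ ε₁ : ℝ, ε₁ = min (min (min εs εs') e₁) (min (min η₀ η₀') (1 / 4)) := ⟨_, rfl⟩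
  have hε₁ : 0 < ε₁ := by
    rw [hε₁d]
    exact lt_min (lt_min (lt_min hεs hεs') he₁) (lt_min (lt_min hη₀ hη₀') (by norm_num))
  have h1 : ε₁ ≤ εs := by
    rw [hε₁d]; exact (min_le_left _ _).trans ((min_le_left _ _).trans (min_le_left _ _))
  have h1' : ε₁ ≤ εs' := by
    rw [hε₁d]; exact (min_le_left _ _).trans ((min_le_left _ _).trans (min_le_right _ _))
  have h2 : ε₁ ≤ e₁ := by rw [hε₁d]; exact (min_le_left _ _).trans (min_le_right _ _)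
  have h3 : ε₁ ≤ η₀ := by
    rw [hε₁d]; exact (min_le_right _ _).trans ((min_le_left _ _).trans (min_le_left _ _))
  have h3' : ε₁ ≤ η₀' := by
    rw [hε₁d]; exact (min_le_right _ _).trans ((min_le_left _ _).trans (min_le_right _ _))
  have h4 : ε₁ ≤ 1 / 4 := by rw [hε₁d]; exact (min_le_right _ _).trans (min_le_right _ _)
  obtain ⟨K, Q, ε, hK, hTK, hε, hε3, hI1, hI2, hBr, hBr2, hnum, hn1, hn2⟩ := hN1 ε₁ hε₁ h2
  obtain ⟨B₀, hB₀, hD3⟩ := hD1 ε₁ hε₁ h1 (T * K) Q (ε₁ / 4) (ε₁ / 2) ε (by omega) (by linarith)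
    (by linarith) (by linarith) (by linarith) hε hε3 hI1 hI2
  obtain ⟨B₀', hB₀', hD3'⟩ := hD1' ε₁ hε₁ h1' (T * K) Q (ε₁ / 4) (ε₁ / 2) ε (by omega)
    (by linarith) (by linarith) (by linarith) (by linarith) hε hε3 hI1 hI2
  obtain ⟨B, hB⟩ : ∃ B : ℕ, B = max B₀ B₀' := ⟨_, rfl⟩
  have hBl : B₀ ≤ B := by rw [hB]; exact le_max_left _ _
  have hBr' : B₀' ≤ B := by rw [hB]; exact le_max_right _ _
  refine ⟨K, hK, ?_⟩
  obtain ⟨Da, hTa⟩ := hTWa (T * K) Q (ε₁ / 4) (ε₁ / 2) ε B (by omega) (by linarith)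
    (by linarith) (by linarith) (by linarith) hε hε3 hI1 hI2 (by omega)
  obtain ⟨Db, hTb⟩ := hTWb (T * K) Q (ε₁ / 4) (ε₁ / 2) ε B (by omega) (by linarith)
    (by linarith) (by linarith) (by linarith) hε hε3 hI1 hI2 hBr (by omega)
  refine ⟨Da + Db + 2 * (T * K + 1) + 2, ?_⟩
  intro D hD h cl hcl hh0 hinj η hη
  obtain ⟨η', hη'd⟩ : ∃ η' : ℝ, η' = min η (min (ε₁ / 2) (1 / 8)) := ⟨_, rfl⟩
  have hη' : 0 < η' := by
    rw [hη'd]; exact lt_min hη (lt_min (by linarith) (by norm_num))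
  have hη'1 : η' ≤ η := by rw [hη'd]; exact min_le_left _ _
  have hη'2 : η' ≤ ε₁ / 2 := by rw [hη'd]; exact (min_le_right _ _).trans (min_le_left _ _)
  have hη'3 : η' ≤ 1 / 8 := by rw [hη'd]; exact (min_le_right _ _).trans (min_le_right _ _)
  have hκ : 0 < ε / 400 := by positivity
  have hI1p : 0 < Q.I1 := hε.trans hI1
  have hI2p : 0 < Q.I2 := hε.trans hI2
  obtain ⟨α, hα⟩ : ∃ α : Fin (T * K) → ℤ, α = fun _ => 1 := ⟨_, rfl⟩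
  have hα0 : ∀ i, α i ≠ 0 := fun i => by rw [hα]; exact one_ne_zero
  have hα𝒮 : ∀ i, (fun u : ℤ => u = 1 ∨ u = -1) (α i) := fun i => by rw [hα]; exact Or.inl rfl
  have hαD : ∀ i, (α i).natAbs ≤ D := fun i => by
    rw [hα]
    show (1 : ℤ).natAbs ≤ D
    rw [Int.natAbs_one]
    omega
  have evTa : ∀ᶠ N : ℕ in atTop, ∀ r ∈ range (Rn (ε / 400)), ∀ (h : Fin (T * K) → ℤ) (Mo : ℕ),
      HB h Mo N → Nd α h Mo →
      ∀ v : ℕ, (∀ j, ∀ n : ℤ, n ≡ v [ZMOD (WW D)] →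
        IsCoprime (uB α j * n + wB h Mo j) ((WW D : ℕ) : ℤ)) →
      ∀ Z : ℝ, Z = ZZ (T * K) (Pool.Agent.W25.UN.VV α h Mo D (DB (2 * N) B))
          (ε / 400 * (ctr (ε / 400) r * N)) (WW D)
          (BD (DB (2 * N) B)) (ε₁ / 4 * Real.log N) →
      ∑ n ∈ Ns α h D (DB (2 * N) B) Mo v N,
        lt (ctr (ε / 400) r * N) (ε / 400 * (ctr (ε / 400) r * N)) n *
        (wZ Q (uB α) (wB h Mo) (PBF α h Mo N B (ε₁ / 2)) (ε₁ / 4 * Real.log N) n) ^ 2 ≤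
          Z * Ac Q (T * K) ε := by
    rw [Filter.eventually_all_finset]
    intro r hr
    have hc := ctr_range hκ (Finset.mem_range.1 hr)
    exact hTa D (by omega) α hα0 hαD (ctr (ε / 400) r) hc.1 hc.2
  have evTb : ∀ᶠ N : ℕ in atTop, ∀ r ∈ range (Rn (ε / 400)), ∀ (h : Fin (T * K) → ℤ) (Mo : ℕ),
      HB h Mo N → Nd α h Mo →
      PosR α h Mo N → ∀ v : ℕ, (∀ j, ∀ n : ℤ, n ≡ v [ZMOD (WW D)] →
        IsCoprime (uB α j * n + wB h Mo j) ((WW D : ℕ) : ℤ)) →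
      ∀ Z : ℝ, Z = ZZ (T * K) (Pool.Agent.W25.UN.VV α h Mo D (DB (2 * N) B))
          (ε / 400 * (ctr (ε / 400) r * N)) (WW D)
          (BD (DB (2 * N) B)) (ε₁ / 4 * Real.log N) →
      ∀ i : Fin (T * K), Z * (ε₁ / 4 * βc Q (T * K) ε) ≤ ∑ n ∈ Ns α h D (DB (2 * N) B) Mo v N,
      (if (Fm α h Mo i n).toNat.Prime then
        lt (ctr (ε / 400) r * N) (ε / 400 * (ctr (ε / 400) r * N)) n *
        (wZ Q (uB α) (wB h Mo) (PBF α h Mo N B (ε₁ / 2)) (ε₁ / 4 * Real.log N) n) ^ 2 else 0) := by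
    rw [Filter.eventually_all_finset]
    intro r hr
    have hc := ctr_range hκ (Finset.mem_range.1 hr)
    exact hTb D (by omega) α hα0 hαD (ctr (ε / 400) r) hc.1 hc.2
  obtain ⟨Cp, hCp⟩ : ∃ Cp : ℝ, Cp = max (12288 * ((WW D / 2 : ℕ) : ℝ) /
      (ε₁ / 4 * βc Q (T * K) ε * z ^ 2)) (6144 * T * ((WW D / 2 : ℕ) : ℝ) /
      (ε * Ac Q (T * K) ε)) := ⟨_, rfl⟩
  have evf := fixed_forms h B (by omega)
  rw [← hα] at evf ⊢
  have hnd : Nd α h 0 := by rw [hα]; exact nd_fixed h hh0 hinj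
  have evSq : ∀ᶠ N : ℕ in atTop, (((Icc 1 N).filter (fun n => SqP α h 0 ε₁ N n)).card : ℝ) ≤
      (N : ℝ) ^ (1 - η') := by
    filter_upwards [card_sq (T * K) h ε₁ η' hε₁ (by linarith) (by linarith) (by linarith)]
      with N hN
    refine le_trans (le_of_eq ?_) hN
    congr 2
    apply Finset.filter_congr
    intro n _
    have e1 : ∀ j, Fm α h 0 j n = (n : ℤ) + h j := by
      intro j
      rw [hα]
      unfold Fm
      push_cast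
      ring
    unfold SqP
    simp only [e1]
  filter_upwards [hD3 B hBl D (by omega) α hα𝒮 hα0 hαD, hD3' B hBr' D (by omega) α hα𝒮 hα0 hαD,
    evTa, evTb, ptwH (T * K) α Q (η' / 4) (by linarith),
    hVLN (T * K) B D ε₁ (ε₁ / 4) (by omega) (by omega) hε₁ (by linarith) (by linarith),
    eventually_gt_atTop 10000, rpow_big ε₁ hε₁.le (by linarith), rpow_big θ (by linarith)
    (by linarith), rpow_big (1 / 7) (by norm_num) (by norm_num),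
    ev_poly Cp 1 (1 - η' + η' / 4) 1 (by linarith), evf, evSq]
    with N hdat hdat' hTa' hTb' hpt hvln hN1' hbig hbigθ hbig7 hpl hfix hSq
  obtain ⟨hMo, hpos, hCL, hsz⟩ := hfix
  intro v hv
  replace hpt := hpt h 0 hMo
  replace hvln := hvln α h 0 hα0 hαD
  obtain ⟨η₂, A, E₁, D₁, Z, Tr, t, th, dl, b, Zb, cb, HL⟩ := hdat h 0 hMo hnd v
  obtain ⟨η₂', A', E₁', D₁', Z', Tr', t', th', dl', b', Zb', cb', HC⟩ := hdat' h 0 hMo hnd v
  have H := HL.dB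
  have hN0 : (0 : ℝ) < N := by exact_mod_cast (by omega : 0 < N)
  have hN1r : (1 : ℝ) ≤ N := by exact_mod_cast (by omega : 1 ≤ N)
  have hcop : ∀ j, ∀ n : ℤ, n ≡ v [ZMOD (WW D)] →
      IsCoprime (uB α j * n + wB h 0 j) ((WW D : ℕ) : ℤ) := hv
  have hpt' : ∀ n : ℕ, 1 ≤ n → n ≤ N → (∀ i, ((0 : ℕ) : ℤ) + α i * n + h i ≠ 0) →
      (wZ Q (uB α) (wB h 0) (PBF α h 0 N B (ε₁ / 2)) (ε₁ / 4 * Real.log N) n) ^ 2 ≤
        (N : ℝ) ^ (η' / 4) := by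
    intro n hn1 hn2 hn3
    refine (hpt (PBF α h 0 N B (ε₁ / 2)) (ε₁ / 4 * Real.log N) ?_ ?_ H.sd n hn1 hn2 hn3).1
    · have := H.l1
      positivity
    · intro p hp
      have h5 := H.gd p (Finset.mem_union_left _ hp)
      refine ⟨h5.1.1, ?_⟩
      have h6 : (p : ℝ) ≤ N := by linarith [h5.2.2]
      exact_mod_cast h6
  have hg0 : 0 ≤ g0c (4 * θ - 2) (ε₁ / 4) ε := by
    unfold g0c
    have h5 : (0 : ℝ) < (1 / 4 + (4 * θ - 2) / 8) * (1 - ε) := mul_pos (by linarith) (by linarith)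
    positivity
  have hCR : 1 ≤ Real.exp (c₁ / ε₁) := Real.one_le_exp (by
    have : 0 < c₁ := by linarith
    positivity)
  have hres := core_atC hU0 hL1 hU2 hUD hNWU hNWE hI1 hI2 hBr hBr2 hCR (Real.exp_pos _).le hg0 hc₀
    (by omega) rfl (by linarith) hz hz1 hT hnum hn1 hn2 HL HC hMo hnd cl hcl (by omega)
    (fun r hr => hTa' r (Finset.mem_range.2 hr) h 0 hMo hnd v hcop _ rfl)
    (fun r hr => hTb' r (Finset.mem_range.2 hr) h 0 hMo hnd hpos v hcop _ rfl) hpos.posF hbig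
    hbigθ hbig7 hCL hv hsz (η' / 4) η' hpt' hvln.2.2.2.1 Cp (by rw [hCp]; exact le_max_left _ _)
    (by rw [hCp]; exact le_max_right _ _) hpl hSq
  have hle : (N : ℝ) ^ (1 - η) ≤ (N : ℝ) ^ (1 - η') :=
    Real.rpow_le_rpow_of_exponent_le hN1r (by linarith)
  exact ⟨fun i => hle.trans (hres.1 i), hle.trans hres.2⟩

end Pool.Agent.L7h32.CT
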