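import Mathlib
import Pool.Agent.H362R2.CM.Box
import Pool.Agent.H410R2.MStubs

/-! Combinatorial lemmas: sub-boxes with constant residues and distinct elements. -/

set_option autoImplicit false

namespace Pool.Agent.L7h32.CT

open Finset
open Pool.Agent.H362R2.CM (box_lemma)
open Pool.Agent.H410R2 (WW)

/-- disjoint subsets of given size -/
theorem disj_sel (K : ℕ) : ∀ (T : ℕ) (V : Fin T → Finset ℤ) (F : Finset ℤ),
    (∀ i, F.card + T * K ≤ (V i).card) →
    ∃ C : Fin T → Finset ℤ, (∀ i, C i ⊆ V i) ∧ (∀ i, (C i).card = K) ∧ (∀ i, Disjoint (C i) F) ∧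
      ∀ i i', i ≠ i' → Disjoint (C i) (C i') := by
  intro T
  induction T with
  | zero =>
    intro V F _
    exact ⟨fun i => i.elim0, fun i => i.elim0, fun i => i.elim0, fun i => i.elim0,
      fun i => i.elim0⟩
  | succ T ih =>
    intro V F hV
    have h1 : K ≤ (V 0 \ F).card := by
      have h2 := Finset.le_card_sdiff F (V 0)
      have h3 := hV 0
      have h4 : (T + 1) * K = T * K + K := by ring
      rw [h4] at h3
      omega
    obtain ⟨C0, hC0, hC0K⟩ := Finset.exists_subset_card_eq h1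
    obtain ⟨C, hC1, hC2, hC3, hC4⟩ := ih (fun i => V i.succ) (F ∪ C0) (by
      intro i
      have h2 := Finset.card_union_le F C0
      have h3 := hV i.succ
      have h4 : (T + 1) * K = T * K + K := by ring
      rw [h4] at h3
      show (F ∪ C0).card + T * K ≤ (V i.succ).card
      omega)
    have hCF : Disjoint C0 F := by
      rw [Finset.disjoint_left]
      intro a ha
      exact (Finset.mem_sdiff.1 (hC0 ha)).2
    refine ⟨Fin.cons C0 C, ?_, ?_, ?_, ?_⟩
    · intro i
      refine Fin.cases ?_ (fun i => ?_) i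
      · rw [Fin.cons_zero]
        exact hC0.trans Finset.sdiff_subset
      · rw [Fin.cons_succ]
        exact hC1 i
    · intro i
      refine Fin.cases ?_ (fun i => ?_) i
      · rw [Fin.cons_zero]
        exact hC0K
      · rw [Fin.cons_succ]
        exact hC2 i
    · intro i
      refine Fin.cases ?_ (fun i => ?_) i
      · rw [Fin.cons_zero]
        exact hCF
      · rw [Fin.cons_succ]
        exact Disjoint.mono_right Finset.subset_union_left (hC3 i)
    · intro i i'
      refine Fin.cases ?_ (fun i => ?_) i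
      · refine Fin.cases ?_ (fun i' => ?_) i'
        · intro h
          exact absurd rfl h
        · intro _
          rw [Fin.cons_zero, Fin.cons_succ]
          exact (Disjoint.mono_right Finset.subset_union_right (hC3 i')).symm
      · refine Fin.cases ?_ (fun i' => ?_) i'
        · intro _
          rw [Fin.cons_zero, Fin.cons_succ]
          exact Disjoint.mono_right Finset.subset_union_right (hC3 i)
        · intro h
          rw [Fin.cons_succ, Fin.cons_succ]
          exact hC4 i i' (fun hc => h (by rw [hc]))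

/-- a dense set of vectors contains all the vectors of a box with constant residues and distinct
elements -/
theorem boxes (T K W : ℕ) (F : Finset ℤ) (hK : 1 ≤ K) (hW : 0 < W) (ε : ℝ) (hε : 0 < ε) :
    ∃ K₀ : ℕ, ∀ A : Fin T → Finset ℤ, (∀ i, K₀ ≤ (A i).card) → ∀ B : Finset (Fin T → ℤ),
    B ⊆ Fintype.piFinset A → ε * ∏ i, ((A i).card : ℝ) ≤ B.card →
    ∃ C : Fin T → Fin K → ℤ, (∀ i j, C i j ∈ A i) ∧ (∀ i j, C i j ∉ F) ∧
      (∀ i j i' j', C i j = C i' j' → i = i' ∧ j = j') ∧
      (∀ i j j', (W : ℤ) ∣ C i j - C i j') ∧ ∀ c : Fin T → Fin K, (fun i => C i (c i)) ∈ B := by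
  classical
  obtain ⟨N, hN⟩ := box_lemma T (W * (F.card + T * K)) ε hε
  refine ⟨N, ?_⟩
  intro A hA B hB hcard
  obtain ⟨A', hinj, hA'⟩ := hN ℤ A hA B hB hcard
  -- constant residues
  have h1 : ∀ i : Fin T, ∃ V : Finset ℤ, V ⊆ univ.image (A' i) ∧ F.card + T * K ≤ V.card ∧
      ∀ a ∈ V, ∀ b ∈ V, (W : ℤ) ∣ a - b := by
    intro i
    have hWZ : (0 : ℤ) < W := by exact_mod_cast hW
    obtain ⟨y, -, hy⟩ := exists_le_card_fiber_of_mul_le_card_of_maps_to
      (s := (univ : Finset (Fin (W * (F.card + T * K))))) (t := range W)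
      (f := fun j => (A' i j % (W : ℤ)).toNat) (n := F.card + T * K)
      (fun j _ => by
        rw [mem_range]
        have h2 := Int.emod_lt_of_pos (A' i j) hWZ
        have h3 := Int.emod_nonneg (A' i j) hWZ.ne'
        show (A' i j % (W : ℤ)).toNat < W
        omega) ⟨0, mem_range.2 hW⟩
      (by rw [card_range, card_univ, Fintype.card_fin])
    refine ⟨(univ.filter (fun j => (A' i j % (W : ℤ)).toNat = y)).image (A' i), ?_, ?_, ?_⟩
    · exact Finset.image_subset_image (Finset.filter_subset _ _)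
    · rw [Finset.card_image_of_injective _ (hinj i)]
      exact hy
    · intro a ha b hb
      rw [Finset.mem_image] at ha hb
      obtain ⟨j, hj, rfl⟩ := ha
      obtain ⟨j', hj', rfl⟩ := hb
      rw [Finset.mem_filter] at hj hj'
      have h3 := Int.emod_nonneg (A' i j) hWZ.ne'
      have h4 := Int.emod_nonneg (A' i j') hWZ.ne'
      have h5 : A' i j % (W : ℤ) = A' i j' % (W : ℤ) := by
        have h6 := hj.2
        have h7 := hj'.2
        omega
      exact Int.ModEq.dvd (show A' i j' ≡ A' i j [ZMOD (W : ℤ)] from h5.symm)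
  choose V hV1 hV2 hV3 using h1
  obtain ⟨C, hC1, hC2, hC3, hC4⟩ := disj_sel K T V F hV2
  obtain ⟨Cf, hCf⟩ : ∃ Cf : Fin T → Fin K → ℤ, Cf = fun i j => (C i).orderEmbOfFin (hC2 i) j :=
    ⟨_, rfl⟩
  have hmem : ∀ i j, Cf i j ∈ C i := by
    intro i j
    rw [hCf]
    exact Finset.orderEmbOfFin_mem _ _ _
  have hinj' : ∀ i j j', Cf i j = Cf i j' → j = j' := by
    intro i j j' h
    rw [hCf] at h
    exact ((C i).orderEmbOfFin (hC2 i)).injective h
  have hidx : ∀ i j, ∃ l, A' i l = Cf i j := by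
    intro i j
    have h2 := hV1 i (hC1 i (hmem i j))
    rw [Finset.mem_image] at h2
    obtain ⟨l, -, hl⟩ := h2
    exact ⟨l, hl⟩
  choose idx hidx' using hidx
  have hbox : ∀ c : Fin T → Fin K, (fun i => Cf i (c i)) ∈ B := by
    intro c
    have h2 := hA' (fun i => idx i (c i))
    have h3 : (fun i => Cf i (c i)) = fun i => A' i (idx i (c i)) := by
      funext i
      exact (hidx' i (c i)).symm
    rw [h3]
    exact h2
  refine ⟨Cf, ?_, ?_, ?_, ?_, hbox⟩
  · intro i j
    have h2 := Fintype.mem_piFinset.1 (hB (hbox (fun _ => j))) i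
    exact h2
  · intro i j
    exact Finset.disjoint_left.1 (hC3 i) (hmem i j)
  · intro i j i' j' h
    have h2 : i = i' := by
      by_contra hne
      have h3 := Finset.disjoint_left.1 (hC4 i i' hne) (hmem i j)
      rw [h] at h3
      exact h3 (hmem i' j')
    subst h2
    exact ⟨rfl, hinj' i j j' h⟩
  · intro i j j'
    exact hV3 i _ (hC1 i (hmem i j)) _ (hC1 i (hmem i j'))

/-- the Chinese remainder theorem for the product of the small primes -/
theorem crt (D : ℕ) {ι : Type} (r : ι → ℤ)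
    (h : ∀ p : ℕ, p.Prime → ∃ n : ℤ, ∀ i, ¬ (p : ℤ) ∣ n + r i) :
    ∃ v : ℤ, ∀ i, IsCoprime (v + r i) ((WW D : ℕ) : ℤ) := by
  classical
  choose! n hn using h
  have hpos : ∀ p ∈ (Icc 1 D).filter Nat.Prime, (p : ℕ) ≠ 0 := by
    intro p hp
    exact (Finset.mem_filter.1 hp).2.ne_zero
  obtain ⟨k, hk⟩ := Nat.chineseRemainderOfFinset (fun p => (n p % (p : ℤ)).toNat) (fun p => p)
    ((Icc 1 D).filter Nat.Prime) hpos (by
      intro p hp q hq hpq
      have h1 := (Finset.mem_filter.1 (Finset.mem_coe.1 hp)).2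
      have h2 := (Finset.mem_filter.1 (Finset.mem_coe.1 hq)).2
      exact (Nat.coprime_primes h1 h2).2 hpq)
  refine ⟨k, fun i => ?_⟩
  unfold WW
  push_cast
  apply IsCoprime.prod_right
  intro p hp
  have hpp := (Finset.mem_filter.1 hp).2
  have hp0 : (0 : ℤ) < p := by exact_mod_cast hpp.pos
  have h1 : ¬ (p : ℤ) ∣ (k : ℤ) + r i := by
    intro hc
    apply hn p hpp i
    have h2 : (k : ℤ) ≡ (((n p % (p : ℤ)).toNat : ℕ) : ℤ) [ZMOD (p : ℤ)] :=
      (Int.natCast_modEq_iff).2 (hk p hp)
    rw [Int.toNat_of_nonneg (Int.emod_nonneg _ hp0.ne')] at h2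
    have h3 : (k : ℤ) ≡ n p [ZMOD (p : ℤ)] := h2.trans (Int.mod_modEq _ _)
    have h4 : (p : ℤ) ∣ n p - k := h3.dvd
    have h5 : n p + r i = (n p - k) + (k + r i) := by ring
    rw [h5]
    exact dvd_add h4 hc
  exact ((Nat.prime_iff_prime_int.1 hpp).coprime_iff_not_dvd.2 h1).symm

end Pool.Agent.L7h32.CT
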