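import Mathlib
import Pool.Agent.L7h32.CT.AsmC
import Pool.Agent.Y827.LS.Final

/-! The theorem on almost primes in classes of linear forms, unconditionally. -/

set_option autoImplicit false

namespace Pool.Agent.L7h32.CT

open Pool.Agent.W25.UN Pool.Agent.W25.UB
open Pool.Agent.H442R2
open Pool.Agent.TH899.UG
open Pool.Agent.Y827.LS

theorem thmC : ThmC :=
  thmC_of (r2bpm Pool.Agent.W25.UB.hTTC) hR2LF hEXM Pool.Agent.W505.UBGAU.main hFT3
    (Pool.Agent.W308.UB.main hEXM) (flc3 Pool.Agent.W308.PL.FLW Pool.Agent.W655.PL.VLB)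
    hSUM hMASH (Pool.Agent.W940.UBNWL.main Pool.Agent.W21.UN.main)
    Pool.Agent.W398.UNFO.sd hTWaH hTWbH
    (u0F hNWU) (l1F hNWU Pool.Agent.W469.UBNWE.main)
    (u2F hNWU Pool.Agent.W469.UBNWE.main)
    (udF hNWU Pool.Agent.W469.UBNWE.main) hNWU Pool.Agent.W469.UBNWE.main hVLNF

end Pool.Agent.L7h32.CT
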