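import Mathlib
import Pool.Agent.L7h32.CT.BoxC
import Pool.Agent.L7h32.CT.FinC

/-! One box of shifts. -/

set_option autoImplicit false

namespace Pool.Agent.L7h32.CT

open Finset Filter Topology
open Pool.Agent.H410R2 (WW)
open Pool.Agent.W25.UN (Fm uB wB ev_poly)
open Pool.Agent.W25.UB (CopAt)

/-- `m` exceeds `1` and has at most two prime factors, counted with multiplicity, all at least `y` -/
def P2 (y : ℝ) (m : ℤ) : Prop :=
  1 < m ∧ m.natAbs.primeFactorsList.length ≤ 2 ∧ ∀ q ∈ m.natAbs.primeFactors, y ≤ (q : ℝ)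

theorem cop_of_dvd {a b W : ℤ} (h : IsCoprime a W) (h' : W ∣ b - a) : IsCoprime b W := by
  obtain ⟨t, ht⟩ := h'
  have h1 : b = a + W * t := by linarith
  rw [h1]
  exact IsCoprime.add_mul_left_left h t

theorem p2_of_g {x : ℕ} {m : ℤ} (h : P2g x m) (hm : 1 < m) : P2 ((x : ℝ) ^ (1 / 7 : ℝ)) m := by
  refine ⟨hm, h.1, fun q hq => le_trans ?_ (h.2 q hq)⟩
  apply Real.rpow_le_rpow (Nat.cast_nonneg _) _ (by norm_num)
  push_cast
  have : (0 : ℝ) ≤ x := Nat.cast_nonneg _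
  linarith

theorem p2_of_prime {y : ℝ} {m : ℤ} (h : m.toNat.Prime) (hy : y ≤ m) : P2 y m := by
  have h1 := h.one_lt
  have h2 : 1 < m := by omega
  have h3 : m.natAbs = m.toNat := by omega
  unfold P2
  rw [h3]
  refine ⟨h2, ?_, ?_⟩
  · rw [Nat.primeFactorsList_prime h]
    simp
  · intro q hq
    rw [h.primeFactors, Finset.mem_singleton] at hq
    rw [hq]
    have h4 : ((m.toNat : ℤ) : ℝ) = (m : ℝ) := by rw [Int.toNat_of_nonneg (by omega)]
    rw [← h4] at hy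
    exact_mod_cast hy

theorem class_card {T K : ℕ} (g : Fin T) :
    (univ.filter (fun l : Fin (T * K) => (finProdFinEquiv.symm l).1 = g)).card = K := by
  have h1 : (univ.filter (fun l : Fin (T * K) => (finProdFinEquiv.symm l).1 = g)) =
      univ.image (fun j : Fin K => finProdFinEquiv (g, j)) := by
    ext l
    rw [Finset.mem_filter, Finset.mem_image]
    constructor
    · rintro ⟨-, h⟩
      refine ⟨(finProdFinEquiv.symm l).2, Finset.mem_univ _, ?_⟩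
      rw [← h]
      exact finProdFinEquiv.apply_symm_apply l
    · rintro ⟨j, -, rfl⟩
      exact ⟨Finset.mem_univ _, by simp⟩
  rw [h1, Finset.card_image_of_injective, Finset.card_univ, Fintype.card_fin]
  intro j j' h
  have h2 := finProdFinEquiv.injective h
  exact (Prod.mk.injEq _ _ _ _ ▸ h2).2

open Classical in
theorem lemU (T M : ℕ) (hT : 1 ≤ T) (hTM : (18 / 5 : ℝ) * M < T) : ∃ K : ℕ, 1 ≤ K ∧ ∃ D : ℕ,
    ∀ (C : Fin T → Fin K → ℤ), (∀ i j i' j', C i j = C i' j' → i = i' ∧ j = j') → ∀ v : ℤ,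
    (∀ i j, IsCoprime (v + C i j) ((WW D : ℕ) : ℤ)) → ∀ η : ℝ, 0 < η → ∀ᶠ x : ℕ in atTop,
    (∀ i₀ : Fin T, ∀ j₀ : Fin K, ∃ c : Fin T → Fin K, c i₀ = j₀ ∧ (x : ℝ) ^ (1 - η) ≤
      (((Icc 1 x).filter (fun n : ℕ => ((n : ℤ) + C i₀ j₀).toNat.Prime ∧
        ∀ i, P2 ((x : ℝ) ^ (1 / 7 : ℝ)) (n + C i (c i)))).card : ℝ)) ∧
    ∃ c : Fin T → Fin K, (x : ℝ) ^ (1 - η) ≤
      (((Icc 1 x).filter (fun n : ℕ => M + 1 ≤ (univ.filter (fun i : Fin T =>
        ((n : ℤ) + C i (c i)).toNat.Prime)).card ∧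
        ∀ i, P2 ((x : ℝ) ^ (1 / 7 : ℝ)) (n + C i (c i)))).card : ℝ) := by
  obtain ⟨K, hK, D₀, H⟩ := thmC T M hT hTM
  refine ⟨K, by omega, D₀, ?_⟩
  intro C hC v hv η hη
  obtain ⟨W, hW⟩ : ∃ W : ℤ, W = ((WW D₀ : ℕ) : ℤ) := ⟨_, rfl⟩
  have hW1 : 1 ≤ W := by
    rw [hW]
    have h1 : 0 < WW D₀ := by
      unfold WW
      apply Finset.prod_pos
      intro p hp
      exact (Finset.mem_filter.1 hp).2.pos
    exact_mod_cast h1
  rw [← hW] at hv
  obtain ⟨b, hb⟩ : ∃ b : ℤ, b = C ⟨0, hT⟩ ⟨0, by omega⟩ := ⟨_, rfl⟩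
  obtain ⟨S, hS⟩ : ∃ S : ℤ, S = ∑ i, ∑ j, |C i j| := ⟨_, rfl⟩
  have hCS : ∀ i j, |C i j| ≤ S := by
    intro i j
    have h1 := Finset.single_le_sum (f := fun j => |C i j|) (fun j _ => abs_nonneg (C i j))
      (Finset.mem_univ j)
    have h2 := Finset.single_le_sum (f := fun i => ∑ j, |C i j|)
      (fun i _ => Finset.sum_nonneg fun j _ => abs_nonneg (C i j)) (Finset.mem_univ i)
    rw [hS]
    exact h1.trans h2
  have hbS : |b| ≤ S := by rw [hb]; exact hCS _ _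
  have hS0 : 0 ≤ S := (abs_nonneg b).trans hbS
  obtain ⟨s, hs⟩ : ∃ s : ℤ, s = W * (2 * S + 1) - b := ⟨_, rfl⟩
  have hWS : 2 * S + 1 ≤ W * (2 * S + 1) := by nlinarith
  have hb1 := abs_le.1 hbS
  have hs1 : S + 1 ≤ s := by
    rw [hs]
    linarith [hb1.2]
  have hCs : ∀ i j, 1 ≤ C i j + s := by
    intro i j
    have h1 := abs_le.1 (hCS i j)
    linarith [h1.1]
  obtain ⟨h, hh⟩ : ∃ h : Fin (T * K) → ℤ, h = fun l =>
    C (finProdFinEquiv.symm l).1 (finProdFinEquiv.symm l).2 + s := ⟨_, rfl⟩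
  have hhe : ∀ i j, h (finProdFinEquiv (i, j)) = C i j + s := by
    intro i j
    rw [hh]
    simp
  have hhl : ∀ l, h l = C (finProdFinEquiv.symm l).1 (finProdFinEquiv.symm l).2 + s := by
    intro l
    rw [hh]
  have hh0 : ∀ l, h l ≠ 0 := by
    intro l
    rw [hhl]
    have := hCs (finProdFinEquiv.symm l).1 (finProdFinEquiv.symm l).2
    omega
  have hinj : Function.Injective h := by
    intro l l' hll
    rw [hhl, hhl] at hll
    have h1 := hC _ _ _ _ (add_right_cancel hll)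
    exact finProdFinEquiv.symm.injective (Prod.ext h1.1 h1.2)
  obtain ⟨v', hv'⟩ : ∃ v' : ℕ, v' = ((v - s) % W).toNat := ⟨_, rfl⟩
  have hvv : W ∣ (v' : ℤ) - (v - s) := by
    rw [hv', Int.toNat_of_nonneg (Int.emod_nonneg _ (by omega))]
    exact Int.ModEq.dvd (Int.mod_modEq (v - s) W).symm
  have hcop : CopAt (fun _ => 1) h D₀ 0 v' := by
    intro j n hn
    have hn' : W ∣ n - v' := by
      rw [hW]
      exact Int.ModEq.dvd hn.symm
    rw [← hW]
    rcases j with _ | l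
    · show IsCoprime (1 * n + 0) W
      apply cop_of_dvd (hv ⟨0, hT⟩ ⟨0, by omega⟩)
      rw [← hb]
      have h1 : 1 * n + 0 - (v + b) = (n - v') + ((v' : ℤ) - (v - s)) - W * (2 * S + 1) := by
        rw [hs]
        ring
      rw [h1]
      exact dvd_sub (dvd_add hn' hvv) (dvd_mul_right _ _)
    · show IsCoprime (1 * n + (((0 : ℕ) : ℤ) + h l)) W
      apply cop_of_dvd (hv (finProdFinEquiv.symm l).1 (finProdFinEquiv.symm l).2)
      rw [hhl]
      have h1 : 1 * n + (((0 : ℕ) : ℤ) + (C (finProdFinEquiv.symm l).1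
          (finProdFinEquiv.symm l).2 + s)) - (v + C (finProdFinEquiv.symm l).1
          (finProdFinEquiv.symm l).2) = (n - v') + ((v' : ℤ) - (v - s)) := by
        push_cast
        ring
      rw [h1]
      exact dvd_add hn' hvv
  have hFm : ∀ (l : Fin (T * K)) (n : ℕ), Fm (fun _ => 1) h 0 l n =
      ((n + s.toNat : ℕ) : ℤ) + C (finProdFinEquiv.symm l).1 (finProdFinEquiv.symm l).2 := by
    intro l n
    unfold Fm
    rw [hhl]
    push_cast
    rw [Int.toNat_of_nonneg (by omega)]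
    ring
  have hcount : ∀ᶠ x : ℕ in atTop, ((K : ℝ) ^ T + 1) * (x : ℝ) ^ (1 - η) ≤
      (x : ℝ) ^ (1 - η / 2) := by
    filter_upwards [ev_poly ((K : ℝ) ^ T + 1) 0 (1 - η) (1 - η / 2) (by linarith)] with x hx
    rwa [pow_zero, mul_one] at hx
  have hprs : ∀ᶠ x : ℕ in atTop, (x : ℝ) ^ (1 / 7 : ℝ) ≤ x / 64 := by
    filter_upwards [rpow_big (1 / 7) (by norm_num) (by norm_num)] with x hx
    refine le_trans ?_ hx
    apply Real.rpow_le_rpow (Nat.cast_nonneg _) _ (by norm_num)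
    push_cast
    have : (0 : ℝ) ≤ x := Nat.cast_nonneg _
    linarith
  filter_upwards [H D₀ le_rfl h (fun l => (finProdFinEquiv.symm l).1) (fun g => class_card g) hh0
    hinj (η / 2) (by linarith), hcount, hprs, eventually_ge_atTop (2 * s.toNat + 64)]
    with x hx hxc hx7 hxs
  obtain ⟨hx1, hx2⟩ := hx v' hcop
  have hx0 : (0 : ℝ) < x := by exact_mod_cast (by omega : 0 < x)
  have hpow : 0 < (x : ℝ) ^ (1 - η) := by positivity
  -- range
  have hrng : ∀ n : ℕ, (x : ℝ) / 16 ≤ n → (n : ℝ) ≤ x / 2 → 1 ≤ n + s.toNat ∧ n + s.toNat ≤ x ∧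
      4 ≤ n := by
    intro n h1 h2
    have h3 : ((16 * n : ℕ) : ℝ) ≥ ((x : ℕ) : ℝ) := by
      push_cast
      linarith
    have h4 : x ≤ 16 * n := by exact_mod_cast h3
    have h5 : ((2 * n : ℕ) : ℝ) ≤ ((x : ℕ) : ℝ) := by
      push_cast
      linarith
    have h6 : 2 * n ≤ x := by exact_mod_cast h5
    refine ⟨by omega, by omega, by omega⟩
  have hbigm : ∀ (n : ℕ) (i : Fin T) (j : Fin K), (x : ℝ) / 16 ≤ n → 4 ≤ n →
      1 < ((n + s.toNat : ℕ) : ℤ) + C i j ∧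
      (x : ℝ) ^ (1 / 7 : ℝ) ≤ ((((n + s.toNat : ℕ) : ℤ) + C i j : ℤ) : ℝ) := by
    intro n i j h1 h2
    have h3 := hCs i j
    have h4 : (n : ℤ) ≤ ((n + s.toNat : ℕ) : ℤ) + C i j := by
      push_cast
      rw [Int.toNat_of_nonneg (by omega)]
      omega
    refine ⟨by omega, ?_⟩
    have h5 : (n : ℝ) ≤ ((((n + s.toNat : ℕ) : ℤ) + C i j : ℤ) : ℝ) := by exact_mod_cast h4
    linarith
  -- the pigeonhole principle
  have hpig : ∀ (E : Finset ℕ) (Cs : Finset (Fin T → Fin K)) (F : (Fin T → Fin K) → Finset ℕ),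
      (x : ℝ) ^ (1 - η / 2) ≤ E.card → (∀ n ∈ E, ∃ c ∈ Cs, n + s.toNat ∈ F c) →
      ∃ c ∈ Cs, (x : ℝ) ^ (1 - η) ≤ ((F c).card : ℝ) := by
    intro E Cs F hE hEF
    by_contra hcon
    push Not at hcon
    have h1 : E.card ≤ (Cs.biUnion F).card := by
      apply Finset.card_le_card_of_injOn (fun n => n + s.toNat)
      · intro n hn
        obtain ⟨c, hc, hnc⟩ := hEF n hn
        exact Finset.mem_coe.2 (Finset.mem_biUnion.2 ⟨c, hc, hnc⟩)
      · intro n _ n' _ hnn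
        exact Nat.add_right_cancel hnn
    have h2 : (E.card : ℝ) ≤ ∑ c ∈ Cs, ((F c).card : ℝ) := by
      exact_mod_cast h1.trans Finset.card_biUnion_le
    have h3 : ∑ c ∈ Cs, ((F c).card : ℝ) ≤ ∑ _c ∈ Cs, (x : ℝ) ^ (1 - η) :=
      Finset.sum_le_sum fun c hc => (hcon c hc).le
    rw [Finset.sum_const, nsmul_eq_mul] at h3
    have h4 : (Cs.card : ℝ) ≤ (K : ℝ) ^ T := by
      have h5 : Cs.card ≤ K ^ T := by
        refine (Finset.card_le_univ _).trans (le_of_eq ?_)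
        rw [Fintype.card_fun, Fintype.card_fin, Fintype.card_fin]
      exact_mod_cast h5
    have h5 : (Cs.card : ℝ) * (x : ℝ) ^ (1 - η) ≤ (K : ℝ) ^ T * (x : ℝ) ^ (1 - η) :=
      mul_le_mul_of_nonneg_right h4 hpow.le
    have h6 : ((K : ℝ) ^ T + 1) * (x : ℝ) ^ (1 - η) = (K : ℝ) ^ T * (x : ℝ) ^ (1 - η) +
        (x : ℝ) ^ (1 - η) := by ring
    linarith
  constructor
  · intro i₀ j₀
    obtain ⟨c, hc, hcF⟩ := hpig _ (univ.filter (fun c => c i₀ = j₀)) (fun c =>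
      (Icc 1 x).filter (fun n : ℕ => ((n : ℤ) + C i₀ j₀).toNat.Prime ∧
        ∀ i, P2 ((x : ℝ) ^ (1 / 7 : ℝ)) (n + C i (c i)))) (hx1 (finProdFinEquiv (i₀, j₀))) (by
      intro n hn
      rw [Finset.mem_filter] at hn
      obtain ⟨-, -, hn1, hn2, hn3, hn4⟩ := hn
      obtain ⟨hr1, hr2, hr3⟩ := hrng n hn1 hn2
      rw [hFm] at hn3
      simp only [Equiv.symm_apply_apply] at hn3
      choose l hl1 hl2 using hn4
      refine ⟨fun g => if g = i₀ then j₀ else (finProdFinEquiv.symm (l g)).2, ?_, ?_⟩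
      · rw [Finset.mem_filter]
        refine ⟨Finset.mem_univ _, ?_⟩
        simp
      · rw [Finset.mem_filter, Finset.mem_Icc]
        refine ⟨⟨hr1, hr2⟩, hn3, ?_⟩
        intro g
        by_cases hg : g = i₀
        · beta_reduce
          rw [if_pos hg, hg]
          exact p2_of_prime hn3 (hbigm n i₀ j₀ hn1 hr3).2
        · beta_reduce
          rw [if_neg hg]
          have h2 := hl2 g
          rw [hFm, hl1 g] at h2
          exact p2_of_g h2 (hbigm n g _ hn1 hr3).1)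
    rw [Finset.mem_filter] at hc
    exact ⟨c, hc.2, hcF⟩
  · obtain ⟨c, -, hcF⟩ := hpig _ univ (fun c =>
      (Icc 1 x).filter (fun n : ℕ => M + 1 ≤ (univ.filter (fun i : Fin T =>
        ((n : ℤ) + C i (c i)).toNat.Prime)).card ∧
        ∀ i, P2 ((x : ℝ) ^ (1 / 7 : ℝ)) (n + C i (c i)))) hx2 (by
      intro n hn
      rw [Finset.mem_filter] at hn
      obtain ⟨-, -, hn1, hn2, hn3, hn4⟩ := hn
      obtain ⟨hr1, hr2, hr3⟩ := hrng n hn1 hn2
      have hsel : ∀ g : Fin T, ∃ j : Fin K,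
          ((∃ i, (finProdFinEquiv.symm i).1 = g ∧ (Fm (fun _ => 1) h 0 i n).toNat.Prime) →
            (((n + s.toNat : ℕ) : ℤ) + C g j).toNat.Prime) ∧
          P2 ((x : ℝ) ^ (1 / 7 : ℝ)) (((n + s.toNat : ℕ) : ℤ) + C g j) := by
        intro g
        by_cases hg : ∃ i, (finProdFinEquiv.symm i).1 = g ∧ (Fm (fun _ => 1) h 0 i n).toNat.Prime
        · obtain ⟨l, hl1, hl2⟩ := hg
          rw [hFm, hl1] at hl2
          exact ⟨(finProdFinEquiv.symm l).2, fun _ => hl2, p2_of_prime hl2 (hbigm n g _ hn1 hr3).2⟩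
        · obtain ⟨l, hl1, hl2⟩ := hn4 g
          rw [hFm, hl1] at hl2
          exact ⟨(finProdFinEquiv.symm l).2, fun hc => absurd hc hg,
            p2_of_g hl2 (hbigm n g _ hn1 hr3).1⟩
      choose c hc1 hc2 using hsel
      refine ⟨c, Finset.mem_univ _, ?_⟩
      rw [Finset.mem_filter, Finset.mem_Icc]
      refine ⟨⟨hr1, hr2⟩, hn3.trans (Finset.card_le_card ?_), hc2⟩
      intro g hg
      rw [Finset.mem_filter] at hg ⊢
      exact ⟨hg.1, hc1 g hg.2⟩)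
    exact ⟨c, hcF⟩

end Pool.Agent.L7h32.CT
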