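import Mathlib
import Pool.Agent.L7h32.CT.LemU

/-! Almost all vectors of shifts. -/

set_option autoImplicit false

namespace Pool.Agent.L7h32.CT

open Finset Filter Topology
open Pool.Agent.H410R2 (WW)

open Classical in
/-- **Chen's theorem for almost all tuples.** -/
theorem mainA (k : ℕ) (ε η : ℝ) (hε : 0 < ε) (hη : 0 < η) : ∃ K₀ : ℕ, ∀ A : Fin k → Finset ℤ,
    (∀ i, K₀ ≤ (A i).card) → ∃ x₀ : ℕ, ∀ x : ℕ, x₀ ≤ x →
    (((Fintype.piFinset A).filter (fun a : Fin k → ℤ =>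
      (∀ p : ℕ, p.Prime → ∃ n : ℤ, ¬ (p : ℤ) ∣ n ∧ ∀ i, ¬ (p : ℤ) ∣ n + a i) ∧
      (((Icc 1 x).filter (fun p : ℕ => p.Prime ∧
        ∀ i, P2 ((x : ℝ) ^ (1 / 7 : ℝ)) (p + a i))).card : ℝ) < (x : ℝ) ^ (1 - η))).card : ℝ) ≤
      ε * ∏ i, ((A i).card : ℝ) := by
  obtain ⟨K, hK, D, H⟩ := lemU (k + 1) 0 (by omega) (by
    push_cast
    have : (0 : ℝ) ≤ k := Nat.cast_nonneg _
    linarith)
  have hWW : 0 < WW D := by
    unfold WW
    apply Finset.prod_pos
    intro p hp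
    exact (Finset.mem_filter.1 hp).2.pos
  obtain ⟨K₀, hK₀⟩ := boxes k K (WW D) {0} hK hWW ε hε
  refine ⟨K₀, fun A hA => ?_⟩
  -- the boxes
  have key : ∀ᶠ x : ℕ in atTop, ∀ C ∈ Fintype.piFinset (fun i : Fin k =>
      Fintype.piFinset (fun _ : Fin K => A i)), (∀ i j, C i j ≠ 0) →
      (∀ i j i' j', C i j = C i' j' → i = i' ∧ j = j') →
      (∃ v : ℤ, IsCoprime v ((WW D : ℕ) : ℤ) ∧ ∀ i j, IsCoprime (v + C i j) ((WW D : ℕ) : ℤ)) →
      ∃ c : Fin k → Fin K, (x : ℝ) ^ (1 - η) ≤ (((Icc 1 x).filter (fun p : ℕ => p.Prime ∧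
        ∀ i, P2 ((x : ℝ) ^ (1 / 7 : ℝ)) (p + C i (c i)))).card : ℝ) := by
    rw [Filter.eventually_all_finset]
    intro C _
    by_cases hC : (∀ i j, C i j ≠ 0) ∧ (∀ i j i' j', C i j = C i' j' → i = i' ∧ j = j') ∧
      (∃ v : ℤ, IsCoprime v ((WW D : ℕ) : ℤ) ∧ ∀ i j, IsCoprime (v + C i j) ((WW D : ℕ) : ℤ))
    · obtain ⟨hC0, hCi, v, hv, hvC⟩ := hC
      obtain ⟨W, hW⟩ : ∃ W : ℤ, W = ((WW D : ℕ) : ℤ) := ⟨_, rfl⟩
      have hW1 : 1 ≤ W := by rw [hW]; exact_mod_cast hWW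
      obtain ⟨S, hS⟩ : ∃ S : ℤ, S = ∑ i, ∑ j, |C i j| := ⟨_, rfl⟩
      have hCS : ∀ i j, |C i j| ≤ S := by
        intro i j
        have h1 := Finset.single_le_sum (f := fun j => |C i j|) (fun j _ => abs_nonneg (C i j))
          (Finset.mem_univ j)
        have h2 := Finset.single_le_sum (f := fun i => ∑ j, |C i j|)
          (fun i _ => Finset.sum_nonneg fun j _ => abs_nonneg (C i j)) (Finset.mem_univ i)
        rw [hS]
        exact h1.trans h2
      have hS0 : 0 ≤ S := by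
        rw [hS]
        exact Finset.sum_nonneg fun i _ => Finset.sum_nonneg fun j _ => abs_nonneg _
      have hWS : S + 1 ≤ W * (S + 1) := by nlinarith
      obtain ⟨C', hC'⟩ : ∃ C' : Fin (k + 1) → Fin K → ℤ, C' =
        Fin.cons (fun j : Fin K => ((j : ℕ) : ℤ) * (W * (S + 1))) C := ⟨_, rfl⟩
      have hz : ∀ j : Fin K, C' 0 j = ((j : ℕ) : ℤ) * (W * (S + 1)) := by
        intro j
        rw [hC', Fin.cons_zero]
      have hsu : ∀ (i : Fin k) (j : Fin K), C' i.succ j = C i j := by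
        intro i j
        rw [hC', Fin.cons_succ]
      have hne : ∀ (j : Fin K) (i : Fin k) (j' : Fin K), C' 0 j ≠ C' i.succ j' := by
        intro j i j' h
        rw [hz, hsu] at h
        have h1 := abs_le.1 (hCS i j')
        rcases Nat.eq_zero_or_pos (j : ℕ) with h2 | h2
        · rw [h2] at h
          apply hC0 i j'
          rw [← h]
          simp
        · have h3 : (1 : ℤ) ≤ ((j : ℕ) : ℤ) := by exact_mod_cast h2
          have h4 : W * (S + 1) ≤ ((j : ℕ) : ℤ) * (W * (S + 1)) := by nlinarith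
          linarith [h1.2]
      have hinj : ∀ i j i' j', C' i j = C' i' j' → i = i' ∧ j = j' := by
        intro i j i' j'
        refine Fin.cases ?_ (fun i => ?_) i
        · refine Fin.cases ?_ (fun i' => ?_) i'
          · intro h
            rw [hz, hz] at h
            have h1 : W * (S + 1) ≠ 0 := by
              have : 0 < W * (S + 1) := by linarith
              exact this.ne'
            have h2 := mul_right_cancel₀ h1 h
            refine ⟨rfl, Fin.ext (by exact_mod_cast h2)⟩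
          · intro h
            exact absurd h (hne j i' j')
        · refine Fin.cases ?_ (fun i' => ?_) i'
          · intro h
            exact absurd h.symm (hne j' i j)
          · intro h
            rw [hsu, hsu] at h
            obtain ⟨h1, h2⟩ := hCi _ _ _ _ h
            exact ⟨by rw [h1], h2⟩
      have hcop : ∀ i j, IsCoprime (v + C' i j) ((WW D : ℕ) : ℤ) := by
        intro i j
        refine Fin.cases ?_ (fun i => ?_) i
        · rw [hz]
          apply cop_of_dvd hv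
          rw [← hW]
          have : v + ((j : ℕ) : ℤ) * (W * (S + 1)) - v = W * (((j : ℕ) : ℤ) * (S + 1)) := by ring
          rw [this]
          exact dvd_mul_right _ _
        · rw [hsu]
          exact hvC i j
      filter_upwards [H C' hinj v hcop η hη] with x hx _ _ _
      obtain ⟨c, -, hc2⟩ := hx.1 0 ⟨0, hK⟩
      refine ⟨fun i => c i.succ, hc2.trans ?_⟩
      have h1 : (((Icc 1 x).filter (fun n : ℕ => ((n : ℤ) + C' 0 ⟨0, hK⟩).toNat.Prime ∧
          ∀ i, P2 ((x : ℝ) ^ (1 / 7 : ℝ)) (n + C' i (c i)))).card) ≤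
          (((Icc 1 x).filter (fun p : ℕ => p.Prime ∧
          ∀ i, P2 ((x : ℝ) ^ (1 / 7 : ℝ)) (p + C i (c i.succ)))).card) := by
        apply Finset.card_le_card
        intro n hn
        rw [Finset.mem_filter] at hn ⊢
        refine ⟨hn.1, ?_, ?_⟩
        · have h2 := hn.2.1
          rw [hz] at h2
          simpa using h2
        · intro i
          have h2 := hn.2.2 i.succ
          rwa [hsu] at h2
      exact_mod_cast h1
    · exact Filter.Eventually.of_forall fun x h1 h2 h3 => absurd ⟨h1, h2, h3⟩ hC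
  obtain ⟨x₀, hx₀⟩ := Filter.eventually_atTop.1 key
  refine ⟨x₀, fun x hx => ?_⟩
  by_contra hcon
  push Not at hcon
  obtain ⟨C, hC1, hC2, hC3, hC4, hC5⟩ := hK₀ A hA _ (Finset.filter_subset _ _) hcon.le
  have hmem : C ∈ Fintype.piFinset (fun i : Fin k => Fintype.piFinset (fun _ : Fin K => A i)) := by
    rw [Fintype.mem_piFinset]
    intro i
    rw [Fintype.mem_piFinset]
    exact hC1 i
  have hadm := (Finset.mem_filter.1 (hC5 (fun _ => ⟨0, hK⟩))).2.1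
  obtain ⟨v, hv⟩ := crt D (fun o : Option (Fin k) => match o with
    | none => 0
    | some i => C i ⟨0, hK⟩) (by
    intro p hp
    obtain ⟨n, hn1, hn2⟩ := hadm p hp
    refine ⟨n, ?_⟩
    rintro (_ | i)
    · simpa using hn1
    · exact hn2 i)
  obtain ⟨c, hc⟩ := hx₀ x hx C hmem (fun i j => by simpa using hC2 i j) hC3 ⟨v, by
    have := hv none
    simpa using this, fun i j => by
    apply cop_of_dvd (hv (some i))
    have h1 : v + C i j - (v + C i ⟨0, hK⟩) = C i j - C i ⟨0, hK⟩ := by ring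
    show ((WW D : ℕ) : ℤ) ∣ v + C i j - (v + C i ⟨0, hK⟩)
    rw [h1]
    exact hC4 i j _⟩
  have hbad := (Finset.mem_filter.1 (hC5 c)).2.2
  exact absurd hc (not_le.2 hbad)

open Classical in
/-- the number of the `n` with more than `M` primes -/
noncomputable def cntN {T : ℕ} (M : ℕ) (a : Fin T → ℤ) (x : ℕ) : ℕ :=
  ((Icc 1 x).filter (fun n : ℕ => M + 1 ≤ (univ.filter
          (fun i : Fin T => ((n : ℤ) + a i).toNat.Prime)).card ∧
          ∀ i, P2 ((x : ℝ) ^ (1 / 7 : ℝ)) (n + a i))).card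

open Classical in
/-- the number of the `n` with a prime at a given place -/
noncomputable def cntS {T : ℕ} (i₀ : Fin T) (a : Fin T → ℤ) (x : ℕ) : ℕ :=
  ((Icc 1 x).filter (fun n : ℕ => ((n : ℤ) + a i₀).toNat.Prime ∧
          ∀ i, P2 ((x : ℝ) ^ (1 / 7 : ℝ)) (n + a i))).card

/-- the counting functions -/
noncomputable def cnt {T : ℕ} (M : ℕ) (o : Option (Fin T)) (a : Fin T → ℤ) (x : ℕ) : ℕ :=
  match o with
  | none => cntN M a x
  | some i₀ => cntS i₀ a x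

open Classical in
theorem mainB1 (T M : ℕ) (hTM : 18 * M < 5 * T) (o : Option (Fin T)) (ε η : ℝ) (hε : 0 < ε)
    (hη : 0 < η) : ∃ K₀ : ℕ, ∀ A : Fin T → Finset ℤ,
    (∀ i, K₀ ≤ (A i).card) → ∃ x₀ : ℕ, ∀ x : ℕ, x₀ ≤ x →
    (((Fintype.piFinset A).filter (fun a : Fin T → ℤ =>
      (∀ p : ℕ, p.Prime → ∃ n : ℤ, ∀ i, ¬ (p : ℤ) ∣ n + a i) ∧
      (cnt M o a x : ℝ) < (x : ℝ) ^ (1 - η))).card : ℝ) ≤ ε * ∏ i, ((A i).card : ℝ) := by
  have hT : 1 ≤ T := by omega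
  obtain ⟨K, hK, D, H⟩ := lemU T M hT (by
    have h1 : ((18 * M : ℕ) : ℝ) < ((5 * T : ℕ) : ℝ) := by exact_mod_cast hTM
    push_cast at h1
    linarith)
  have hWW : 0 < WW D := by
    unfold WW
    apply Finset.prod_pos
    intro p hp
    exact (Finset.mem_filter.1 hp).2.pos
  obtain ⟨K₀, hK₀⟩ := boxes T K (WW D) ∅ hK hWW ε hε
  refine ⟨K₀, fun A hA => ?_⟩
  -- the boxes
  have key : ∀ᶠ x : ℕ in atTop, ∀ C ∈ Fintype.piFinset (fun i : Fin T =>
      Fintype.piFinset (fun _ : Fin K => A i)),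
      (∀ i j i' j', C i j = C i' j' → i = i' ∧ j = j') →
      (∃ v : ℤ, ∀ i j, IsCoprime (v + C i j) ((WW D : ℕ) : ℤ)) →
      ∃ c : Fin T → Fin K, (x : ℝ) ^ (1 - η) ≤ (cnt M o (fun i => C i (c i)) x : ℝ) := by
    rw [Filter.eventually_all_finset]
    intro C _
    by_cases hC : (∀ i j i' j', C i j = C i' j' → i = i' ∧ j = j') ∧
      (∃ v : ℤ, ∀ i j, IsCoprime (v + C i j) ((WW D : ℕ) : ℤ))
    · obtain ⟨hCi, v, hvC⟩ := hC
      filter_upwards [H C hCi v hvC η hη] with x hx _ _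
      rcases o with _ | i₀
      · exact hx.2
      · obtain ⟨c, hc1, hc2⟩ := hx.1 i₀ ⟨0, hK⟩
        refine ⟨c, ?_⟩
        rw [← hc1] at hc2
        exact hc2
    · exact Filter.Eventually.of_forall fun x h1 h2 => absurd ⟨h1, h2⟩ hC
  obtain ⟨x₀, hx₀⟩ := Filter.eventually_atTop.1 key
  refine ⟨x₀, fun x hx => ?_⟩
  by_contra hcon
  push Not at hcon
  obtain ⟨C, hC1, hC2, hC3, hC4, hC5⟩ := hK₀ A hA _ (Finset.filter_subset _ _) hcon.le
  have hmem : C ∈ Fintype.piFinset (fun i : Fin T => Fintype.piFinset (fun _ : Fin K => A i)) := by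
    rw [Fintype.mem_piFinset]
    intro i
    rw [Fintype.mem_piFinset]
    exact hC1 i
  have hadm := (Finset.mem_filter.1 (hC5 (fun _ => ⟨0, hK⟩))).2.1
  obtain ⟨v, hv⟩ := crt D (fun i : Fin T => C i ⟨0, hK⟩) hadm
  obtain ⟨c, hc⟩ := hx₀ x hx C hmem hC3 ⟨v, fun i j => by
    apply cop_of_dvd (hv i)
    have h1 : v + C i j - (v + C i ⟨0, hK⟩) = C i j - C i ⟨0, hK⟩ := by ring
    show ((WW D : ℕ) : ℤ) ∣ v + C i j - (v + C i ⟨0, hK⟩)
    rw [h1]
    exact hC4 i j _⟩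
  have hbad := (Finset.mem_filter.1 (hC5 c)).2.2
  exact absurd hc (not_le.2 hbad)

open Classical in
/-- **Primes among almost primes for almost all tuples.** -/
theorem mainB (T M : ℕ) (hTM : 18 * M < 5 * T) (ε η : ℝ) (hε : 0 < ε)
    (hη : 0 < η) : ∃ K₀ : ℕ, ∀ A : Fin T → Finset ℤ,
    (∀ i, K₀ ≤ (A i).card) → ∃ x₀ : ℕ, ∀ x : ℕ, x₀ ≤ x →
    (((Fintype.piFinset A).filter (fun a : Fin T → ℤ =>
      (∀ p : ℕ, p.Prime → ∃ n : ℤ, ∀ i, ¬ (p : ℤ) ∣ n + a i) ∧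
      ¬ ((x : ℝ) ^ (1 - η) ≤ (((Icc 1 x).filter (fun n : ℕ => M + 1 ≤ (univ.filter
          (fun i : Fin T => ((n : ℤ) + a i).toNat.Prime)).card ∧
          ∀ i, P2 ((x : ℝ) ^ (1 / 7 : ℝ)) (n + a i))).card : ℝ) ∧
        ∀ i₀, (x : ℝ) ^ (1 - η) ≤ (((Icc 1 x).filter (fun n : ℕ =>
          ((n : ℤ) + a i₀).toNat.Prime ∧
          ∀ i, P2 ((x : ℝ) ^ (1 / 7 : ℝ)) (n + a i))).card : ℝ)))).card : ℝ) ≤
      ε * ∏ i, ((A i).card : ℝ) := by
  have hT0 : (0 : ℝ) < (T : ℝ) + 1 := by positivity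
  choose K₀ hK₀ using fun o : Option (Fin T) => mainB1 T M hTM o (ε / (T + 1)) η
    (by positivity) hη
  refine ⟨∑ o, K₀ o, fun A hA => ?_⟩
  have hA' : ∀ o, ∀ i, K₀ o ≤ (A i).card := fun o i =>
    (Finset.single_le_sum (f := K₀) (fun _ _ => Nat.zero_le _) (Finset.mem_univ o)).trans (hA i)
  choose x₀ hx₀ using fun o => hK₀ o A (hA' o)
  refine ⟨∑ o, x₀ o, fun x hx => ?_⟩
  have hx' : ∀ o, x₀ o ≤ x := fun o =>
    (Finset.single_le_sum (f := x₀) (fun _ _ => Nat.zero_le _) (Finset.mem_univ o)).trans hx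
  have hsub : (Fintype.piFinset A).filter (fun a : Fin T → ℤ =>
      (∀ p : ℕ, p.Prime → ∃ n : ℤ, ∀ i, ¬ (p : ℤ) ∣ n + a i) ∧
      ¬ ((x : ℝ) ^ (1 - η) ≤ (((Icc 1 x).filter (fun n : ℕ => M + 1 ≤ (univ.filter
          (fun i : Fin T => ((n : ℤ) + a i).toNat.Prime)).card ∧
          ∀ i, P2 ((x : ℝ) ^ (1 / 7 : ℝ)) (n + a i))).card : ℝ) ∧
        ∀ i₀, (x : ℝ) ^ (1 - η) ≤ (((Icc 1 x).filter (fun n : ℕ =>
          ((n : ℤ) + a i₀).toNat.Prime ∧
          ∀ i, P2 ((x : ℝ) ^ (1 / 7 : ℝ)) (n + a i))).card : ℝ))) ⊆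
      (univ : Finset (Option (Fin T))).biUnion (fun o => (Fintype.piFinset A).filter
        (fun a : Fin T → ℤ => (∀ p : ℕ, p.Prime → ∃ n : ℤ, ∀ i, ¬ (p : ℤ) ∣ n + a i) ∧
        (cnt M o a x : ℝ) < (x : ℝ) ^ (1 - η))) := by
    intro a ha
    rw [Finset.mem_filter] at ha
    obtain ⟨ha1, ha2, ha3⟩ := ha
    rw [Finset.mem_biUnion]
    by_cases h1 : (x : ℝ) ^ (1 - η) ≤ (cnt M none a x : ℝ)
    · have h2 : ∃ i₀ : Fin T, ¬ (x : ℝ) ^ (1 - η) ≤ (cnt M (some i₀) a x : ℝ) := by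
        by_contra hc
        push Not at hc
        exact ha3 ⟨h1, hc⟩
      obtain ⟨i₀, hi₀⟩ := h2
      refine ⟨some i₀, Finset.mem_univ _, ?_⟩
      rw [Finset.mem_filter]
      exact ⟨ha1, ha2, not_le.1 hi₀⟩
    · refine ⟨none, Finset.mem_univ _, ?_⟩
      rw [Finset.mem_filter]
      exact ⟨ha1, ha2, not_le.1 h1⟩
  have h1 := (Finset.card_le_card hsub).trans Finset.card_biUnion_le
  have h2 : ∀ o : Option (Fin T), (((Fintype.piFinset A).filter
        (fun a : Fin T → ℤ => (∀ p : ℕ, p.Prime → ∃ n : ℤ, ∀ i, ¬ (p : ℤ) ∣ n + a i) ∧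
        (cnt M o a x : ℝ) < (x : ℝ) ^ (1 - η))).card : ℝ) ≤
      ε / (T + 1) * ∏ i, ((A i).card : ℝ) := fun o => hx₀ o x (hx' o)
  have h3 := Finset.sum_le_sum (fun (o : Option (Fin T)) (_ : o ∈ univ) => h2 o)
  rw [Finset.sum_const, Finset.card_univ, Fintype.card_option, Fintype.card_fin, nsmul_eq_mul] at h3
  have h4 : ((T + 1 : ℕ) : ℝ) * (ε / (T + 1) * ∏ i, ((A i).card : ℝ)) =
      ε * ∏ i, ((A i).card : ℝ) := by
    push_cast
    field_simp
  rw [h4] at h3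
  refine le_trans ?_ h3
  exact_mod_cast h1

end Pool.Agent.L7h32.CT
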