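import Mathlib
import Pool.Agent.L7h32.CT.LemU

/-! One box of shifts, with prescribed composite numbers. -/

set_option autoImplicit false

namespace Pool.Agent.L7h32.CT

open Finset Filter Topology
open Pool.Agent.H410R2 (WW)
open Pool.Agent.W25.UN (Fm uB wB ev_poly)
open Pool.Agent.W25.UB (CopAt)

/-- the Chinese remainder theorem -/
theorem crtW (D : ℕ) (w : ℕ → ℤ) : ∃ v : ℤ, ∀ p : ℕ, p.Prime → p ≤ D → (p : ℤ) ∣ v - w p := by
  classical
  have hpos : ∀ p ∈ (Icc 1 D).filter Nat.Prime, (p : ℕ) ≠ 0 := by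
    intro p hp
    exact (Finset.mem_filter.1 hp).2.ne_zero
  obtain ⟨k, hk⟩ := Nat.chineseRemainderOfFinset (fun p => (w p % (p : ℤ)).toNat) (fun p => p)
    ((Icc 1 D).filter Nat.Prime) hpos (by
      intro p hp q hq hpq
      have h1 := (Finset.mem_filter.1 (Finset.mem_coe.1 hp)).2
      have h2 := (Finset.mem_filter.1 (Finset.mem_coe.1 hq)).2
      exact (Nat.coprime_primes h1 h2).2 hpq)
  refine ⟨k, fun p hpp hpD => ?_⟩
  have hp : p ∈ (Icc 1 D).filter Nat.Prime := by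
    rw [Finset.mem_filter, Finset.mem_Icc]
    exact ⟨⟨hpp.one_lt.le, hpD⟩, hpp⟩
  have hp0 : (0 : ℤ) < p := by exact_mod_cast hpp.pos
  have h2 : (k : ℤ) ≡ (((w p % (p : ℤ)).toNat : ℕ) : ℤ) [ZMOD (p : ℤ)] :=
    (Int.natCast_modEq_iff).2 (hk p hp)
  rw [Int.toNat_of_nonneg (Int.emod_nonneg _ hp0.ne')] at h2
  have h3 : (k : ℤ) ≡ w p [ZMOD (p : ℤ)] := h2.trans (Int.mod_modEq _ _)
  have h4 : (p : ℤ) ∣ w p - k := h3.dvd
  have h5 : (k : ℤ) - w p = -(w p - k) := by ring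
  rw [h5]
  exact (dvd_neg).2 h4

theorem WW_pos (D : ℕ) : 0 < WW D := by
  unfold WW
  apply Finset.prod_pos
  intro p hp
  exact (Finset.mem_filter.1 hp).2.pos

theorem dvd_WW {D p : ℕ} (hp : p.Prime) (hpD : p ≤ D) : p ∣ WW D := by
  unfold WW
  apply Finset.dvd_prod_of_mem (fun p : ℕ => p)
  rw [Finset.mem_filter, Finset.mem_Icc]
  exact ⟨⟨hp.one_lt.le, hpD⟩, hp⟩

/-- a residue class with prescribed composite numbers -/
theorem crtG {ι : Type} [Fintype ι] (C : ι → ℤ) (D₀ : ℕ) (hD₀ : Fintype.card ι ≤ D₀) (v₀ : ℤ)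
    (hv₀ : ∀ i, IsCoprime (v₀ + C i) ((WW D₀ : ℕ) : ℤ)) (G : Finset ℤ) (hG : ∀ i, C i ∉ G) :
    ∃ D : ℕ, D₀ ≤ D ∧ ∃ v : ℤ, (∀ i, IsCoprime (v + C i) ((WW D : ℕ) : ℤ)) ∧
      ∀ t ∈ G, ∃ p : ℕ, p.Prime ∧ p ≤ D ∧ (p : ℤ) ∣ v + t := by
  classical
  obtain ⟨S, hS⟩ : ∃ S : ℕ, S = ∑ i, (C i).natAbs + ∑ t ∈ G, t.natAbs := ⟨_, rfl⟩
  have hCS : ∀ i, (C i).natAbs ≤ S := by
    intro i
    have h1 := Finset.single_le_sum (f := fun i => (C i).natAbs) (fun i _ => Nat.zero_le _)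
      (Finset.mem_univ i)
    rw [hS]
    exact h1.trans (Nat.le_add_right _ _)
  have hGS : ∀ t ∈ G, t.natAbs ≤ S := by
    intro t ht
    have h1 := Finset.single_le_sum (f := fun t : ℤ => t.natAbs) (fun i _ => Nat.zero_le _) ht
    rw [hS]
    exact h1.trans (Nat.le_add_left _ _)
  obtain ⟨P, hP⟩ : ∃ P : ℤ → ℕ, P = fun t : ℤ =>
    Nat.nth Nat.Prime (D₀ + 2 * S + 1 + (t + (S : ℤ)).toNat) :=
    ⟨_, rfl⟩
  have hPp : ∀ t, (P t).Prime := by
    intro t
    rw [hP]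
    exact Nat.prime_nth_prime _
  have hPlow : ∀ t, D₀ + 2 * S + 1 ≤ P t := by
    intro t
    rw [hP]
    have h1 := Nat.add_two_le_nth_prime (D₀ + 2 * S + 1 + (t + (S : ℤ)).toNat)
    show D₀ + 2 * S + 1 ≤ Nat.nth Nat.Prime (D₀ + 2 * S + 1 + (t + (S : ℤ)).toNat)
    omega
  have hPinj : ∀ t ∈ G, ∀ t' ∈ G, P t = P t' → t = t' := by
    intro t ht t' ht' h
    rw [hP] at h
    have h1 := Nat.nth_injective Nat.infinite_setOf_prime h
    have h2 := hGS t ht
    have h3 := hGS t' ht'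
    omega
  obtain ⟨D, hD⟩ : ∃ D : ℕ, D = D₀ + ∑ t ∈ G, P t := ⟨_, rfl⟩
  have hPD : ∀ t ∈ G, P t ≤ D := by
    intro t ht
    have h1 := Finset.single_le_sum (f := P) (fun i _ => Nat.zero_le _) ht
    rw [hD]
    exact h1.trans (Nat.le_add_left _ _)
  have hw : ∀ p : ℕ, ∃ w : ℤ, p.Prime → (∀ i, ¬ (p : ℤ) ∣ w + C i) ∧
      ∀ t ∈ G, P t = p → (p : ℤ) ∣ w + t := by
    intro p
    by_cases hp : p.Prime
    · rcases Nat.lt_or_ge D₀ p with h1 | h1
      · by_cases h2 : ∃ t ∈ G, P t = p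
        · obtain ⟨t, ht, htp⟩ := h2
          refine ⟨-t, fun _ => ⟨?_, ?_⟩⟩
          · intro i hi
            have h3 : -t + C i ≠ 0 := by
              intro h4
              apply hG i
              have h5 : C i = t := by linarith
              rw [h5]
              exact ht
            have h4 := Int.natAbs_dvd_natAbs.2 hi
            rw [Int.natAbs_natCast] at h4
            have h5 := Nat.le_of_dvd (Int.natAbs_pos.2 h3) h4
            have h6 := hCS i
            have h7 := hGS t ht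
            have h8 := hPlow t
            rw [htp] at h8
            have h9 : (-t + C i).natAbs ≤ t.natAbs + (C i).natAbs := by omega
            omega
          · intro t' ht' htp'
            have h3 := hPinj t ht t' ht' (htp.trans htp'.symm)
            rw [h3]
            simp
        · have : Fact p.Prime := ⟨hp⟩
          obtain ⟨n, hn⟩ : ∃ n : ZMod p, n ∉ univ.image (fun i => -((C i : ℤ) : ZMod p)) := by
            by_contra hcon
            push Not at hcon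
            have h3 : (univ : Finset (ZMod p)).card ≤
                (univ.image (fun i => -((C i : ℤ) : ZMod p))).card :=
              Finset.card_le_card fun n _ => hcon n
            have h4 := Finset.card_image_le (s := univ) (f := fun i => -((C i : ℤ) : ZMod p))
            rw [Finset.card_univ, ZMod.card] at h3
            rw [Finset.card_univ] at h4
            omega
          refine ⟨(n.val : ℤ), fun _ => ⟨?_, fun t ht htp => absurd ⟨t, ht, htp⟩ h2⟩⟩
          intro i hi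
          have h3 : (((n.val : ℤ) + C i : ℤ) : ZMod p) = 0 :=
            (ZMod.intCast_zmod_eq_zero_iff_dvd _ _).2 hi
          push_cast at h3
          rw [ZMod.natCast_val, ZMod.cast_id] at h3
          apply hn
          rw [Finset.mem_image]
          exact ⟨i, Finset.mem_univ _, by linear_combination -h3⟩
      · refine ⟨v₀, fun _ => ⟨?_, ?_⟩⟩
        · intro i hi
          have h2 : (p : ℤ) ∣ ((WW D₀ : ℕ) : ℤ) := by exact_mod_cast dvd_WW hp h1
          have h3 := (hv₀ i).isUnit_of_dvd' hi h2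
          exact (Nat.prime_iff_prime_int.1 hp).not_isUnit h3
        · intro t ht htp
          have h8 := hPlow t
          omega
    · exact ⟨0, fun h => absurd h hp⟩
  choose w hw using hw
  obtain ⟨v, hv⟩ := crtW D w
  refine ⟨D, by rw [hD]; exact Nat.le_add_right _ _, v, ?_, ?_⟩
  · intro i
    unfold WW
    push_cast
    apply IsCoprime.prod_right
    intro p hp
    have hpp := (Finset.mem_filter.1 hp).2
    have hpD := (Finset.mem_Icc.1 (Finset.mem_filter.1 hp).1).2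
    have h1 : ¬ (p : ℤ) ∣ v + C i := by
      intro hc
      apply (hw p hpp).1 i
      have h5 : w p + C i = (v + C i) - (v - w p) := by ring
      rw [h5]
      exact dvd_sub hc (hv p hpp hpD)
    exact ((Nat.prime_iff_prime_int.1 hpp).coprime_iff_not_dvd.2 h1).symm
  · intro t ht
    refine ⟨P t, hPp t, hPD t ht, ?_⟩
    have h5 : v + t = (w (P t) + t) + (v - w (P t)) := by ring
    rw [h5]
    exact dvd_add ((hw (P t) (hPp t)).2 t ht rfl) (hv (P t) (hPp t) (hPD t ht))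

open Classical in
theorem lemW (T M : ℕ) (hT : 1 ≤ T) (hTM : (18 / 5 : ℝ) * M < T) : ∃ K : ℕ, 1 ≤ K ∧ ∃ D₀ : ℕ,
    ∀ (C : Fin T → Fin K → ℤ), (∀ i j i' j', C i j = C i' j' → i = i' ∧ j = j') → ∀ v₀ : ℤ,
    (∀ i j, IsCoprime (v₀ + C i j) ((WW D₀ : ℕ) : ℤ)) → ∀ G : Finset ℤ, (∀ i j, C i j ∉ G) →
    ∀ η : ℝ, 0 < η → ∀ᶠ x : ℕ in atTop, (x : ℝ) ^ (1 - η) ≤
      (((Icc 1 x).filter (fun n : ℕ => M + 1 ≤ (univ.filter (fun i : Fin T => ∃ j,
        ((n : ℤ) + C i j).toNat.Prime)).card ∧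
        (∀ i, ∃ j, P2 ((x : ℝ) ^ (1 / 7 : ℝ)) (n + C i j)) ∧
        ∀ t ∈ G, ¬ ((n : ℤ) + t).toNat.Prime)).card : ℝ) := by
  obtain ⟨K, hK, D₁, H⟩ := thmC T M hT hTM
  obtain ⟨D₀, hD₀⟩ : ∃ D₀ : ℕ, D₀ = D₁ + T * K := ⟨_, rfl⟩
  refine ⟨K, by omega, D₀, ?_⟩
  intro C hC v₀ hv₀ G hG η hη
  obtain ⟨D, hDD, v, hv', hvG⟩ := crtG (fun ij : Fin T × Fin K => C ij.1 ij.2) D₀ (by
    rw [Fintype.card_prod, Fintype.card_fin, Fintype.card_fin, hD₀]
    exact Nat.le_add_left _ _) v₀ (fun ij => hv₀ ij.1 ij.2) G (fun ij => hG ij.1 ij.2)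
  have hv : ∀ i j, IsCoprime (v + C i j) ((WW D : ℕ) : ℤ) := fun i j => hv' (i, j)
  obtain ⟨W, hW⟩ : ∃ W : ℤ, W = ((WW D : ℕ) : ℤ) := ⟨_, rfl⟩
  have hW1 : 1 ≤ W := by
    rw [hW]
    exact_mod_cast WW_pos D
  rw [← hW] at hv
  obtain ⟨b, hb⟩ : ∃ b : ℤ, b = C ⟨0, hT⟩ ⟨0, by omega⟩ := ⟨_, rfl⟩
  obtain ⟨S, hS⟩ : ∃ S : ℤ, S = ∑ i, ∑ j, |C i j| := ⟨_, rfl⟩
  have hCS : ∀ i j, |C i j| ≤ S := by
    intro i j
    have h1 := Finset.single_le_sum (f := fun j => |C i j|) (fun j _ => abs_nonneg (C i j))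
      (Finset.mem_univ j)
    have h2 := Finset.single_le_sum (f := fun i => ∑ j, |C i j|)
      (fun i _ => Finset.sum_nonneg fun j _ => abs_nonneg (C i j)) (Finset.mem_univ i)
    rw [hS]
    exact h1.trans h2
  have hbS : |b| ≤ S := by rw [hb]; exact hCS _ _
  have hS0 : 0 ≤ S := (abs_nonneg b).trans hbS
  obtain ⟨s, hs⟩ : ∃ s : ℤ, s = W * (2 * S + 1) - b := ⟨_, rfl⟩
  have hWS : 2 * S + 1 ≤ W * (2 * S + 1) := by nlinarith
  have hb1 := abs_le.1 hbS
  have hs1 : S + 1 ≤ s := by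
    rw [hs]
    linarith [hb1.2]
  have hCs : ∀ i j, 1 ≤ C i j + s := by
    intro i j
    have h1 := abs_le.1 (hCS i j)
    linarith [h1.1]
  obtain ⟨h, hh⟩ : ∃ h : Fin (T * K) → ℤ, h = fun l =>
    C (finProdFinEquiv.symm l).1 (finProdFinEquiv.symm l).2 + s := ⟨_, rfl⟩
  have hhl : ∀ l, h l = C (finProdFinEquiv.symm l).1 (finProdFinEquiv.symm l).2 + s := by
    intro l
    rw [hh]
  have hh0 : ∀ l, h l ≠ 0 := by
    intro l
    rw [hhl]
    have := hCs (finProdFinEquiv.symm l).1 (finProdFinEquiv.symm l).2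
    omega
  have hinj : Function.Injective h := by
    intro l l' hll
    rw [hhl, hhl] at hll
    have h1 := hC _ _ _ _ (add_right_cancel hll)
    exact finProdFinEquiv.symm.injective (Prod.ext h1.1 h1.2)
  obtain ⟨v', hv'⟩ : ∃ v' : ℕ, v' = ((v - s) % W).toNat := ⟨_, rfl⟩
  have hvv : W ∣ (v' : ℤ) - (v - s) := by
    rw [hv', Int.toNat_of_nonneg (Int.emod_nonneg _ (by omega))]
    exact Int.ModEq.dvd (Int.mod_modEq (v - s) W).symm
  have hcop : CopAt (fun _ => 1) h D 0 v' := by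
    intro j n hn
    have hn' : W ∣ n - v' := by
      rw [hW]
      exact Int.ModEq.dvd hn.symm
    rw [← hW]
    rcases j with _ | l
    · show IsCoprime (1 * n + 0) W
      apply cop_of_dvd (hv ⟨0, hT⟩ ⟨0, by omega⟩)
      rw [← hb]
      have h1 : 1 * n + 0 - (v + b) = (n - v') + ((v' : ℤ) - (v - s)) - W * (2 * S + 1) := by
        rw [hs]
        ring
      rw [h1]
      exact dvd_sub (dvd_add hn' hvv) (dvd_mul_right _ _)
    · show IsCoprime (1 * n + (((0 : ℕ) : ℤ) + h l)) W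
      apply cop_of_dvd (hv (finProdFinEquiv.symm l).1 (finProdFinEquiv.symm l).2)
      rw [hhl]
      have h1 : 1 * n + (((0 : ℕ) : ℤ) + (C (finProdFinEquiv.symm l).1
          (finProdFinEquiv.symm l).2 + s)) - (v + C (finProdFinEquiv.symm l).1
          (finProdFinEquiv.symm l).2) = (n - v') + ((v' : ℤ) - (v - s)) := by
        push_cast
        ring
      rw [h1]
      exact dvd_add hn' hvv
  have hFm : ∀ (l : Fin (T * K)) (n : ℕ), Fm (fun _ => 1) h 0 l n =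
      ((n + s.toNat : ℕ) : ℤ) + C (finProdFinEquiv.symm l).1 (finProdFinEquiv.symm l).2 := by
    intro l n
    unfold Fm
    rw [hhl]
    push_cast
    rw [Int.toNat_of_nonneg (by omega)]
    ring
  obtain ⟨U, hU⟩ : ∃ U : ℕ, U = D + ∑ t ∈ G, t.natAbs := ⟨_, rfl⟩
  have hprs : ∀ᶠ x : ℕ in atTop, (x : ℝ) ^ (1 / 7 : ℝ) ≤ x / 64 := by
    filter_upwards [rpow_big (1 / 7) (by norm_num) (by norm_num)] with x hx
    refine le_trans ?_ hx
    apply Real.rpow_le_rpow (Nat.cast_nonneg _) _ (by norm_num)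
    push_cast
    have : (0 : ℝ) ≤ x := Nat.cast_nonneg _
    linarith
  filter_upwards [H D (by omega) h (fun l => (finProdFinEquiv.symm l).1) (fun g => class_card g) hh0
    hinj η hη, hprs, eventually_ge_atTop (2 * s.toNat + 64 + 16 * (U + 1))]
    with x hx hx7 hxs
  obtain ⟨-, hx2⟩ := hx v' hcop
  refine hx2.trans ?_
  have hx0 : (0 : ℝ) < x := by exact_mod_cast (by omega : 0 < x)
  -- range
  have hrng : ∀ n : ℕ, (x : ℝ) / 16 ≤ n → (n : ℝ) ≤ x / 2 → 1 ≤ n + s.toNat ∧ n + s.toNat ≤ x ∧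
      4 ≤ n ∧ U < n := by
    intro n h1 h2
    have h3 : ((16 * n : ℕ) : ℝ) ≥ ((x : ℕ) : ℝ) := by
      push_cast
      linarith
    have h4 : x ≤ 16 * n := by exact_mod_cast h3
    have h5 : ((2 * n : ℕ) : ℝ) ≤ ((x : ℕ) : ℝ) := by
      push_cast
      linarith
    have h6 : 2 * n ≤ x := by exact_mod_cast h5
    refine ⟨by omega, by omega, by omega, by omega⟩
  have hbigm : ∀ (n : ℕ) (i : Fin T) (j : Fin K), (x : ℝ) / 16 ≤ n → 4 ≤ n →
      1 < ((n + s.toNat : ℕ) : ℤ) + C i j ∧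
      (x : ℝ) ^ (1 / 7 : ℝ) ≤ ((((n + s.toNat : ℕ) : ℤ) + C i j : ℤ) : ℝ) := by
    intro n i j h1 h2
    have h3 := hCs i j
    have h4 : (n : ℤ) ≤ ((n + s.toNat : ℕ) : ℤ) + C i j := by
      push_cast
      rw [Int.toNat_of_nonneg (by omega)]
      omega
    refine ⟨by omega, ?_⟩
    have h5 : (n : ℝ) ≤ ((((n + s.toNat : ℕ) : ℤ) + C i j : ℤ) : ℝ) := by exact_mod_cast h4
    linarith
  rw [Nat.cast_le]
  apply Finset.card_le_card_of_injOn (fun n => n + s.toNat)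
  · intro n hn
    have hn' := Finset.mem_filter.1 (Finset.mem_coe.1 hn)
    obtain ⟨-, hnv, hn1, hn2, hn3, hn4⟩ := hn'
    obtain ⟨hr1, hr2, hr3, hr4⟩ := hrng n hn1 hn2
    rw [Finset.mem_coe, Finset.mem_filter, Finset.mem_Icc]
    refine ⟨⟨hr1, hr2⟩, hn3.trans (Finset.card_le_card ?_), ?_, ?_⟩
    · intro g hg
      rw [Finset.mem_filter] at hg ⊢
      obtain ⟨l, hl1, hl2⟩ := hg.2
      rw [hFm, hl1] at hl2
      exact ⟨hg.1, (finProdFinEquiv.symm l).2, hl2⟩
    · intro g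
      obtain ⟨l, hl1, hl2⟩ := hn4 g
      rw [hFm, hl1] at hl2
      exact ⟨(finProdFinEquiv.symm l).2, p2_of_g hl2 (hbigm n g _ hn1 hr3).1⟩
    · intro t ht hpr'
      have hpr : (((n + s.toNat : ℕ) : ℤ) + t).toNat.Prime := hpr'
      obtain ⟨p, hp, hpD, hpt⟩ := hvG t ht
      have h1 : (p : ℤ) ∣ W := by
        rw [hW]
        exact_mod_cast dvd_WW hp hpD
      have h2 : W ∣ (n : ℤ) - v' := by
        rw [hW]
        exact Int.ModEq.dvd ((Int.natCast_modEq_iff).2 hnv).symm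
      have h3 : (p : ℤ) ∣ ((n + s.toNat : ℕ) : ℤ) + t := by
        have h4 : ((n + s.toNat : ℕ) : ℤ) + t = (v + t) + ((n : ℤ) - v') + ((v' : ℤ) - (v - s)) := by
          push_cast
          rw [Int.toNat_of_nonneg (by omega)]
          ring
        rw [h4]
        exact dvd_add (dvd_add hpt (h1.trans h2)) (h1.trans hvv)
      have h4 : t.natAbs ≤ ∑ t ∈ G, t.natAbs :=
        Finset.single_le_sum (f := fun t : ℤ => t.natAbs) (fun i _ => Nat.zero_le _) ht
      have h5 : (D : ℤ) < ((n + s.toNat : ℕ) : ℤ) + t := by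
        push_cast
        omega
      have h6 : p ∣ (((n + s.toNat : ℕ) : ℤ) + t).toNat := by
        have h7 : ((((((n + s.toNat : ℕ) : ℤ) + t).toNat : ℕ)) : ℤ) = ((n + s.toNat : ℕ) : ℤ) + t :=
          Int.toNat_of_nonneg (by omega)
        rw [← h7] at h3
        exact_mod_cast h3
      have h7 := (Nat.prime_dvd_prime_iff_eq hp hpr).1 h6
      omega
  · intro n _ n' _ hnn
    exact Nat.add_right_cancel hnn

end Pool.Agent.L7h32.CT
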