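import Mathlib
import Pool.Agent.L7h32.CT.LemW

/-! Indices of primes modulo `m`. -/

set_option autoImplicit false

namespace Pool.Agent.L7h32.CT

open Finset Filter Topology
open Pool.Agent.H410R2 (WW)
open Pool.Agent.W25.UN (ev_poly)

open Classical in
/-- the indices of the primes in a window run through all residue classes -/
theorem idx_res (n lo hi : ℤ) (Z : Finset ℤ)
    (hZ : Z = (Icc lo hi).filter (fun t => (n + t).toNat.Prime)) (m : ℕ) (hm : 1 ≤ m)
    (hc : m ≤ Z.card) (r : ℕ) :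
    ∃ t ∈ Z, Nat.primeCounting (n + t).toNat ≡ r [MOD m] := by
  have hinf := Nat.infinite_setOfPred_prime
  obtain ⟨A, hA⟩ : ∃ A : ℕ, A = Nat.count Nat.Prime (n + lo).toNat := ⟨_, rfl⟩
  obtain ⟨B, hB⟩ : ∃ B : ℕ, B = Nat.count Nat.Prime (n + hi + 1).toNat := ⟨_, rfl⟩
  have hAB : A + m ≤ B := by
    have h1 : Z.card ≤ (Finset.Ico A B).card := by
      apply Finset.card_le_card_of_injOn (fun t => Nat.count Nat.Prime (n + t).toNat)
      · intro t ht
        rw [hZ] at ht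
        have ht' := Finset.mem_filter.1 (Finset.mem_coe.1 ht)
        obtain ⟨ht1, ht2⟩ := ht'
        rw [Finset.mem_Icc] at ht1
        have h0 := ht2.two_le
        rw [Finset.mem_coe, Finset.mem_Ico, hA, hB]
        refine ⟨Nat.count_monotone _ (by omega), Nat.count_strict_mono ht2 (by omega)⟩
      · intro t ht t' ht' h
        rw [hZ] at ht ht'
        have h1 := (Finset.mem_filter.1 (Finset.mem_coe.1 ht))
        have h2 := (Finset.mem_filter.1 (Finset.mem_coe.1 ht'))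
        have h3 := Nat.count_injective h1.2 h2.2 h
        have h4 := h1.2.two_le
        have h5 := h2.2.two_le
        omega
    rw [Nat.card_Ico] at h1
    omega
  -- an index with the right residue
  obtain ⟨i, hi1, hi2, hi3⟩ : ∃ i, A ≤ i ∧ i < A + m ∧ i + 1 ≡ r [MOD m] := by
    have hm0 : 0 < m := hm
    refine ⟨A + (r + m * (A + 1) - (A + 1)) % m, Nat.le_add_right _ _, ?_, ?_⟩
    · exact Nat.add_lt_add_left (Nat.mod_lt _ hm0) _
    · have h1 : A + 1 ≤ r + m * (A + 1) := by nlinarith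
      have h2 : A + (r + m * (A + 1) - (A + 1)) % m + 1 ≡ A + (r + m * (A + 1) - (A + 1)) + 1 [MOD m] :=
        ((Nat.mod_modEq _ m).add_left A).add_right 1
      refine h2.trans ?_
      have h3 : A + (r + m * (A + 1) - (A + 1)) + 1 = r + m * (A + 1) := by omega
      rw [h3]
      show (r + m * (A + 1)) % m = r % m
      rw [Nat.add_mul_mod_self_left]
  obtain ⟨p, hp⟩ : ∃ p : ℕ, p = Nat.nth Nat.Prime i := ⟨_, rfl⟩
  have hpp : p.Prime := by rw [hp]; exact Nat.prime_nth_prime i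
  have h1 : (n + lo).toNat ≤ p := by
    rw [hp, ← Nat.count_le_iff_le_nth hinf, ← hA]
    exact hi1
  have h2 : p < (n + hi + 1).toNat := by
    rw [hp, ← Nat.lt_nth_iff_count_lt hinf, ← hB]
    omega
  refine ⟨p - n, ?_, ?_⟩
  · rw [hZ, Finset.mem_filter, Finset.mem_Icc]
    refine ⟨⟨by omega, by omega⟩, ?_⟩
    have h3 : n + ((p : ℤ) - n) = p := by ring
    rw [h3, Int.toNat_natCast]
    exact hpp
  · have h3 : n + ((p : ℤ) - n) = p := by ring
    rw [h3, Int.toNat_natCast]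
    have h4 : Nat.primeCounting p = i + 1 := by
      have h5 : Nat.primeCounting p = Nat.count Nat.Prime (p + 1) := rfl
      rw [h5, hp]
      exact Nat.count_nth_succ_of_infinite hinf i
    rw [h4]
    exact hi3

open Classical in
/-- a block of the first class whose hull contains few elements of the other classes -/
theorem sep_block (k N K : ℕ) (hN : 1 ≤ N) (hK : 2 * K ≤ (k + 1) * N)
    (c₀ : Fin ((k + 1) * N) → ℤ) (hc₀ : Function.Injective c₀)
    (c : Fin k → Fin ((k + 1) * N) → ℤ) :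
    ∃ (lo hi : ℤ) (τ : Fin N → Fin ((k + 1) * N)), Function.Injective τ ∧
      (∀ l, lo ≤ c₀ (τ l) ∧ c₀ (τ l) ≤ hi) ∧
      ∀ i, K ≤ (univ.filter (fun l => ¬ (lo ≤ c i l ∧ c i l ≤ hi))).card := by
  obtain ⟨Q, hQ⟩ : ∃ Q : Finset ℤ, Q = univ.image c₀ := ⟨_, rfl⟩
  have hQc : Q.card = (k + 1) * N := by
    rw [hQ, Finset.card_image_of_injective _ hc₀, Finset.card_univ, Fintype.card_fin]
  obtain ⟨e, he⟩ : ∃ e : Fin (k + 1) → Fin N → ℤ, e = fun b l =>
    Q.orderEmbOfFin hQc (finProdFinEquiv (b, l)) := ⟨_, rfl⟩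
  have hlt : ∀ b l b' l', b < b' → e b l < e b' l' := by
    intro b l b' l' h
    rw [he]
    apply (Q.orderEmbOfFin hQc).strictMono
    rw [Fin.lt_def]
    simp only [finProdFinEquiv_apply_val]
    have h1 : (b : ℕ) + 1 ≤ b' := h
    have h2 := l.2
    have h3 : N * ((b : ℕ) + 1) ≤ N * b' := Nat.mul_le_mul_left _ h1
    have h4 : N * ((b : ℕ) + 1) = N * b + N := by ring
    omega
  have hle : ∀ b l l', l ≤ l' → e b l ≤ e b l' := by
    intro b l l' h
    rw [he]
    apply (Q.orderEmbOfFin hQc).monotone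
    rw [Fin.le_def]
    simp only [finProdFinEquiv_apply_val]
    have h1 : (l : ℕ) ≤ l' := h
    omega
  obtain ⟨fi, hfi⟩ : ∃ fi : Fin N, fi = ⟨0, hN⟩ := ⟨_, rfl⟩
  obtain ⟨la, hla⟩ : ∃ la : Fin N, la = ⟨N - 1, by omega⟩ := ⟨_, rfl⟩
  have hfil : ∀ l : Fin N, fi ≤ l := by
    intro l
    rw [hfi, Fin.le_def]
    exact Nat.zero_le _
  have hlal : ∀ l : Fin N, l ≤ la := by
    intro l
    rw [hla, Fin.le_def]
    have := l.2
    show (l : ℕ) ≤ N - 1
    omega
  -- a good block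
  have hgood : ∃ b : Fin (k + 1), ∀ i, K ≤
      (univ.filter (fun l => ¬ (e b fi ≤ c i l ∧ c i l ≤ e b la))).card := by
    by_contra hcon
    have hcon' : ∀ b : Fin (k + 1), ∃ i, ¬ K ≤
        (univ.filter (fun l => ¬ (e b fi ≤ c i l ∧ c i l ≤ e b la))).card := by
      intro b
      by_contra h
      exact hcon ⟨b, fun i => not_not.1 fun h' => h ⟨i, h'⟩⟩
    choose g hg using hcon'
    obtain ⟨b, b', hbb, hgb⟩ := Fintype.exists_ne_map_eq_of_card_lt g (by simp)
    -- both sets of complements are small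
    have h1 : ∀ b b' : Fin (k + 1), b < b' → g b = g b' → False := by
      intro b b' hbb hgb
      have h2 := hg b
      have h3 := hg b'
      rw [← hgb] at h3
      have h4 : (univ : Finset (Fin ((k + 1) * N))) ⊆
          univ.filter (fun l => ¬ (e b fi ≤ c (g b) l ∧ c (g b) l ≤ e b la)) ∪
          univ.filter (fun l => ¬ (e b' fi ≤ c (g b) l ∧ c (g b) l ≤ e b' la)) := by
        intro l _
        rw [Finset.mem_union, Finset.mem_filter, Finset.mem_filter]
        by_cases h5 : e b fi ≤ c (g b) l ∧ c (g b) l ≤ e b la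
        · right
          refine ⟨Finset.mem_univ _, fun h6 => ?_⟩
          have h7 := hlt b la b' fi hbb
          linarith [h5.2, h6.1]
        · left
          exact ⟨Finset.mem_univ _, h5⟩
      have h5 := (Finset.card_le_card h4).trans (Finset.card_union_le _ _)
      rw [Finset.card_univ, Fintype.card_fin] at h5
      rw [not_le] at h2 h3
      omega
    rcases lt_or_gt_of_ne hbb with h2 | h2
    · exact h1 b b' h2 hgb
    · exact h1 b' b h2 hgb.symm
  obtain ⟨b, hb⟩ := hgood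
  have hidx : ∀ l, ∃ l', c₀ l' = e b l := by
    intro l
    have h1 : e b l ∈ Q := by
      rw [he]
      exact Finset.orderEmbOfFin_mem _ _ _
    rw [hQ, Finset.mem_image] at h1
    obtain ⟨l', -, hl'⟩ := h1
    exact ⟨l', hl'⟩
  choose τ hτ using hidx
  refine ⟨e b fi, e b la, τ, ?_, ?_, hb⟩
  · intro l l' h
    have h1 : e b l = e b l' := by rw [← hτ, ← hτ, h]
    rw [he] at h1
    have h2 := finProdFinEquiv.injective ((Q.orderEmbOfFin hQc).injective h1)
    exact (Prod.mk.inj h2).2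
  · intro l
    rw [hτ]
    exact ⟨hle b fi l (hfil l), hle b l la (hlal l)⟩

open Classical in
/-- the number of the `n` with a prime of given index modulo `m` at the root and almost primes -/
noncomputable def cntI (m r : ℕ) {k : ℕ} (b : ℤ) (a : Fin k → ℤ) (x : ℕ) : ℕ :=
  ((Icc 1 x).filter (fun n : ℕ => ((n : ℤ) + b).toNat.Prime ∧
    Nat.primeCounting ((n : ℤ) + b).toNat ≡ r [MOD m] ∧
    ∀ i, P2 ((x : ℝ) ^ (1 / 7 : ℝ)) (n + a i))).card

open Classical in
/-- a box contains good vectors with all residues of the index -/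
theorem boxI (k m : ℕ) (hm : 1 ≤ m) : ∃ L : ℕ, 1 ≤ L ∧ ∃ D₀ : ℕ,
    ∀ (c₀ : Fin L → ℤ) (c : Fin k → Fin L → ℤ), Function.Injective c₀ →
    (∀ i j i' j', c i j = c i' j' → i = i' ∧ j = j') → (∀ l i j, c₀ l ≠ c i j) → ∀ v₀ : ℤ,
    (∀ l, IsCoprime (v₀ + c₀ l) ((WW D₀ : ℕ) : ℤ)) →
    (∀ i j, IsCoprime (v₀ + c i j) ((WW D₀ : ℕ) : ℤ)) → ∀ η : ℝ, 0 < η → ∀ᶠ x : ℕ in atTop,
    ∃ (t : Fin m → Fin L) (j : Fin k → Fin L), ∀ r : Fin m,
      (x : ℝ) ^ (1 - η) ≤ (cntI m r (c₀ (t r)) (fun i => c i (j i)) x : ℝ) := by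
  obtain ⟨T₁, hT₁⟩ : ∃ T₁ : ℕ, T₁ = 4 * (k + m) := ⟨_, rfl⟩
  obtain ⟨K, hK, D₀, H⟩ := lemW (T₁ + k) (k + m - 1) (by omega) (by
    have h1 : ((k + m - 1 : ℕ) : ℝ) ≤ (k : ℝ) + m := by
      rw [Nat.cast_sub (by omega)]
      push_cast
      linarith
    have h2 : (1 : ℝ) ≤ m := by exact_mod_cast hm
    have h3 : (0 : ℝ) ≤ k := Nat.cast_nonneg _
    rw [hT₁]
    push_cast
    nlinarith)
  have hTK : 1 ≤ T₁ * K := Nat.mul_pos (by omega) hK
  have hT4 : 4 ≤ T₁ := by omega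
  refine ⟨(k + 1) * (T₁ * K), by nlinarith, D₀, ?_⟩
  intro c₀ c hc₀ hc hcc v₀ hv₀ hv η hη
  have h2K : 2 * K ≤ (k + 1) * (T₁ * K) := by
    have h1 : 4 * K ≤ T₁ * K := Nat.mul_le_mul_right _ hT4
    nlinarith
  obtain ⟨lo, hi, τ, hτi, hτ, hsep⟩ := sep_block k (T₁ * K) K hTK h2K c₀ hc₀ c
  have hsel : ∀ i : Fin k, ∃ s : Fin K → Fin ((k + 1) * (T₁ * K)), Function.Injective s ∧
      ∀ j, ¬ (lo ≤ c i (s j) ∧ c i (s j) ≤ hi) := by
    intro i
    obtain ⟨U, hU1, hU2⟩ := Finset.exists_subset_card_eq (hsep i)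
    refine ⟨U.orderEmbOfFin hU2, (U.orderEmbOfFin hU2).injective, fun j => ?_⟩
    have h1 := hU1 (Finset.orderEmbOfFin_mem U hU2 j)
    exact (Finset.mem_filter.1 h1).2
  choose s hs1 hs2 using hsel
  -- the classes
  obtain ⟨R, hR⟩ : ∃ R : Fin T₁ → Fin K → ℤ, R = fun g j => c₀ (τ (finProdFinEquiv (g, j))) :=
    ⟨_, rfl⟩
  obtain ⟨C, hC⟩ : ∃ C : Fin (T₁ + k) → Fin K → ℤ, C = Fin.append R (fun i j => c i (s i j)) :=
    ⟨_, rfl⟩
  have hCl : ∀ (g : Fin T₁) (j : Fin K), C (Fin.castAdd k g) j = c₀ (τ (finProdFinEquiv (g, j))) := by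
    intro g j
    rw [hC, Fin.append_left, hR]
  have hCr : ∀ (i : Fin k) (j : Fin K), C (Fin.natAdd T₁ i) j = c i (s i j) := by
    intro i j
    rw [hC, Fin.append_right]
  have hinj : ∀ i j i' j', C i j = C i' j' → i = i' ∧ j = j' := by
    intro i j i' j'
    refine Fin.addCases (fun g => ?_) (fun g => ?_) i
    · refine Fin.addCases (fun g' => ?_) (fun g' => ?_) i'
      · intro h
        rw [hCl, hCl] at h
        have h1 := finProdFinEquiv.injective (hτi (hc₀ h))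
        obtain ⟨h2, h3⟩ := Prod.mk.inj h1
        exact ⟨by rw [h2], h3⟩
      · intro h
        rw [hCl, hCr] at h
        exact absurd h (hcc _ _ _)
    · refine Fin.addCases (fun g' => ?_) (fun g' => ?_) i'
      · intro h
        rw [hCr, hCl] at h
        exact absurd h.symm (hcc _ _ _)
      · intro h
        rw [hCr, hCr] at h
        obtain ⟨h1, h2⟩ := hc _ _ _ _ h
        subst h1
        exact ⟨rfl, hs1 _ h2⟩
  have hcop : ∀ i j, IsCoprime (v₀ + C i j) ((WW D₀ : ℕ) : ℤ) := by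
    intro i j
    refine Fin.addCases (fun g => ?_) (fun g => ?_) i
    · rw [hCl]
      exact hv₀ _
    · rw [hCr]
      exact hv _ _
  obtain ⟨G, hG⟩ : ∃ G : Finset ℤ, G = (Icc lo hi) \ (univ.image (fun l => c₀ (τ l))) := ⟨_, rfl⟩
  have hCG : ∀ i j, C i j ∉ G := by
    intro i j
    refine Fin.addCases (fun g => ?_) (fun g => ?_) i
    · rw [hCl, hG]
      intro h
      exact (Finset.mem_sdiff.1 h).2 (Finset.mem_image_of_mem _ (Finset.mem_univ _))
    · rw [hCr, hG]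
      intro h
      exact hs2 g j (Finset.mem_Icc.1 (Finset.mem_sdiff.1 h).1)
  have hcount : ∀ᶠ x : ℕ in atTop, ((Fintype.card ((Fin m → Fin ((k + 1) * (T₁ * K))) ×
      (Fin k → Fin ((k + 1) * (T₁ * K)))) : ℝ) + 1) * (x : ℝ) ^ (1 - η) ≤
      (x : ℝ) ^ (1 - η / 2) := by
    filter_upwards [ev_poly ((Fintype.card ((Fin m → Fin ((k + 1) * (T₁ * K))) ×
      (Fin k → Fin ((k + 1) * (T₁ * K)))) : ℝ) + 1) 0 (1 - η) (1 - η / 2) (by linarith)] with x hx
    rwa [pow_zero, mul_one] at hx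
  filter_upwards [H C hinj v₀ hcop G hCG (η / 2) (by linarith), hcount, eventually_gt_atTop 0]
    with x hx hxc hx0
  have hxp : 0 < (x : ℝ) ^ (1 - η) := by
    have : (0 : ℝ) < x := by exact_mod_cast hx0
    positivity
  obtain ⟨E, hE⟩ : ∃ E : Finset ℕ, E = (Icc 1 x).filter (fun n : ℕ => k + m - 1 + 1 ≤
        (univ.filter (fun i : Fin (T₁ + k) => ∃ j, ((n : ℤ) + C i j).toNat.Prime)).card ∧
        (∀ i, ∃ j, P2 ((x : ℝ) ^ (1 / 7 : ℝ)) (n + C i j)) ∧
        ∀ t ∈ G, ¬ ((n : ℤ) + t).toNat.Prime) := ⟨_, rfl⟩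
  rw [← hE] at hx
  have key : ∀ n ∈ E, ∃ tj : (Fin m → Fin ((k + 1) * (T₁ * K))) × (Fin k → Fin ((k + 1) * (T₁ * K))),
      (∀ r : Fin m, ((n : ℤ) + c₀ (tj.1 r)).toNat.Prime ∧
        Nat.primeCounting ((n : ℤ) + c₀ (tj.1 r)).toNat ≡ r [MOD m]) ∧
      ∀ i, P2 ((x : ℝ) ^ (1 / 7 : ℝ)) (n + c i (tj.2 i)) := by
    intro n hn
    rw [hE, Finset.mem_filter] at hn
    obtain ⟨-, hn1, hn2, hn3⟩ := hn
    obtain ⟨Z, hZ⟩ : ∃ Z : Finset ℤ, Z = (Icc lo hi).filter (fun t => ((n : ℤ) + t).toNat.Prime) :=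
      ⟨_, rfl⟩
    have hZm : m ≤ Z.card := by
      -- the root classes with primes
      have h1 : (univ.filter (fun i : Fin (T₁ + k) => ∃ j, ((n : ℤ) + C i j).toNat.Prime)) ⊆
          ((univ.filter (fun g : Fin T₁ => ∃ j, ((n : ℤ) + C (Fin.castAdd k g) j).toNat.Prime)).image
            (Fin.castAdd k)) ∪ ((univ : Finset (Fin k)).image (Fin.natAdd T₁)) := by
        intro i
        refine Fin.addCases (fun g => ?_) (fun g => ?_) i
        · intro h
          rw [Finset.mem_union]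
          left
          exact Finset.mem_image_of_mem _ (Finset.mem_filter.2 ⟨Finset.mem_univ _,
            (Finset.mem_filter.1 h).2⟩)
        · intro _
          rw [Finset.mem_union]
          right
          exact Finset.mem_image_of_mem _ (Finset.mem_univ _)
      have h2 := (hn1.trans (Finset.card_le_card h1)).trans (Finset.card_union_le _ _)
      have h3 := Finset.card_image_le (s := univ.filter (fun g : Fin T₁ =>
        ∃ j, ((n : ℤ) + C (Fin.castAdd k g) j).toNat.Prime)) (f := Fin.castAdd k)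
      have h4 := Finset.card_image_le (s := (univ : Finset (Fin k))) (f := Fin.natAdd T₁)
      rw [Finset.card_univ, Fintype.card_fin] at h4
      have h5 : m ≤ (univ.filter (fun g : Fin T₁ =>
        ∃ j, ((n : ℤ) + C (Fin.castAdd k g) j).toNat.Prime)).card := by omega
      refine h5.trans ?_
      have h6 : ∀ g : Fin T₁, ∃ t : ℤ, (∃ j, ((n : ℤ) + C (Fin.castAdd k g) j).toNat.Prime) →
          ∃ j, t = C (Fin.castAdd k g) j ∧ ((n : ℤ) + t).toNat.Prime := by
        intro g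
        by_cases h : ∃ j, ((n : ℤ) + C (Fin.castAdd k g) j).toNat.Prime
        · obtain ⟨j, hj⟩ := h
          exact ⟨C (Fin.castAdd k g) j, fun _ => ⟨j, rfl, hj⟩⟩
        · exact ⟨0, fun h' => absurd h' h⟩
      choose t ht using h6
      apply Finset.card_le_card_of_injOn t
      · intro g hg
        have hg' := (Finset.mem_filter.1 (Finset.mem_coe.1 hg)).2
        obtain ⟨j, hj1, hj2⟩ := ht g hg'
        rw [Finset.mem_coe, hZ, Finset.mem_filter, Finset.mem_Icc]
        refine ⟨?_, hj2⟩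
        rw [hj1, hCl]
        exact hτ _
      · intro g hg g' hg' hgg
        have h7 := (Finset.mem_filter.1 (Finset.mem_coe.1 hg)).2
        have h8 := (Finset.mem_filter.1 (Finset.mem_coe.1 hg')).2
        obtain ⟨j, hj1, -⟩ := ht g h7
        obtain ⟨j', hj1', -⟩ := ht g' h8
        rw [hj1, hj1'] at hgg
        have h9 := (hinj _ _ _ _ hgg).1
        exact Fin.castAdd_injective _ _ h9
    have hroot : ∀ r : Fin m, ∃ l, ((n : ℤ) + c₀ l).toNat.Prime ∧
        Nat.primeCounting ((n : ℤ) + c₀ l).toNat ≡ r [MOD m] := by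
      intro r
      obtain ⟨t, ht1, ht2⟩ := idx_res n lo hi Z hZ m hm hZm r
      rw [hZ, Finset.mem_filter] at ht1
      have h1 : t ∈ univ.image (fun l => c₀ (τ l)) := by
        by_contra h
        exact hn3 t (by rw [hG, Finset.mem_sdiff]; exact ⟨ht1.1, h⟩) ht1.2
      obtain ⟨l, -, hl⟩ := Finset.mem_image.1 h1
      refine ⟨τ l, ?_, ?_⟩
      · rw [hl]
        exact ht1.2
      · rw [hl]
        exact ht2
    choose t ht using hroot
    have hp2 : ∀ i : Fin k, ∃ l, P2 ((x : ℝ) ^ (1 / 7 : ℝ)) (n + c i l) := by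
      intro i
      obtain ⟨j, hj⟩ := hn2 (Fin.natAdd T₁ i)
      rw [hCr] at hj
      exact ⟨s i j, hj⟩
    choose j hj using hp2
    exact ⟨(t, j), ht, hj⟩
  by_contra hcon
  push Not at hcon
  obtain ⟨F, hF⟩ : ∃ F : (Fin m → Fin ((k + 1) * (T₁ * K))) × (Fin k → Fin ((k + 1) * (T₁ * K))) →
      Finset ℕ, F = fun tj => E.filter (fun n : ℕ => (∀ r : Fin m,
        ((n : ℤ) + c₀ (tj.1 r)).toNat.Prime ∧
        Nat.primeCounting ((n : ℤ) + c₀ (tj.1 r)).toNat ≡ r [MOD m]) ∧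
      ∀ i, P2 ((x : ℝ) ^ (1 / 7 : ℝ)) (n + c i (tj.2 i))) := ⟨_, rfl⟩
  have h1 : E ⊆ univ.biUnion F := by
    intro n hn
    obtain ⟨tj, htj⟩ := key n hn
    rw [Finset.mem_biUnion]
    refine ⟨tj, Finset.mem_univ _, ?_⟩
    rw [hF, Finset.mem_filter]
    exact ⟨hn, htj⟩
  have h2 : (E.card : ℝ) ≤ ∑ tj, ((F tj).card : ℝ) := by
    exact_mod_cast (Finset.card_le_card h1).trans Finset.card_biUnion_le
  have h3 : ∀ tj, ((F tj).card : ℝ) ≤ (x : ℝ) ^ (1 - η) := by
    intro tj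
    obtain ⟨r, hr⟩ := hcon tj.1 tj.2
    refine le_trans ?_ hr.le
    rw [Nat.cast_le]
    apply Finset.card_le_card
    intro n hn
    rw [hF, Finset.mem_filter, hE, Finset.mem_filter] at hn
    rw [Finset.mem_filter]
    exact ⟨hn.1.1, (hn.2.1 r).1, (hn.2.1 r).2, hn.2.2⟩
  have h4 := h2.trans (Finset.sum_le_sum fun tj (_ : tj ∈ univ) => h3 tj)
  rw [Finset.sum_const, nsmul_eq_mul, Finset.card_univ] at h4
  have h5 : ((Fintype.card ((Fin m → Fin ((k + 1) * (T₁ * K))) ×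
      (Fin k → Fin ((k + 1) * (T₁ * K)))) : ℝ) + 1) * (x : ℝ) ^ (1 - η) =
      (Fintype.card ((Fin m → Fin ((k + 1) * (T₁ * K))) ×
      (Fin k → Fin ((k + 1) * (T₁ * K)))) : ℝ) * (x : ℝ) ^ (1 - η) + (x : ℝ) ^ (1 - η) := by ring
  linarith

end Pool.Agent.L7h32.CT
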