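import Mathlib
import Pool.Agent.L7h32.CT.IdxC

/-! Almost all vectors of shifts, with the index of the prime modulo `m`. -/

set_option autoImplicit false

namespace Pool.Agent.L7h32.CT

open Finset Filter Topology
open Pool.Agent.H410R2 (WW)

theorem cntI_mod (m r : ℕ) {k : ℕ} (b : ℤ) (a : Fin k → ℤ) (x : ℕ) :
    cntI m (r % m) b a x = cntI m r b a x := by
  classical
  unfold cntI
  congr 1
  apply Finset.filter_congr
  intro n _
  have h1 : r % m ≡ r [MOD m] := Nat.mod_modEq r m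
  constructor
  · rintro ⟨h2, h3, h4⟩
    exact ⟨h2, h3.trans h1, h4⟩
  · rintro ⟨h2, h3, h4⟩
    exact ⟨h2, h3.trans h1.symm, h4⟩

open Classical in
/-- **Chen's theorem for almost all tuples with the index of the prime in every residue class.** -/
theorem mainI (k m : ℕ) (hm : 1 ≤ m) (ε η : ℝ) (hε : 0 < ε) (hη : 0 < η) : ∃ K₀ : ℕ,
    ∀ A : Fin (k + 1) → Finset ℤ, (∀ i, K₀ ≤ (A i).card) → ∃ x₀ : ℕ, ∀ x : ℕ, x₀ ≤ x →
    (((Fintype.piFinset A).filter (fun a : Fin (k + 1) → ℤ =>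
      (∀ p : ℕ, p.Prime → ∃ n : ℤ, ∀ i, ¬ (p : ℤ) ∣ n + a i) ∧
      ∃ r : ℕ, (cntI m r (a 0) (fun i => a (Fin.succ i)) x : ℝ) < (x : ℝ) ^ (1 - η))).card : ℝ) ≤
      ε * ∏ i, ((A i).card : ℝ) := by
  obtain ⟨L, hL, D, H⟩ := boxI k m hm
  have hWW : 0 < WW D := WW_pos D
  obtain ⟨K₀, hK₀⟩ := boxes (k + 1) L (WW D) ∅ hL hWW (ε / 2 ^ m) (by positivity)
  refine ⟨K₀, fun A hA => ?_⟩
  -- the boxes
  have key : ∀ᶠ x : ℕ in atTop, ∀ C ∈ Fintype.piFinset (fun i : Fin (k + 1) =>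
      Fintype.piFinset (fun _ : Fin L => A i)),
      (∀ i j i' j', C i j = C i' j' → i = i' ∧ j = j') →
      (∃ v : ℤ, ∀ i j, IsCoprime (v + C i j) ((WW D : ℕ) : ℤ)) →
      ∃ (t : Fin m → Fin L) (j : Fin k → Fin L), ∀ r : Fin m, (x : ℝ) ^ (1 - η) ≤
        (cntI m r (C 0 (t r)) (fun i => C (Fin.succ i) (j i)) x : ℝ) := by
    rw [Filter.eventually_all_finset]
    intro C _
    by_cases hC : (∀ i j i' j', C i j = C i' j' → i = i' ∧ j = j') ∧
      (∃ v : ℤ, ∀ i j, IsCoprime (v + C i j) ((WW D : ℕ) : ℤ))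
    · obtain ⟨hCi, v, hvC⟩ := hC
      filter_upwards [H (C 0) (fun i => C (Fin.succ i)) (fun j j' h => (hCi _ _ _ _ h).2)
        (fun i j i' j' h => by
          obtain ⟨h1, h2⟩ := hCi _ _ _ _ h
          exact ⟨Fin.succ_injective _ h1, h2⟩)
        (fun l i j h => by
          have h1 := (hCi _ _ _ _ h).1
          exact (Fin.succ_ne_zero i).symm h1) v (fun l => hvC 0 l) (fun i j => hvC _ j) η hη]
        with x hx _ _
      exact hx
    · exact Filter.Eventually.of_forall fun x h1 h2 => absurd ⟨h1, h2⟩ hC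
  obtain ⟨x₀, hx₀⟩ := Filter.eventually_atTop.1 key
  refine ⟨x₀, fun x hx => ?_⟩
  by_contra hcon
  push Not at hcon
  obtain ⟨B, hB⟩ : ∃ B : Finset (Fin (k + 1) → ℤ), B = (Fintype.piFinset A).filter
      (fun a : Fin (k + 1) → ℤ => (∀ p : ℕ, p.Prime → ∃ n : ℤ, ∀ i, ¬ (p : ℤ) ∣ n + a i) ∧
      ∃ r : ℕ, (cntI m r (a 0) (fun i => a (Fin.succ i)) x : ℝ) < (x : ℝ) ^ (1 - η)) := ⟨_, rfl⟩
  rw [← hB] at hcon
  obtain ⟨Rs, hRs⟩ : ∃ Rs : (Fin (k + 1) → ℤ) → Finset (Fin m), Rs = fun a =>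
      univ.filter (fun r : Fin m => (x : ℝ) ^ (1 - η) ≤
        (cntI m r (a 0) (fun i => a (Fin.succ i)) x : ℝ)) := ⟨_, rfl⟩
  obtain ⟨R, hR⟩ : ∃ R : Finset (Fin m), ε / 2 ^ m * ∏ i, ((A i).card : ℝ) ≤
      ((B.filter (fun a => Rs a = R)).card : ℝ) := by
    by_contra h
    push Not at h
    have h1 := Finset.card_eq_sum_card_fiberwise (f := Rs) (s := B)
      (t := (univ : Finset (Finset (Fin m)))) (fun a _ => Finset.mem_coe.2 (Finset.mem_univ _))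
    have h2 : (B.card : ℝ) = ∑ R : Finset (Fin m), ((B.filter (fun a => Rs a = R)).card : ℝ) := by
      rw [h1]
      push_cast
      rfl
    have h3 : ∑ R : Finset (Fin m), ((B.filter (fun a => Rs a = R)).card : ℝ) ≤
        ∑ _R : Finset (Fin m), (ε / 2 ^ m * ∏ i, ((A i).card : ℝ)) :=
      Finset.sum_le_sum fun R _ => (h R).le
    rw [Finset.sum_const, nsmul_eq_mul, Finset.card_univ, Fintype.card_finset, Fintype.card_fin] at h3
    have h4 : ((2 ^ m : ℕ) : ℝ) * (ε / 2 ^ m * ∏ i, ((A i).card : ℝ)) =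
        ε * ∏ i, ((A i).card : ℝ) := by
      push_cast
      field_simp
    rw [h4, ← h2] at h3
    linarith
  obtain ⟨C, hC1, hC2, hC3, hC4, hC5⟩ := hK₀ A hA _ ((Finset.filter_subset _ _).trans (by
    rw [hB]
    exact Finset.filter_subset _ _)) hR
  have hmem : C ∈ Fintype.piFinset (fun i : Fin (k + 1) =>
      Fintype.piFinset (fun _ : Fin L => A i)) := by
    rw [Fintype.mem_piFinset]
    intro i
    rw [Fintype.mem_piFinset]
    exact hC1 i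
  have hBm : ∀ c : Fin (k + 1) → Fin L, (fun i => C i (c i)) ∈ B ∧ Rs (fun i => C i (c i)) = R :=
    fun c => Finset.mem_filter.1 (hC5 c)
  have hadm : ∀ p : ℕ, p.Prime → ∃ n : ℤ, ∀ i, ¬ (p : ℤ) ∣ n + C i ⟨0, hL⟩ := by
    have h1 := (hBm (fun _ => ⟨0, hL⟩)).1
    rw [hB, Finset.mem_filter] at h1
    exact h1.2.1
  obtain ⟨v, hv⟩ := crt D (fun i : Fin (k + 1) => C i ⟨0, hL⟩) hadm
  obtain ⟨t, j, htj⟩ := hx₀ x hx C hmem hC3 ⟨v, fun i j => by
    apply cop_of_dvd (hv i)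
    have h1 : v + C i j - (v + C i ⟨0, hL⟩) = C i j - C i ⟨0, hL⟩ := by ring
    rw [h1]
    exact hC4 i j _⟩
  obtain ⟨c, hc⟩ : ∃ c : Fin m → Fin (k + 1) → Fin L, c = fun r => Fin.cons (t r) j := ⟨_, rfl⟩
  have hc0 : ∀ r, c r 0 = t r := by
    intro r
    rw [hc]
    exact Fin.cons_zero _ _
  have hcs : ∀ r i, c r (Fin.succ i) = j i := by
    intro r i
    rw [hc]
    exact Fin.cons_succ _ _ _
  have hall : ∀ r : Fin m, r ∈ R := by
    intro r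
    rw [← (hBm (c r)).2, hRs, Finset.mem_filter]
    refine ⟨Finset.mem_univ _, ?_⟩
    have h1 := htj r
    simp only [hc0, hcs]
    exact h1
  -- a contradiction
  obtain ⟨r₀, hr₀⟩ : ∃ r₀ : Fin m, r₀ = ⟨0, hm⟩ := ⟨_, rfl⟩
  have h1 := (hBm (c r₀)).1
  rw [hB, Finset.mem_filter] at h1
  obtain ⟨r, hr⟩ := h1.2.2
  have h2 := hall ⟨r % m, Nat.mod_lt _ hm⟩
  rw [← (hBm (c r₀)).2, hRs, Finset.mem_filter] at h2
  have h3 := h2.2
  have h4 : ((⟨r % m, Nat.mod_lt _ hm⟩ : Fin m) : ℕ) = r % m := rfl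
  rw [h4, cntI_mod] at h3
  linarith

end Pool.Agent.L7h32.CT
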