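import Mathlib
import Pool.Agent.L7h32.CT.LemU
import Pool.Agent.H330.Ramsey

/-! Infinite sets of shifts all of whose subsets of bounded size are good. -/

set_option autoImplicit false

namespace Pool.Agent.L7h32.CT

open Finset Filter Topology
open Pool.Agent.H410R2 (WW)

/-- a nested choice -/
theorem diag {X : Type} (P : ℕ → Set X → Prop) (hP : ∀ m S S', S' ⊆ S → P m S → P m S')
    (A : Set X) (hA : A.Infinite)
    (hstep : ∀ m (S : Set X), S.Infinite → S ⊆ A → ∃ S' ⊆ S, S'.Infinite ∧ P m S') :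
    ∃ b : ℕ → X, Function.Injective b ∧ (∀ i, b i ∈ A) ∧ ∀ m, P m {y | ∃ i, m ≤ i ∧ b i = y} := by
  classical
  have h1 : ∀ S : {S : Set X // S.Infinite ∧ S ⊆ A}, ∃ y, y ∈ S.1 := fun S => S.2.1.nonempty
  choose pk hpk using h1
  have h2 : ∀ (m : ℕ) (S : {S : Set X // S.Infinite ∧ S ⊆ A}),
      ∃ S' : {S : Set X // S.Infinite ∧ S ⊆ A}, S'.1 ⊆ S.1 \ {pk S} ∧ P m S'.1 := by
    intro m S
    have h3 : (S.1 \ {pk S}).Infinite := S.2.1.diff (Set.finite_singleton _)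
    obtain ⟨S', hS', hS'i, hS'P⟩ := hstep m (S.1 \ {pk S}) h3 (Set.diff_subset.trans S.2.2)
    exact ⟨⟨S', hS'i, (hS'.trans Set.diff_subset).trans S.2.2⟩, hS', hS'P⟩
  choose nx hnx1 hnx2 using h2
  obtain ⟨T, hT0, hTs⟩ : ∃ T : ℕ → {S : Set X // S.Infinite ∧ S ⊆ A}, T 0 = ⟨A, hA, subset_rfl⟩ ∧
      ∀ m, T (m + 1) = nx m (T m) := ⟨fun m => Nat.rec ⟨A, hA, subset_rfl⟩ (fun m S => nx m S) m,
        rfl, fun m => rfl⟩
  have hsub : ∀ m, (T (m + 1)).1 ⊆ (T m).1 \ {pk (T m)} := by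
    intro m
    rw [hTs]
    exact hnx1 m _
  have hanti : Antitone (fun m => (T m).1) := antitone_nat_of_succ_le (fun m =>
    (hsub m).trans Set.diff_subset)
  refine ⟨fun m => pk (T (m + 1)), ?_, ?_, ?_⟩
  · have hne : ∀ i j, i < j → pk (T (i + 1)) ≠ pk (T (j + 1)) := by
      intro i j hij h
      have h3 : pk (T (j + 1)) ∈ (T (i + 1 + 1)).1 :=
        hanti (show i + 1 + 1 ≤ j + 1 by omega) (hpk _)
      have h4 := (hsub (i + 1)) h3
      exact h4.2 (Set.mem_singleton_iff.2 h.symm)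
    intro i j h
    rcases lt_trichotomy i j with h3 | h3 | h3
    · exact absurd h (hne i j h3)
    · exact h3
    · exact absurd h.symm (hne j i h3)
  · intro i
    exact (T (i + 1)).2.2 (hpk _)
  · intro m
    have h3 : P m (T (m + 1)).1 := by
      rw [hTs]
      exact hnx2 m _
    refine hP m _ _ ?_ h3
    rintro y ⟨i, hi, rfl⟩
    exact hanti (show m + 1 ≤ i + 1 by omega) (hpk _)

open Classical in
/-- the number of the `n` for one root and a finite set of shifts -/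
noncomputable def cntF (F : Finset ℤ) (b : ℤ) (x : ℕ) : ℕ :=
  ((Icc 1 x).filter (fun n : ℕ => ((n : ℤ) + b).toNat.Prime ∧
    ∀ a ∈ F, P2 ((x : ℝ) ^ (1 / 7 : ℝ)) (n + a))).card

theorem cntF_mono {F F' : Finset ℤ} (h : F ⊆ F') (b : ℤ) (x : ℕ) : cntF F' b x ≤ cntF F b x := by
  classical
  unfold cntF
  apply Finset.card_le_card
  intro n hn
  rw [Finset.mem_filter] at hn ⊢
  exact ⟨hn.1, hn.2.1, fun a ha => hn.2.2 a (h ha)⟩

/-- all subsets with at most `k` elements are good -/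
def GoodS (k : ℕ) (S : Set ℤ) : Prop := ∀ F : Finset ℤ, (F : Set ℤ) ⊆ S → F.card ≤ k → ∀ b ∈ F,
  ∀ η : ℝ, 0 < η → ∃ᶠ x : ℕ in atTop, (x : ℝ) ^ (1 - η) ≤ (cntF F b x : ℝ)

/-- a good root -/
def GR (F : Finset ℤ) (b : ℤ) : Prop :=
  ∀ η : ℝ, 0 < η → ∃ᶠ x : ℕ in atTop, (x : ℝ) ^ (1 - η) ≤ (cntF F b x : ℝ)

theorem GR_mono {F F' : Finset ℤ} (h : F ⊆ F') (b : ℤ) (hG : GR F' b) : GR F b := by
  intro η hη
  refine (hG η hη).mono fun x hx => hx.trans ?_
  exact_mod_cast cntF_mono h b x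

open Classical in
theorem box_root (k : ℕ) (i₀ : Fin k) {K D : ℕ} (hK : 1 ≤ K)
    (H : ∀ (C : Fin k → Fin K → ℤ), (∀ i j i' j', C i j = C i' j' → i = i' ∧ j = j') → ∀ v : ℤ,
    (∀ i j, IsCoprime (v + C i j) ((WW D : ℕ) : ℤ)) → ∀ η : ℝ, 0 < η → ∀ᶠ x : ℕ in atTop,
    (∀ i₀ : Fin k, ∀ j₀ : Fin K, ∃ c : Fin k → Fin K, c i₀ = j₀ ∧ (x : ℝ) ^ (1 - η) ≤
      (((Icc 1 x).filter (fun n : ℕ => ((n : ℤ) + C i₀ j₀).toNat.Prime ∧
        ∀ i, P2 ((x : ℝ) ^ (1 / 7 : ℝ)) (n + C i (c i)))).card : ℝ)))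
    (C : Fin k → Fin K → ℤ) (hC : ∀ i j i' j', C i j = C i' j' → i = i' ∧ j = j') (v : ℤ)
    (hv : ∀ i j, IsCoprime (v + C i j) ((WW D : ℕ) : ℤ)) :
    ∃ c : Fin k → Fin K, GR (univ.image (fun i => C i (c i))) (C i₀ (c i₀)) := by
  have h1 : ∀ m : ℕ, ∃ c : Fin k → Fin K, ∃ᶠ x : ℕ in atTop,
      (x : ℝ) ^ (1 - 1 / ((m : ℝ) + 1)) ≤
        (cntF (univ.image (fun i => C i (c i))) (C i₀ (c i₀)) x : ℝ) := by
    intro m
    by_contra hcon
    push Not at hcon
    have h2 : ∀ᶠ x : ℕ in atTop, ∀ c : Fin k → Fin K,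
        (cntF (univ.image (fun i => C i (c i))) (C i₀ (c i₀)) x : ℝ) <
          (x : ℝ) ^ (1 - 1 / ((m : ℝ) + 1)) := by
      rw [Filter.eventually_all]
      intro c
      have h3 := hcon c
      filter_upwards [h3] with x hx
      exact hx
    have h4 := H C hC v hv (1 / ((m : ℝ) + 1)) (by positivity)
    obtain ⟨x, hx1, hx2⟩ := (h2.and h4).exists
    obtain ⟨c, hc1, hc2⟩ := hx2 i₀ ⟨0, hK⟩
    have h5 := hx1 c
    rw [← hc1] at hc2
    have h6 : (((Icc 1 x).filter (fun n : ℕ => ((n : ℤ) + C i₀ (c i₀)).toNat.Prime ∧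
        ∀ i, P2 ((x : ℝ) ^ (1 / 7 : ℝ)) (n + C i (c i)))).card) =
        cntF (univ.image (fun i => C i (c i))) (C i₀ (c i₀)) x := by
      unfold cntF
      congr 1
      apply Finset.filter_congr
      intro n _
      simp
    rw [h6] at hc2
    linarith
  choose c hc using h1
  obtain ⟨c₀, hc₀⟩ := Finite.exists_infinite_fiber c
  refine ⟨c₀, ?_⟩
  intro η hη
  obtain ⟨m₀, hm₀⟩ := exists_nat_gt (1 / η)
  have h3 : (c ⁻¹' {c₀}).Infinite := Set.infinite_coe_iff.1 hc₀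
  obtain ⟨m, hm, hm2⟩ := h3.exists_gt m₀
  have h4 : c m = c₀ := hm
  have h5 := hc m
  rw [h4] at h5
  have h6 : 1 / ((m : ℝ) + 1) ≤ η := by
    have h7 : (m₀ : ℝ) < m := by exact_mod_cast hm2
    have h8 : 1 / η ≤ (m : ℝ) + 1 := by linarith
    rw [div_le_iff₀ (by positivity)]
    rw [div_le_iff₀ hη] at h8
    linarith
  refine (h5.and_eventually (eventually_ge_atTop 1)).mono fun x hx => ?_
  refine le_trans ?_ hx.1
  apply Real.rpow_le_rpow_of_exponent_le
  · exact_mod_cast hx.2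
  · linarith

open Classical in
theorem ram_step (k : ℕ) (S : Set ℤ) (hS : S.Infinite)
    (hadm : ∀ D : ℕ, ∃ v : ℤ, ∀ a ∈ S, IsCoprime (v + a) ((WW D : ℕ) : ℤ)) :
    ∃ S' ⊆ S, S'.Infinite ∧ GoodS k S' := by
  rcases Nat.eq_zero_or_pos k with hk | hk
  · refine ⟨S, subset_rfl, hS, ?_⟩
    intro F _ hF b hb
    rw [hk] at hF
    have : F = ∅ := Finset.card_eq_zero.1 (by omega)
    rw [this] at hb
    exact absurd hb (Finset.notMem_empty b)
  obtain ⟨K, hK, D, H⟩ := lemU k 0 hk (by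
    have : (0 : ℝ) < k := by exact_mod_cast hk
    push_cast
    linarith)
  obtain ⟨v, hv⟩ := hadm D
  haveI : Infinite S := Set.infinite_coe_iff.2 hS
  obtain ⟨ov, hov⟩ : ∃ ov : Finset S → Finset ℤ, ov = fun s => s.map (Function.Embedding.subtype _) :=
    ⟨_, rfl⟩
  have hcard : ∀ s, (ov s).card = s.card := by
    intro s
    rw [hov]
    exact Finset.card_map _
  obtain ⟨f, hf⟩ : ∃ f : Finset S → (Fin k → Prop), f = fun s i =>
      ∃ h : (ov s).card = k, GR (ov s) ((ov s).orderEmbOfFin h i) := ⟨_, rfl⟩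
  obtain ⟨Hs, c, hHi, hHc⟩ := Pool.Agent.H330.infinite_ramsey k f
  have hval : Function.Injective (Subtype.val : S → ℤ) := Subtype.val_injective
  obtain ⟨S', hS'⟩ : ∃ S' : Set ℤ, S' = Subtype.val '' Hs := ⟨_, rfl⟩
  have hS'i : S'.Infinite := by
    rw [hS']
    exact hHi.image hval.injOn
  have hS'S : S' ⊆ S := by
    rw [hS']
    rintro _ ⟨a, -, rfl⟩
    exact a.2
  -- finite subsets of `S'` come from `Hs`
  have hlift : ∀ F : Finset ℤ, (F : Set ℤ) ⊆ S' → ∃ s : Finset S, ov s = F ∧ (s : Set S) ⊆ Hs := by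
    intro F hF
    refine ⟨F.subtype (fun a => a ∈ S), ?_, ?_⟩
    · rw [hov]
      ext a
      simp only [Finset.mem_map, Finset.mem_subtype, Function.Embedding.coe_subtype]
      constructor
      · rintro ⟨b, hb, rfl⟩
        exact hb
      · intro ha
        exact ⟨⟨a, hS'S (hF ha)⟩, ha, rfl⟩
    · intro a ha
      have h1 : (a : ℤ) ∈ F := by
        have := Finset.mem_coe.1 ha
        simpa using this
      have h2 := hF (Finset.mem_coe.2 h1)
      rw [hS'] at h2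
      obtain ⟨b, hb, hba⟩ := h2
      have h3 : b = a := hval hba
      rwa [← h3]
  -- the colour
  have hc : ∀ i, c i := by
    intro i₀
    obtain ⟨Q, hQ1, hQ2⟩ := hS'i.exists_subset_card_eq (k * K)
    obtain ⟨C, hCd⟩ : ∃ C : Fin k → Fin K → ℤ, C = fun i j =>
      Q.orderEmbOfFin hQ2 (finProdFinEquiv (i, j)) := ⟨_, rfl⟩
    have hmem : ∀ i j, C i j ∈ S' := by
      intro i j
      rw [hCd]
      exact hQ1 (Finset.mem_coe.2 (Finset.orderEmbOfFin_mem _ _ _))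
    have hCi : ∀ i j i' j', C i j = C i' j' → i = i' ∧ j = j' := by
      intro i j i' j' h
      rw [hCd] at h
      have h1 := (Q.orderEmbOfFin hQ2).injective h
      have h2 := finProdFinEquiv.injective h1
      exact Prod.mk.inj h2
    have hlt : ∀ i j i' j', i < i' → C i j < C i' j' := by
      intro i j i' j' h
      rw [hCd]
      apply (Q.orderEmbOfFin hQ2).strictMono
      rw [Fin.lt_def]
      simp only [finProdFinEquiv_apply_val]
      have h1 : (i : ℕ) + 1 ≤ i' := h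
      have h2 := j.2
      have h3 : K * ((i : ℕ) + 1) ≤ K * i' := Nat.mul_le_mul_left _ h1
      have h4 : K * ((i : ℕ) + 1) = K * i + K := by ring
      omega
    obtain ⟨cc, hcc⟩ := box_root k i₀ hK (fun C hC v hv η hη => (H C hC v hv η hη).mono
      fun x hx => hx.1) C hCi v (fun i j => hv _ (hS'S (hmem i j)))
    obtain ⟨F, hF⟩ : ∃ F : Finset ℤ, F = univ.image (fun i => C i (cc i)) := ⟨_, rfl⟩
    rw [← hF] at hcc
    have hmono : StrictMono (fun i => C i (cc i)) := fun i i' h => hlt i _ i' _ h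
    have hFc : F.card = k := by
      rw [hF, Finset.card_image_of_injective _ hmono.injective, Finset.card_univ, Fintype.card_fin]
    have hFS : (F : Set ℤ) ⊆ S' := by
      intro a ha
      rw [hF] at ha
      obtain ⟨i, -, rfl⟩ := Finset.mem_image.1 (Finset.mem_coe.1 ha)
      exact hmem _ _
    obtain ⟨s, hs1, hs2⟩ := hlift F hFS
    have h3 : s.card = k := by rw [← hcard, hs1, hFc]
    have h4 := congrFun (hHc s h3 hs2) i₀
    rw [← h4, hf]
    show ∃ h : (ov s).card = k, GR (ov s) ((ov s).orderEmbOfFin h i₀)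
    rw [hs1]
    refine ⟨hFc, ?_⟩
    have h5 := Finset.orderEmbOfFin_unique hFc (f := fun i => C i (cc i)) (fun i => by
      rw [hF]
      exact Finset.mem_image_of_mem _ (Finset.mem_univ i)) hmono
    have h6 := congrFun h5 i₀
    rw [← h6]
    exact hcc
  refine ⟨S', hS'S, hS'i, ?_⟩
  intro F hFS hFk b hb
  -- a larger set
  obtain ⟨G, hG1, hG2⟩ : ∃ G : Finset ℤ, (G : Set ℤ) ⊆ S' \ F ∧ G.card = k - F.card :=
    (hS'i.diff F.finite_toSet).exists_subset_card_eq _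
  have hdisj : Disjoint F G := by
    rw [Finset.disjoint_right]
    intro a ha hF
    exact (hG1 (Finset.mem_coe.2 ha)).2 (Finset.mem_coe.2 hF)
  have hFG : (F ∪ G).card = k := by
    rw [Finset.card_union_of_disjoint hdisj, hG2]
    omega
  obtain ⟨s, hs1, hs2⟩ := hlift (F ∪ G) (by
    rw [Finset.coe_union]
    exact Set.union_subset hFS (hG1.trans Set.diff_subset))
  have h3 : s.card = k := by rw [← hcard, hs1, hFG]
  have hb' : b ∈ F ∪ G := Finset.mem_union_left _ hb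
  have h5 : b ∈ Set.range ((F ∪ G).orderEmbOfFin hFG) := by
    rw [Finset.range_orderEmbOfFin]
    exact Finset.mem_coe.2 hb'
  obtain ⟨i, hi⟩ := h5
  have h4 := congrFun (hHc s h3 hs2) i
  have h6 := hc i
  rw [← h4, hf] at h6
  obtain ⟨h7, h8⟩ : ∃ h : (ov s).card = k, GR (ov s) ((ov s).orderEmbOfFin h i) := h6
  have h9 : GR (F ∪ G) b := by
    rw [← hi]
    simpa only [hs1] using h8
  exact GR_mono Finset.subset_union_left b h9

theorem good_anti {k : ℕ} {S S' : Set ℤ} (h : S' ⊆ S) (hG : GoodS k S) : GoodS k S' :=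
  fun F hF hk b hb => hG F (hF.trans h) hk b hb

/-- an infinite admissible subset -/
theorem adm_sub (A : Set ℤ) (hA : A.Infinite) : ∃ a : ℕ → ℤ, Function.Injective a ∧
    (∀ i, a i ∈ A) ∧ ∀ p : ℕ, p.Prime → ∃ n : ℤ, ∀ i, ¬ (p : ℤ) ∣ n + a i := by
  classical
  obtain ⟨a, ha1, ha2, ha3⟩ := diag (fun m S => ∀ y ∈ S, ∀ z ∈ S, ((m + 2 : ℕ) : ℤ) ∣ y - z)
    (fun m S S' h hS y hy z hz => hS y (h hy) z (h hz)) A hA (by
    intro m S hS _
    haveI : Infinite S := Set.infinite_coe_iff.2 hS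
    obtain ⟨r, hr⟩ := Finite.exists_infinite_fiber (fun y : S => ((y : ℤ) : ZMod (m + 2)))
    refine ⟨Subtype.val '' ((fun y : S => ((y : ℤ) : ZMod (m + 2))) ⁻¹' {r}), ?_, ?_, ?_⟩
    · rintro _ ⟨y, -, rfl⟩
      exact y.2
    · exact (Set.infinite_coe_iff.1 hr).image Subtype.val_injective.injOn
    · rintro _ ⟨y, hy, rfl⟩ _ ⟨z, hz, rfl⟩
      have h1 : ((y : ℤ) : ZMod (m + 2)) = ((z : ℤ) : ZMod (m + 2)) := by
        have h2 : ((y : ℤ) : ZMod (m + 2)) = r := hy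
        have h3 : ((z : ℤ) : ZMod (m + 2)) = r := hz
        rw [h2, h3]
      have h4 := (ZMod.intCast_eq_intCast_iff_dvd_sub (z : ℤ) (y : ℤ) (m + 2)).1 h1.symm
      exact_mod_cast h4)
  refine ⟨a, ha1, ha2, ?_⟩
  intro p hp
  haveI : Fact p.Prime := ⟨hp⟩
  obtain ⟨m, hm⟩ : ∃ m, p = m + 2 := ⟨p - 2, by have := hp.two_le; omega⟩
  -- the bad residues
  obtain ⟨n, hn⟩ : ∃ n : ZMod p, n ∉ (range (m + 1)).image (fun i => -((a i : ℤ) : ZMod p)) := by
    by_contra hcon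
    push Not at hcon
    have h1 : (univ : Finset (ZMod p)).card ≤
        ((range (m + 1)).image (fun i => -((a i : ℤ) : ZMod p))).card :=
      Finset.card_le_card fun n _ => hcon n
    have h2 := Finset.card_image_le (s := range (m + 1)) (f := fun i => -((a i : ℤ) : ZMod p))
    rw [Finset.card_univ, ZMod.card] at h1
    rw [Finset.card_range] at h2
    omega
  refine ⟨(n.val : ℤ), ?_⟩
  intro i hi
  have h1 : (((n.val : ℤ) + a i : ℤ) : ZMod p) = 0 := (ZMod.intCast_zmod_eq_zero_iff_dvd _ _).2 hi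
  push_cast at h1
  rw [ZMod.natCast_val, ZMod.cast_id] at h1
  apply hn
  rcases Nat.lt_or_ge i (m + 1) with h2 | h2
  · rw [Finset.mem_image]
    exact ⟨i, Finset.mem_range.2 h2, by linear_combination -h1⟩
  · rw [Finset.mem_image]
    refine ⟨m, Finset.mem_range.2 (by omega), ?_⟩
    have h3 : ((m + 2 : ℕ) : ℤ) ∣ a i - a m := ha3 m (a i) ⟨i, by omega, rfl⟩ (a m) ⟨m, le_rfl, rfl⟩
    rw [← hm] at h3
    have h4 : ((a i - a m : ℤ) : ZMod p) = 0 := (ZMod.intCast_zmod_eq_zero_iff_dvd _ _).2 h3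
    push_cast at h4
    linear_combination -h1 + h4

open Classical in
/-- **Infinite sets of shifts all of whose subsets of bounded size are good.** -/
theorem mainR (A : Set ℤ) (hA : A.Infinite) (ψ : ℕ → ℕ) : ∃ b : ℕ → ℤ, Function.Injective b ∧
    (∀ i, b i ∈ A) ∧ ∀ I : Finset ℕ, (∀ i ∈ I, I.card ≤ ψ i) → ∀ i₀ ∈ I, ∀ η : ℝ, 0 < η →
    ∃ᶠ x : ℕ in atTop, (x : ℝ) ^ (1 - η) ≤
      (((Icc 1 x).filter (fun n : ℕ => ((n : ℤ) + b i₀).toNat.Prime ∧
        ∀ i ∈ I, P2 ((x : ℝ) ^ (1 / 7 : ℝ)) (n + b i))).card : ℝ) := by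
  obtain ⟨a, ha1, ha2, ha3⟩ := adm_sub A hA
  obtain ⟨b, hb1, hb2, hb3⟩ := diag (fun m S => GoodS (ψ m) S) (fun m S S' h hS => good_anti h hS)
    (Set.range a) (Set.infinite_range_of_injective ha1) (by
    intro m S hS hSa
    apply ram_step (ψ m) S hS
    intro D
    obtain ⟨v, hv⟩ := crt D a ha3
    refine ⟨v, fun y hy => ?_⟩
    obtain ⟨i, rfl⟩ := hSa hy
    exact hv i)
  refine ⟨b, hb1, fun i => ?_, ?_⟩
  · obtain ⟨j, hj⟩ := hb2 i
    rw [← hj]
    exact ha2 j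
  · intro I hI i₀ hi₀ η hη
    have hne : I.Nonempty := ⟨i₀, hi₀⟩
    have h1 := hb3 (I.min' hne) (I.image b) (by
      intro y hy
      obtain ⟨i, hi, rfl⟩ := Finset.mem_image.1 (Finset.mem_coe.1 hy)
      exact ⟨i, Finset.min'_le I i hi, rfl⟩)
      (Finset.card_image_le.trans (hI _ (Finset.min'_mem I hne))) (b i₀)
      (Finset.mem_image_of_mem _ hi₀) η hη
    refine h1.mono fun x hx => hx.trans ?_
    apply le_of_eq
    unfold cntF
    congr 2
    apply Finset.filter_congr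
    intro n _
    simp

end Pool.Agent.L7h32.CT
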