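import Mathlib
import Pool.Agent.L7h32.CT.RamC
import Pool.Agent.L7h32.CT.IdxF

/-! Infinite sets of shifts all of whose subsets of bounded size are good, with the index of the prime. -/

set_option autoImplicit false

namespace Pool.Agent.L7h32.CT

open Finset Filter Topology
open Pool.Agent.H410R2 (WW)

open Classical in
/-- the number of the `n` for one root and a finite set of shifts, with the index of the prime modulo `m` -/
noncomputable def cntFI (m r : ℕ) (F : Finset ℤ) (b : ℤ) (x : ℕ) : ℕ :=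
  ((Icc 1 x).filter (fun n : ℕ => ((n : ℤ) + b).toNat.Prime ∧
    Nat.primeCounting ((n : ℤ) + b).toNat ≡ r [MOD m] ∧
    ∀ a ∈ F, a ≠ b → P2 ((x : ℝ) ^ (1 / 7 : ℝ)) (n + a))).card

theorem cntFI_mono {m r : ℕ} {F F' : Finset ℤ} (h : F ⊆ F') (b : ℤ) (x : ℕ) :
    cntFI m r F' b x ≤ cntFI m r F b x := by
  classical
  unfold cntFI
  apply Finset.card_le_card
  intro n hn
  rw [Finset.mem_filter] at hn ⊢
  exact ⟨hn.1, hn.2.1, hn.2.2.1, fun a ha => hn.2.2.2 a (h ha)⟩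

theorem cntFI_dvd {m M r : ℕ} (h : m ∣ M) (F : Finset ℤ) (b : ℤ) (x : ℕ) :
    cntFI M r F b x ≤ cntFI m r F b x := by
  classical
  unfold cntFI
  apply Finset.card_le_card
  intro n hn
  rw [Finset.mem_filter] at hn ⊢
  exact ⟨hn.1, hn.2.1, hn.2.2.1.of_dvd h, hn.2.2.2⟩

theorem cntFI_mod (m r : ℕ) (F : Finset ℤ) (b : ℤ) (x : ℕ) :
    cntFI m (r % m) F b x = cntFI m r F b x := by
  classical
  unfold cntFI
  congr 1
  apply Finset.filter_congr
  intro n _
  have h1 : r % m ≡ r [MOD m] := Nat.mod_modEq r m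
  constructor
  · rintro ⟨h2, h3, h4⟩
    exact ⟨h2, h3.trans h1, h4⟩
  · rintro ⟨h2, h3, h4⟩
    exact ⟨h2, h3.trans h1.symm, h4⟩

/-- a good root -/
def GRI (m r : ℕ) (F : Finset ℤ) (b : ℤ) : Prop :=
  ∀ η : ℝ, 0 < η → ∃ᶠ x : ℕ in atTop, (x : ℝ) ^ (1 - η) ≤ (cntFI m r F b x : ℝ)

theorem GRI_mono {m r : ℕ} {F F' : Finset ℤ} (h : F ⊆ F') (b : ℤ) (hG : GRI m r F' b) :
    GRI m r F b := by
  intro η hη
  refine (hG η hη).mono fun x hx => hx.trans ?_
  exact_mod_cast cntFI_mono h b x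

theorem GRI_dvd {m M r : ℕ} (h : m ∣ M) {F : Finset ℤ} {b : ℤ} (hG : GRI M r F b) :
    GRI m r F b := by
  intro η hη
  refine (hG η hη).mono fun x hx => hx.trans ?_
  exact_mod_cast cntFI_dvd h F b x

theorem GRI_mod {m r : ℕ} {F : Finset ℤ} {b : ℤ} (hG : GRI m (r % m) F b) : GRI m r F b := by
  intro η hη
  refine (hG η hη).mono fun x hx => hx.trans ?_
  rw [cntFI_mod]

/-- all subsets with at most `k` elements are good -/
def GoodI (k m : ℕ) (S : Set ℤ) : Prop := ∀ F : Finset ℤ, (F : Set ℤ) ⊆ S → F.card ≤ k → ∀ b ∈ F,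
  ∀ r : ℕ, GRI m r F b

open Classical in
theorem box_rootI (k m : ℕ) {L D : ℕ}
    (H : ∀ (c₀ : Fin L → ℤ) (c : Fin k → Fin L → ℤ), Function.Injective c₀ →
    (∀ i j i' j', c i j = c i' j' → i = i' ∧ j = j') → (∀ l i j, c₀ l ≠ c i j) → ∀ v₀ : ℤ,
    (∀ l, IsCoprime (v₀ + c₀ l) ((WW D : ℕ) : ℤ)) →
    (∀ i j, IsCoprime (v₀ + c i j) ((WW D : ℕ) : ℤ)) → ∀ η : ℝ, 0 < η → ∀ᶠ x : ℕ in atTop,
    ∃ (t : Fin m → Fin L) (j : Fin k → Fin L), ∀ r : Fin m,
      (x : ℝ) ^ (1 - η) ≤ (cntI m r (c₀ (t r)) (fun i => c i (j i)) x : ℝ))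
    (c₀ : Fin L → ℤ) (c : Fin k → Fin L → ℤ) (hc₀ : Function.Injective c₀)
    (hc : ∀ i j i' j', c i j = c i' j' → i = i' ∧ j = j') (hcc : ∀ l i j, c₀ l ≠ c i j) (v₀ : ℤ)
    (hv₀ : ∀ l, IsCoprime (v₀ + c₀ l) ((WW D : ℕ) : ℤ))
    (hv : ∀ i j, IsCoprime (v₀ + c i j) ((WW D : ℕ) : ℤ)) (r : Fin m) :
    ∃ (t : Fin L) (j : Fin k → Fin L),
      GRI m r (insert (c₀ t) (univ.image (fun i => c i (j i)))) (c₀ t) := by
  have h1 : ∀ n : ℕ, ∃ tj : Fin L × (Fin k → Fin L), ∃ᶠ x : ℕ in atTop,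
      (x : ℝ) ^ (1 - 1 / ((n : ℝ) + 1)) ≤
        (cntI m r (c₀ tj.1) (fun i => c i (tj.2 i)) x : ℝ) := by
    intro n
    by_contra hcon
    push Not at hcon
    have h2 : ∀ᶠ x : ℕ in atTop, ∀ tj : Fin L × (Fin k → Fin L),
        (cntI m r (c₀ tj.1) (fun i => c i (tj.2 i)) x : ℝ) <
          (x : ℝ) ^ (1 - 1 / ((n : ℝ) + 1)) := by
      rw [Filter.eventually_all]
      intro tj
      have h3 := hcon tj
      filter_upwards [h3] with x hx
      exact hx
    have h4 := H c₀ c hc₀ hc hcc v₀ hv₀ hv (1 / ((n : ℝ) + 1)) (by positivity)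
    obtain ⟨x, hx1, t, j, hx2⟩ := (h2.and h4).exists
    have h5 := hx1 (t r, j)
    have h6 := hx2 r
    simp only at h5
    linarith
  choose tj htj using h1
  obtain ⟨tj₀, htj₀⟩ := Finite.exists_infinite_fiber tj
  refine ⟨tj₀.1, tj₀.2, ?_⟩
  intro η hη
  obtain ⟨m₀, hm₀⟩ := exists_nat_gt (1 / η)
  have h3 : (tj ⁻¹' {tj₀}).Infinite := Set.infinite_coe_iff.1 htj₀
  obtain ⟨n, hn, hn2⟩ := h3.exists_gt m₀
  have h4 : tj n = tj₀ := hn
  have h5 := htj n
  rw [h4] at h5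
  have h6 : 1 / ((n : ℝ) + 1) ≤ η := by
    have h7 : (m₀ : ℝ) < n := by exact_mod_cast hn2
    have h8 : 1 / η ≤ (n : ℝ) + 1 := by linarith
    rw [div_le_iff₀ (by positivity)]
    rw [div_le_iff₀ hη] at h8
    linarith
  refine (h5.and_eventually (eventually_ge_atTop 1)).mono fun x hx => ?_
  have h7 : (x : ℝ) ^ (1 - η) ≤ (x : ℝ) ^ (1 - 1 / ((n : ℝ) + 1)) := by
    apply Real.rpow_le_rpow_of_exponent_le
    · exact_mod_cast hx.2
    · linarith
  refine h7.trans (hx.1.trans ?_)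
  rw [Nat.cast_le]
  unfold cntI cntFI
  apply Finset.card_le_card
  intro y hy
  rw [Finset.mem_filter] at hy ⊢
  refine ⟨hy.1, hy.2.1, hy.2.2.1, ?_⟩
  intro a ha hab
  rw [Finset.mem_insert] at ha
  rcases ha with ha | ha
  · exact absurd ha hab
  · obtain ⟨i, -, rfl⟩ := Finset.mem_image.1 ha
    exact hy.2.2.2 i

open Classical in
theorem ram_stepI (k m : ℕ) (hm : 1 ≤ m) (S : Set ℤ) (hS : S.Infinite)
    (hadm : ∀ D : ℕ, ∃ v : ℤ, ∀ a ∈ S, IsCoprime (v + a) ((WW D : ℕ) : ℤ)) :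
    ∃ S' ⊆ S, S'.Infinite ∧ GoodI k m S' := by
  rcases Nat.eq_zero_or_pos k with hk | hk
  · refine ⟨S, subset_rfl, hS, ?_⟩
    intro F _ hF b hb
    rw [hk] at hF
    have : F = ∅ := Finset.card_eq_zero.1 (by omega)
    rw [this] at hb
    exact absurd hb (Finset.notMem_empty b)
  obtain ⟨k, rfl⟩ : ∃ k', k = k' + 1 := ⟨k - 1, by omega⟩
  obtain ⟨L, hL, D, H⟩ := boxI k m hm
  obtain ⟨v, hv⟩ := hadm D
  haveI : Infinite S := Set.infinite_coe_iff.2 hS
  obtain ⟨ov, hov⟩ : ∃ ov : Finset S → Finset ℤ, ov = fun s => s.map (Function.Embedding.subtype _) :=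
    ⟨_, rfl⟩
  have hcard : ∀ s, (ov s).card = s.card := by
    intro s
    rw [hov]
    exact Finset.card_map _
  obtain ⟨f, hf⟩ : ∃ f : Finset S → (Fin (k + 1) → Fin m → Prop), f = fun s i (r : Fin m) =>
      ∃ h : (ov s).card = k + 1, GRI m r (ov s) ((ov s).orderEmbOfFin h i) := ⟨_, rfl⟩
  obtain ⟨Hs, c, hHi, hHc⟩ := Pool.Agent.H330.infinite_ramsey (k + 1) f
  have hval : Function.Injective (Subtype.val : S → ℤ) := Subtype.val_injective
  obtain ⟨S', hS'⟩ : ∃ S' : Set ℤ, S' = Subtype.val '' Hs := ⟨_, rfl⟩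
  have hS'i : S'.Infinite := by
    rw [hS']
    exact hHi.image hval.injOn
  have hS'S : S' ⊆ S := by
    rw [hS']
    rintro _ ⟨a, -, rfl⟩
    exact a.2
  -- finite subsets of `S'` come from `Hs`
  have hlift : ∀ F : Finset ℤ, (F : Set ℤ) ⊆ S' → ∃ s : Finset S, ov s = F ∧ (s : Set S) ⊆ Hs := by
    intro F hF
    refine ⟨F.subtype (fun a => a ∈ S), ?_, ?_⟩
    · rw [hov]
      ext a
      simp only [Finset.mem_map, Finset.mem_subtype, Function.Embedding.coe_subtype]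
      constructor
      · rintro ⟨b, hb, rfl⟩
        exact hb
      · intro ha
        exact ⟨⟨a, hS'S (hF ha)⟩, ha, rfl⟩
    · intro a ha
      have h1 : (a : ℤ) ∈ F := by
        have := Finset.mem_coe.1 ha
        simpa using this
      have h2 := hF (Finset.mem_coe.2 h1)
      rw [hS'] at h2
      obtain ⟨b, hb, hba⟩ := h2
      have h3 : b = a := hval hba
      rwa [← h3]
  -- the colour
  have hc : ∀ i r, c i r := by
    intro i₀ r
    obtain ⟨Q, hQ1, hQ2⟩ := hS'i.exists_subset_card_eq ((k + 1) * L)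
    obtain ⟨C, hCd⟩ : ∃ C : Fin (k + 1) → Fin L → ℤ, C = fun i j =>
      Q.orderEmbOfFin hQ2 (finProdFinEquiv (i, j)) := ⟨_, rfl⟩
    have hmem : ∀ i j, C i j ∈ S' := by
      intro i j
      rw [hCd]
      exact hQ1 (Finset.mem_coe.2 (Finset.orderEmbOfFin_mem _ _ _))
    have hCi : ∀ i j i' j', C i j = C i' j' → i = i' ∧ j = j' := by
      intro i j i' j' h
      rw [hCd] at h
      have h1 := (Q.orderEmbOfFin hQ2).injective h
      have h2 := finProdFinEquiv.injective h1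
      exact Prod.mk.inj h2
    have hlt : ∀ i j i' j', i < i' → C i j < C i' j' := by
      intro i j i' j' h
      rw [hCd]
      apply (Q.orderEmbOfFin hQ2).strictMono
      rw [Fin.lt_def]
      simp only [finProdFinEquiv_apply_val]
      have h1 : (i : ℕ) + 1 ≤ i' := h
      have h2 := j.2
      have h3 : L * ((i : ℕ) + 1) ≤ L * i' := Nat.mul_le_mul_left _ h1
      have h4 : L * ((i : ℕ) + 1) = L * i + L := by ring
      omega
    obtain ⟨t, j, htj⟩ := box_rootI k m H (C i₀) (fun i => C (i₀.succAbove i))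
      (fun j j' h => (hCi _ _ _ _ h).2)
      (fun i j i' j' h => by
        obtain ⟨h1, h2⟩ := hCi _ _ _ _ h
        exact ⟨Fin.succAbove_right_injective h1, h2⟩)
      (fun l i j h => by
        have h1 := (hCi _ _ _ _ h).1
        exact (Fin.succAbove_ne i₀ i).symm h1) v
      (fun l => hv _ (hS'S (hmem _ _))) (fun i j => hv _ (hS'S (hmem _ _))) r
    obtain ⟨cc, hcc⟩ : ∃ cc : Fin (k + 1) → Fin L, cc = i₀.insertNth t j := ⟨_, rfl⟩
    have hcc0 : cc i₀ = t := by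
      rw [hcc]
      exact Fin.insertNth_apply_same _ _ _
    have hccs : ∀ i, cc (i₀.succAbove i) = j i := by
      intro i
      rw [hcc]
      exact Fin.insertNth_apply_succAbove _ _ _ _
    obtain ⟨F, hF⟩ : ∃ F : Finset ℤ, F = univ.image (fun i => C i (cc i)) := ⟨_, rfl⟩
    have hFe : insert (C i₀ t) (univ.image (fun i => C (i₀.succAbove i) (j i))) = F := by
      rw [hF]
      ext a
      simp only [Finset.mem_insert, Finset.mem_image, Finset.mem_univ, true_and]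
      constructor
      · rintro (h | ⟨i, hi⟩)
        · exact ⟨i₀, by rw [hcc0]; exact h.symm⟩
        · exact ⟨i₀.succAbove i, by rw [hccs]; exact hi⟩
      · rintro ⟨i, hi⟩
        rcases Fin.eq_self_or_eq_succAbove i₀ i with h | ⟨i', h⟩
        · left
          rw [h, hcc0] at hi
          exact hi.symm
        · right
          refine ⟨i', ?_⟩
          rw [h, hccs] at hi
          exact hi
    rw [hFe] at htj
    have hmono : StrictMono (fun i => C i (cc i)) := fun i i' h => hlt i _ i' _ h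
    have hFc : F.card = k + 1 := by
      rw [hF, Finset.card_image_of_injective _ hmono.injective, Finset.card_univ, Fintype.card_fin]
    have hFS : (F : Set ℤ) ⊆ S' := by
      intro a ha
      rw [hF] at ha
      obtain ⟨i, -, rfl⟩ := Finset.mem_image.1 (Finset.mem_coe.1 ha)
      exact hmem _ _
    obtain ⟨s, hs1, hs2⟩ := hlift F hFS
    have h3 : s.card = k + 1 := by rw [← hcard, hs1, hFc]
    have h4 := congrFun (congrFun (hHc s h3 hs2) i₀) r
    rw [← h4, hf]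
    show ∃ h : (ov s).card = k + 1, GRI m r (ov s) ((ov s).orderEmbOfFin h i₀)
    rw [hs1]
    refine ⟨hFc, ?_⟩
    have h5 := Finset.orderEmbOfFin_unique hFc (f := fun i => C i (cc i)) (fun i => by
      rw [hF]
      exact Finset.mem_image_of_mem _ (Finset.mem_univ i)) hmono
    have h6 := congrFun h5 i₀
    rw [← h6]
    simp only [hcc0]
    exact htj
  refine ⟨S', hS'S, hS'i, ?_⟩
  intro F hFS hFk b hb r
  -- a larger set
  obtain ⟨G, hG1, hG2⟩ : ∃ G : Finset ℤ, (G : Set ℤ) ⊆ S' \ F ∧ G.card = k + 1 - F.card :=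
    (hS'i.diff F.finite_toSet).exists_subset_card_eq _
  have hdisj : Disjoint F G := by
    rw [Finset.disjoint_right]
    intro a ha hF
    exact (hG1 (Finset.mem_coe.2 ha)).2 (Finset.mem_coe.2 hF)
  have hFG : (F ∪ G).card = k + 1 := by
    rw [Finset.card_union_of_disjoint hdisj, hG2]
    omega
  obtain ⟨s, hs1, hs2⟩ := hlift (F ∪ G) (by
    rw [Finset.coe_union]
    exact Set.union_subset hFS (hG1.trans Set.diff_subset))
  have h3 : s.card = k + 1 := by rw [← hcard, hs1, hFG]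
  have hb' : b ∈ F ∪ G := Finset.mem_union_left _ hb
  have h5 : b ∈ Set.range ((F ∪ G).orderEmbOfFin hFG) := by
    rw [Finset.range_orderEmbOfFin]
    exact Finset.mem_coe.2 hb'
  obtain ⟨i, hi⟩ := h5
  have hm0 : 0 < m := hm
  have h4 := congrFun (congrFun (hHc s h3 hs2) i) ⟨r % m, Nat.mod_lt _ hm0⟩
  have h6 := hc i ⟨r % m, Nat.mod_lt _ hm0⟩
  rw [← h4, hf] at h6
  obtain ⟨h7, h8⟩ : ∃ h : (ov s).card = k + 1,
    GRI m (r % m) (ov s) ((ov s).orderEmbOfFin h i) := h6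
  have h9 : GRI m (r % m) (F ∪ G) b := by
    rw [← hi]
    simpa only [hs1] using h8
  exact GRI_mono Finset.subset_union_left b (GRI_mod h9)

theorem goodI_anti {k m : ℕ} {S S' : Set ℤ} (h : S' ⊆ S) (hG : GoodI k m S) : GoodI k m S' :=
  fun F hF hk b hb => hG F (hF.trans h) hk b hb

open Classical in
/-- **Infinite sets of shifts all of whose subsets of bounded size are good, with indices.** -/
theorem mainRI (A : Set ℤ) (hA : A.Infinite) (ψ : ℕ → ℕ) : ∃ b : ℕ → ℤ, Function.Injective b ∧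
    (∀ i, b i ∈ A) ∧ ∀ I : Finset ℕ, (∀ i ∈ I, I.card ≤ ψ i) → ∀ i₀ ∈ I, ∀ m : ℕ, 1 ≤ m →
    (∀ i ∈ I, m ≤ ψ i) → ∀ r : ℕ, ∀ η : ℝ, 0 < η →
    ∃ᶠ x : ℕ in atTop, (x : ℝ) ^ (1 - η) ≤
      (((Icc 1 x).filter (fun n : ℕ => ((n : ℤ) + b i₀).toNat.Prime ∧
        Nat.primeCounting ((n : ℤ) + b i₀).toNat ≡ r [MOD m] ∧
        ∀ i ∈ I, i ≠ i₀ → P2 ((x : ℝ) ^ (1 / 7 : ℝ)) (n + b i))).card : ℝ) := by
  obtain ⟨a, ha1, ha2, ha3⟩ := adm_sub A hA
  obtain ⟨b, hb1, hb2, hb3⟩ := diag (fun m S => GoodI (ψ m) (ψ m).factorial S)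
    (fun m S S' h hS => goodI_anti h hS)
    (Set.range a) (Set.infinite_range_of_injective ha1) (by
    intro m S hS hSa
    apply ram_stepI (ψ m) (ψ m).factorial (Nat.factorial_pos _) S hS
    intro D
    obtain ⟨v, hv⟩ := crt D a ha3
    refine ⟨v, fun y hy => ?_⟩
    obtain ⟨i, rfl⟩ := hSa hy
    exact hv i)
  refine ⟨b, hb1, fun i => ?_, ?_⟩
  · obtain ⟨j, hj⟩ := hb2 i
    rw [← hj]
    exact ha2 j
  · intro I hI i₀ hi₀ m hm hmI r η hη
    have hne : I.Nonempty := ⟨i₀, hi₀⟩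
    have h1 := hb3 (I.min' hne) (I.image b) (by
      intro y hy
      obtain ⟨i, hi, rfl⟩ := Finset.mem_image.1 (Finset.mem_coe.1 hy)
      exact ⟨i, Finset.min'_le I i hi, rfl⟩)
      (Finset.card_image_le.trans (hI _ (Finset.min'_mem I hne))) (b i₀)
      (Finset.mem_image_of_mem _ hi₀) r
    have h2 := GRI_dvd (Nat.dvd_factorial hm (hmI _ (Finset.min'_mem I hne))) h1
    refine (h2 η hη).mono fun x hx => hx.trans ?_
    rw [Nat.cast_le]
    unfold cntFI
    apply Finset.card_le_card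
    intro n hn
    rw [Finset.mem_filter] at hn ⊢
    refine ⟨hn.1, hn.2.1, hn.2.2.1, ?_⟩
    intro i hi hii
    exact hn.2.2.2 (b i) (Finset.mem_image_of_mem _ hi) (fun h => hii (hb1 h))

end Pool.Agent.L7h32.CT
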